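import Mathlib
import Pool.Agent.Lib.MP_8f66f0_al_FinQ.Pair
import Pool.Agent.Lib.MP_8f66f0_al_FinQ.TwistDefs
import Pool.Agent.Lib.MP_8f66f0_al_Plus.Spec0

/-! Polynomial class cocycles: definitions.

Notation used in all files of this directory. `π : G →* Γ` is a homomorphism of groups (in the
application `G = FreeGroup Γ` and `π = pr Γ`), `kerI S π` is the kernel of `S G → S Γ`, a two-sided
ideal, `(kerI S π) ^ k` its powers. -/

set_option autoImplicit false
set_option linter.unusedSectionVars false

namespace Pool.Agent.Lib.MP_8f66f0_al_Uni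

open Pool.Agent.Lib.MP_8f66f0_al_Dennis Pool.Agent.Lib.MP_8f66f0_al_FinQ
  Pool.Agent.Lib.MP_8f66f0_al_Plus

section defs

variable {G Γ : Type*} [Group G] [Group Γ]

/-- The projection from the free group on the elements of `Γ` to `Γ`. -/
def pr (Γ : Type*) [Group Γ] : FreeGroup Γ →* Γ := FreeGroup.lift id

lemma pr_of (a : Γ) : pr Γ (FreeGroup.of a) = a := FreeGroup.lift_apply_of

lemma pr_surjective (Γ : Type*) [Group Γ] : Function.Surjective (pr Γ) := fun a => ⟨_, pr_of a⟩

/-- The kernel of the homomorphism of group rings. -/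
noncomputable def kerI (S : Type*) [CommRing S] (π : G →* Γ) : Ideal (MonoidAlgebra S G) :=
  RingHom.ker (MonoidAlgebra.mapDomainRingHom S π)

instance (S : Type*) [CommRing S] (π : G →* Γ) : (kerI S π).IsTwoSided :=
  inferInstanceAs (RingHom.ker _).IsTwoSided

/-- All entries of the matrix are in the ideal `K`. -/
def EntIn {E ι : Type*} [Ring E] (K : Ideal E) (Y : Matrix ι ι E) : Prop := ∀ i j, Y i j ∈ K

/-- Functions of degree less than `k` along the kernel of `π`. -/
def DegLT {M : Type*} [AddCommGroup M] (π : G →* Γ) : ℕ → (G → M) → Prop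
  | 0, f => ∀ g, f g = 0
  | k + 1, f => ∀ n ∈ π.ker, DegLT π k (fun g => f (n * g) - f g)

open Classical in
/-- The function `(g, h) ↦ δ(h, gh)` if `π(gh)` is conjugate to `c`, and zero otherwise. -/
noncomputable def psiW {S : Type*} [CommRing S] (π : G →* Γ) (c : Γ) (δ : G → G → S)
    (g h : G) : S :=
  if IsConj c (π (g * h)) then δ h (g * h) else 0

/-- Polynomial class cocycles of degree at most `J` with value `D`. -/
structure IsPoly {S : Type*} [CommRing S] (π : G →* Γ) (c : Γ) (J : ℕ) (δ : G → G → S)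
    (D : S) : Prop where
  coc : ∀ g h x : G, IsConj c (π x) → δ (g * h) x = δ g (h * x * h⁻¹) + δ h x
  diag : ∀ x : G, IsConj c (π x) → δ x x = D
  degL : ∀ h, DegLT π (J + 1) (fun g => psiW π c δ g h)
  degR : ∀ g, DegLT π (J + 1) (fun h => psiW π c δ g h)

/-- Change of coefficients from the integers. -/
noncomputable def baseMat (S : Type*) [CommRing S] {ι : Type*} [Fintype ι] [DecidableEq ι] :
    Matrix ι ι (MonoidAlgebra ℤ G) →+* Matrix ι ι (MonoidAlgebra S G) :=
  (MonoidAlgebra.mapRingHom G (Int.castRingHom S)).mapMatrix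

/-- The image of a matrix over the group ring with coefficients in `S` under a homomorphism of
groups. -/
noncomputable def mapMatS (S : Type*) [CommRing S] {ι : Type*} [Fintype ι] [DecidableEq ι]
    (π : G →* Γ) : Matrix ι ι (MonoidAlgebra S G) →+* Matrix ι ι (MonoidAlgebra S Γ) :=
  (MonoidAlgebra.mapDomainRingHom S π).mapMatrix

end defs

section words

variable {G : Type*} [Group G] {S : Type*} [CommRing S] {ι : Type*} [Fintype ι] [DecidableEq ι]

/-- Elements of the group ring as combinations of words with one letter. -/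
noncomputable def letter (S : Type*) [CommRing S] (G : Type*) :
    MonoidAlgebra S G →+ MonoidAlgebra S (FreeMonoid G) :=
  AddMonoidHom.mk' (MonoidAlgebra.mapDomain FreeMonoid.of) (MonoidAlgebra.mapDomain_add _)

/-- Matrices over the group ring as matrices over the word ring. -/
noncomputable def letM (C : Matrix ι ι (MonoidAlgebra S G)) :
    Matrix ι ι (MonoidAlgebra S (FreeMonoid G)) := C.map (letter S G)

/-- Multiply the letters of a word in pairs. -/
def d0 {G : Type*} [Mul G] : List G → List G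
  | h :: g :: w => (h * g) :: d0 w
  | _ => []

/-- The sum of `F` over all cyclic words of length `2 Q` with letters alternating in `B` and
`A`. -/
noncomputable def wsum (B A : Matrix ι ι (MonoidAlgebra S G)) (Q : ℕ) (F : List G → S) : S :=
  lin (fun w : FreeMonoid G => F w.toList) (Matrix.trace ((letM B * letM A) ^ Q))

/-- A phase modulo `q` on the words of length `Q` in `Γ` with product conjugate to `c`. -/
structure IsPhase {Γ : Type*} [Group Γ] (c : Γ) (Q q : ℕ) (θ : List Γ → ℤ) : Prop where
  nonneg : ∀ x, 0 ≤ θ x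
  lt : ∀ x, θ x < q
  shift : ∀ x : List Γ, x.length = Q → IsConj c x.prod → (q : ℤ) ∣ θ (x.rotate 1) - θ x - 1

open Classical in
/-- The function on words whose sum is the phase invariant. -/
noncomputable def phaseFun {Γ : Type*} [Group Γ] (π : G →* Γ) (c : Γ) (θ : List Γ → ℤ)
    (w : List G) : ℤ :=
  if IsConj c (π (d0 w).prod) ∧ θ ((d0 w).map π) = 0 then θ ((d0 (w.rotate 1)).map π) else 0

end words

/-- The vanishing modulo powers of `p` of the class sums at `c` which comes from a nonzero class
cocycle. -/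
def TauGood {Γ : Type*} [Group Γ] {n : ℕ} (S : Type*) [CommRing S] (p : ℕ)
    (A B : Matrix (Fin n) (Fin n) (MonoidAlgebra ℤ Γ)) (c : Γ) : Prop :=
  ∀ (k : ℕ) (β β' : Γ →* Matrix (Fin k) (Fin k) S) (M : ℕ)
    (Z : ℕ → Matrix (Fin n × Fin k) (Fin n × Fin k) (MonoidAlgebra S Γ)), 0 < M →
    NilMod p (twist β' B * twist β A - 1) →
    (∀ r, (twist β' B * twist β A) ^ (M * p ^ r) = 1 + (p ^ (r + 2)) • Z r) →
    ∀ r, (p : S) ^ (r + 1) ∣ mtr (lin (ind S c)) (Z r)

/-- A representation of the centralizer of `γ` over the field of fractions of `R`, with bounded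
denominators, with an invariant vector `τ` and an invariant covector `lam`, on which `γ` acts by
`1 + d τ lam`. -/
def HasUData (R : Type*) [CommRing R] (K : Type*) [Field K] [Algebra R K] {Γ : Type*} [Group Γ]
    (γ : Γ) : Prop :=
  ∃ (N : ℕ) (ρ : Subgroup.centralizer ({γ} : Set Γ) →* Matrix.GeneralLinearGroup (Fin N) K)
    (τ lam : Fin N → K) (d : K) (r : R), r ≠ 0 ∧ d ≠ 0 ∧ τ ≠ 0 ∧ lam ≠ 0 ∧
    dotProduct lam τ = 0 ∧
    (∀ g, Matrix.mulVec (ρ g : Matrix (Fin N) (Fin N) K) τ = τ) ∧
    (∀ g, Matrix.vecMul lam (ρ g : Matrix (Fin N) (Fin N) K) = lam) ∧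
    (ρ ⟨γ, Subgroup.mem_centralizer_singleton_iff.mpr rfl⟩ : Matrix (Fin N) (Fin N) K) =
      1 + d • Matrix.vecMulVec τ lam ∧
    ∀ g i j, ∃ x : R, algebraMap R K x =
      algebraMap R K r * (ρ g : Matrix (Fin N) (Fin N) K) i j

end Pool.Agent.Lib.MP_8f66f0_al_Uni
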