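import Mathlib
import Pool.Agent.Lib.MP_8f66f0_al_Uni.Defs

/-! Functions of bounded degree along the kernel of `π`. -/

set_option autoImplicit false
set_option linter.unusedSectionVars false

namespace Pool.Agent.Lib.MP_8f66f0_al_Uni

open Pool.Agent.Lib.MP_8f66f0_al_Dennis
open Pool.Agent.Lib.MP_8f66f0_al_FinQ Pool.Agent.Lib.MP_8f66f0_al_Plus

variable {G Γ : Type*} [Group G] [Group Γ] {M : Type*} [AddCommGroup M] {π : G →* Γ}

lemma degLT_zero_iff {f : G → M} : DegLT π 0 f ↔ ∀ g, f g = 0 := Iff.rfl

lemma degLT_succ_iff {k : ℕ} {f : G → M} :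
    DegLT π (k + 1) f ↔ ∀ n ∈ π.ker, DegLT π k (fun g => f (n * g) - f g) := Iff.rfl

lemma DegLT.congr {k : ℕ} {f g : G → M} (hf : DegLT π k f) (h : ∀ x, f x = g x) :
    DegLT π k g := by
  have e : f = g := funext h
  rw [← e]
  exact hf

lemma DegLT.zero {k : ℕ} : DegLT π k (fun _ : G => (0 : M)) := by
  induction k with
  | zero => intro g; rfl
  | succ k ih =>
    intro n _
    exact ih.congr fun x => (sub_self _).symm

lemma DegLT.add {k : ℕ} {f g : G → M} (hf : DegLT π k f) (hg : DegLT π k g) :
    DegLT π k (fun x => f x + g x) := by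
  induction k generalizing f g with
  | zero =>
    intro x
    change f x + g x = 0
    rw [hf x, hg x, add_zero]
  | succ k ih =>
    intro n hn
    exact (ih (hf n hn) (hg n hn)).congr fun x => (add_sub_add_comm _ _ _ _).symm

lemma DegLT.sum {α : Type*} {k : ℕ} (s : Finset α) {f : α → G → M}
    (hf : ∀ a ∈ s, DegLT π k (f a)) : DegLT π k (fun x => ∑ a ∈ s, f a x) := by
  classical
  induction s using Finset.induction_on with
  | empty =>
    simp only [Finset.sum_empty]
    exact DegLT.zero
  | insert a s ha ih =>
    simp only [Finset.sum_insert ha]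
    exact (hf a (Finset.mem_insert_self a s)).add
      (ih fun b hb => hf b (Finset.mem_insert_of_mem hb))

lemma DegLT.succ {k : ℕ} {f : G → M} (hf : DegLT π k f) : DegLT π (k + 1) f := by
  induction k generalizing f with
  | zero =>
    intro n _ x
    change f (n * x) - f x = 0
    rw [hf, hf, sub_zero]
  | succ k ih =>
    intro n hn
    exact ih (hf n hn)

lemma DegLT.mono {k l : ℕ} (hkl : k ≤ l) {f : G → M} (hf : DegLT π k f) : DegLT π l f := by
  induction hkl with
  | refl => exact hf
  | step _ ih => exact ih.succ

/-- Composition with an additive homomorphism. -/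
lemma DegLT.comp_hom {M' : Type*} [AddCommGroup M'] (φ : M →+ M') {k : ℕ} {f : G → M}
    (hf : DegLT π k f) : DegLT π k (fun x => φ (f x)) := by
  induction k generalizing f with
  | zero =>
    intro x
    change φ (f x) = 0
    rw [hf x, map_zero]
  | succ k ih =>
    intro n hn
    exact (ih (hf n hn)).congr fun x => map_sub φ _ _

lemma DegLT.of_comp_injective {M' : Type*} [AddCommGroup M'] (φ : M →+ M')
    (hφ : Function.Injective φ) {k : ℕ} {f : G → M} (hf : DegLT π k (fun x => φ (f x))) :
    DegLT π k f := by
  induction k generalizing f with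
  | zero =>
    intro x
    apply hφ
    rw [map_zero]
    exact hf x
  | succ k ih =>
    intro n hn
    exact ih ((hf n hn).congr fun x => (map_sub φ _ _).symm)

lemma DegLT.neg {k : ℕ} {f : G → M} (hf : DegLT π k f) : DegLT π k (fun x => - f x) :=
  hf.comp_hom (-(AddMonoidHom.id M))

lemma DegLT.sub {k : ℕ} {f g : G → M} (hf : DegLT π k f) (hg : DegLT π k g) :
    DegLT π k (fun x => f x - g x) :=
  (hf.add hg.neg).congr fun _ => (sub_eq_add_neg _ _).symm

/-- Translation on both sides (the kernel is normal). -/
lemma DegLT.translate {k : ℕ} {f : G → M} (hf : DegLT π k f) (u v : G) :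
    DegLT π k (fun x => f (u * x * v)) := by
  induction k generalizing f with
  | zero =>
    intro x
    exact hf _
  | succ k ih =>
    intro n hn
    have hn' : u * n * u⁻¹ ∈ π.ker := by
      rw [MonoidHom.mem_ker] at hn ⊢
      rw [map_mul, map_mul, hn, mul_one, map_inv, mul_inv_cancel]
    refine (ih (hf _ hn')).congr fun x => ?_
    change f (u * n * u⁻¹ * (u * x * v)) - f (u * x * v) = f (u * (n * x) * v) - f (u * x * v)
    congr 2
    group

lemma DegLT.right_sub {k : ℕ} {f : G → M} (hf : DegLT π (k + 1) f) {r : G} (hr : r ∈ π.ker) :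
    DegLT π k (fun x => f (x * r) - f x) := by
  induction k generalizing f with
  | zero =>
    intro x
    have hn : x * r * x⁻¹ ∈ π.ker := by
      rw [MonoidHom.mem_ker] at hr ⊢
      rw [map_mul, map_mul, hr, mul_one, map_inv, mul_inv_cancel]
    have h := hf _ hn x
    change f (x * r * x⁻¹ * x) - f x = 0 at h
    rwa [inv_mul_cancel_right] at h
  | succ k ih =>
    intro n hn
    refine (ih (hf n hn)).congr fun x => ?_
    change f (n * (x * r)) - f (x * r) - (f (n * x) - f x) =
      f (n * x * r) - f (n * x) - (f (x * r) - f x)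
    rw [mul_assoc]
    abel

/-- The degree condition may be tested with multiplication by elements of the kernel on the
right, or after inversion: `x ↦ f x⁻¹`. -/
lemma DegLT.inv {k : ℕ} {f : G → M} (hf : DegLT π k f) : DegLT π k (fun x => f x⁻¹) := by
  induction k generalizing f with
  | zero =>
    intro x
    exact hf _
  | succ k ih =>
    intro n hn
    refine (ih (hf.right_sub (π.ker.inv_mem hn))).congr fun x => ?_
    change f (x⁻¹ * n⁻¹) - f x⁻¹ = f (n * x)⁻¹ - f x⁻¹
    rw [mul_inv_rev]

/-- Functions which factor through `π` have degree zero. -/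
lemma degLT_one_of_factor {f : G → M} (hf : ∀ x y, π x = π y → f x = f y) : DegLT π 1 f := by
  intro n hn x
  change f (n * x) - f x = 0
  rw [hf (n * x) x (by rw [map_mul, MonoidHom.mem_ker.mp hn, one_mul]), sub_self]

/-- Multiplication by a function which factors through `π` (values in a ring). -/
lemma DegLT.mul_factor {S : Type*} [CommRing S] {k : ℕ} {a f : G → S} (hf : DegLT π k f)
    (ha : ∀ x y, π x = π y → a x = a y) : DegLT π k (fun x => a x * f x) := by
  induction k generalizing f with
  | zero =>
    intro x
    change a x * f x = 0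
    rw [hf x, mul_zero]
  | succ k ih =>
    intro n hn
    refine (ih (hf n hn)).congr fun x => ?_
    change a x * (f (n * x) - f x) = a (n * x) * f (n * x) - a x * f x
    rw [ha (n * x) x (by rw [map_mul, MonoidHom.mem_ker.mp hn, one_mul]), mul_sub]

lemma DegLT.mul_aux {S : Type*} [CommRing S] (n : ℕ) : ∀ (a b : ℕ) (u v : G → S),
    a + b ≤ n + 1 → DegLT π a u → DegLT π b v → DegLT π n (fun y => u y * v y) := by
  induction n with
  | zero =>
    intro a b u v hab hu hv
    rcases Nat.eq_zero_or_pos a with rfl | ha
    · intro x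
      change u x * v x = 0
      rw [hu x, zero_mul]
    · obtain rfl : b = 0 := by omega
      intro x
      change u x * v x = 0
      rw [hv x, mul_zero]
  | succ n ih =>
    intro a b u v hab hu hv
    rcases Nat.eq_zero_or_pos a with rfl | ha
    · exact DegLT.zero.congr fun x => by rw [hu x, zero_mul]
    rcases Nat.eq_zero_or_pos b with rfl | hb
    · exact DegLT.zero.congr fun x => by rw [hv x, mul_zero]
    obtain ⟨a, rfl⟩ := Nat.exists_eq_succ_of_ne_zero ha.ne'
    obtain ⟨b, rfl⟩ := Nat.exists_eq_succ_of_ne_zero hb.ne'
    intro r hr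
    have hv' : DegLT π (b + 1) (fun y => v (r * y)) :=
      (hv.translate r 1).congr fun x => by rw [mul_one]
    have h1 := ih a (b + 1) _ _ (by omega) (hu r hr) hv'
    have h2 := ih (a + 1) b _ _ (by omega) hu (hv r hr)
    refine (h1.add h2).congr fun y => ?_
    ring

/-- Products. -/
lemma DegLT.mul {S : Type*} [CommRing S] {k l : ℕ} {f g : G → S} (hf : DegLT π (k + 1) f)
    (hg : DegLT π (l + 1) g) : DegLT π (k + l + 1) (fun x => f x * g x) :=
  DegLT.mul_aux _ _ _ _ _ (by omega) hf hg

section lin

variable {S : Type*} [CommRing S]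

lemma deg_lin_single_mul (f : G → S) (n : G) (z : MonoidAlgebra S G) :
    lin f (MonoidAlgebra.single n 1 * z) = lin (fun g => f (n * g)) z := by
  induction z using MonoidAlgebra.induction_linear with
  | zero => rw [mul_zero, map_zero, map_zero]
  | add x y hx hy => rw [mul_add, map_add, map_add, hx, hy]
  | single g a => rw [MonoidAlgebra.single_mul_single, one_mul, lin_single, lin_single]

lemma deg_lin_sub_fun (f g : G → S) (z : MonoidAlgebra S G) :
    lin (fun x => f x - g x) z = lin f z - lin g z := by
  induction z using MonoidAlgebra.induction_linear with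
  | zero => rw [map_zero, map_zero, map_zero, sub_zero]
  | add x y hx hy =>
    rw [map_add, map_add, map_add, hx, hy]
    abel
  | single g a => rw [lin_single, lin_single, lin_single, mul_sub]

lemma deg_lin_zero_fun {f : G → S} (hf : ∀ x, f x = 0) (z : MonoidAlgebra S G) : lin f z = 0 := by
  induction z using MonoidAlgebra.induction_linear with
  | zero => rw [map_zero]
  | add x y hx hy => rw [map_add, hx, hy, add_zero]
  | single g a => rw [lin_single, hf, mul_zero]

/-- An additive functional which takes the same value at `c x` and `c y` for `π x = π y` vanishes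
on the kernel. -/
lemma deg_vanish_of_mem_kerI {N : Type*} [AddCommGroup N] (Φ : MonoidAlgebra S G →+ N)
    (h : ∀ x y c, π x = π y →
      Φ (MonoidAlgebra.single x c) = Φ (MonoidAlgebra.single y c))
    {a : MonoidAlgebra S G} (ha : a ∈ kerI S π) : Φ a = 0 := by
  classical
  set s : Γ → G := Function.invFun π with hs
  have hs' : ∀ g : G, π (s (π g)) = π g := fun g => Function.invFun_eq ⟨g, rfl⟩
  have key : ∀ a : MonoidAlgebra S G,
      Φ a = Φ (MonoidAlgebra.mapDomain s (MonoidAlgebra.mapDomain π a)) := by
    intro a
    induction a using MonoidAlgebra.induction_linear with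
    | zero => rw [MonoidAlgebra.mapDomain_zero, MonoidAlgebra.mapDomain_zero]
    | add x y hx hy =>
      rw [MonoidAlgebra.mapDomain_add, MonoidAlgebra.mapDomain_add, map_add, map_add, ← hx, ← hy]
    | single g c =>
      rw [MonoidAlgebra.mapDomain_single, MonoidAlgebra.mapDomain_single]
      exact h _ _ _ (hs' g).symm
  have h1 : MonoidAlgebra.mapDomain π a = 0 := by
    have h2 : MonoidAlgebra.mapDomainRingHom S π a = 0 := ha
    exact h2
  rw [key a, h1, MonoidAlgebra.mapDomain_zero, map_zero]

/-- A function of degree less than `k` kills `I^k`.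

Proof: induction on `k`; `I^(k+1) = I * I^k`, an element of `I` is a combination of
`(n - 1) g` with `n ∈ ker π` and `g ∈ G` (only `π x = π y → single x 1 - single y 1` is needed),
`g * b ∈ I^k` for `b ∈ I^k`, and `lin f ((n - 1) * b) = lin (Δ_n f) b`. -/
theorem lin_eq_zero_of_degLT {S : Type*} [CommRing S] {k : ℕ} {f : G → S} (hf : DegLT π k f)
    {z : MonoidAlgebra S G} (hz : z ∈ (kerI S π) ^ k) : lin f z = 0 := by
  induction k generalizing f z with
  | zero => exact deg_lin_zero_fun hf z
  | succ k ih =>
    rw [Ideal.IsTwoSided.pow_succ] at hz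
    refine Submodule.mul_induction_on hz ?_ ?_
    · intro a ha b hb
      refine deg_vanish_of_mem_kerI (π := π) ((lin f).comp (AddMonoidHom.mulRight b)) ?_ ha
      intro x y c hxy
      change lin f (MonoidAlgebra.single x c * b) = lin f (MonoidAlgebra.single y c * b)
      have hn : x * y⁻¹ ∈ π.ker := by
        rw [MonoidHom.mem_ker, map_mul, hxy, map_inv, mul_inv_cancel]
      have h1 : MonoidAlgebra.single x c * b =
          MonoidAlgebra.single (x * y⁻¹) 1 * (MonoidAlgebra.single y c * b) := by
        rw [← mul_assoc, MonoidAlgebra.single_mul_single, inv_mul_cancel_right, one_mul]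
      have h2 : MonoidAlgebra.single y c * b ∈ (kerI S π) ^ k := Ideal.mul_mem_left _ _ hb
      have h3 := ih (hf _ hn) h2
      rw [deg_lin_sub_fun (fun g => f (x * y⁻¹ * g)) f, ← deg_lin_single_mul, ← h1, sub_eq_zero] at h3
      exact h3
    · intro x y hx hy
      rw [map_add, hx, hy, add_zero]

/-- The pairing of a polynomial class cocycle vanishes on `I^(J+1)`. -/
theorem bil_eq_zero_left {S : Type*} [CommRing S] {k : ℕ} {K : G → G → S}
    (hK : ∀ h, DegLT π k (fun g => K g h)) {z : MonoidAlgebra S G} (hz : z ∈ (kerI S π) ^ k)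
    (y : MonoidAlgebra S G) : bil K z y = 0 := by
  have key : ∀ (h : G) (b : S) (z : MonoidAlgebra S G),
      bil K z (MonoidAlgebra.single h b) = b * lin (fun g => K g h) z := by
    intro h b z
    induction z using MonoidAlgebra.induction_linear with
    | zero => rw [map_zero, map_zero, mul_zero, AddMonoidHom.zero_apply]
    | add x y hx hy => rw [map_add, map_add, AddMonoidHom.add_apply, hx, hy, mul_add]
    | single g a =>
      rw [bil_single, lin_single]
      ring
  induction y using MonoidAlgebra.induction_linear with
  | zero => rw [map_zero]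
  | add x y hx hy => rw [map_add, hx, hy, add_zero]
  | single h b => rw [key, lin_eq_zero_of_degLT (hK h) hz, mul_zero]

theorem bil_eq_zero_right {S : Type*} [CommRing S] {k : ℕ} {K : G → G → S}
    (hK : ∀ g, DegLT π k (K g)) {z : MonoidAlgebra S G} (hz : z ∈ (kerI S π) ^ k)
    (y : MonoidAlgebra S G) : bil K y z = 0 := by
  have key : ∀ (g : G) (a : S) (z : MonoidAlgebra S G),
      bil K (MonoidAlgebra.single g a) z = a * lin (K g) z := by
    intro g a z
    induction z using MonoidAlgebra.induction_linear with
    | zero => rw [map_zero, map_zero, mul_zero]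
    | add x y hx hy => rw [map_add, map_add, hx, hy, mul_add]
    | single h b => rw [bil_single, lin_single]
  induction y using MonoidAlgebra.induction_linear with
  | zero => rw [map_zero, AddMonoidHom.zero_apply]
  | add x y hx hy => rw [map_add, AddMonoidHom.add_apply, hx, hy, add_zero]
  | single g a => rw [key, lin_eq_zero_of_degLT (hK g) hz, mul_zero]

end lin

end Pool.Agent.Lib.MP_8f66f0_al_Uni
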