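import Mathlib
import Pool.Agent.Lib.MP_8f66f0_al_Uni.Deg

/-! The functions `ε` and `S` on words. -/

set_option autoImplicit false
set_option linter.unusedSectionVars false

namespace Pool.Agent.Lib.MP_8f66f0_al_Uni

open Pool.Agent.Lib.MP_8f66f0_al_Dennis Pool.Agent.Lib.MP_8f66f0_al_FinQ
  Pool.Agent.Lib.MP_8f66f0_al_Plus

variable {G Γ : Type*} [Group G] [Group Γ] {S : Type*} [CommRing S] {ι : Type*} [Fintype ι]
  [DecidableEq ι] {π : G →* Γ} {c : Γ} {J : ℕ} {δ : G → G → S} {D : S}

/-- `ε(x) = -ψ(x_1 ⋯ x_{Q-1}, x_0)` (this is `δ(x_0⁻¹, P(x))`, `P(x) = x_0 x_1 ⋯ x_{Q-1}`). -/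
noncomputable def epsF (π : G →* Γ) (c : Γ) (δ : G → G → S) : List G → S
  | [] => 0
  | h :: w => - psiW π c δ w.prod h

/-! Auxiliary lemmas on conjugacy and the cocycle identity. -/

lemma isConj_conj {P : G} (hP : IsConj c (π P)) (a : G) : IsConj c (π (a * P * a⁻¹)) := by
  refine hP.trans ?_
  rw [map_mul, map_mul, map_inv]
  exact isConj_iff.mpr ⟨π a, rfl⟩

lemma isConj_conj' {P : G} (hP : IsConj c (π P)) (a : G) : IsConj c (π (a⁻¹ * P * a)) := by
  have := isConj_conj (π := π) hP a⁻¹
  rwa [inv_inv] at this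

lemma isConj_swap {a b : G} (h : IsConj c (π (a * b))) : IsConj c (π (b * a)) := by
  have := isConj_conj' (π := π) h a
  rwa [show a⁻¹ * (a * b) * a = b * a by group] at this

lemma isConj_swap_iff {a b : G} : IsConj c (π (a * b)) ↔ IsConj c (π (b * a)) :=
  ⟨isConj_swap, isConj_swap⟩

lemma IsPoly.one_left (hδ : IsPoly π c J δ D) {x : G} (hx : IsConj c (π x)) : δ 1 x = 0 := by
  have h := hδ.coc 1 1 x hx
  rw [one_mul, one_mul, inv_one, mul_one] at h
  exact left_eq_add.mp h

lemma IsPoly.inv_conj (hδ : IsPoly π c J δ D) (h : G) {x : G} (hx : IsConj c (π x)) :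
    δ h⁻¹ (h * x * h⁻¹) = - δ h x := by
  have h1 := hδ.coc h⁻¹ h x hx
  rw [inv_mul_cancel, hδ.one_left hx] at h1
  exact eq_neg_of_add_eq_zero_left h1.symm

/-- The cocycle identity for inverses. -/
lemma IsPoly.inv_mul (hδ : IsPoly π c J δ D) (a b : G) {x : G} (hx : IsConj c (π x)) :
    δ (a * b)⁻¹ x = δ b⁻¹ (a⁻¹ * x * a) + δ a⁻¹ x := by
  have h1 := hδ.coc b⁻¹ a⁻¹ x hx
  rw [inv_inv] at h1
  rw [mul_inv_rev, h1]

lemma epsF_cons (hδ : IsPoly π c J δ D) (h : G) (w : List G)
    (hx : IsConj c (π (h * w.prod))) : epsF π c δ (h :: w) = δ h⁻¹ (h * w.prod) := by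
  have h1 : IsConj c (π (w.prod * h)) := isConj_swap hx
  have h2 := hδ.inv_conj h h1
  rw [show h * (w.prod * h) * h⁻¹ = h * w.prod by group] at h2
  rw [epsF, psiW, if_pos h1, ← h2]

lemma prod_rotate (x : List G) (n : ℕ) (hn : n ≤ x.length) :
    (x.rotate n).prod = (x.take n).prod⁻¹ * x.prod * (x.take n).prod := by
  have h1 : (x.take n).prod * (x.drop n).prod = x.prod := by
    rw [← List.prod_append, List.take_append_drop]
  rw [List.rotate_eq_drop_append_take hn, List.prod_append, ← h1]
  group

lemma isConj_rotate {x : List G} (hx : IsConj c (π x.prod)) (n : ℕ) :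
    IsConj c (π (x.rotate n).prod) := by
  rcases Nat.eq_zero_or_pos x.length with h0 | h0
  · rw [List.length_eq_zero_iff] at h0
    subst h0
    simpa using hx
  · rw [← List.rotate_mod, prod_rotate x _ (Nat.mod_lt n h0).le]
    exact isConj_conj' hx _

lemma epsF_rotate (hδ : IsPoly π c J δ D) (x : List G) (hx : IsConj c (π x.prod)) (n : ℕ)
    (hn : n < x.length) : epsF π c δ (x.rotate n) =
      δ (x[n])⁻¹ ((x.take n).prod⁻¹ * x.prod * (x.take n).prod) := by
  have h1 := isConj_rotate (π := π) hx n
  have h2 := prod_rotate x n hn.le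
  have h3 : x.rotate n = x[n] :: (x.drop (n + 1) ++ x.take n) := by
    rw [List.rotate_eq_drop_append_take hn.le, List.drop_eq_getElem_cons hn, List.cons_append]
  rw [h3, List.prod_cons] at h1 h2
  rw [h3, epsF_cons hδ _ _ h1, h2]

lemma sum_epsF_partial (hδ : IsPoly π c J δ D) (x : List G) (hx : IsConj c (π x.prod)) (n : ℕ)
    (hn : n ≤ x.length) :
    ∑ t ∈ Finset.range n, epsF π c δ (x.rotate t) = δ (x.take n).prod⁻¹ x.prod := by
  induction n with
  | zero =>
    rw [Finset.sum_range_zero, List.take_zero, List.prod_nil, inv_one, hδ.one_left hx]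
  | succ n ih =>
    have hn' : n < x.length := hn
    rw [Finset.sum_range_succ, ih hn'.le, epsF_rotate hδ x hx n hn',
      List.take_succ_eq_append_getElem hn', List.prod_append, List.prod_singleton,
      hδ.inv_mul _ _ hx, add_comm]

/-- `Σ_{t < Q} ε(σ^t x) = -D`. More generally the sum of the first `t` terms is
`δ((x_0 ⋯ x_{t-1})⁻¹, P(x))`. -/
lemma sum_epsF (hδ : IsPoly π c J δ D) (x : List G) (hx : IsConj c (π x.prod)) :
    ∑ t ∈ Finset.range x.length, epsF π c δ (x.rotate t) = -D := by
  rw [sum_epsF_partial hδ x hx _ le_rfl, List.take_length]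
  have h := hδ.inv_conj x.prod hx
  rw [mul_inv_cancel_right] at h
  rw [h, hδ.diag _ hx]

/-! Words of even length and `d0`. -/

lemma length_d0 : ∀ (Q : ℕ) (w : List G), w.length = 2 * Q → (d0 w).length = Q
  | 0, w, hw => by
    have : w = [] := List.length_eq_zero_iff.mp (by simpa using hw)
    subst this
    rfl
  | Q + 1, w, hw => by
    match w, hw with
    | h :: g :: w', hw =>
      have : w'.length = 2 * Q := by
        simp only [List.length_cons] at hw
        omega
      rw [d0, List.length_cons, length_d0 Q w' this]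
    | [_], hw => simp at hw; omega
    | [], hw => simp at hw

lemma prod_d0 : ∀ (Q : ℕ) (w : List G), w.length = 2 * Q → (d0 w).prod = w.prod
  | 0, w, hw => by
    have : w = [] := List.length_eq_zero_iff.mp (by simpa using hw)
    subst this
    rfl
  | Q + 1, w, hw => by
    match w, hw with
    | h :: g :: w', hw =>
      have : w'.length = 2 * Q := by
        simp only [List.length_cons] at hw
        omega
      rw [d0, List.prod_cons, prod_d0 Q w' this, List.prod_cons, List.prod_cons, mul_assoc]
    | [_], hw => simp at hw; omega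
    | [], hw => simp at hw

lemma d0_append : ∀ (Q : ℕ) (w w' : List G), w.length = 2 * Q → d0 (w ++ w') = d0 w ++ d0 w'
  | 0, w, w', hw => by
    have : w = [] := List.length_eq_zero_iff.mp (by simpa using hw)
    subst this
    rfl
  | Q + 1, w, w', hw => by
    match w, hw with
    | h :: g :: w'', hw =>
      have : w''.length = 2 * Q := by
        simp only [List.length_cons] at hw
        omega
      rw [List.cons_append, List.cons_append, d0, d0, d0_append Q w'' w' this,
        List.cons_append]
    | [_], hw => simp at hw; omega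
    | [], hw => simp at hw

lemma d0_rotate_two (Q : ℕ) (w : List G) (hw : w.length = 2 * Q) :
    d0 (w.rotate 2) = (d0 w).rotate 1 := by
  match w, hw with
  | h :: g :: w', hw =>
    have hQ : w'.length = 2 * (Q - 1) := by
      simp only [List.length_cons] at hw
      omega
    have h1 : (h :: g :: w').rotate 2 = w' ++ [h, g] := by
      rw [show (2 : ℕ) = 1 + 1 from rfl, ← List.rotate_rotate, List.rotate_cons_succ,
        List.rotate_zero, List.cons_append, List.rotate_cons_succ, List.rotate_zero]
      simp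
    have h2 : (d0 (h :: g :: w')).rotate 1 = d0 w' ++ [h * g] := by
      rw [d0, List.rotate_cons_succ, List.rotate_zero]
    rw [h1, h2, d0_append (Q - 1) w' _ hQ]
    rfl
  | [_], hw => simp at hw; omega
  | [], hw => simp [d0]

lemma d0_rotate_two_mul (Q : ℕ) (w : List G) (hw : w.length = 2 * Q) (t : ℕ) :
    d0 (w.rotate (2 * t)) = (d0 w).rotate t := by
  induction t with
  | zero => simp
  | succ t ih =>
    rw [show 2 * (t + 1) = 2 * t + 2 by ring, ← List.rotate_rotate,
      d0_rotate_two Q _ (by rw [List.length_rotate, hw]), ih, List.rotate_rotate]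

/-- `ε(d1 w) - ε(d0 w) = η(σ w) - η(w)` where `η(w) = ε(w)` on words of length `2 Q`, `σ` is the
rotation by two letters and `d1 w = d0 (w.rotate 1)`. All four products are conjugate.

Proof: with `w = (h_0, g_0, h_1, ...)`, `x = d0 w`, `y = d1 w`, `P = P(x) = P(w)`:
`η(w) = δ(h_0⁻¹, P)`, `η(σ w) = δ(h_1⁻¹, x_0⁻¹ P x_0)`, `ε(x) = δ(x_0⁻¹, P)`,
`ε(y) = δ(y_0⁻¹, h_0⁻¹ P h_0)` with `y_0 = g_0 h_1`, `x_0 = h_0 g_0`, and
`δ(h_1⁻¹ x_0⁻¹, P) = δ(y_0⁻¹ h_0⁻¹, P)` can be computed in two ways. (For `Q = 1` one has
`h_1 = h_0`.) -/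
lemma epsF_d1_sub (hδ : IsPoly π c J δ D) {Q : ℕ} (w : List G) (hw : w.length = 2 * Q)
    (hc : IsConj c (π w.prod)) :
    epsF π c δ (d0 (w.rotate 1)) - epsF π c δ (d0 w) =
      epsF π c δ (w.rotate 2) - epsF π c δ w := by
  match w, hw, hc with
  | [], _, _ => simp [d0, epsF]
  | [_], hw, _ => simp at hw; omega
  | h0 :: g0 :: w', hw, hc =>
    have hQ : w'.length = 2 * (Q - 1) := by
      simp only [List.length_cons] at hw
      omega
    -- the word `w' ++ [h0]` begins with `h1`
    obtain ⟨h1, r, hr⟩ : ∃ h1 r, w' ++ [h0] = h1 :: r := by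
      cases w' with
      | nil => exact ⟨h0, [], rfl⟩
      | cons a b => exact ⟨a, b ++ [h0], rfl⟩
    have hrl : r.length = 2 * (Q - 1) := by
      have := congrArg List.length hr
      simp only [List.length_append, List.length_cons, List.length_nil] at this
      omega
    have hrp : w'.prod * h0 = h1 * r.prod := by
      have := congrArg List.prod hr
      simpa using this
    rw [List.prod_cons, List.prod_cons] at hc
    -- the four words
    have e1 : (h0 :: g0 :: w').rotate 1 = g0 :: h1 :: r := by
      rw [List.rotate_cons_succ, List.rotate_zero, List.cons_append, hr]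
    have e2 : (h0 :: g0 :: w').rotate 2 = h1 :: (r ++ [g0]) := by
      rw [show (2 : ℕ) = 1 + 1 from rfl, ← List.rotate_rotate, e1, List.rotate_cons_succ,
        List.rotate_zero, List.cons_append]
    set P : G := h0 * (g0 * w'.prod) with hP
    have p1 : g0 * h1 * r.prod = h0⁻¹ * P * h0 := by
      rw [mul_assoc, ← hrp, hP]; group
    have p2 : h1 * (r ++ [g0]).prod = (h0 * g0)⁻¹ * P * (h0 * g0) := by
      rw [List.prod_append, List.prod_singleton, ← mul_assoc, ← hrp, hP]; group
    have f0 : epsF π c δ (h0 :: g0 :: w') = δ h0⁻¹ P := by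
      rw [epsF_cons hδ _ _ (by rw [List.prod_cons]; exact hc), List.prod_cons]
    have f1 : epsF π c δ (d0 (h0 :: g0 :: w')) = δ (h0 * g0)⁻¹ P := by
      have hp : h0 * g0 * (d0 w').prod = P := by
        rw [prod_d0 (Q - 1) w' hQ, hP, mul_assoc]
      rw [d0, epsF_cons hδ _ _ (by rw [hp]; exact hc), hp]
    have f2 : epsF π c δ (d0 (g0 :: h1 :: r)) = δ (g0 * h1)⁻¹ (h0⁻¹ * P * h0) := by
      have hp : g0 * h1 * (d0 r).prod = h0⁻¹ * P * h0 := by
        rw [prod_d0 (Q - 1) r hrl, p1]
      rw [d0, epsF_cons hδ _ _ (by rw [hp]; exact isConj_conj' hc _), hp]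
    have f3 : epsF π c δ (h1 :: (r ++ [g0])) = δ h1⁻¹ ((h0 * g0)⁻¹ * P * (h0 * g0)) := by
      rw [epsF_cons hδ _ _ (by rw [p2]; exact isConj_conj' hc _), p2]
    rw [e1, e2, f0, f1, f2, f3]
    have c1 := hδ.inv_mul (h0 * g0) h1 (x := P) hc
    have c2 := hδ.inv_mul h0 (g0 * h1) (x := P) hc
    rw [← mul_assoc, c1] at c2
    rw [sub_eq_sub_iff_add_eq_add]
    exact c2.symm

/-- The function `S(x) = Σ_{t < Q} t ε(σ^t x)`. -/
noncomputable def SF (π : G →* Γ) (c : Γ) (δ : G → G → S) (x : List G) : S :=
  ∑ t ∈ Finset.range x.length, (t : S) * epsF π c δ (x.rotate t)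

/-- Summation by parts on a cycle. -/
lemma sum_mul_shift (e : ℕ → S) (Q : ℕ) :
    ∑ t ∈ Finset.range Q, (t : S) * e (t + 1) =
      ∑ t ∈ Finset.range Q, (t : S) * e t + (Q : S) * e Q -
        ∑ t ∈ Finset.range Q, e (t + 1) := by
  induction Q with
  | zero => simp
  | succ Q ih =>
    rw [Finset.sum_range_succ, ih, Finset.sum_range_succ, Finset.sum_range_succ]
    push_cast
    ring

lemma sum_shift (e : ℕ → S) (Q : ℕ) (h : e Q = e 0) :
    ∑ t ∈ Finset.range Q, e (t + 1) = ∑ t ∈ Finset.range Q, e t := by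
  have h1 := Finset.sum_range_succ e Q
  have h2 := Finset.sum_range_succ' e Q
  rw [h1, h] at h2
  exact (add_right_cancel h2).symm

/-- `S(σ x) = S(x) + Q ε(x) + D`. -/
lemma SF_rotate (hδ : IsPoly π c J δ D) (x : List G) (hx : IsConj c (π x.prod)) :
    SF π c δ (x.rotate 1) = SF π c δ x + (x.length : S) * epsF π c δ x + D := by
  have h1 : ∑ t ∈ Finset.range x.length, (t : S) * epsF π c δ ((x.rotate 1).rotate t) =
      ∑ t ∈ Finset.range x.length, (t : S) * epsF π c δ (x.rotate (t + 1)) := by
    refine Finset.sum_congr rfl fun t _ => ?_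
    rw [List.rotate_rotate, add_comm 1 t]
  have hQ : epsF π c δ (x.rotate x.length) = epsF π c δ x := by rw [List.rotate_length]
  have h2 := sum_shift (fun t => epsF π c δ (x.rotate t)) x.length (by
    simp only [List.rotate_length, List.rotate_zero])
  rw [SF, SF, List.length_rotate, h1, sum_mul_shift (fun t => epsF π c δ (x.rotate t)), h2,
    sum_epsF hδ x hx, hQ]
  ring

/-- `S(d1 w) - S(d0 w) = Q η(w) - Σ_{t<Q} η(σ^t w)`. -/
lemma SF_d1_sub (hδ : IsPoly π c J δ D) {Q : ℕ} (w : List G) (hw : w.length = 2 * Q)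
    (hc : IsConj c (π w.prod)) :
    SF π c δ (d0 (w.rotate 1)) - SF π c δ (d0 w) =
      (Q : S) * epsF π c δ w - ∑ t ∈ Finset.range Q, epsF π c δ (w.rotate (2 * t)) := by
  have hl1 : (w.rotate 1).length = 2 * Q := by rw [List.length_rotate, hw]
  rw [SF, SF, length_d0 Q w hw, length_d0 Q _ hl1, ← Finset.sum_sub_distrib]
  have h1 : ∀ t ∈ Finset.range Q,
      (t : S) * epsF π c δ ((d0 (w.rotate 1)).rotate t) -
        (t : S) * epsF π c δ ((d0 w).rotate t) =
      (t : S) * epsF π c δ (w.rotate (2 * (t + 1))) -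
        (t : S) * epsF π c δ (w.rotate (2 * t)) := by
    intro t _
    rw [← mul_sub, ← mul_sub, ← d0_rotate_two_mul Q w hw, ← d0_rotate_two_mul Q _ hl1,
      List.rotate_rotate, add_comm 1 (2 * t), ← List.rotate_rotate,
      epsF_d1_sub hδ (Q := Q) (w.rotate (2 * t)) (by rw [List.length_rotate, hw])
        (isConj_rotate hc _), List.rotate_rotate]
    rw [show 2 * t + 2 = 2 * (t + 1) by ring]
  have hper : epsF π c δ (w.rotate (2 * Q)) = epsF π c δ (w.rotate (2 * 0)) := by
    rw [← hw, List.rotate_length, mul_zero, List.rotate_zero]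
  rw [Finset.sum_congr rfl h1, Finset.sum_sub_distrib,
    sum_mul_shift (fun t => epsF π c δ (w.rotate (2 * t))),
    sum_shift (fun t => epsF π c δ (w.rotate (2 * t))) Q hper]
  simp only [mul_zero, List.rotate_zero] at hper
  rw [hper]
  ring

open Classical in
/-- The function `x ↦ [P(x) ∈ c] a(π x) ε(σ^t x)` has degree at most `J` in each letter. -/
lemma deg_epsF_rotate (hδ : IsPoly π c J δ D) (a : List Γ → S) (t : ℕ) (u v : List G) :
    DegLT π (J + 1) (fun g : G => if IsConj c (π (u ++ g :: v).prod) then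
      a ((u ++ g :: v).map π) * epsF π c δ ((u ++ g :: v).rotate t) else 0) := by
  -- the condition is superfluous
  have hz : ∀ x : List G, ¬ IsConj c (π x.prod) → epsF π c δ x = 0 := by
    intro x hx
    cases x with
    | nil => rfl
    | cons h w =>
      rw [List.prod_cons] at hx
      rw [epsF, psiW, if_neg (fun hh => hx (isConj_swap hh)), neg_zero]
  have hrot : ∀ (x : List G) (n : ℕ), IsConj c (π (x.rotate n).prod) → IsConj c (π x.prod) := by
    intro x n h
    rcases Nat.eq_zero_or_pos x.length with h0 | h0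
    · rw [List.length_eq_zero_iff] at h0
      subst h0
      simpa using h
    · rw [← List.rotate_mod, prod_rotate x _ (Nat.mod_lt n h0).le] at h
      have := isConj_conj (π := π) h (x.take (n % x.length)).prod
      rwa [show ∀ p q : G, p * (p⁻¹ * q * p) * p⁻¹ = q by intro p q; group] at this
  have hfun : (fun g : G => if IsConj c (π (u ++ g :: v).prod) then
      a ((u ++ g :: v).map π) * epsF π c δ ((u ++ g :: v).rotate t) else 0) =
      fun g : G => a ((u ++ g :: v).map π) * epsF π c δ ((u ++ g :: v).rotate t) := by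
    funext g
    split_ifs with h
    · rfl
    · rw [hz _ (fun hh => h (hrot _ _ hh)), mul_zero]
  rw [hfun]
  refine DegLT.mul_factor ?_ ?_
  · -- the function `ε`
    set n : ℕ := (u ++ (1 : G) :: v).length with hn
    have hlen : ∀ g : G, (u ++ g :: v).length = n := by
      intro g; simp [hn]
    have hn0 : 0 < n := by rw [hn]; simp
    set s : ℕ := t % n with hs
    have hsn : s < n := Nat.mod_lt _ hn0
    have hrs : ∀ g : G, (u ++ g :: v).rotate t = (u ++ g :: v).rotate s := by
      intro g; rw [hs, ← hlen g, List.rotate_mod]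
    simp only [hrs]
    have hnu : n = u.length + (v.length + 1) := by simp [hn]
    have hneg : ∀ f : G → S, DegLT π (J + 1) f → DegLT π (J + 1) (fun x => - f x) := by
      intro f hf
      exact DegLT.comp_hom (-AddMonoidHom.id S) hf
    rcases lt_trichotomy s u.length with h | h | h
    · -- the first letter lies in `u`
      obtain ⟨u1, h0, u2, hu, hu1⟩ : ∃ u1 h0 u2, u = u1 ++ h0 :: u2 ∧ u1.length = s :=
        ⟨u.take s, u[s], u.drop (s + 1), by
          rw [← List.drop_eq_getElem_cons h, List.take_append_drop], by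
          rw [List.length_take]; omega⟩
      have e : ∀ g : G, (u ++ g :: v).rotate s = h0 :: (u2 ++ (g :: v) ++ u1) := by
        intro g
        rw [hu, ← hu1, List.append_assoc, List.rotate_append_length_eq]
        simp
      simp only [e, epsF]
      apply hneg
      have h1 := (hδ.degL h0).translate u2.prod (v.prod * u1.prod)
      have h2 : (fun g : G => psiW π c δ (u2 ++ g :: v ++ u1).prod h0) =
          fun g : G => psiW π c δ (u2.prod * g * (v.prod * u1.prod)) h0 := by
        funext g
        rw [List.prod_append, List.prod_append, List.prod_cons]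
        rw [show u2.prod * (g * v.prod) * u1.prod = u2.prod * g * (v.prod * u1.prod) by group]
      rw [h2]
      exact h1
    · -- the first letter is `g`
      have e : ∀ g : G, (u ++ g :: v).rotate s = g :: (v ++ u) := by
        intro g
        rw [h, List.rotate_append_length_eq]
        simp
      simp only [e, epsF]
      exact hneg _ (hδ.degR (v ++ u).prod)
    · -- the first letter lies in `v`
      have hlt : s - u.length - 1 < v.length := by omega
      obtain ⟨v1, h0, v2, hv, hv1⟩ : ∃ v1 h0 v2, v = v1 ++ h0 :: v2 ∧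
          v1.length = s - u.length - 1 :=
        ⟨v.take (s - u.length - 1), v[s - u.length - 1], v.drop (s - u.length - 1 + 1), by
          rw [← List.drop_eq_getElem_cons hlt, List.take_append_drop], by
          rw [List.length_take]; omega⟩
      have e : ∀ g : G, (u ++ g :: v).rotate s = h0 :: (v2 ++ (u ++ g :: v1)) := by
        intro g
        have h1 : u ++ g :: v = (u ++ g :: v1) ++ h0 :: v2 := by
          rw [hv]; simp
        have h2 : s = (u ++ g :: v1).length := by
          rw [List.length_append, List.length_cons, hv1]; omega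
        rw [h1, h2, List.rotate_append_length_eq]
        simp
      simp only [e, epsF]
      apply hneg
      have h1 := (hδ.degL h0).translate (v2.prod * u.prod) v1.prod
      have h2 : (fun g : G => psiW π c δ (v2 ++ (u ++ g :: v1)).prod h0) =
          fun g : G => psiW π c δ (v2.prod * u.prod * g * v1.prod) h0 := by
        funext g
        rw [List.prod_append, List.prod_append, List.prod_cons]
        rw [show v2.prod * (u.prod * (g * v1.prod)) = v2.prod * u.prod * g * v1.prod by group]
      rw [h2]
      exact h1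
  · -- the function `a` factors through `π`
    intro x y hxy
    rw [List.map_append, List.map_append, List.map_cons, List.map_cons, hxy]

end Pool.Agent.Lib.MP_8f66f0_al_Uni
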