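import Mathlib
import Pool.Agent.Lib.MP_8f66f0_al_Uni.Deg

/-! The boundary lemma and the contraction lemma for sums over cyclic words. -/

set_option autoImplicit false
set_option linter.unusedSectionVars false

namespace Pool.Agent.Lib.MP_8f66f0_al_Uni

open Pool.Agent.Lib.MP_8f66f0_al_Dennis Pool.Agent.Lib.MP_8f66f0_al_FinQ
  Pool.Agent.Lib.MP_8f66f0_al_Plus

variable {G Γ : Type*} [Group G] [Group Γ] {S : Type*} [CommRing S] {ι : Type*} [Fintype ι]
  [DecidableEq ι]

lemma letter_single_d0 (g : G) (a : S) :
    letter S G (MonoidAlgebra.single g a) = MonoidAlgebra.single (FreeMonoid.of g) a := by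
  change MonoidAlgebra.mapDomain FreeMonoid.of (MonoidAlgebra.single g a) = _
  rw [MonoidAlgebra.mapDomain_single]

/-- The additive map of word rings induced by `d0`. -/
noncomputable def dmap (S : Type*) [CommRing S] (G : Type*) [Group G] :
    MonoidAlgebra S (FreeMonoid G) →+ MonoidAlgebra S (FreeMonoid G) :=
  AddMonoidHom.mk' (MonoidAlgebra.mapDomain (fun w => FreeMonoid.ofList (d0 w.toList)))
    (MonoidAlgebra.mapDomain_add _)

lemma dmap_single (w : FreeMonoid G) (a : S) :
    dmap S G (MonoidAlgebra.single w a) =
      MonoidAlgebra.single (FreeMonoid.ofList (d0 w.toList)) a := by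
  change MonoidAlgebra.mapDomain _ (MonoidAlgebra.single w a) = _
  rw [MonoidAlgebra.mapDomain_single]

lemma lin_dmap (f : List G → S) (x : MonoidAlgebra S (FreeMonoid G)) :
    lin (fun w : FreeMonoid G => f (d0 w.toList)) x =
      lin (fun w : FreeMonoid G => f w.toList) (dmap S G x) := by
  have h : (Pool.Agent.Lib.MP_8f66f0_al_FinQ.lin (fun w : FreeMonoid G => f (d0 w.toList))) =
      (Pool.Agent.Lib.MP_8f66f0_al_FinQ.lin
        (fun w : FreeMonoid G => f w.toList)).comp (dmap S G) := by
    refine MonoidAlgebra.addMonoidHom_ext fun w a => ?_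
    rw [lin_single, AddMonoidHom.comp_apply, dmap_single, lin_single]
    rfl
  rw [h]
  rfl

lemma dmap_mul (b a : MonoidAlgebra S G) (x : MonoidAlgebra S (FreeMonoid G)) :
    dmap S G (letter S G b * letter S G a * x) = letter S G (b * a) * dmap S G x := by
  induction b using MonoidAlgebra.induction_linear with
  | zero => simp
  | add b b' hb hb' => rw [map_add, add_mul, add_mul, map_add, hb, hb', add_mul, map_add, add_mul]
  | single h r =>
    induction a using MonoidAlgebra.induction_linear with
    | zero => simp
    | add a a' ha ha' =>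
      rw [map_add, mul_add, add_mul, map_add, ha, ha', mul_add, map_add, add_mul]
    | single g s =>
      induction x using MonoidAlgebra.induction_linear with
      | zero => simp
      | add x x' hx hx' => rw [mul_add, map_add, hx, hx', map_add, mul_add]
      | single w t =>
        rw [letter_single_d0, letter_single_d0, MonoidAlgebra.single_mul_single,
          MonoidAlgebra.single_mul_single, dmap_single, MonoidAlgebra.single_mul_single,
          letter_single_d0, dmap_single, MonoidAlgebra.single_mul_single]
        congr 1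

lemma letM_apply (C : Matrix ι ι (MonoidAlgebra S G)) (i j : ι) :
    letM C i j = letter S G (C i j) := rfl

lemma dmap_pow (B A : Matrix ι ι (MonoidAlgebra S G)) (Q : ℕ) (i j : ι) :
    dmap S G (((letM B * letM A) ^ Q) i j) = ((letM (B * A)) ^ Q) i j := by
  induction Q generalizing i j with
  | zero =>
    rw [pow_zero, pow_zero]
    by_cases hij : i = j
    · subst hij
      simp only [Matrix.one_apply_eq]
      rw [MonoidAlgebra.one_def, dmap_single]
      rfl
    · simp only [Matrix.one_apply_ne hij]
      rw [map_zero]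
  | succ Q ih =>
    rw [pow_succ', pow_succ', Matrix.mul_apply, Matrix.mul_apply, map_sum]
    refine Finset.sum_congr rfl fun k _ => ?_
    rw [Matrix.mul_apply, Finset.sum_mul, map_sum, letM_apply, Matrix.mul_apply, map_sum,
      Finset.sum_mul]
    refine Finset.sum_congr rfl fun l _ => ?_
    rw [letM_apply, letM_apply, dmap_mul, ih]

/-- The elements of the word ring killed by `f` with arbitrary factors on both sides. -/
def Kill (f : List G → S) (z : MonoidAlgebra S (FreeMonoid G)) : Prop :=
  ∀ u v : MonoidAlgebra S (FreeMonoid G), lin (fun w : FreeMonoid G => f w.toList) (u * z * v) = 0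

lemma Kill.zero (f : List G → S) : Kill f 0 := by
  intro u v
  rw [mul_zero, zero_mul, map_zero]

lemma Kill.add {f : List G → S} {z z' : MonoidAlgebra S (FreeMonoid G)} (hz : Kill f z)
    (hz' : Kill f z') : Kill f (z + z') := by
  intro u v
  rw [mul_add, add_mul, map_add, hz, hz', add_zero]

lemma Kill.sum {α : Type*} (s : Finset α) {f : List G → S}
    {z : α → MonoidAlgebra S (FreeMonoid G)} (hz : ∀ a ∈ s, Kill f (z a)) :
    Kill f (∑ a ∈ s, z a) := by
  classical
  induction s using Finset.induction_on with
  | empty => exact Kill.zero f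
  | insert a s ha ih =>
    rw [Finset.sum_insert ha]
    exact (hz a (Finset.mem_insert_self a s)).add
      (ih fun b hb => hz b (Finset.mem_insert_of_mem hb))

lemma Kill.mul_left {f : List G → S} {z : MonoidAlgebra S (FreeMonoid G)} (hz : Kill f z)
    (y : MonoidAlgebra S (FreeMonoid G)) : Kill f (y * z) := by
  intro u v
  rw [← mul_assoc]
  exact hz _ _

lemma Kill.mul_right {f : List G → S} {z : MonoidAlgebra S (FreeMonoid G)} (hz : Kill f z)
    (y : MonoidAlgebra S (FreeMonoid G)) : Kill f (z * y) := by
  intro u v
  rw [← mul_assoc, mul_assoc (u * z)]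
  exact hz _ _

lemma kill_letter (π : G →* Γ) (k : ℕ) {f : List G → S}
    (hf : ∀ u v : List G, DegLT π k (fun g => f (u ++ g :: v)))
    {z : MonoidAlgebra S G} (hz : z ∈ (kerI S π) ^ k) : Kill f (letter S G z) := by
  intro u v
  induction u using MonoidAlgebra.induction_linear with
  | zero => simp
  | add u u' hu hu' => rw [add_mul, add_mul, map_add, hu, hu', add_zero]
  | single w a =>
    induction v using MonoidAlgebra.induction_linear with
    | zero => simp
    | add v v' hv hv' => rw [mul_add, map_add, hv, hv', add_zero]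
    | single w' b =>
      have h : (Pool.Agent.Lib.MP_8f66f0_al_FinQ.lin (fun w : FreeMonoid G => f w.toList)).comp
          ((AddMonoidHom.mulRight (MonoidAlgebra.single w' b)).comp
            ((AddMonoidHom.mulLeft (MonoidAlgebra.single w a)).comp (letter S G))) =
          (AddMonoidHom.mulLeft (a * b)).comp
            (Pool.Agent.Lib.MP_8f66f0_al_FinQ.lin
              (fun g => f (w.toList ++ g :: w'.toList))) := by
        refine MonoidAlgebra.addMonoidHom_ext fun g c => ?_
        simp only [AddMonoidHom.comp_apply, AddMonoidHom.coe_mulRight, AddMonoidHom.coe_mulLeft,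
          letter_single_d0, MonoidAlgebra.single_mul_single, lin_single]
        have e : (w * FreeMonoid.of g * w').toList = w.toList ++ g :: w'.toList := by
          rw [FreeMonoid.toList_mul, FreeMonoid.toList_mul, FreeMonoid.toList_of, List.append_assoc,
            List.singleton_append]
        rw [e]
        ring
      have h2 := DFunLike.congr_fun h z
      simp only [AddMonoidHom.comp_apply, AddMonoidHom.coe_mulRight, AddMonoidHom.coe_mulLeft] at h2
      rw [h2, lin_eq_zero_of_degLT (hf w.toList w'.toList) hz, mul_zero]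

lemma kill_pow_sub {f : List G → S} {P N : Matrix ι ι (MonoidAlgebra S (FreeMonoid G))}
    (h : ∀ i j, Kill f ((P - N) i j)) (Q : ℕ) (i j : ι) : Kill f ((P ^ Q - N ^ Q) i j) := by
  induction Q generalizing i j with
  | zero =>
    rw [pow_zero, pow_zero, sub_self]
    exact Kill.zero f
  | succ Q ih =>
    have e : P ^ (Q + 1) - N ^ (Q + 1) = P * (P ^ Q - N ^ Q) + (P - N) * N ^ Q := by
      rw [pow_succ', pow_succ', mul_sub, sub_mul]
      abel
    rw [e, Matrix.add_apply, Matrix.mul_apply, Matrix.mul_apply]
    exact (Kill.sum _ fun k _ => (ih k j).mul_left _).add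
      (Kill.sum _ fun k _ => (h i k).mul_right _)

lemma letM_one_pow (Q : ℕ) : (letM (1 : Matrix ι ι (MonoidAlgebra S G))) ^ Q =
    Matrix.diagonal (fun _ => MonoidAlgebra.single ((FreeMonoid.of (1 : G)) ^ Q) (1 : S)) := by
  have h1 : letM (1 : Matrix ι ι (MonoidAlgebra S G)) =
      Matrix.diagonal (fun _ => MonoidAlgebra.single (FreeMonoid.of (1 : G)) (1 : S)) := by
    ext1 i j
    rw [letM_apply]
    by_cases hij : i = j
    · subst hij
      rw [Matrix.one_apply_eq, Matrix.diagonal_apply_eq, MonoidAlgebra.one_def, letter_single_d0]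
    · rw [Matrix.one_apply_ne hij, Matrix.diagonal_apply_ne _ hij, map_zero]
  rw [h1, Matrix.diagonal_pow]
  congr 1
  funext i
  rw [Pi.pow_apply, MonoidAlgebra.single_pow, one_pow]

lemma toList_of_pow (g : G) (Q : ℕ) : ((FreeMonoid.of g) ^ Q).toList = List.replicate Q g := by
  induction Q with
  | zero => rfl
  | succ Q ih =>
    rw [pow_succ', FreeMonoid.toList_mul, ih, FreeMonoid.toList_of, List.replicate_succ,
      List.singleton_append]

/-- The boundary lemma. If `B A = 1` modulo `I^(J+1)` and `f` has degree at most `J` in each letter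
and vanishes on the word `(1, ..., 1)`, then the sum of `f ∘ d0` vanishes.

Proof: (1) the additive map of word rings induced by `d0` is multiplicative on combinations of
words of even length and maps `letter b * letter a` to `letter (b * a)`, so
`wsum B A Q (f ∘ d0) = lin f (trace ((letM (B * A))^Q))`.
(2) Let `𝒦` be the set of all `z` in the word ring with `lin f (u * z * v) = 0` for all `u`, `v`:
a two-sided ideal. It contains `letter z` for `z ∈ (kerI S π)^(J+1)` by
`lin_eq_zero_of_degLT` (file Deg.lean). So modulo `𝒦` the matrices `letM (B * A)` and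
`letM 1 = [1] • 1` agree, hence `lin f (trace ((letM (B * A))^Q)) = n * f (1, ..., 1)`. -/
lemma wsum_d0 (π : G →* Γ) (J : ℕ) {B A : Matrix ι ι (MonoidAlgebra S G)}
    (hBA : EntIn ((kerI S π) ^ (J + 1)) (B * A - 1)) (Q : ℕ) {f : List G → S}
    (hf : ∀ u v : List G, DegLT π (J + 1) (fun g => f (u ++ g :: v)))
    (h1 : f (List.replicate Q 1) = 0) : wsum B A Q (fun w => f (d0 w)) = 0 := by
  have e1 : wsum B A Q (fun w => f (d0 w)) =
      lin (fun w : FreeMonoid G => f w.toList) (Matrix.trace ((letM (B * A)) ^ Q)) := by
    unfold wsum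
    rw [lin_dmap, Matrix.trace, Matrix.trace, map_sum]
    congr 1
    refine Finset.sum_congr rfl fun i _ => ?_
    rw [Matrix.diag_apply, Matrix.diag_apply, dmap_pow]
  have hK : ∀ i j, Kill f ((letM (B * A) - letM (1 : Matrix ι ι (MonoidAlgebra S G))) i j) := by
    intro i j
    have e : (letM (B * A) - letM (1 : Matrix ι ι (MonoidAlgebra S G))) i j =
        letter S G ((B * A - 1) i j) := by
      rw [Matrix.sub_apply, Matrix.sub_apply, letM_apply, letM_apply, map_sub]
    rw [e]
    exact kill_letter π (J + 1) hf (hBA i j)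
  have e2 : Matrix.trace ((letM (B * A)) ^ Q) =
      Matrix.trace ((letM (B * A)) ^ Q - (letM (1 : Matrix ι ι (MonoidAlgebra S G))) ^ Q) +
      Matrix.trace ((letM (1 : Matrix ι ι (MonoidAlgebra S G))) ^ Q) := by
    rw [Matrix.trace_sub]
    abel
  have e3 : lin (fun w : FreeMonoid G => f w.toList)
      (Matrix.trace ((letM (B * A)) ^ Q - (letM (1 : Matrix ι ι (MonoidAlgebra S G))) ^ Q)) = 0 := by
    rw [Matrix.trace, map_sum]
    refine Finset.sum_eq_zero fun i _ => ?_
    have := kill_pow_sub hK Q i i 1 1
    rwa [one_mul, mul_one] at this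
  have e4 : lin (fun w : FreeMonoid G => f w.toList)
      (Matrix.trace ((letM (1 : Matrix ι ι (MonoidAlgebra S G))) ^ Q)) = 0 := by
    rw [letM_one_pow, Matrix.trace_diagonal, map_sum]
    refine Finset.sum_eq_zero fun i _ => ?_
    rw [lin_single, toList_of_pow, h1, mul_zero]
  rw [e1, e2, map_add, e3, e4, add_zero]

/-- The product of the letters. -/
noncomputable def evW (S : Type*) [CommRing S] (G : Type*) [Group G] :
    MonoidAlgebra S (FreeMonoid G) →+* MonoidAlgebra S G :=
  MonoidAlgebra.mapDomainRingHom S (FreeMonoid.lift (id : G → G))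

lemma evW_single (w : FreeMonoid G) (a : S) :
    evW S G (MonoidAlgebra.single w a) = MonoidAlgebra.single w.toList.prod a := by
  change MonoidAlgebra.mapDomain _ (MonoidAlgebra.single w a) = _
  rw [MonoidAlgebra.mapDomain_single]
  congr 1
  rw [FreeMonoid.lift_apply, List.map_id]

lemma evW_letter (x : MonoidAlgebra S G) : evW S G (letter S G x) = x := by
  have h : ((evW S G : MonoidAlgebra S (FreeMonoid G) →+ MonoidAlgebra S G)).comp (letter S G) =
      AddMonoidHom.id _ := by
    refine MonoidAlgebra.addMonoidHom_ext fun g a => ?_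
    rw [AddMonoidHom.comp_apply, letter_single_d0]
    change evW S G (MonoidAlgebra.single (FreeMonoid.of g) a) = _
    rw [evW_single, FreeMonoid.toList_of, List.prod_singleton]
    rfl
  exact DFunLike.congr_fun h x

lemma evW_letM (C : Matrix ι ι (MonoidAlgebra S G)) : (evW S G).mapMatrix (letM C) = C := by
  ext1 i j
  rw [RingHom.mapMatrix_apply, Matrix.map_apply, letM_apply, evW_letter]

lemma lin_letter_mul {K : G → G → S} {F : List G → S}
    (hF : ∀ (h : G) (w : List G), F (h :: w) = K h w.prod) (b : MonoidAlgebra S G)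
    (x : MonoidAlgebra S (FreeMonoid G)) :
    lin (fun w : FreeMonoid G => F w.toList) (letter S G b * x) = bil K b (evW S G x) := by
  induction b using MonoidAlgebra.induction_linear with
  | zero => simp
  | add b b' hb hb' => rw [map_add, add_mul, map_add, hb, hb', map_add, AddMonoidHom.add_apply]
  | single h r =>
    induction x using MonoidAlgebra.induction_linear with
    | zero => simp
    | add x x' hx hx' => rw [mul_add, map_add, hx, hx', map_add, map_add]
    | single w t =>
      rw [letter_single_d0, MonoidAlgebra.single_mul_single, lin_single, evW_single, bil_single,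
        FreeMonoid.toList_mul, FreeMonoid.toList_of, List.singleton_append, hF, mul_assoc]

lemma entIn_pow_sub (π : G →* Γ) (k : ℕ) {X : Matrix ι ι (MonoidAlgebra S G)}
    (hX : EntIn ((kerI S π) ^ k) (X - 1)) (Q : ℕ) : EntIn ((kerI S π) ^ k) (X ^ Q - 1) := by
  induction Q with
  | zero =>
    intro i j
    rw [pow_zero, sub_self]
    exact zero_mem _
  | succ Q ih =>
    have e : X ^ (Q + 1) - 1 = X * (X ^ Q - 1) + (X - 1) := by
      rw [pow_succ', mul_sub, mul_one]
      abel
    intro i j
    rw [e, Matrix.add_apply, Matrix.mul_apply]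
    exact add_mem (sum_mem fun k _ => Ideal.mul_mem_left _ _ (ih k j)) (hX i j)

/-- Contraction. If `F` depends only on the first letter and on the product of the other letters
and has degree at most `J` in the latter, then the sum is a pairing.

Proof: `(βα)^(Q+1) = β * ((αβ)^Q * α)`, and under the homomorphism `S[FreeMonoid G] → S[G]`
(product of the letters) `(αβ)^Q α` goes to `(A B)^Q A`, which is `A` modulo `I^(J+1)`. -/
lemma wsum_contract (π : G →* Γ) (J : ℕ) {B A : Matrix ι ι (MonoidAlgebra S G)}
    (hAB : EntIn ((kerI S π) ^ (J + 1)) (A * B - 1)) (Q : ℕ) (hQ : 0 < Q) {K : G → G → S}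
    (hK : ∀ h, DegLT π (J + 1) (K h)) {F : List G → S}
    (hF : ∀ (h : G) (w : List G), F (h :: w) = K h w.prod) :
    wsum B A Q F = mbil (bil K) B A := by
  obtain ⟨q, rfl⟩ : ∃ q, Q = q + 1 := ⟨Q - 1, by omega⟩
  have e1 : (letM B * letM A) ^ (q + 1) = letM B * ((letM A * letM B) ^ q * letM A) := by
    rw [pow_succ', mul_assoc]
    congr 1
    have h : SemiconjBy (letM A) (letM B * letM A) (letM A * letM B) := (mul_assoc _ _ _).symm
    exact (h.pow_right q).eq
  have hz : ∀ i j, ((evW S G).mapMatrix ((letM A * letM B) ^ q * letM A) - A) i j ∈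
      (kerI S π) ^ (J + 1) := by
    intro i j
    have e : (evW S G).mapMatrix ((letM A * letM B) ^ q * letM A) - A = ((A * B) ^ q - 1) * A := by
      rw [map_mul, map_pow, map_mul, evW_letM, evW_letM, sub_mul, one_mul]
    rw [e, Matrix.mul_apply]
    exact sum_mem fun k _ => Ideal.mul_mem_right _ _ (entIn_pow_sub π (J + 1) hAB q i k)
  unfold wsum
  rw [e1, Matrix.trace, map_sum, mbil_apply]
  refine Finset.sum_congr rfl fun i _ => ?_
  rw [Matrix.diag_apply, Matrix.mul_apply, map_sum]
  refine Finset.sum_congr rfl fun j _ => ?_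
  rw [letM_apply, lin_letter_mul hF]
  have e2 : evW S G (((letM A * letM B) ^ q * letM A) j i) =
      A j i + ((evW S G).mapMatrix ((letM A * letM B) ^ q * letM A) - A) j i := by
    rw [Matrix.sub_apply, RingHom.mapMatrix_apply, Matrix.map_apply]
    abel
  rw [e2, map_add, bil_eq_zero_right hK (hz j i), add_zero]

end Pool.Agent.Lib.MP_8f66f0_al_Uni
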