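import Mathlib
import Pool.Agent.Lib.MP_8f66f0_al_Uni.Defs

/-! Sums over cyclic words.

`wsum B A Q F = lin F (trace ((β α)^Q))` where `α = letM A`, `β = letM B` are matrices over the
word ring `S[FreeMonoid G]` (multiplication = concatenation of words), so `wsum B A Q F` is the sum
over all words `w = (h_0, g_0, ..., h_{Q-1}, g_{Q-1})` (and all indices) of
`B_{i_0 j_0}(h_0) A_{j_0 i_1}(g_0) ... A_{j_{Q-1} i_0}(g_{Q-1}) F(w)`. -/

set_option autoImplicit false
set_option linter.unusedSectionVars false

namespace Pool.Agent.Lib.MP_8f66f0_al_Uni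

open Pool.Agent.Lib.MP_8f66f0_al_Dennis Pool.Agent.Lib.MP_8f66f0_al_FinQ
  Pool.Agent.Lib.MP_8f66f0_al_Plus

variable {G Γ : Type*} [Group G] [Group Γ] {S : Type*} [CommRing S] {ι : Type*} [Fintype ι]
  [DecidableEq ι]

section closure

/-- The additive submonoid generated by the multiples of the words with `N` letters from `T`. -/
noncomputable def wordsCl (S : Type*) [CommRing S] {G : Type*} (T : Set G) (N : ℕ) :
    AddSubmonoid (MonoidAlgebra S (FreeMonoid G)) :=
  AddSubmonoid.closure {x | ∃ (w : FreeMonoid G) (a : S), w.toList.length = N ∧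
    (∀ g ∈ w.toList, g ∈ T) ∧ x = MonoidAlgebra.single w a}

lemma single_mem_wordsCl {T : Set G} {N : ℕ} {w : FreeMonoid G} (h1 : w.toList.length = N)
    (h2 : ∀ g ∈ w.toList, g ∈ T) (a : S) : MonoidAlgebra.single w a ∈ wordsCl S T N :=
  AddSubmonoid.subset_closure ⟨w, a, h1, h2, rfl⟩

lemma mul_mem_wordsCl {T : Set G} {N M : ℕ} {x y : MonoidAlgebra S (FreeMonoid G)}
    (hx : x ∈ wordsCl S T N) (hy : y ∈ wordsCl S T M) : x * y ∈ wordsCl S T (N + M) := by
  unfold wordsCl at hx
  refine AddSubmonoid.closure_induction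
    (motive := fun x _ => x * y ∈ wordsCl S T (N + M)) ?_ ?_ ?_ hx
  · rintro _ ⟨w, a, hw1, hw2, rfl⟩
    unfold wordsCl at hy
    refine AddSubmonoid.closure_induction
      (motive := fun y _ => MonoidAlgebra.single w a * y ∈ wordsCl S T (N + M)) ?_ ?_ ?_ hy
    · rintro _ ⟨v, b, hv1, hv2, rfl⟩
      rw [MonoidAlgebra.single_mul_single]
      refine single_mem_wordsCl ?_ ?_ _
      · rw [FreeMonoid.toList_mul, List.length_append, hw1, hv1]
      · intro g hg
        rw [FreeMonoid.toList_mul, List.mem_append] at hg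
        rcases hg with hg | hg
        · exact hw2 g hg
        · exact hv2 g hg
    · rw [mul_zero]
      exact AddSubmonoid.zero_mem _
    · intro y z _ _ h1 h2
      rw [mul_add]
      exact AddSubmonoid.add_mem _ h1 h2
  · rw [zero_mul]
    exact AddSubmonoid.zero_mem _
  · intro y z _ _ h1 h2
    rw [add_mul]
    exact AddSubmonoid.add_mem _ h1 h2

lemma letter_single (g : G) (a : S) :
    letter S G (MonoidAlgebra.single g a) = MonoidAlgebra.single (FreeMonoid.of g) a := by
  unfold letter
  rw [AddMonoidHom.mk'_apply, MonoidAlgebra.mapDomain_single]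

lemma letter_mem_wordsCl {T : Set G} (x : MonoidAlgebra S G)
    (hx : ∀ g, x.coeff g ≠ 0 → g ∈ T) : letter S G x ∈ wordsCl S T 1 := by
  have h1 : x = ∑ g ∈ x.coeff.support, MonoidAlgebra.single g (x.coeff g) :=
    (MonoidAlgebra.sum_coeff_single x).symm
  rw [h1, map_sum]
  refine AddSubmonoid.sum_mem _ fun g hg => ?_
  rw [letter_single]
  refine single_mem_wordsCl ?_ ?_ _
  · rw [FreeMonoid.toList_of, List.length_singleton]
  · intro g' hg'
    rw [FreeMonoid.toList_of, List.mem_singleton] at hg'
    rw [hg']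
    exact hx g (Finsupp.mem_support_iff.mp hg)

lemma one_mem_wordsCl (T : Set G) : (1 : MonoidAlgebra S (FreeMonoid G)) ∈ wordsCl S T 0 := by
  rw [MonoidAlgebra.one_def]
  refine single_mem_wordsCl ?_ ?_ _
  · rw [FreeMonoid.toList_one, List.length_nil]
  · intro g hg
    rw [FreeMonoid.toList_one] at hg
    exact absurd hg List.not_mem_nil

lemma pair_mem_wordsCl {T : Set G} (B A : Matrix ι ι (MonoidAlgebra S G))
    (hB : ∀ i j g, (B i j).coeff g ≠ 0 → g ∈ T) (hA : ∀ i j g, (A i j).coeff g ≠ 0 → g ∈ T)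
    (i j : ι) : (letM B * letM A) i j ∈ wordsCl S T 2 := by
  rw [Matrix.mul_apply]
  refine AddSubmonoid.sum_mem _ fun k _ => ?_
  exact mul_mem_wordsCl (N := 1) (M := 1) (letter_mem_wordsCl _ (hB i k))
    (letter_mem_wordsCl _ (hA k j))

lemma pow_mem_wordsCl {T : Set G} (B A : Matrix ι ι (MonoidAlgebra S G))
    (hB : ∀ i j g, (B i j).coeff g ≠ 0 → g ∈ T) (hA : ∀ i j g, (A i j).coeff g ≠ 0 → g ∈ T)
    (Q : ℕ) : ∀ i j : ι, ((letM B * letM A) ^ Q) i j ∈ wordsCl S T (2 * Q) := by
  induction Q with
  | zero =>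
    intro i j
    rw [pow_zero, Nat.mul_zero, Matrix.one_apply]
    split_ifs
    · exact one_mem_wordsCl T
    · exact AddSubmonoid.zero_mem _
  | succ Q ih =>
    intro i j
    rw [pow_succ, Matrix.mul_apply, Nat.mul_succ]
    refine AddSubmonoid.sum_mem _ fun k _ => ?_
    exact mul_mem_wordsCl (ih i k) (pair_mem_wordsCl B A hB hA k j)

lemma lin_eq_zero_of_mem_wordsCl {T : Set G} {N : ℕ} {F : FreeMonoid G → S}
    (hF : ∀ w : FreeMonoid G, w.toList.length = N → (∀ g ∈ w.toList, g ∈ T) → F w = 0)
    {x : MonoidAlgebra S (FreeMonoid G)} (hx : x ∈ wordsCl S T N) :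
    MP_8f66f0_al_FinQ.lin F x = 0 := by
  unfold wordsCl at hx
  refine AddSubmonoid.closure_induction (motive := fun x _ => MP_8f66f0_al_FinQ.lin F x = 0) ?_ ?_ ?_ hx
  · rintro _ ⟨w, a, h1, h2, rfl⟩
    rw [lin_single, hF w h1 h2, mul_zero]
  · exact map_zero _
  · intro x y _ _ h1 h2
    rw [map_add, h1, h2, add_zero]

lemma lin_rotate (k : ℕ) (F : List G → S) {x : MonoidAlgebra S (FreeMonoid G)}
    (hx : x ∈ wordsCl S (Set.univ : Set G) k) (y : MonoidAlgebra S (FreeMonoid G)) :
    lin (fun w : FreeMonoid G => F (w.toList.rotate k)) (x * y) =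
      lin (fun w : FreeMonoid G => F w.toList) (y * x) := by
  induction y using MonoidAlgebra.induction_linear with
  | zero => rw [mul_zero, zero_mul, map_zero, map_zero]
  | add y z hy hz => rw [mul_add, add_mul, map_add, map_add, hy, hz]
  | single m r =>
    unfold wordsCl at hx
    refine AddSubmonoid.closure_induction (motive := fun x _ =>
      lin (fun w : FreeMonoid G => F (w.toList.rotate k)) (x * MonoidAlgebra.single m r) =
      lin (fun w : FreeMonoid G => F w.toList) (MonoidAlgebra.single m r * x)) ?_ ?_ ?_ hx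
    · rintro _ ⟨w, a, hw, _, rfl⟩
      rw [MonoidAlgebra.single_mul_single, MonoidAlgebra.single_mul_single, lin_single,
        lin_single]
      have h1 : (w * m).toList.rotate k = (m * w).toList := by
        rw [FreeMonoid.toList_mul, FreeMonoid.toList_mul, ← hw, List.rotate_append_length_eq]
      rw [h1, mul_comm a r]
    · rw [mul_zero, zero_mul, map_zero, map_zero]
    · intro x y _ _ h1 h2
      rw [mul_add, add_mul, map_add, map_add, h1, h2]

lemma trace_rotate (k : ℕ) (F : List G → S) {X Y : Matrix ι ι (MonoidAlgebra S (FreeMonoid G))}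
    (hX : ∀ i j, X i j ∈ wordsCl S (Set.univ : Set G) k) :
    lin (fun w : FreeMonoid G => F (w.toList.rotate k)) (Matrix.trace (X * Y)) =
      lin (fun w : FreeMonoid G => F w.toList) (Matrix.trace (Y * X)) := by
  have h1 : lin (fun w : FreeMonoid G => F (w.toList.rotate k)) (Matrix.trace (X * Y)) =
      ∑ i, ∑ j, lin (fun w : FreeMonoid G => F w.toList) (Y j i * X i j) := by
    rw [Matrix.trace, map_sum]
    refine Finset.sum_congr rfl fun i _ => ?_
    rw [Matrix.diag_apply, Matrix.mul_apply, map_sum]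
    exact Finset.sum_congr rfl fun j _ => lin_rotate k F (hX i j) _
  have h2 : lin (fun w : FreeMonoid G => F w.toList) (Matrix.trace (Y * X)) =
      ∑ j, ∑ i, lin (fun w : FreeMonoid G => F w.toList) (Y j i * X i j) := by
    rw [Matrix.trace, map_sum]
    refine Finset.sum_congr rfl fun i _ => ?_
    rw [Matrix.diag_apply, Matrix.mul_apply, map_sum]
  rw [h1, h2, Finset.sum_comm]

end closure

/-- Additivity and homogeneity in `F`. -/
lemma wsum_add (B A : Matrix ι ι (MonoidAlgebra S G)) (Q : ℕ) (F F' : List G → S) :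
    wsum B A Q (fun w => F w + F' w) = wsum B A Q F + wsum B A Q F' := by
  unfold wsum
  rw [lin_apply, lin_apply, lin_apply, ← Finsupp.sum_add]
  exact Finsupp.sum_congr fun w _ => mul_add _ _ _

lemma wsum_smul (B A : Matrix ι ι (MonoidAlgebra S G)) (Q : ℕ) (a : S) (F : List G → S) :
    wsum B A Q (fun w => a * F w) = a * wsum B A Q F := by
  unfold wsum
  rw [lin_apply, lin_apply, Finsupp.mul_sum]
  exact Finsupp.sum_congr fun w _ => mul_left_comm _ _ _

/-- More precisely: only letters in the supports of the entries of `B` and `A` occur. -/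
lemma wsum_eq_zero_of_support (B A : Matrix ι ι (MonoidAlgebra S G)) (Q : ℕ) {F : List G → S}
    (T : Set G) (hB : ∀ i j g, (B i j).coeff g ≠ 0 → g ∈ T)
    (hA : ∀ i j g, (A i j).coeff g ≠ 0 → g ∈ T)
    (h : ∀ w : List G, w.length = 2 * Q → (∀ g ∈ w, g ∈ T) → F w = 0) : wsum B A Q F = 0 := by
  unfold wsum
  refine lin_eq_zero_of_mem_wordsCl (T := T) (N := 2 * Q) (fun w h1 h2 => h _ h1 h2) ?_
  rw [Matrix.trace]
  refine AddSubmonoid.sum_mem _ fun i _ => ?_
  rw [Matrix.diag_apply]
  exact pow_mem_wordsCl B A hB hA Q i i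

/-- Only words of length `2 Q` occur.

Proof: by induction on `Q` every word in the support of an entry of `(β α)^Q` has length `2 Q`. -/
lemma wsum_congr (B A : Matrix ι ι (MonoidAlgebra S G)) (Q : ℕ) {F F' : List G → S}
    (h : ∀ w : List G, w.length = 2 * Q → F w = F' w) : wsum B A Q F = wsum B A Q F' := by
  have h1 : wsum B A Q F = wsum B A Q F' + wsum B A Q (fun w => F w - F' w) := by
    rw [← wsum_add]
    congr 1
    funext w
    ring
  rw [h1, wsum_eq_zero_of_support B A Q (F := fun w => F w - F' w) Set.univ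
    (fun _ _ _ _ => Set.mem_univ _) (fun _ _ _ _ => Set.mem_univ _)
    (fun w hw _ => sub_eq_zero.mpr (h w hw)), add_zero]

/-- Rotation by one pair of letters.

Proof: `trace ((βα) X) ` and `trace (X (βα))`, `X = (βα)^(Q-1)`: for matrices `X`, `Y` over the word
ring, `trace (X Y)` and `trace (Y X)` correspond under exchanging the two parts of the words. -/
lemma wsum_rotate (B A : Matrix ι ι (MonoidAlgebra S G)) (Q : ℕ) (F : List G → S) :
    wsum B A Q (fun w => F (w.rotate 2)) = wsum B A Q F := by
  cases Q with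
  | zero =>
    refine wsum_congr B A 0 fun w hw => ?_
    rw [Nat.mul_zero, List.length_eq_zero_iff] at hw
    rw [hw, List.rotate_nil]
  | succ Q =>
    unfold wsum
    rw [pow_succ', trace_rotate 2 F (pair_mem_wordsCl B A (fun _ _ _ _ => Set.mem_univ _)
      (fun _ _ _ _ => Set.mem_univ _)), ← pow_succ, pow_succ']

/-- Rotation by one letter exchanges the roles of `A` and `B`. -/
lemma wsum_rotate_one (B A : Matrix ι ι (MonoidAlgebra S G)) (Q : ℕ) (F : List G → S) :
    wsum B A Q (fun w => F (w.rotate 1)) = wsum A B Q F := by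
  cases Q with
  | zero =>
    have h1 : wsum B A 0 (fun w => F (w.rotate 1)) = wsum B A 0 F := by
      refine wsum_congr B A 0 fun w hw => ?_
      rw [Nat.mul_zero, List.length_eq_zero_iff] at hw
      rw [hw, List.rotate_nil]
    rw [h1]
    unfold wsum
    rw [pow_zero, pow_zero]
  | succ Q =>
    unfold wsum
    have h1 : ∀ n : ℕ, letM A * (letM B * letM A) ^ n * letM B = (letM A * letM B) ^ (n + 1) := by
      intro n
      induction n with
      | zero => rw [pow_zero, mul_one, zero_add, pow_one]
      | succ n ih =>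
        rw [pow_succ (letM A * letM B), ← ih, pow_succ]
        simp only [mul_assoc]
    have h2 : (letM B * letM A) ^ (Q + 1) = letM B * (letM A * (letM B * letM A) ^ Q) := by
      rw [pow_succ', mul_assoc]
    rw [h2, trace_rotate 1 F (X := letM B) (fun i j => letter_mem_wordsCl _ (fun _ _ => Set.mem_univ _)), h1]

/-- Change of coefficients. -/
lemma wsum_cast (B A : Matrix ι ι (MonoidAlgebra ℤ G)) (Q : ℕ) (F : List G → ℤ) :
    wsum (baseMat S B) (baseMat S A) Q (fun w => (F w : S)) = ((wsum B A Q F : ℤ) : S) := by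
  have h1 : ∀ x : MonoidAlgebra ℤ G, letter S G (MonoidAlgebra.mapRingHom G (Int.castRingHom S) x)
      = MonoidAlgebra.mapRingHom (FreeMonoid G) (Int.castRingHom S) (letter ℤ G x) := by
    intro x
    induction x using MonoidAlgebra.induction_linear with
    | zero => simp only [map_zero]
    | add y z hy hz => simp only [map_add, hy, hz]
    | single m r =>
      rw [MonoidAlgebra.mapRingHom_single, letter_single, letter_single,
        MonoidAlgebra.mapRingHom_single]
  have h2 : ∀ C : Matrix ι ι (MonoidAlgebra ℤ G), letM (baseMat S C) =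
      (MonoidAlgebra.mapRingHom (FreeMonoid G) (Int.castRingHom S)).mapMatrix (letM C) := by
    intro C
    refine Matrix.ext fun i j => ?_
    exact h1 (C i j)
  have h3 : ∀ x : MonoidAlgebra ℤ (FreeMonoid G),
      lin (fun w : FreeMonoid G => (F w.toList : S))
        (MonoidAlgebra.mapRingHom (FreeMonoid G) (Int.castRingHom S) x) =
      ((lin (fun w : FreeMonoid G => F w.toList) x : ℤ) : S) := by
    intro x
    induction x using MonoidAlgebra.induction_linear with
    | zero => simp only [map_zero, Int.cast_zero]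
    | add y z hy hz => simp only [map_add, hy, hz, Int.cast_add]
    | single m r =>
      rw [MonoidAlgebra.mapRingHom_single, lin_single, lin_single, Int.cast_mul]
      rfl
  unfold wsum
  rw [h2, h2, ← map_mul, ← map_pow, ← h3]
  congr 1
  rw [Matrix.trace, Matrix.trace, map_sum]
  rfl

end Pool.Agent.Lib.MP_8f66f0_al_Uni
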