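import Mathlib
import Pool.Agent.Lib.MP_8f66f0_al_Uni.EpsF
import Pool.Agent.Lib.MP_8f66f0_al_Uni.WordD0
import Pool.Agent.Lib.MP_8f66f0_al_Uni.WordSum

/-! The relation between the pairing and the phase invariant. -/

set_option autoImplicit false
set_option linter.unusedSectionVars false

namespace Pool.Agent.Lib.MP_8f66f0_al_Uni

open Pool.Agent.Lib.MP_8f66f0_al_Dennis Pool.Agent.Lib.MP_8f66f0_al_FinQ
  Pool.Agent.Lib.MP_8f66f0_al_Plus

variable {G Γ : Type*} [Group G] [Group Γ] {S : Type*} [CommRing S] {ι : Type*} [Fintype ι]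
  [DecidableEq ι] {π : G →* Γ} {c : Γ} {J : ℕ} {δ : G → G → S} {D : S}

namespace LemmaB

lemma bil_flip (K : G → G → S) (x y : MonoidAlgebra S G) :
    bil (fun h g => K g h) y x = bil K x y := by
  induction x using MonoidAlgebra.induction_linear with
  | zero => simp
  | add x x' hx hx' => rw [map_add, map_add, AddMonoidHom.add_apply, hx, hx']
  | single g a =>
    induction y using MonoidAlgebra.induction_linear with
    | zero => simp
    | add y y' hy hy' => rw [map_add, map_add, AddMonoidHom.add_apply, hy, hy']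
    | single h b =>
      rw [bil_single, bil_single]
      ring

lemma bil_neg' (K : G → G → S) (x y : MonoidAlgebra S G) :
    bil (fun g h => - K g h) x y = - bil K x y := by
  induction x using MonoidAlgebra.induction_linear with
  | zero => simp
  | add x x' hx hx' =>
    rw [map_add, map_add, AddMonoidHom.add_apply, AddMonoidHom.add_apply, hx, hx', neg_add]
  | single g a =>
    induction y using MonoidAlgebra.induction_linear with
    | zero => simp
    | add y y' hy hy' => rw [map_add, map_add, hy, hy', neg_add]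
    | single h b =>
      rw [bil_single, bil_single]
      ring

lemma mbil_flip (K : G → G → S) (X Y : Matrix ι ι (MonoidAlgebra S G)) :
    mbil (bil (fun h g => K g h)) Y X = mbil (bil K) X Y := by
  rw [mbil_apply, mbil_apply, Finset.sum_comm]
  exact Finset.sum_congr rfl fun i _ => Finset.sum_congr rfl fun j _ => bil_flip K _ _

lemma mbil_neg' (K : G → G → S) (X Y : Matrix ι ι (MonoidAlgebra S G)) :
    mbil (bil (fun g h => - K g h)) X Y = - mbil (bil K) X Y := by
  rw [mbil_apply, mbil_apply, ← Finset.sum_neg_distrib]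
  refine Finset.sum_congr rfl fun i _ => ?_
  rw [← Finset.sum_neg_distrib]
  exact Finset.sum_congr rfl fun j _ => bil_neg' K _ _

/-- the sum respects congruences -/
lemma wsum_dvd (B A : Matrix ι ι (MonoidAlgebra S G)) (Q : ℕ) (a : S) {F F' : List G → S}
    (h : ∀ w : List G, w.length = 2 * Q → a ∣ F w - F' w) :
    a ∣ wsum B A Q F - wsum B A Q F' := by
  choose! k hk using h
  refine ⟨wsum B A Q k, ?_⟩
  rw [← wsum_smul, sub_eq_iff_eq_add', ← wsum_add]
  refine wsum_congr B A Q fun w hw => ?_
  rw [← hk w hw]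
  ring

lemma wsum_finsum {α : Type*} (B A : Matrix ι ι (MonoidAlgebra S G)) (Q : ℕ) (s : Finset α)
    (F : α → List G → S) :
    wsum B A Q (fun w => ∑ a ∈ s, F a w) = ∑ a ∈ s, wsum B A Q (F a) := by
  classical
  induction s using Finset.induction_on with
  | empty =>
    have h := wsum_smul B A Q 0 (fun _ => (0 : S))
    simpa using h
  | insert a s ha ih =>
    rw [Finset.sum_insert ha, ← ih, ← wsum_add]
    refine wsum_congr B A Q fun w _ => ?_
    rw [Finset.sum_insert ha]

lemma d0_length : ∀ (Q : ℕ) (w : List G), w.length = 2 * Q → (d0 w).length = Q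
  | 0, w, h => by
    have : w = [] := List.length_eq_zero_iff.1 (by simpa using h)
    rw [this]
    rfl
  | Q + 1, w, h => by
    match w, h with
    | [], h => simp at h
    | [a], h =>
      simp at h
      omega
    | a :: b :: w, h =>
      have h' : w.length = 2 * Q := by
        simp at h
        omega
      change (d0 w).length + 1 = Q + 1
      rw [d0_length Q w h']

lemma d0_prod : ∀ (Q : ℕ) (w : List G), w.length = 2 * Q → (d0 w).prod = w.prod
  | 0, w, h => by
    have : w = [] := List.length_eq_zero_iff.1 (by simpa using h)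
    rw [this]
    rfl
  | Q + 1, w, h => by
    match w, h with
    | [], h => simp at h
    | [a], h =>
      simp at h
      omega
    | a :: b :: w, h =>
      have h' : w.length = 2 * Q := by
        simp at h
        omega
      change ((a * b) :: d0 w).prod = _
      rw [List.prod_cons, d0_prod Q w h', List.prod_cons, List.prod_cons, mul_assoc]

lemma d0_append_pair : ∀ (Q : ℕ) (w : List G) (a b : G), w.length = 2 * Q →
    d0 (w ++ [a, b]) = d0 w ++ [a * b]
  | 0, w, a, b, h => by
    have : w = [] := List.length_eq_zero_iff.1 (by simpa using h)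
    rw [this]
    rfl
  | Q + 1, w, a, b, h => by
    match w, h with
    | [], h => simp at h
    | [x], h =>
      simp at h
      omega
    | x :: y :: w, h =>
      have h' : w.length = 2 * Q := by
        simp at h
        omega
      change (x * y) :: d0 (w ++ [a, b]) = (x * y) :: d0 w ++ [a * b]
      rw [d0_append_pair Q w a b h']
      rfl

lemma d0_rotate {Q : ℕ} (w : List G) (hw : w.length = 2 * Q) :
    d0 (w.rotate 2) = (d0 w).rotate 1 := by
  match w, hw with
  | [], _ => rfl
  | [x], h =>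
    simp at h
    omega
  | x :: y :: w, h =>
    have h' : w.length = 2 * (Q - 1) := by
      simp at h
      omega
    have h1 : (x :: y :: w).rotate 2 = w ++ [x, y] := by
      rw [List.rotate_eq_drop_append_take (by simp)]
      rfl
    have h2 : (d0 (x :: y :: w)).rotate 1 = d0 w ++ [x * y] := by
      change ((x * y) :: d0 w).rotate 1 = _
      rw [List.rotate_cons_succ, List.rotate_zero]
    rw [h1, h2, d0_append_pair (Q - 1) w x y h']

lemma isConj_rotate {H : Type*} [Group H] {c : H} (w : List H) (n : ℕ) :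
    IsConj c (w.rotate n).prod ↔ IsConj c w.prod := by
  have h1 : IsConj w.prod (w.rotate n).prod := by
    rw [List.rotate_eq_drop_append_take_mod, isConj_iff]
    refine ⟨((w.take (n % w.length)).prod)⁻¹, ?_⟩
    conv_lhs => rw [← List.take_append_drop (n % w.length) w]
    rw [List.prod_append, List.prod_append, inv_inv, List.take_append_drop]
    group
  exact ⟨fun h => h.trans h1.symm, fun h => h.trans h1⟩

lemma cls_rotate (w : List G) (n : ℕ) :
    IsConj c (π (w.rotate n).prod) ↔ IsConj c (π w.prod) := by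
  rw [map_list_prod, map_list_prod, List.map_rotate]
  exact isConj_rotate _ _

/-- the phase of a word -/
def th (π : G →* Γ) (θ : List Γ → ℤ) (q : ℕ) (x : List G) : ZMod q := (θ (x.map π) : ZMod q)

lemma th_rotate {Q q : ℕ} {θ : List Γ → ℤ} (hθ : IsPhase c Q q θ) (x : List G)
    (hx : x.length = Q) (hc : IsConj c (π x.prod)) :
    th π θ q (x.rotate 1) = th π θ q x + 1 := by
  have h := hθ.shift (x.map π) (by simpa using hx) (by rw [← map_list_prod]; exact hc)
  rw [← List.map_rotate] at h
  have h2 := (ZMod.intCast_zmod_eq_zero_iff_dvd _ q).2 h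
  push_cast at h2
  unfold th
  linear_combination h2

lemma th_eq_zero {Q q : ℕ} {θ : List Γ → ℤ} (hθ : IsPhase c Q q θ) (x : List G) :
    th π θ q x = 0 ↔ θ (x.map π) = 0 := by
  unfold th
  rw [ZMod.intCast_zmod_eq_zero_iff_dvd]
  constructor
  · intro h
    refine Int.eq_zero_of_abs_lt_dvd h ?_
    rw [abs_of_nonneg (hθ.nonneg _)]
    exact hθ.lt _
  · intro h
    rw [h]
    exact dvd_zero _

/-- the rotation invariant -/
noncomputable def InvF (π : G →* Γ) (c : Γ) (δ : G → G → S) (D : S) (θ : List Γ → ℤ)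
    (x : List G) : S := D * (θ (x.map π) : S) - SF π c δ x

lemma InvF_rotate (hδ : IsPoly π c J δ D) {Q q : ℕ} (hD : (Q : S) ∣ D * q) {θ : List Γ → ℤ}
    (hθ : IsPhase c Q q θ) (x : List G) (hx : x.length = Q) (hc : IsConj c (π x.prod)) :
    (Q : S) ∣ InvF π c δ D θ (x.rotate 1) - InvF π c δ D θ x := by
  obtain ⟨k, hk⟩ := hθ.shift (x.map π) (by simpa using hx) (by rw [← map_list_prod]; exact hc)
  rw [← List.map_rotate] at hk
  have hk' : (θ ((x.rotate 1).map π) : S) = θ (x.map π) + 1 + q * k := by
    have : θ ((x.rotate 1).map π) = θ (x.map π) + 1 + q * k := by linarith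
    rw [this]
    push_cast
    ring
  unfold InvF
  rw [SF_rotate hδ x hc, hx, hk']
  have h1 : D * ((θ (x.map π) : S) + 1 + q * k) -
      (SF π c δ x + (Q : S) * epsF π c δ x + D) - (D * (θ (x.map π) : S) - SF π c δ x) =
      D * q * k - Q * epsF π c δ x := by ring
  rw [h1]
  exact dvd_sub (dvd_mul_of_dvd_left hD _) (dvd_mul_right _ _)

lemma const_of_add_one {X : Type*} {q : ℕ} [NeZero q] (f : ZMod q → X)
    (h : ∀ j, f (j + 1) = f j) (j : ZMod q) : f j = f 0 := by
  have h1 : ∀ n : ℕ, f (n : ZMod q) = f 0 := by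
    intro n
    induction n with
    | zero => simp
    | succ n ih => rw [Nat.cast_succ, h, ih]
  have h2 := h1 j.val
  rwa [ZMod.natCast_zmod_val] at h2

/-- the sum of the values of `ε` over the rotations of a word -/
noncomputable def HF (π : G →* Γ) (c : Γ) (δ : G → G → S) (Q : ℕ) (w : List G) : S :=
  ∑ t ∈ Finset.range Q, epsF π c δ (w.rotate (2 * t))

lemma HF_rotate {Q : ℕ} (w : List G) (hw : w.length = 2 * Q) :
    HF π c δ Q (w.rotate 2) = HF π c δ Q w := by
  unfold HF
  have h1 : ∀ t, (w.rotate 2).rotate (2 * t) = w.rotate (2 * (t + 1)) := by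
    intro t
    rw [List.rotate_rotate]
    congr 1
    ring
  rw [Finset.sum_congr rfl fun t _ => by rw [h1]]
  have h2 := Finset.sum_range_succ (fun t => epsF π c δ (w.rotate (2 * t))) Q
  have h3 := Finset.sum_range_succ' (fun t => epsF π c δ (w.rotate (2 * t))) Q
  rw [h2] at h3
  have h4 : w.rotate (2 * Q) = w := by rw [← hw, List.rotate_length]
  have h5 : w.rotate (2 * 0) = w := by simp
  rw [h4, h5] at h3
  exact (add_right_cancel h3).symm

section main

variable {Q q r : ℕ} {θ : List Γ → ℤ} {A B : Matrix ι ι (MonoidAlgebra S G)}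

open Classical in
lemma step1 [IsDomain S] [CharZero S] (hδ : IsPoly π c J δ D)
    (hQ : Q = q * r) (hq : 0 < q) (hr : 0 < r)
    (hθ : IsPhase c Q q θ)
    (hAB : EntIn ((kerI S π) ^ (J + 1)) (A * B - 1)) :
    wsum B A Q (fun w => if IsConj c (π w.prod) ∧ th π θ q (d0 w) = 0 then HF π c δ Q w else 0) =
      - ((r : S) * mbil (bil (psiW π c δ)) A B) := by
  have : NeZero q := ⟨hq.ne'⟩
  set F : ZMod q → List G → S := fun j w =>
    if IsConj c (π w.prod) ∧ th π θ q (d0 w) = j then HF π c δ Q w else 0 with hF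
  have hF1 : ∀ j, wsum B A Q (F (j + 1)) = wsum B A Q (F j) := by
    intro j
    rw [← wsum_rotate]
    refine wsum_congr B A Q fun w hw => ?_
    simp only [hF]
    rw [cls_rotate, HF_rotate w hw, d0_rotate w hw]
    by_cases hc : IsConj c (π w.prod)
    · rw [th_rotate hθ (d0 w) (d0_length Q w hw) (by rw [d0_prod Q w hw]; exact hc)]
      simp only [hc, true_and, add_left_inj]
    · simp only [hc, false_and]
  have hF2 : ∀ j, wsum B A Q (F j) = wsum B A Q (F 0) := const_of_add_one _ hF1
  have hF3 : ∑ j, wsum B A Q (F j) = (q : S) * wsum B A Q (F 0) := by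
    rw [Finset.sum_congr rfl fun j _ => hF2 j, Finset.sum_const, Finset.card_univ, ZMod.card,
      nsmul_eq_mul]
  set e : List G → S := fun w => if IsConj c (π w.prod) then epsF π c δ w else 0 with he
  have hF4 : ∑ j, wsum B A Q (F j) = ∑ t ∈ Finset.range Q, wsum B A Q (fun w => e (w.rotate (2 * t))) := by
    rw [← wsum_finsum, ← wsum_finsum]
    refine wsum_congr B A Q fun w _ => ?_
    simp only [hF, he]
    by_cases hc : IsConj c (π w.prod)
    · simp only [hc, true_and, cls_rotate, if_true]
      rw [Finset.sum_ite_eq]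
      simp [HF]
    · simp only [hc, false_and, cls_rotate, if_false, Finset.sum_const_zero]
  have he1 : ∀ t, wsum B A Q (fun w => e (w.rotate (2 * t))) = wsum B A Q e := by
    intro t
    induction t with
    | zero => simp
    | succ t ih =>
      rw [← ih, ← wsum_rotate B A Q (fun w => e (w.rotate (2 * t)))]
      refine wsum_congr B A Q fun w _ => ?_
      rw [List.rotate_rotate]
      congr 2
      ring
  rw [Finset.sum_congr rfl fun t _ => he1 t, Finset.sum_const, Finset.card_range,
    nsmul_eq_mul, hF3] at hF4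
  have he2 : wsum B A Q e = - mbil (bil (psiW π c δ)) A B := by
    have hQ0 : 0 < Q := by rw [hQ]; exact Nat.mul_pos hq hr
    have h1 : wsum B A Q e = wsum B A Q (epsF π c δ) := by
      refine wsum_congr B A Q fun w hw => ?_
      simp only [he]
      split_ifs with hc
      · rfl
      · match w, hw with
        | [], hw => simp [epsF]
        | h :: w, hw =>
          have h2 : ¬ IsConj c (π (w.prod * h)) := by
            intro h3
            apply hc
            have h4 := (cls_rotate (π := π) (c := c) (h :: w) 1).1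
            apply h4
            rw [List.rotate_cons_succ, List.rotate_zero, List.prod_append, List.prod_singleton]
            exact h3
          simp only [epsF, psiW, if_neg h2, neg_zero]
    rw [h1, wsum_contract π J hAB Q hQ0 (K := fun h g => - psiW π c δ g h) ?_ ?_]
    · rw [mbil_flip (fun g h => - psiW π c δ g h) A B, mbil_neg']
    · intro h
      exact (hδ.degL h).comp_hom (negAddMonoidHom)
    · intro h w
      rfl
  rw [he2] at hF4
  have h5 : (q : S) ≠ 0 := by exact_mod_cast hq.ne'
  apply mul_left_cancel₀ h5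
  change (q : S) * wsum B A Q (F 0) = _
  rw [hF4, hQ]
  push_cast
  ring

open Classical in
/-- the function `[P(x) ∈ c] [θ(x) = 0] S(x)` -/
noncomputable def fF (π : G →* Γ) (c : Γ) (δ : G → G → S) (θ : List Γ → ℤ) (x : List G) : S :=
  if IsConj c (π x.prod) ∧ θ (x.map π) = 0 then SF π c δ x else 0

lemma deg_fF (hδ : IsPoly π c J δ D) (θ : List Γ → ℤ) (u v : List G) :
    DegLT π (J + 1) (fun g => fF π c δ θ (u ++ g :: v)) := by
  classical
  have h1 : (fun g => fF π c δ θ (u ++ g :: v)) = fun g =>
      ∑ t ∈ Finset.range (u.length + (v.length + 1)),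
        (if IsConj c (π (u ++ g :: v).prod) then
          ((if θ ((u ++ g :: v).map π) = 0 then (t : S) else 0) *
            epsF π c δ ((u ++ g :: v).rotate t)) else 0) := by
    funext g
    unfold fF SF
    have h2 : (u ++ g :: v).length = u.length + (v.length + 1) := by simp
    rw [h2]
    by_cases hc : IsConj c (π (u ++ g :: v).prod)
    · by_cases h0 : θ ((u ++ g :: v).map π) = 0
      · simp only [hc, h0, true_and, if_true]
      · simp only [hc, h0, true_and, if_true, if_false, zero_mul, Finset.sum_const_zero]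
    · simp only [hc, false_and, if_false, Finset.sum_const_zero]
  rw [h1]
  refine DegLT.sum _ fun t _ => ?_
  exact deg_epsF_rotate hδ (fun z => if θ z = 0 then (t : S) else 0) t u v

lemma fF_one (hc1 : c ≠ 1) (θ : List Γ → ℤ) (Q : ℕ) :
    fF π c δ θ (List.replicate Q 1) = 0 := by
  unfold fF
  rw [if_neg]
  rintro ⟨h, -⟩
  rw [List.prod_replicate, one_pow, map_one] at h
  exact hc1 (isConj_one_left.1 h)

lemma wsum_fF (hδ : IsPoly π c J δ D) (hc1 : c ≠ 1) (θ : List Γ → ℤ)
    (hBA : EntIn ((kerI S π) ^ (J + 1)) (B * A - 1)) (Q : ℕ) :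
    wsum B A Q (fun w => fF π c δ θ (d0 w)) = 0 :=
  wsum_d0 π J hBA Q (deg_fF hδ θ) (fF_one hc1 θ Q)

open Classical in
lemma step3 (hδ : IsPoly π c J δ D) (hc1 : c ≠ 1) (hq : 0 < q)
    (hD : (Q : S) ∣ D * q) (hθ : IsPhase c Q q θ)
    (hAB : EntIn ((kerI S π) ^ (J + 1)) (A * B - 1)) :
    (Q : S) ∣ wsum B A Q (fun w => if IsConj c (π w.prod) ∧ th π θ q (d0 w) = 0 then
      InvF π c δ D θ (d0 (w.rotate 1)) else 0) := by
  have : NeZero q := ⟨hq.ne'⟩
  set E : ZMod q → ZMod q → List G → S := fun k i w =>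
    if IsConj c (π w.prod) ∧ th π θ q (d0 w) = i ∧ th π θ q (d0 (w.rotate 1)) = i + k then
      InvF π c δ D θ (d0 (w.rotate 1)) else 0 with hE
  have hE1 : ∀ k i, (Q : S) ∣ wsum B A Q (E k (i + 1)) - wsum B A Q (E k i) := by
    intro k i
    rw [← wsum_rotate]
    refine wsum_dvd B A Q _ fun w hw => ?_
    simp only [hE]
    have hw1 : (w.rotate 1).length = 2 * Q := by rw [List.length_rotate, hw]
    have h1 : (w.rotate 2).rotate 1 = (w.rotate 1).rotate 2 := by
      rw [List.rotate_rotate, List.rotate_rotate]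
    rw [cls_rotate, h1, d0_rotate w hw, d0_rotate _ hw1]
    by_cases hc : IsConj c (π w.prod)
    · have hc0 : IsConj c (π (d0 w).prod) := by rw [d0_prod Q w hw]; exact hc
      have hc2 : IsConj c (π (d0 (w.rotate 1)).prod) := by
        rw [d0_prod Q _ hw1, cls_rotate]; exact hc
      rw [th_rotate hθ (d0 w) (d0_length Q w hw) hc0,
        th_rotate hθ (d0 (w.rotate 1)) (d0_length Q _ hw1) hc2]
      have h2 : i + 1 + k = i + k + 1 := by ring
      rw [h2]
      simp only [hc, true_and, add_left_inj]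
      split_ifs
      · exact InvF_rotate hδ hD hθ _ (d0_length Q _ hw1) hc2
      · simp
    · simp only [hc, false_and, if_false, sub_self, dvd_zero]
  set mk := Ideal.Quotient.mk (Ideal.span {(Q : S)}) with hmk
  have hmk0 : ∀ a b : S, (Q : S) ∣ a - b → mk a = mk b := by
    intro a b h
    exact Ideal.Quotient.eq.2 (Ideal.mem_span_singleton.2 h)
  have hE2 : ∀ k i, mk (wsum B A Q (E k i)) = mk (wsum B A Q (E k 0)) := fun k i =>
    const_of_add_one (fun i => mk (wsum B A Q (E k i))) (fun j => hmk0 _ _ (hE1 k j)) i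
  -- the sum over the other phase
  have h1 : wsum B A Q (fun w => if IsConj c (π w.prod) ∧ th π θ q (d0 w) = 0 then
      InvF π c δ D θ (d0 (w.rotate 1)) else 0) = ∑ k, wsum B A Q (E k 0) := by
    rw [← wsum_finsum]
    refine wsum_congr B A Q fun w _ => ?_
    simp only [hE]
    by_cases hc : IsConj c (π w.prod) ∧ th π θ q (d0 w) = 0
    · rw [if_pos hc]
      simp only [hc.1, hc.2, true_and, zero_add]
      rw [Finset.sum_ite_eq]
      simp
    · rw [if_neg hc]
      symm
      refine Finset.sum_eq_zero fun k _ => if_neg ?_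
      rintro ⟨a, b, -⟩
      exact hc ⟨a, b⟩
  have h2 : ∑ k, wsum B A Q (E k (-k)) = wsum B A Q (fun w =>
      if IsConj c (π w.prod) ∧ th π θ q (d0 (w.rotate 1)) = 0 then
      InvF π c δ D θ (d0 (w.rotate 1)) else 0) := by
    rw [← wsum_finsum]
    refine wsum_congr B A Q fun w _ => ?_
    simp only [hE]
    by_cases hc : IsConj c (π w.prod) ∧ th π θ q (d0 (w.rotate 1)) = 0
    · rw [if_pos hc, Finset.sum_eq_single (- th π θ q (d0 w))]
      · rw [if_pos]
        exact ⟨hc.1, by rw [neg_neg], by rw [hc.2]; ring⟩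
      · intro k _ hk
        rw [if_neg]
        rintro ⟨-, b, -⟩
        exact hk (by rw [b, neg_neg])
      · intro h
        exact absurd (Finset.mem_univ _) h
    · rw [if_neg hc]
      refine Finset.sum_eq_zero fun k _ => if_neg ?_
      rintro ⟨a, -, b⟩
      exact hc ⟨a, by rw [b]; ring⟩
  have h3 : wsum B A Q (fun w =>
      if IsConj c (π w.prod) ∧ th π θ q (d0 (w.rotate 1)) = 0 then
      InvF π c δ D θ (d0 (w.rotate 1)) else 0) = 0 := by
    have h4 := wsum_rotate_one B A Q (fun w => (-1 : S) * fF π c δ θ (d0 w))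
    rw [wsum_smul A B Q (-1) (fun w => fF π c δ θ (d0 w)), wsum_fF hδ hc1 θ hAB Q, mul_zero] at h4
    refine Eq.trans ?_ h4
    refine wsum_congr B A Q fun w hw => ?_
    have hw1 : (w.rotate 1).length = 2 * Q := by rw [List.length_rotate, hw]
    unfold fF
    rw [d0_prod Q _ hw1]
    by_cases hc : IsConj c (π w.prod) ∧ θ ((d0 (w.rotate 1)).map π) = 0
    · rw [if_pos ⟨hc.1, (th_eq_zero hθ _).2 hc.2⟩, if_pos ⟨(cls_rotate w 1).2 hc.1, hc.2⟩]
      unfold InvF
      rw [hc.2]
      push_cast
      ring
    · rw [if_neg fun h => hc ⟨h.1, (th_eq_zero hθ _).1 h.2⟩,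
        if_neg fun h => hc ⟨(cls_rotate w 1).1 h.1, h.2⟩, mul_zero]
  have h5 : mk (∑ k, wsum B A Q (E k 0)) = mk (∑ k, wsum B A Q (E k (-k))) := by
    rw [map_sum, map_sum]
    exact Finset.sum_congr rfl fun k _ => (hE2 k (-k)).symm
  rw [h1]
  rw [h2, h3, map_zero] at h5
  exact Ideal.mem_span_singleton.1 (Ideal.Quotient.eq_zero_iff_mem.1 h5)

end main

end LemmaB

open LemmaB

/-- LEMMA B. Let `Q = q r`, `Q ∣ D q` and let `θ` be a phase modulo `q` on words of length `Q`.
Then `r φ(A, B) = D c_θ` modulo `Q`, where `c_θ` is the phase invariant.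

Proof. `Inv(x) = D θ(π x) - S(x)` is invariant under rotation modulo `Q` (on words of length `Q` with
product in the class). Put `T = wsum B A Q`, `H(w) = Σ_{t<Q} η(σ^t w)`, everything times the
indicator function of the class. Modulo `Q`:
`H(w) = -D (θ(d1 w) - θ(d0 w)) + Inv(d1 w) - Inv(d0 w)`.
(1) `T(H [θ(d0 w) = j])` is independent of `j` modulo `q` (rotation invariance of `T`), so
`q T(H [θ(d0)=0]) = T(H) = Q T(η)` and `T(H [θ(d0)=0]) = r T(η) = - r φ(A, B)`
(`wsum_contract`).
(2) `T(Inv(d0 w) [θ(d0 w)=0]) = 0` by `wsum_d0`.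
(3) `T(Inv(d1 w) [θ(d0 w)=0]) = T(Inv(d1 w) [θ(d1 w)=0])` (sum over the values of the other phase and
rotate) `= 0` by `wsum_rotate_one` and `wsum_d0`.
(4) what remains is `-D T(θ(d1 w) [θ(d0 w) = 0])`. -/
theorem lemmaB [IsDomain S] [CharZero S] (hδ : IsPoly π c J δ D) (hc1 : c ≠ 1) {Q q r : ℕ}
    (hQ : Q = q * r) (hq : 0 < q) (hr : 0 < r) (hD : (Q : S) ∣ D * q) {θ : List Γ → ℤ}
    (hθ : IsPhase c Q q θ) {A B : Matrix ι ι (MonoidAlgebra S G)}
    (hAB : EntIn ((kerI S π) ^ (J + 1)) (A * B - 1))
    (hBA : EntIn ((kerI S π) ^ (J + 1)) (B * A - 1)) :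
    (Q : S) ∣ (r : S) * mbil (bil (psiW π c δ)) A B -
      D * wsum B A Q (fun w => (phaseFun π c θ w : S)) := by
  classical
  have h1 := step1 hδ hQ hq hr hθ hAB
  have h3 := step3 hδ hc1 hq hD hθ hAB
  have h4 := wsum_fF hδ hc1 θ hBA Q
  have h5 : (Q : S) ∣ wsum B A Q (fun w => if IsConj c (π w.prod) ∧ th π θ q (d0 w) = 0 then
      HF π c δ Q w else 0) -
      (wsum B A Q (fun w => if IsConj c (π w.prod) ∧ th π θ q (d0 w) = 0 then
        InvF π c δ D θ (d0 (w.rotate 1)) else 0) +
      (wsum B A Q (fun w => fF π c δ θ (d0 w)) +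
        (-D) * wsum B A Q (fun w => (phaseFun π c θ w : S)))) := by
    rw [← wsum_smul, ← wsum_add, ← wsum_add]
    refine wsum_dvd B A Q _ fun w hw => ?_
    unfold fF phaseFun
    rw [d0_prod Q w hw]
    by_cases hc : IsConj c (π w.prod) ∧ θ ((d0 w).map π) = 0
    · have hc' : IsConj c (π w.prod) ∧ th π θ q (d0 w) = 0 := ⟨hc.1, (th_eq_zero hθ _).2 hc.2⟩
      rw [if_pos hc', if_pos hc', if_pos hc, if_pos hc]
      have h6 := SF_d1_sub hδ w hw hc.1
      unfold InvF HF
      refine ⟨epsF π c δ w, ?_⟩
      linear_combination h6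
    · have hc' : ¬ (IsConj c (π w.prod) ∧ th π θ q (d0 w) = 0) :=
        fun h => hc ⟨h.1, (th_eq_zero hθ _).1 h.2⟩
      rw [if_neg hc', if_neg hc', if_neg hc, if_neg hc]
      simp
  rw [h1, h4, zero_add] at h5
  have h6 := dvd_add h5 h3
  have h7 : (r : S) * mbil (bil (psiW π c δ)) A B -
      D * wsum B A Q (fun w => (phaseFun π c θ w : S)) =
      - (-((r : S) * mbil (bil (psiW π c δ)) A B) -
      (wsum B A Q (fun w => if IsConj c (π w.prod) ∧ th π θ q (d0 w) = 0 then
        InvF π c δ D θ (d0 (w.rotate 1)) else 0) +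
        (-D) * wsum B A Q (fun w => (phaseFun π c θ w : S))) +
      wsum B A Q (fun w => if IsConj c (π w.prod) ∧ th π θ q (d0 w) = 0 then
        InvF π c δ D θ (d0 (w.rotate 1)) else 0)) := by
    ring
  rw [h7]
  exact (dvd_neg).2 h6

end Pool.Agent.Lib.MP_8f66f0_al_Uni
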