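import Mathlib
import Pool.Agent.Lib.MP_8f66f0_al_Uni.Defs

/-! Existence of phases. -/

set_option autoImplicit false
set_option linter.unusedSectionVars false

namespace Pool.Agent.Lib.MP_8f66f0_al_Uni

variable {Γ : Type*} [Group Γ]

/-- Rotating a word conjugates its product. -/
lemma phase_isConj_rotate (x : List Γ) (j : ℕ) : IsConj x.prod (x.rotate j).prod := by
  have h1 : x.rotate j = x.drop (j % x.length) ++ x.take (j % x.length) :=
    List.rotate_eq_drop_append_take_mod
  have h2 : x.prod = (x.take (j % x.length)).prod * (x.drop (j % x.length)).prod := by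
    rw [← List.prod_append, List.take_append_drop]
  rw [h1, List.prod_append, h2, isConj_iff]
  exact ⟨(x.drop (j % x.length)).prod, by group⟩

/-- Phases exist if the stabilizers under rotation are small.

Proof: choose a representative `r` in each orbit under rotation (the setoid
`x ~ y ↔ ∃ j, x.rotate j = y`, `List.IsRotated`), for `x` in the orbit of `r` choose `j` with
`r.rotate j = x` and put `θ x = j % q`; well defined up to multiples of `q` by the hypothesis. The
set of words of length `Q` with product conjugate to `c` is closed under rotation. -/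
theorem exists_phase (c : Γ) {Q q : ℕ} (hQ : 0 < Q) (hq : 0 < q)
    (hstab : ∀ x : List Γ, x.length = Q → IsConj c x.prod → ∀ j, x.rotate j = x → q ∣ j) :
    ∃ θ : List Γ → ℤ, IsPhase c Q q θ := by
  classical
  have hr : ∀ x : List Γ, ∃ j : ℕ,
      (Quotient.out (Quotient.mk (List.IsRotated.setoid Γ) x)).rotate j = x := fun x =>
    Quotient.mk_out (s := List.IsRotated.setoid Γ) x
  choose J hJ using hr
  have hq0 : (q : ℤ) ≠ 0 := by exact_mod_cast hq.ne'
  refine ⟨fun x => (J x : ℤ) % q, ?_, ?_, ?_⟩
  · intro x
    exact Int.emod_nonneg _ hq0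
  · intro x
    exact Int.emod_lt_of_pos _ (by exact_mod_cast hq)
  · intro x hxl hxc
    have h1 := hJ x
    have h2 := hJ (x.rotate 1)
    have he : Quotient.mk (List.IsRotated.setoid Γ) (x.rotate 1)
        = Quotient.mk (List.IsRotated.setoid Γ) x :=
      Quotient.sound (s := List.IsRotated.setoid Γ) (List.IsRotated.forall x 1)
    rw [he] at h2
    set r := Quotient.out (Quotient.mk (List.IsRotated.setoid Γ) x) with hrdef
    have hrl : r.length = Q := by
      rw [← hxl, ← h1, List.length_rotate]
    have hrc : IsConj c r.prod := by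
      have h3 := phase_isConj_rotate r (J x)
      rw [h1] at h3
      exact hxc.trans h3.symm
    have h3 : r.rotate (J x + 1) = x.rotate 1 := by
      rw [← List.rotate_rotate, h1]
    -- complete to a full turn
    obtain ⟨k, hk⟩ : ∃ k, J x + 1 + k = Q * (J x + 1) :=
      ⟨Q * (J x + 1) - (J x + 1), Nat.add_sub_cancel' (Nat.le_mul_of_pos_left _ hQ)⟩
    have h4 : r.rotate (J (x.rotate 1) + k) = r := by
      rw [← List.rotate_rotate, h2, ← h3, List.rotate_rotate, hk, ← hrl, List.rotate_length_mul]
    have h5 : q ∣ J (x.rotate 1) + k := hstab r hrl hrc _ h4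
    have h6 : q ∣ Q := by
      refine hstab r hrl hrc _ ?_
      rw [← hrl, List.rotate_length]
    have h7 : (q : ℤ) ∣ (J (x.rotate 1) : ℤ) + k := by exact_mod_cast h5
    have h8 : (q : ℤ) ∣ (Q : ℤ) * ((J x : ℤ) + 1) := by
      refine Dvd.dvd.mul_right ?_ _
      exact_mod_cast h6
    have h9 : (J x : ℤ) + 1 + k = Q * ((J x : ℤ) + 1) := by exact_mod_cast hk
    have h10 : (q : ℤ) ∣ (J (x.rotate 1) : ℤ) - J x - 1 := by
      have h11 : (J (x.rotate 1) : ℤ) - J x - 1
          = ((J (x.rotate 1) : ℤ) + k) - Q * ((J x : ℤ) + 1) := by linarith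
      rw [h11]
      exact dvd_sub h7 h8
    have h12 : ((J (x.rotate 1) : ℤ) % q) - ((J x : ℤ) % q) - 1
        = ((J (x.rotate 1) : ℤ) - J x - 1)
          - q * ((J (x.rotate 1) : ℤ) / q) + q * ((J x : ℤ) / q) := by
      rw [Int.emod_def, Int.emod_def]
      ring
    show (q : ℤ) ∣ ((J (x.rotate 1) : ℤ) % q) - ((J x : ℤ) % q) - 1
    rw [h12]
    exact dvd_add (dvd_sub h10 (dvd_mul_right _ _)) (dvd_mul_right _ _)

/-- Words commuting with `y` whose length is a multiple of that of `y`. -/
lemma phase_comm {α : Type*} (y : List α) (m : ℕ) :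
    ∀ z : List α, z.length = m * y.length → z ++ y = y ++ z →
      z = (List.replicate m y).flatten := by
  induction m with
  | zero =>
    intro z hz _
    rw [zero_mul, List.length_eq_zero_iff] at hz
    rw [hz]
    rfl
  | succ m ih =>
    intro z hz hc
    have h1 : y <+: z := by
      refine List.prefix_of_prefix_length_le (l₃ := y ++ z) (List.prefix_append _ _) ?_ ?_
      · rw [← hc]
        exact List.prefix_append _ _
      · rw [hz]
        exact Nat.le_mul_of_pos_left _ (Nat.succ_pos m)
    obtain ⟨z', rfl⟩ := h1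
    have h2 : z' ++ y = y ++ z' := by
      rw [List.append_assoc] at hc
      exact List.append_cancel_left hc
    have h3 : z'.length = m * y.length := by
      rw [List.length_append, Nat.succ_mul] at hz
      omega
    rw [List.replicate_succ, List.flatten_cons, ← ih z' h3 h2]

/-- A word invariant under a rotation dividing its length is a repetition. -/
lemma phase_repeat {α : Type*} (x : List α) {g m : ℕ} (hg : g ≤ x.length)
    (hx : x.length = m * g) (hrot : x.rotate g = x) :
    x = (List.replicate m (x.take g)).flatten := by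
  have h1 : x.rotate g = x.drop g ++ x.take g := List.rotate_eq_drop_append_take hg
  have h2 : (x.take g).length = g := by rw [List.length_take, min_eq_left hg]
  refine phase_comm (x.take g) m x (by rw [h2, hx]) ?_
  have h3 : x.drop g ++ x.take g = x := by rw [← h1, hrot]
  calc x ++ x.take g = x.take g ++ x.drop g ++ x.take g := by rw [List.take_append_drop]
    _ = x.take g ++ (x.drop g ++ x.take g) := by rw [List.append_assoc]
    _ = x.take g ++ x := by rw [h3]

lemma phase_rotate_mul {α : Type*} (x : List α) (j : ℕ) (h : x.rotate j = x) (m : ℕ) :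
    x.rotate (j * m) = x := by
  induction m with
  | zero => rw [mul_zero, List.rotate_zero]
  | succ m ih => rw [Nat.mul_succ, ← List.rotate_rotate, ih, h]

lemma phase_prod_flatten (m : ℕ) (y : List Γ) :
    (List.replicate m y).flatten.prod = y.prod ^ m := by
  rw [List.prod_flatten, List.map_replicate, List.prod_replicate]

/-- For `Q = l^(K+1)` and the class of `γ^l` the stabilizers are contained in the multiples of
`l^K`, if `γ` is not an `l`-th power and `l`-th roots are unique.

Proof: if `x.rotate j = x` then `x` is invariant under rotation by `l^i = gcd (j, Q)`. If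
`i < K` then `x` is the `l^(K+1-i)`-fold repetition of a list `y`, so
`x.prod = y.prod ^ (l^(K+1-i))` is an `(l^2)`-th power `(z^l)^l` conjugate to `γ^l`, so `z^l` is
conjugate to `γ` by uniqueness of roots, so `γ` is an `l`-th power. -/
theorem stab_of_roots {γ : Γ} {l : ℕ} (hl : l.Prime) (K : ℕ)
    (huniq : ∀ a b : Γ, a ^ l = b ^ l → a = b) (hroot : ∀ a : Γ, a ^ l ≠ γ) (x : List Γ)
    (hx : x.length = l ^ (K + 1)) (hc : IsConj (γ ^ l) x.prod) (j : ℕ) (hj : x.rotate j = x) :
    l ^ K ∣ j := by
  have hQ : 0 < l ^ (K + 1) := pow_pos hl.pos _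
  rcases (Nat.gcd_le_right j hQ).lt_or_eq with hlt | heq
  · obtain ⟨i, hi, hig⟩ := (Nat.dvd_prime_pow hl).1 (Nat.gcd_dvd_right j (l ^ (K + 1)))
    by_cases hiK : K ≤ i
    · exact (pow_dvd_pow l hiK).trans (hig ▸ Nat.gcd_dvd_left j (l ^ (K + 1)))
    · exfalso
      push Not at hiK
      obtain ⟨m, -, hm⟩ := Nat.exists_mul_mod_eq_gcd hlt
      have h1 : x.rotate (l ^ i) = x := by
        rw [← hig, ← hm, ← hx, List.rotate_mod]
        exact phase_rotate_mul x j hj m
      have h2 : x.length = l ^ (K + 1 - i) * l ^ i := by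
        rw [hx, ← pow_add]
        congr 1
        omega
      have h3 := phase_repeat x (g := l ^ i) (m := l ^ (K + 1 - i)) (by
        rw [hx]
        exact Nat.pow_le_pow_right hl.pos hi) h2 h1
      have h4 : x.prod = (x.take (l ^ i)).prod ^ (l ^ (K + 1 - i)) := by
        conv_lhs => rw [h3]
        exact phase_prod_flatten _ _
      have h5 : K + 1 - i = (K - 1 - i) + 1 + 1 := by omega
      rw [h4, h5, pow_succ, pow_mul, isConj_iff] at hc
      obtain ⟨u, hu⟩ := hc
      have h6 : (u * γ * u⁻¹) ^ l = ((x.take (l ^ i)).prod ^ (l ^ (K - 1 - i + 1))) ^ l := by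
        rw [conj_pow]
        exact hu
      have h7 := huniq _ _ h6
      rw [pow_succ, pow_mul] at h7
      apply hroot (u⁻¹ * ((x.take (l ^ i)).prod ^ (l ^ (K - 1 - i))) * u)
      have h8 : (u⁻¹ * ((x.take (l ^ i)).prod ^ (l ^ (K - 1 - i))) * u) ^ l
          = u⁻¹ * ((x.take (l ^ i)).prod ^ (l ^ (K - 1 - i))) ^ l * u := by
        have h9 := conj_pow (a := u⁻¹) (b := (x.take (l ^ i)).prod ^ (l ^ (K - 1 - i))) (i := l)
        rw [inv_inv] at h9
        exact h9
      rw [h8, ← h7]
      group
  · have h1 : l ^ (K + 1) ∣ j := heq ▸ Nat.gcd_dvd_left j (l ^ (K + 1))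
    exact (pow_dvd_pow l (Nat.le_succ K)).trans h1

lemma phase_flatten_rotate_aux {α : Type*} (a : α) (t : List α) (m : ℕ) :
    (List.replicate m (a :: t)).flatten ++ [a]
      = a :: (List.replicate m (t ++ [a])).flatten := by
  induction m with
  | zero => rfl
  | succ m ih =>
    rw [List.replicate_succ, List.flatten_cons, List.append_assoc, ih, List.replicate_succ,
      List.flatten_cons]
    simp

lemma phase_flatten_rotate {α : Type*} (y : List α) {m : ℕ} (hm : 0 < m) (hy : y ≠ []) :
    (List.replicate m y).flatten.rotate 1 = (List.replicate m (y.rotate 1)).flatten := by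
  obtain ⟨a, t, rfl⟩ := List.exists_cons_of_ne_nil hy
  obtain ⟨m, rfl⟩ := Nat.exists_eq_succ_of_ne_zero hm.ne'
  have h1 := phase_flatten_rotate_aux a t (m + 1)
  have h2 : (List.replicate (m + 1) (a :: t)).flatten
      = a :: (t ++ (List.replicate m (a :: t)).flatten) := by
    rw [List.replicate_succ, List.flatten_cons]
    rfl
  have h3 : (a :: t).rotate 1 = t ++ [a] := by
    rw [List.rotate_cons_succ, List.rotate_zero]
  rw [Nat.succ_eq_add_one, h3]
  rw [h2] at h1 ⊢
  rw [List.rotate_cons_succ, List.rotate_zero]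
  rw [List.cons_append] at h1
  exact (List.cons.inj h1).2

/-- The phase for `γ` obtained from a phase for `γ^l` by repeating words `l` times.

Proof: `(y repeated l times).rotate 1 = (y.rotate 1) repeated l times` for `y` nonempty, and the
product of the repeated word is `y.prod ^ l`. -/
theorem isPhase_repeat {γ : Γ} {l K : ℕ} (hl : l.Prime) {θ : List Γ → ℤ}
    (hθ : IsPhase (γ ^ l) (l ^ (K + 1)) (l ^ K) θ) :
    IsPhase γ (l ^ K) (l ^ K) (fun y => θ (List.replicate l y).flatten) := by
  refine ⟨fun y => hθ.nonneg _, fun y => hθ.lt _, ?_⟩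
  intro y hy hyc
  have hne : y ≠ [] := by
    rintro rfl
    rw [List.length_nil] at hy
    exact (pow_pos hl.pos K).ne hy
  have h1 := hθ.shift (List.replicate l y).flatten (by
    rw [List.length_flatten, List.map_replicate, List.sum_replicate, hy, smul_eq_mul, pow_succ,
      mul_comm]) (by
    rw [phase_prod_flatten]
    obtain ⟨u, hu⟩ := isConj_iff.1 hyc
    refine isConj_iff.2 ⟨u, ?_⟩
    rw [← hu, conj_pow])
  rw [phase_flatten_rotate y hl.pos hne] at h1
  exact h1

end Pool.Agent.Lib.MP_8f66f0_al_Uni
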