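import Mathlib
import Pool.Agent.Lib.MP_8f66f0_al_Plus.Spec
import Pool.Agent.Lib.MP_8f66f0_al_Uni.Defs

/-! Lifting invertible matrices, and base change of the kernel ideal. -/

set_option autoImplicit false
set_option linter.unusedSectionVars false

namespace Pool.Agent.Lib.MP_8f66f0_al_Uni

open Pool.Agent.Lib.MP_8f66f0_al_Dennis Pool.Agent.Lib.MP_8f66f0_al_FinQ
  Pool.Agent.Lib.MP_8f66f0_al_Plus

variable {G Γ : Type*} [Group G] [Group Γ] {π : G →* Γ} {ι κ : Type*} [Fintype ι]
  [DecidableEq ι] [Fintype κ] [DecidableEq κ]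

section basic

variable {E : Type*} [Ring E] {K L : Ideal E}

/-- Products. -/
lemma EntIn.mul {E : Type*} [Ring E] {K L : Ideal E} [K.IsTwoSided] {X Y : Matrix ι ι E}
    (hX : EntIn K X) (hY : EntIn L Y) : EntIn (K * L) (X * Y) := by
  intro i j
  rw [Matrix.mul_apply]
  exact Ideal.sum_mem _ fun k _ => Ideal.mul_mem_mul (hX i k) (hY k j)

lemma EntIn.add {X Y : Matrix ι ι E} (hX : EntIn K X) (hY : EntIn K Y) : EntIn K (X + Y) :=
  fun i j => K.add_mem (hX i j) (hY i j)

lemma EntIn.neg {X : Matrix ι ι E} (hX : EntIn K X) : EntIn K (-X) :=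
  fun i j => K.neg_mem (hX i j)

lemma EntIn.sub {X Y : Matrix ι ι E} (hX : EntIn K X) (hY : EntIn K Y) : EntIn K (X - Y) :=
  fun i j => K.sub_mem (hX i j) (hY i j)

lemma EntIn.mul_left {X : Matrix ι ι E} (hX : EntIn K X) (Y : Matrix ι ι E) :
    EntIn K (Y * X) := by
  intro i j
  rw [Matrix.mul_apply]
  exact Ideal.sum_mem _ fun k _ => K.mul_mem_left _ (hX k j)

lemma EntIn.mul_right [K.IsTwoSided] {X : Matrix ι ι E} (hX : EntIn K X) (Y : Matrix ι ι E) :
    EntIn K (X * Y) := by
  intro i j
  rw [Matrix.mul_apply]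
  exact Ideal.sum_mem _ fun k _ => Ideal.IsTwoSided.mul_mem_of_left _ (hX i k)

lemma EntIn.mono (h : K ≤ L) {X : Matrix ι ι E} (hX : EntIn K X) : EntIn L X :=
  fun i j => h (hX i j)

lemma EntIn.pow [K.IsTwoSided] {X : Matrix ι ι E} (hX : EntIn K X) (k : ℕ) :
    EntIn (K ^ k) (X ^ k) := by
  induction k with
  | zero =>
    intro i j
    rw [Submodule.pow_zero, Ideal.one_eq_top]
    exact Submodule.mem_top
  | succ k ih =>
    rw [Submodule.pow_succ, pow_succ X k]
    exact ih.mul hX

end basic

/-- An invertible matrix over `ℤ Γ` lifts to a matrix over `ℤ G` which is invertible modulo `I^k`.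

Proof: take any lifts `A1`, `B1` (`π` is surjective), `E = 1 - A1 B1` has entries in `I`; put
`B2 = B1 (1 + E + ⋯ + E^(k-1))`, so `A1 B2 = 1 - E^k`. Then `B2` is also a left inverse modulo `I^k`:
with `E' = 1 - B1 A1` there is a left inverse `B3 = (1 + E' + ⋯) B1` modulo `I^k` and
`B3 = B3 A1 B2 = B2` modulo `I^k`. -/
theorem exists_lift (hπ : Function.Surjective π) {A B : Matrix ι ι (MonoidAlgebra ℤ Γ)}
    (hAB : A * B = 1) (hBA : B * A = 1) (k : ℕ) :
    ∃ A' B' : Matrix ι ι (MonoidAlgebra ℤ G), mapMat π A' = A ∧ mapMat π B' = B ∧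
      EntIn ((kerI ℤ π) ^ k) (A' * B' - 1) ∧ EntIn ((kerI ℤ π) ^ k) (B' * A' - 1) := by
  have hsurj : Function.Surjective (MonoidAlgebra.mapDomainRingHom ℤ π) := by
    intro x
    induction x using MonoidAlgebra.induction_linear with
    | zero => exact ⟨0, map_zero _⟩
    | add x y hx hy =>
      obtain ⟨x', rfl⟩ := hx
      obtain ⟨y', rfl⟩ := hy
      exact ⟨x' + y', map_add _ _ _⟩
    | single g a =>
      obtain ⟨g', rfl⟩ := hπ g
      exact ⟨MonoidAlgebra.single g' a, by
        rw [MonoidAlgebra.mapDomainRingHom_apply, MonoidAlgebra.mapDomain_single]⟩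
  have hlift : ∀ X : Matrix ι ι (MonoidAlgebra ℤ Γ), ∃ X' : Matrix ι ι (MonoidAlgebra ℤ G),
      mapMat π X' = X := by
    intro X
    choose f hf using hsurj
    refine ⟨X.map f, ?_⟩
    ext i j : 1
    exact hf _
  have hker : ∀ X : Matrix ι ι (MonoidAlgebra ℤ G), mapMat π X = 0 → EntIn (kerI ℤ π) X := by
    intro X hX i j
    have h := congrFun (congrFun hX i) j
    exact h
  obtain ⟨A1, hA1⟩ := hlift A
  obtain ⟨B1, hB1⟩ := hlift B
  set E := 1 - A1 * B1 with hE
  set E' := 1 - B1 * A1 with hE'
  have hE0 : mapMat π E = 0 := by rw [hE, map_sub, map_mul, map_one, hA1, hB1, hAB, sub_self]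
  have hE0' : mapMat π E' = 0 := by rw [hE', map_sub, map_mul, map_one, hA1, hB1, hBA, sub_self]
  have hEk : EntIn ((kerI ℤ π) ^ k) (E ^ (k + 1)) :=
    ((hker E hE0).pow (k + 1)).mono (Ideal.pow_le_pow_right (Nat.le_succ k))
  have hEk' : EntIn ((kerI ℤ π) ^ k) (E' ^ (k + 1)) :=
    ((hker E' hE0').pow (k + 1)).mono (Ideal.pow_le_pow_right (Nat.le_succ k))
  set S := ∑ i ∈ Finset.range (k + 1), E ^ i with hS
  set S' := ∑ i ∈ Finset.range (k + 1), E' ^ i with hS'
  have h1 : A1 * (B1 * S) = 1 - E ^ (k + 1) := by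
    rw [← mul_assoc, ← mul_neg_geom_sum E (k + 1), hE, sub_sub_cancel]
  have h2 : S' * B1 * A1 = 1 - E' ^ (k + 1) := by
    rw [mul_assoc, ← geom_sum_mul_neg E' (k + 1), hE', sub_sub_cancel]
  refine ⟨A1, B1 * S, hA1, ?_, ?_, ?_⟩
  · rw [map_mul, hB1, hS, map_sum, Finset.sum_range_succ', Finset.sum_eq_zero]
    · rw [zero_add, pow_zero, map_one, mul_one]
    · intro i _
      rw [map_pow, hE0, zero_pow (Nat.succ_ne_zero i)]
  · rw [h1]
    have : (1 - E ^ (k + 1) - 1 : Matrix ι ι (MonoidAlgebra ℤ G)) = -(E ^ (k + 1)) := by abel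
    rw [this]
    exact hEk.neg
  · have h3 : B1 * S * A1 - 1 = -(E' ^ (k + 1)) - S' * B1 * E ^ (k + 1) * A1 +
        E' ^ (k + 1) * (B1 * S * A1) := by
      have h4 : B1 * S * A1 = (S' * B1 * A1 + E' ^ (k + 1)) * (B1 * S * A1) := by
        rw [h2, sub_add_cancel, one_mul]
      have h5 : S' * B1 * A1 * (B1 * S * A1) = S' * B1 * A1 - S' * B1 * E ^ (k + 1) * A1 := by
        calc S' * B1 * A1 * (B1 * S * A1) = S' * B1 * (A1 * (B1 * S)) * A1 := by
              simp only [mul_assoc]
          _ = S' * B1 * (1 - E ^ (k + 1)) * A1 := by rw [h1]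
          _ = _ := by rw [mul_sub, mul_one, sub_mul]
      calc B1 * S * A1 - 1 = (S' * B1 * A1 + E' ^ (k + 1)) * (B1 * S * A1) - 1 := by rw [← h4]
        _ = S' * B1 * A1 * (B1 * S * A1) + E' ^ (k + 1) * (B1 * S * A1) - 1 := by rw [add_mul]
        _ = 1 - E' ^ (k + 1) - S' * B1 * E ^ (k + 1) * A1 + E' ^ (k + 1) * (B1 * S * A1) - 1 := by
              rw [h5, h2]
        _ = _ := by abel
    rw [h3]
    exact (hEk'.neg.sub ((hEk.mul_left _).mul_right _)).add (hEk'.mul_right _)

/-- Ring homomorphisms and powers of ideals. -/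
lemma map_pow_mem {E E' : Type*} [Ring E] [Ring E'] (f : E →+* E') {I : Ideal E} {J : Ideal E'}
    [J.IsTwoSided] (h : ∀ x ∈ I, f x ∈ J) (k : ℕ) : ∀ x ∈ I ^ k, f x ∈ J ^ k := by
  induction k with
  | zero =>
    intro x _
    rw [Submodule.pow_zero, Ideal.one_eq_top]
    exact Submodule.mem_top
  | succ k ih =>
    intro x hx
    rw [Submodule.pow_succ] at hx
    rw [Submodule.pow_succ]
    refine Submodule.mul_induction_on hx ?_ ?_
    · intro m hm n hn
      rw [map_mul]
      exact Ideal.mul_mem_mul (ih m hm) (h n hn)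
    · intro x y hx hy
      rw [map_add]
      exact Ideal.add_mem _ hx hy

lemma map_pow_entIn {E E' : Type*} [Ring E] [Ring E'] (f : E →+* Matrix κ κ E') {I : Ideal E}
    {J : Ideal E'} [J.IsTwoSided] (h : ∀ x ∈ I, EntIn J (f x)) (k : ℕ) :
    ∀ x ∈ I ^ k, EntIn (J ^ k) (f x) := by
  induction k with
  | zero =>
    intro x _ i j
    rw [Submodule.pow_zero, Ideal.one_eq_top]
    exact Submodule.mem_top
  | succ k ih =>
    intro x hx
    rw [Submodule.pow_succ] at hx
    rw [Submodule.pow_succ]
    refine Submodule.mul_induction_on hx ?_ ?_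
    · intro m hm n hn
      rw [map_mul]
      exact (ih m hm).mul (h n hn)
    · intro x y hx hy
      rw [map_add]
      exact hx.add hy

lemma mapDomain_mapRing (S : Type*) [CommRing S] (x : MonoidAlgebra ℤ G) :
    MonoidAlgebra.mapDomainRingHom S π (MonoidAlgebra.mapRingHom G (Int.castRingHom S) x) =
      MonoidAlgebra.mapRingHom Γ (Int.castRingHom S) (MonoidAlgebra.mapDomainRingHom ℤ π x) := by
  induction x using MonoidAlgebra.induction_linear with
  | zero => simp
  | add x y hx hy => rw [map_add, map_add, map_add, map_add, hx, hy]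
  | single g a =>
    rw [MonoidAlgebra.mapRingHom_single, MonoidAlgebra.mapDomainRingHom_apply,
      MonoidAlgebra.mapDomainRingHom_apply, MonoidAlgebra.mapDomain_single,
      MonoidAlgebra.mapDomain_single, MonoidAlgebra.mapRingHom_single]

/-- Base change from `ℤ`. -/
lemma EntIn.baseMat (S : Type*) [CommRing S] {k : ℕ} {Y : Matrix ι ι (MonoidAlgebra ℤ G)}
    (hY : EntIn ((kerI ℤ π) ^ k) Y) :
    EntIn ((kerI S π) ^ k) (Pool.Agent.Lib.MP_8f66f0_al_Uni.baseMat S Y) := by
  intro i j
  refine map_pow_mem (MonoidAlgebra.mapRingHom G (Int.castRingHom S)) ?_ k _ (hY i j)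
  intro x hx
  unfold kerI at hx ⊢
  rw [RingHom.mem_ker] at hx ⊢
  rw [mapDomain_mapRing, hx, map_zero]

lemma mapDomain_twHom {S : Type*} [CommRing S] (β : Γ →* Matrix κ κ S) (x : MonoidAlgebra ℤ G)
    (a b : κ) :
    MonoidAlgebra.mapDomainRingHom S π (twHom (β.comp π) x a b) =
      twHom β (MonoidAlgebra.mapDomainRingHom ℤ π x) a b := by
  induction x using MonoidAlgebra.induction_linear with
  | zero => simp
  | add x y hx hy => rw [map_add, map_add, map_add, Matrix.add_apply, Matrix.add_apply, map_add, hx, hy]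
  | single g m =>
    rw [twHom_single, MonoidAlgebra.mapDomainRingHom_apply ℤ, MonoidAlgebra.mapDomain_single,
      twHom_single, Matrix.smul_apply, Matrix.smul_apply, map_zsmul, twMon_apply, twMon_apply,
      MonoidAlgebra.mapDomainRingHom_apply, MonoidAlgebra.mapDomain_single]
    rfl

/-- Twisting by a representation of `Γ`. -/
lemma EntIn.twist {S : Type*} [CommRing S] (β : Γ →* Matrix κ κ S) {k : ℕ}
    {Y : Matrix ι ι (MonoidAlgebra ℤ G)} (hY : EntIn ((kerI ℤ π) ^ k) Y) :
    EntIn ((kerI S π) ^ k) (Pool.Agent.Lib.MP_8f66f0_al_FinQ.twist (β.comp π) Y) := by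
  intro x y
  rw [twist_apply]
  refine map_pow_entIn (twHom (β.comp π)).toRingHom (J := kerI S π) ?_ k _ (hY x.1 y.1) _ _
  intro z hz a b
  unfold kerI at hz ⊢
  rw [RingHom.mem_ker] at hz ⊢
  refine (mapDomain_twHom β z a b).trans ?_
  rw [hz, map_zero, Matrix.zero_apply]

/-- Twisting commutes with the projection to `Γ`. -/
lemma mapMatS_twist {S : Type*} [CommRing S] (β : Γ →* Matrix κ κ S)
    (Y : Matrix ι ι (MonoidAlgebra ℤ G)) :
    mapMatS S π (twist (β.comp π) Y) = twist β (mapMat π Y) := by
  ext x y : 1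
  exact mapDomain_twHom β (Y x.1 y.1) x.2 y.2

lemma psiW_cocycle {S : Type*} [CommRing S] {c : Γ} {J : ℕ} {δ : G → G → S} {D : S}
    (hδ : IsPoly π c J δ D) (g h k : G) :
    psiW π c δ g (h * k) = psiW π c δ (g * h) k + psiW π c δ (k * g) h := by
  unfold psiW
  by_cases hc : IsConj c (π (g * (h * k)))
  · have h1 : IsConj c (π (g * h * k)) := by rwa [mul_assoc]
    have h2 : IsConj c (π (k * g * h)) := by
      rw [mul_assoc, map_mul]
      rw [map_mul] at h1
      exact isConj_cyc.mp h1
    rw [if_pos hc, if_pos h1, if_pos h2, hδ.coc h k _ hc]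
    have e1 : k * (g * (h * k)) * k⁻¹ = k * g * h := by group
    have e2 : g * (h * k) = g * h * k := by group
    rw [e1, e2, add_comm]
  · have h1 : ¬ IsConj c (π (g * h * k)) := by rwa [mul_assoc]
    have h2 : ¬ IsConj c (π (k * g * h)) := by
      rw [mul_assoc, map_mul]
      rw [map_mul] at h1
      exact fun h => h1 (isConj_cyc.mpr h)
    rw [if_neg hc, if_neg h1, if_neg h2, add_zero]

/-- The pairing is a cyclic cocycle on `S G`. -/
lemma bil_psiW_cocycle {S : Type*} [CommRing S] {c : Γ} {J : ℕ} {δ : G → G → S} {D : S}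
    (hδ : IsPoly π c J δ D) (x y z : MonoidAlgebra S G) :
    bil (psiW π c δ) x (y * z) = bil (psiW π c δ) (x * y) z + bil (psiW π c δ) (z * x) y := by
  induction x using MonoidAlgebra.induction_linear with
  | zero => simp
  | add x x' hx hx' =>
    rw [add_mul, mul_add, map_add, map_add, map_add, AddMonoidHom.add_apply,
      AddMonoidHom.add_apply, AddMonoidHom.add_apply, hx, hx']
    abel
  | single g a =>
    induction y using MonoidAlgebra.induction_linear with
    | zero => simp
    | add y y' hy hy' =>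
      rw [add_mul, mul_add, map_add, map_add, map_add, AddMonoidHom.add_apply, hy, hy']
      abel
    | single h b =>
      induction z using MonoidAlgebra.induction_linear with
      | zero => simp
      | add z z' hz hz' =>
        rw [add_mul, mul_add, map_add, map_add, map_add, AddMonoidHom.add_apply, hz, hz']
        abel
      | single k e =>
        rw [MonoidAlgebra.single_mul_single, MonoidAlgebra.single_mul_single,
          MonoidAlgebra.single_mul_single, bil_single, bil_single, bil_single,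
          psiW_cocycle hδ]
        ring

lemma bil_psiW_one {S : Type*} [CommRing S] {c : Γ} {J : ℕ} {δ : G → G → S} {D : S}
    (hδ : IsPoly π c J δ D) (y : MonoidAlgebra S G) :
    bil (psiW π c δ) 1 y = D * lin (ind S c) (MonoidAlgebra.mapDomainRingHom S π y) := by
  induction y using MonoidAlgebra.induction_linear with
  | zero => simp
  | add y y' hy hy' => rw [map_add, map_add, map_add, hy, hy', mul_add]
  | single h b =>
    rw [MonoidAlgebra.one_def, bil_single, MonoidAlgebra.mapDomainRingHom_apply,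
      MonoidAlgebra.mapDomain_single, lin_single]
    have h1 : psiW π c δ 1 h = D * ind S c (π h) := by
      unfold psiW ind
      rw [one_mul]
      by_cases hc : IsConj c (π h)
      · rw [if_pos hc, if_pos hc, hδ.diag h hc, mul_one]
      · rw [if_neg hc, if_neg hc, mul_zero]
    rw [h1]
    ring

/-- The pairing of twisted elements. -/
lemma bil_twHom_psiW {S : Type*} [CommRing S] (β : Γ →* Matrix κ κ S) {c : Γ} {δ : G → G → S}
    (x y : MonoidAlgebra ℤ G) :
    ∑ a, ∑ b, bil (psiW π c δ) (twHom (β.comp π) x a b) (twHom (β.comp π) y b a) =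
      Matrix.trace (β c) * bil (psiW π c δ) (MonoidAlgebra.mapRingHom G (Int.castRingHom S) x)
        (MonoidAlgebra.mapRingHom G (Int.castRingHom S) y) := by
  induction x using MonoidAlgebra.induction_linear with
  | zero => simp
  | add x x' hx hx' =>
    rw [map_add, map_add, map_add, AddMonoidHom.add_apply, mul_add, ← hx, ← hx',
      ← Finset.sum_add_distrib]
    refine Finset.sum_congr rfl fun a _ => ?_
    rw [← Finset.sum_add_distrib]
    refine Finset.sum_congr rfl fun b _ => ?_
    rw [Matrix.add_apply, map_add, AddMonoidHom.add_apply]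
  | single g m =>
    induction y using MonoidAlgebra.induction_linear with
    | zero => simp
    | add y y' hy hy' =>
      rw [map_add, map_add, map_add, mul_add, ← hy, ← hy', ← Finset.sum_add_distrib]
      refine Finset.sum_congr rfl fun a _ => ?_
      rw [← Finset.sum_add_distrib]
      refine Finset.sum_congr rfl fun b _ => ?_
      rw [Matrix.add_apply, map_add]
    | single h n =>
      have h1 : ∀ a b, bil (psiW π c δ) (twHom (β.comp π) (MonoidAlgebra.single g m) a b)
          (twHom (β.comp π) (MonoidAlgebra.single h n) b a) =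
          ((m * n : ℤ) : S) * psiW π c δ g h * (β (π g) a b * β (π h) b a) := by
        intro a b
        rw [twHom_single, twHom_single, Matrix.smul_apply, Matrix.smul_apply, twMon_apply,
          twMon_apply, map_zsmul, map_zsmul, AddMonoidHom.zsmul_apply, bil_single,
          zsmul_eq_mul, zsmul_eq_mul, MonoidHom.comp_apply, MonoidHom.comp_apply]
        push_cast
        ring
      have h2 : ∑ a, ∑ b, β (π g) a b * β (π h) b a = Matrix.trace (β (π (g * h))) := by
        rw [map_mul, map_mul, Matrix.trace]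
        refine Finset.sum_congr rfl fun a _ => ?_
        rw [Matrix.diag_apply, Matrix.mul_apply]
      calc ∑ a, ∑ b, bil (psiW π c δ) (twHom (β.comp π) (MonoidAlgebra.single g m) a b)
            (twHom (β.comp π) (MonoidAlgebra.single h n) b a)
          = ((m * n : ℤ) : S) * psiW π c δ g h * Matrix.trace (β (π (g * h))) := by
            rw [← h2, Finset.mul_sum]
            refine Finset.sum_congr rfl fun a _ => ?_
            rw [Finset.mul_sum]
            exact Finset.sum_congr rfl fun b _ => h1 a b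
        _ = _ := by
            rw [MonoidAlgebra.mapRingHom_single, MonoidAlgebra.mapRingHom_single, bil_single]
            unfold psiW
            by_cases hc : IsConj c (π (g * h))
            · rw [if_pos hc, trace_isConj β hc]
              push_cast
              simp only [eq_intCast]
              ring
            · rw [if_neg hc]
              simp

/-- The pairing of twisted matrices, compare `FinQ.mbil_twist`. -/
lemma mbil_psiW_twist {S : Type*} [CommRing S] (β : Γ →* Matrix κ κ S) {c : Γ} {δ : G → G → S}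
    (X Y : Matrix ι ι (MonoidAlgebra ℤ G)) :
    mbil (bil (psiW π c δ)) (twist (β.comp π) X) (twist (β.comp π) Y) =
      Matrix.trace (β c) * mbil (bil (psiW π c δ)) (baseMat S X) (baseMat S Y) := by
  have h1 : mbil (bil (psiW π c δ)) (twist (β.comp π) X) (twist (β.comp π) Y) =
      ∑ i, ∑ j, ∑ a, ∑ b, bil (psiW π c δ) (twHom (β.comp π) (X i j) a b)
        (twHom (β.comp π) (Y j i) b a) := by
    rw [mbil_apply, Fintype.sum_prod_type]
    refine Finset.sum_congr rfl fun i _ => ?_
    rw [Finset.sum_congr rfl fun a _ => Fintype.sum_prod_type _, Finset.sum_comm]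
    rfl
  rw [h1, mbil_apply, Finset.mul_sum]
  refine Finset.sum_congr rfl fun i _ => ?_
  rw [Finset.mul_sum]
  refine Finset.sum_congr rfl fun j _ => ?_
  rw [bil_twHom_psiW]
  rfl

end Pool.Agent.Lib.MP_8f66f0_al_Uni
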