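import Mathlib
import Pool.Agent.Lib.MP_8f66f0_al_FinQ.LemmaP
import Pool.Agent.Lib.MP_8f66f0_al_Uni.Defs

/-! Divisibility of class sums from class cocycles. -/

set_option autoImplicit false
set_option linter.unusedSectionVars false

namespace Pool.Agent.Lib.MP_8f66f0_al_Uni

open Pool.Agent.Lib.MP_8f66f0_al_Dennis Pool.Agent.Lib.MP_8f66f0_al_FinQ
  Pool.Agent.Lib.MP_8f66f0_al_Plus

/-- Abstract version of `FinQ.tau_dvd` with a value `d` in the coefficient ring: the first estimate.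
(The proof is the part `key` of `FinQ.tau_dvd`.) -/
theorem dvd_mul_tau {S R : Type*} [CommRing S] [IsDomain S] [CharZero S] [Ring R] {p : ℕ}
    (hp : p.Prime) {φ : R →+ R →+ S} {τ : R →+ S} {d : S} (hτ1 : τ 1 = 0)
    (hφ : ∀ x y z, φ x (y * z) = φ (x * y) z + φ (z * x) y) (hφ1 : ∀ y, φ 1 y = d * τ y)
    {X X' : R} (hX : X' * X = 1) (h0 : φ X' X = 0) {Z : ℕ → R}
    (hZ : ∀ r, X ^ (p ^ r) = 1 + (p ^ (r + 2)) • Z r) (r : ℕ) :
    (p : S) ^ r ∣ d * τ (Z r) := by
  have hN : 0 < p ^ r := pow_pos hp.pos r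
  obtain ⟨N, hNeq⟩ : ∃ N, p ^ r = N + 1 := ⟨p ^ r - 1, by omega⟩
  have h1 : φ 1 (X ^ (p ^ r)) = (p ^ r) • φ (X ^ N) X := by
    have := phi_pow hφ X 0 N
    rw [pow_zero, zero_add] at this
    rw [hNeq, this]
  have h2 : X ^ N = X' + (p ^ (r + 2)) • (X' * Z r) := by
    have : X' * X ^ (p ^ r) = X ^ N := by
      rw [hNeq, pow_succ', ← mul_assoc, hX, one_mul]
    rw [← this, hZ, mul_add, mul_one, mul_smul_comm]
  have h3 : φ (X ^ N) X = (p ^ (r + 2)) • φ (X' * Z r) X := by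
    rw [h2, map_add, AddMonoidHom.add_apply, h0, zero_add, map_nsmul, AddMonoidHom.nsmul_apply]
  have h4 : φ 1 (X ^ (p ^ r)) = (p ^ (r + 2)) • (d * τ (Z r)) := by
    rw [hφ1, hZ, map_add, hτ1, zero_add, map_nsmul, mul_smul_comm]
  have h5 : (p ^ (r + 2)) • (d * τ (Z r)) = (p ^ (r + 2)) • ((p ^ r) • φ (X' * Z r) X) := by
    rw [← h4, h1, h3, smul_smul, smul_smul, mul_comm]
  have h6 : d * τ (Z r) = (p ^ r) • φ (X' * Z r) X := by
    have hne : (p ^ (r + 2)) ≠ 0 := pow_ne_zero _ hp.ne_zero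
    exact smul_right_injective S hne h5
  rw [h6, nsmul_eq_mul, Nat.cast_pow]
  exact dvd_mul_right _ _

/-- A consequence of the Artin-Rees lemma. -/
theorem exists_dvd_of_dvd_mul {S : Type*} [CommRing S] [IsDomain S] [IsNoetherianRing S]
    (p d : S) (hd : d ≠ 0) : ∃ v : ℕ, ∀ (r : ℕ) (x : S), p ^ (r + v) ∣ d * x → p ^ r ∣ x := by
  obtain ⟨k, hk⟩ := Ideal.exists_pow_inf_eq_pow_smul (Ideal.span {p})
    (Ideal.span {d} : Submodule S S)
  refine ⟨k, fun r x hx => ?_⟩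
  have h1 : d * x ∈ Ideal.span {p} ^ (r + k) • (⊤ : Submodule S S) ⊓ Ideal.span {d} := by
    refine ⟨?_, Ideal.mem_span_singleton.mpr (dvd_mul_right _ _)⟩
    have h2 : d * x ∈ Ideal.span {p} ^ (r + k) := by
      rw [Ideal.span_singleton_pow]
      exact Ideal.mem_span_singleton.mpr hx
    have h3 := Submodule.smul_mem_smul h2 (Submodule.mem_top (R := S) (M := S) (x := 1))
    have h4 : (d * x) • (1 : S) = d * x := by rw [smul_eq_mul, mul_one]
    rwa [h4] at h3
  rw [hk (r + k) (Nat.le_add_left _ _), Nat.add_sub_cancel] at h1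
  have h4 : d * x ∈ Ideal.span {p} ^ r • (Ideal.span {d} : Submodule S S) :=
    Submodule.smul_mono le_rfl inf_le_right h1
  rw [smul_eq_mul, Ideal.span_singleton_pow, Ideal.span_singleton_mul_span_singleton,
    Ideal.mem_span_singleton] at h4
  obtain ⟨y, hy⟩ := h4
  refine ⟨y, mul_left_cancel₀ hd ?_⟩
  rw [hy]
  ring

variable {Γ : Type*} [Group Γ] {n : ℕ} {A B : Matrix (Fin n) (Fin n) (MonoidAlgebra ℤ Γ)}
  {S : Type*} [CommRing S] [IsDomain S] [CharZero S] {p : ℕ} {c : Γ}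

/-- Matrices over a group ring have no torsion. -/
lemma tau_smul_inj {ι : Type*} {q : ℕ} (hq : q ≠ 0)
    {X Y : Matrix ι ι (MonoidAlgebra S Γ)} (h : q • X = q • Y) : X = Y := by
  ext i j : 1
  have h1 : q • X i j = q • Y i j := by
    have := congrFun (congrFun h i) j
    exact this
  ext g
  have h2 := congrArg (fun x : MonoidAlgebra S Γ => x.coeff g) h1
  have h3 : q • (X i j).coeff g = q • (Y i j).coeff g := h2
  exact smul_right_injective S hq h3

/-- The sequence of quotients is determined by the first. -/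
lemma tau_seq {ι : Type*} [Fintype ι] [DecidableEq ι] (hp : p.Prime)
    {X : Matrix ι ι (MonoidAlgebra S Γ)} {Z : ℕ → Matrix ι ι (MonoidAlgebra S Γ)}
    (hZ : ∀ r, X ^ (p ^ r) = 1 + (p ^ (r + 2)) • Z r) :
    ∀ r, ∃ V, Z (r + 1) = Z r + (p ^ (r + 1)) • V := by
  obtain ⟨Z', -, h1, h2⟩ := exists_seq p (X := X) (Z0 := Z 0) (by
    have := hZ 0
    rwa [pow_zero, pow_one, zero_add] at this)
  have h3 : ∀ r, Z r = Z' r := by
    intro r
    have h4 := (hZ r).symm.trans (h1 r)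
    exact tau_smul_inj (pow_ne_zero _ hp.ne_zero) (add_left_cancel h4)
  intro r
  obtain ⟨V, hV⟩ := h2 r
  exact ⟨V, by rw [h3, h3, hV]⟩

/-- Detected classes are good (proof: `FinQ.tau_dvd` and the argument of
`Plus.mult_of_detected`). -/
theorem tauGood_of_detected (hsep : ∀ H : Subgroup Γ, H.FG → PowerSeparated H)
    (hAB : A * B = 1) (hBA : B * A = 1) (hp : p.Prime) (hc : Detected c) :
    TauGood S p A B c := by
  intro k β β' M Z hM _ hZ
  obtain ⟨δ, hδ, hne⟩ := hc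
  set X := twist β' B * twist β A with hX
  set X' := twist β B * twist β' A with hX'
  have hAB1 : ∀ σ : Γ →* Matrix (Fin k) (Fin k) S, twist σ A * twist σ B = 1 := fun σ => by
    rw [← map_mul, hAB, map_one]
  have hBA1 : ∀ σ : Γ →* Matrix (Fin k) (Fin k) S, twist σ B * twist σ A = 1 := fun σ => by
    rw [← map_mul, hBA, map_one]
  have hX'X : X' * X = 1 := by
    rw [hX, hX', mul_assoc, ← mul_assoc (twist β' A), hAB1, one_mul, hBA1]
  have hXX' : X * X' = 1 := by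
    rw [hX, hX', mul_assoc, ← mul_assoc (twist β A), hAB1, one_mul, hBA1]
  have hpair : mbil (bil (psi S c δ)) X' X = 0 := by
    have hc1 : c ≠ 1 := by
      rintro rfl
      exact not_detected_one ⟨δ, hδ, hne⟩
    have hco := mbil_cocycle (ι := Fin n × Fin k) (b := bil (psi S c δ)) (bil_psi_cocycle hδ)
    rw [hX, hco]
    have e1 : X' * twist β' B = twist β B := by rw [hX', mul_assoc, hAB1, mul_one]
    have e2 : twist β A * X' = twist β' A := by rw [hX', ← mul_assoc, hAB1, one_mul]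
    rw [e1, e2, mbil_twist, mbil_twist, dennis_int hsep hAB hBA c hc1 δ hδ,
      dennis_int hsep hBA hAB c hc1 δ hδ]
    simp
  have hXM : X' ^ M * X ^ M = 1 := pow_mul_pow_eq_one M hX'X
  have h0 := phi_pow_inv (fun x y z => mbil_cocycle (bil_psi_cocycle hδ) x y z)
    hX'X hXX' hpair M
  have hZ1 : ∀ r, (X ^ M) ^ (p ^ r) = 1 + (p ^ (r + 2)) • Z r := by
    intro r
    rw [← pow_mul]
    exact hZ r
  exact tau_dvd hp (φ := mbil (bil (psi S c δ))) (τ := Pool.Agent.Lib.MP_8f66f0_al_FinQ.mtr (lin (ind S c))) (d := δ c c) hne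
    (fun x y z => mbil_cocycle (bil_psi_cocycle hδ) x y z)
    (fun y => mbil_one (bil_psi_one hδ) y) hXM h0 hZ1 (tau_seq hp hZ1)

end Pool.Agent.Lib.MP_8f66f0_al_Uni
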