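import Mathlib
import Pool.Agent.Lib.MP_8f66f0_al_Uni.Deg
import Pool.Agent.Lib.MP_8f66f0_al_Uni.Lift
import Pool.Agent.Lib.MP_8f66f0_al_Uni.Tau

/-! Classes with a polynomial class cocycle are good. -/

set_option autoImplicit false
set_option linter.unusedSectionVars false

namespace Pool.Agent.Lib.MP_8f66f0_al_Uni

open Pool.Agent.Lib.MP_8f66f0_al_Dennis Pool.Agent.Lib.MP_8f66f0_al_FinQ
  Pool.Agent.Lib.MP_8f66f0_al_Plus

section abstr

lemma exists_pow_add {R : Type*} [Ring R] (p : ℕ) (a z : R) (m : ℕ) :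
    ∃ W : R, (p • a + z) ^ m = z ^ m + p • W := by
  induction m with
  | zero => exact ⟨0, by simp⟩
  | succ m ih =>
    obtain ⟨W, hW⟩ := ih
    refine ⟨z ^ m * a + W * (p • a + z), ?_⟩
    rw [pow_succ, hW, add_mul, mul_add, smul_add, ← pow_succ, mul_smul_comm, smul_mul_assoc,
      add_comm (p • (z ^ m * a)) (z ^ (m + 1)), add_assoc]

lemma nsmul_pow_injective {E : Type*} [AddCommGroup E] {p : ℕ}
    (h : Function.Injective fun x : E => p • x) (r : ℕ) :
    Function.Injective fun x : E => (p ^ r) • x := by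
  induction r with
  | zero =>
    intro x y hxy
    simpa using hxy
  | succ r ih =>
    intro x y hxy
    apply h
    apply ih
    simpa only [pow_succ, mul_smul] using hxy

/-- The abstract form of the argument. -/
theorem tau_dvd_abs {S : Type*} [CommRing S] [IsDomain S] [CharZero S] [IsNoetherianRing S]
    {Q E : Type*} [Ring Q] [Ring E] {p : ℕ} (hp : p.Prime) (P : Q →+* E) {φ : Q →+ Q →+ S}
    {τ : E →+ S} {D : S} (hD : D ≠ 0)
    (hφ : ∀ x y z, φ x (y * z) = φ (x * y) z + φ (z * x) y)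
    (hφ1 : ∀ y, φ 1 y = D * τ (P y)) (hτ1 : τ 1 = 0)
    {X X' : Q} (hX'X : X' * X = 1) (hXX' : X * X' = 1) (h0 : φ X' X = 0)
    (htf : Function.Injective fun x : E => p • x)
    {M : ℕ} (hnil : ∃ (m : ℕ) (W : Q), (X ^ M - 1) ^ m = p • W) {Z : ℕ → E}
    (hZ : ∀ r, P X ^ (M * p ^ r) = 1 + (p ^ (r + 2)) • Z r) (r : ℕ) :
    (p : S) ^ (r + 1) ∣ τ (Z r) := by
  obtain ⟨m, W0, hW0⟩ := hnil
  obtain ⟨M', hM', Z0, hZ0⟩ := exists_pow_eq hp hW0
  rw [add_sub_cancel, ← pow_mul] at hZ0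
  obtain ⟨Z', -, hZ', -⟩ := exists_seq p hZ0
  have hdvd : ∀ r, (p : S) ^ r ∣ D * τ (P (Z' r)) := by
    intro r
    exact dvd_mul_tau hp (φ := φ) (τ := τ.comp P.toAddMonoidHom) (d := D)
      (by
        change τ (P 1) = 0
        rw [map_one]
        exact hτ1) hφ hφ1 (X := X ^ (M * M')) (X' := X' ^ (M * M'))
      (pow_mul_pow_eq_one _ hX'X) (phi_pow_inv hφ hX'X hXX' h0 _) hZ' r
  -- comparison of `Z` and `Z'`
  have hcomp : ∀ r, ∃ V, P (Z' r) = M' • Z r + (p ^ r) • V := by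
    intro r
    obtain ⟨W, hW⟩ := one_add_pow_expand ((p ^ (r + 2)) • Z r) M'
    have e1 : (P X ^ (M * p ^ r)) ^ M' = 1 + (p ^ (r + 2)) • P (Z' r) := by
      rw [← pow_mul, mul_right_comm, pow_mul, ← map_pow P X (M * M'), ← map_pow, hZ', map_add,
        map_one, map_nsmul]
    rw [hZ, hW, add_assoc, add_right_inj] at e1
    refine ⟨(p ^ 2) • (Z r * Z r * W), ?_⟩
    apply nsmul_pow_injective htf (r + 2)
    change (p ^ (r + 2)) • P (Z' r) = (p ^ (r + 2)) • _
    rw [← e1, smul_add, smul_comm M', smul_smul (p ^ r), ← pow_add, smul_mul_assoc,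
      mul_smul_comm, smul_mul_assoc, smul_mul_assoc]
  have hstep : ∀ r, ∃ V, Z (r + 1) = Z r + (p ^ (r + 1)) • V := by
    intro r
    obtain ⟨W, hW⟩ := one_add_pow_expand ((p ^ (r + 2)) • Z r) p
    have e1 : (P X ^ (M * p ^ r)) ^ p = 1 + (p ^ (r + 3)) • Z (r + 1) := by
      rw [← pow_mul, mul_assoc, ← pow_succ, hZ]
    rw [hZ, hW, add_assoc, add_right_inj] at e1
    refine ⟨Z r * Z r * W, ?_⟩
    apply nsmul_pow_injective htf (r + 3)
    change (p ^ (r + 3)) • Z (r + 1) = (p ^ (r + 3)) • _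
    rw [← e1, smul_add, smul_smul p, ← pow_succ', smul_mul_assoc, mul_smul_comm, smul_mul_assoc,
      smul_mul_assoc, smul_smul, smul_smul, ← pow_add, ← pow_add]
    congr 3
    ring
  have hM'0 : (M' : S) ≠ 0 := Nat.cast_ne_zero.mpr hM'.ne'
  obtain ⟨v, hv⟩ := exists_dvd_of_dvd_mul (p : S) (D * M') (mul_ne_zero hD hM'0)
  have h1 : ∀ r, (p : S) ^ r ∣ τ (Z (r + v)) := by
    intro r
    apply hv
    obtain ⟨V, hV⟩ := hcomp (r + v)
    have h2 := hdvd (r + v)
    rw [hV, map_add, map_nsmul, map_nsmul, nsmul_eq_mul, nsmul_eq_mul, mul_add, ← mul_assoc,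
      Nat.cast_pow] at h2
    refine (dvd_add_left ?_).mp h2
    exact Dvd.dvd.mul_left (dvd_mul_right _ _) _
  obtain ⟨V, hV⟩ := seq_diff p hstep r (1 + v)
  have h2 := h1 (r + 1)
  rw [add_assoc, hV, map_add, map_nsmul, nsmul_eq_mul, Nat.cast_pow] at h2
  exact (dvd_add_left (dvd_mul_right _ _)).mp h2

end abstr

section quot

variable {R S : Type*} [Ring R] [AddCommGroup S] (I : Ideal R) [I.IsTwoSided]

/-- A biadditive map which vanishes on the ideal `I` descends to the quotient. -/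
noncomputable def bbar (b : R →+ R →+ S) (h1 : ∀ z ∈ I, ∀ y, b z y = 0)
    (h2 : ∀ z ∈ I, ∀ y, b y z = 0) : R ⧸ I →+ R ⧸ I →+ S :=
  have key : ∀ x y x' y' : R, Ideal.Quotient.mk I x = Ideal.Quotient.mk I x' →
      Ideal.Quotient.mk I y = Ideal.Quotient.mk I y' → b x y = b x' y' := by
    intro x y x' y' hx hy
    rw [Ideal.Quotient.mk_eq_mk_iff_sub_mem] at hx hy
    have e1 := h1 _ hx y
    have e2 := h2 _ hy x'
    rw [map_sub, AddMonoidHom.sub_apply, sub_eq_zero] at e1
    rw [map_sub, sub_eq_zero] at e2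
    rw [e1, e2]
  have hs : ∀ x : R ⧸ I, Ideal.Quotient.mk I
      (Function.surjInv (Ideal.Quotient.mk_surjective (I := I)) x) = x :=
    fun x => Function.surjInv_eq _ x
  AddMonoidHom.mk' (fun x => AddMonoidHom.mk'
    (fun y => b (Function.surjInv (Ideal.Quotient.mk_surjective (I := I)) x)
      (Function.surjInv (Ideal.Quotient.mk_surjective (I := I)) y))
    (by
      intro y y'
      rw [← map_add]
      exact key _ _ _ _ rfl (by rw [map_add, hs, hs, hs])))
    (by
      intro x x'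
      ext y
      change b _ _ = b _ _ + b _ _
      rw [← AddMonoidHom.add_apply, ← map_add]
      exact key _ _ _ _ (by rw [map_add, hs, hs, hs]) rfl)

lemma bbar_mk (b : R →+ R →+ S) (h1 : ∀ z ∈ I, ∀ y, b z y = 0) (h2 : ∀ z ∈ I, ∀ y, b y z = 0)
    (x y : R) : bbar I b h1 h2 (Ideal.Quotient.mk I x) (Ideal.Quotient.mk I y) = b x y := by
  have hs : ∀ x : R ⧸ I, Ideal.Quotient.mk I
      (Function.surjInv (Ideal.Quotient.mk_surjective (I := I)) x) = x :=
    fun x => Function.surjInv_eq _ x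
  change b _ _ = b x y
  have hx := hs (Ideal.Quotient.mk I x)
  have hy := hs (Ideal.Quotient.mk I y)
  rw [Ideal.Quotient.mk_eq_mk_iff_sub_mem] at hx hy
  have e1 := h1 _ hx (Function.surjInv (Ideal.Quotient.mk_surjective (I := I))
    (Ideal.Quotient.mk I y))
  have e2 := h2 _ hy x
  rw [map_sub, AddMonoidHom.sub_apply, sub_eq_zero] at e1
  rw [map_sub, sub_eq_zero] at e2
  rw [e1, e2]

lemma mbil_one' {E O ι : Type*} [Ring E] [CommRing O] [Fintype ι] [DecidableEq ι]
    {b : E →+ E →+ O} {τ : E →+ O} {d : O}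
    (hb : ∀ y, b 1 y = d * τ y) (Y : Matrix ι ι E) : mbil b 1 Y = d * mtr τ Y := by
  rw [mbil_apply, MP_8f66f0_al_FinQ.mtr_apply, Matrix.trace, map_sum, Finset.mul_sum]
  refine Finset.sum_congr rfl fun i _ => ?_
  rw [Finset.sum_eq_single i]
  · rw [Matrix.one_apply_eq, hb, Matrix.diag_apply]
  · intro j _ hj
    rw [Matrix.one_apply_ne hj.symm, map_zero, AddMonoidHom.zero_apply]
  · intro h
    exact absurd (Finset.mem_univ _) h

end quot

variable {Γ : Type*} [Group Γ] {n : ℕ} {A B : Matrix (Fin n) (Fin n) (MonoidAlgebra ℤ Γ)}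
  {S : Type*} [CommRing S] [IsDomain S] [CharZero S] {p : ℕ} {c : Γ}

/-- Classes with a polynomial class cocycle for which the pairing of lifts vanishes are good.

Proof. Choose lifts `A'`, `B'` modulo `I^(J+1)` (`exists_lift`). Let `Λ = S G / I_S^(J+1)` (a ring,
`I_S = kerI S π`), `X = twist (β' ∘ π) B' * twist (β ∘ π) A'` and
`X' = twist (β ∘ π) B' * twist (β' ∘ π) A'` in matrices over `Λ`: `X' X = X X' = 1`, the pairing
`φ = mbil (bil (psiW π c δ))` descends to `Λ` (Deg.lean), is a cocycle, `φ(1, y) = D τ(y)` where `τ` is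
the class sum of the image in `S Γ`, and `φ(X', X) = 0` as in `Plus.mult_of_detected`. From
`NilMod p (X_Γ - 1)` one gets `(X - 1)^m = p W + z` with `z` in `I_Λ`, so `(X - 1)^(m (J+1))` is `p` times
something in `Λ` (expand; `z^(J+1) = 0`, all other terms contain `p`), so `exists_pow_eq` gives
`X^(M M') = 1 + p^2 Z0` in `Λ` for some `M' > 0` (apply it to `X^M`, whose image over `S Γ` is `1`
modulo `p^2`; then `NilMod` is not even needed). By `exists_seq` `X^(M M' p^r) = 1 + p^(r+2) Z'_r` in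
`Λ`, and `dvd_mul_tau` gives `p^r ∣ D τ(Z'_r)`. Over `S Γ` (which is `p`-torsion-free)
`(1 + p^(r+2) Z_r)^M' = 1 + p^(r+2) Z'_r` gives `Z'_r = M' Z_r + p^(r+2) W`, so `p^r ∣ D M' τ(Z_r)` for all
`r`. By `exists_dvd_of_dvd_mul` there is `v` with `p^r ∣ τ(Z_(r+v))` for all `r`; finally
`Z_(r+1) = Z_r + p^(r+1) V` (as in `exists_seq`), so `p^(r+1) ∣ τ(Z_r)`. -/
theorem tauGood_of_poly [IsNoetherianRing S] (hAB : A * B = 1) (hBA : B * A = 1) (hp : p.Prime)
    {G : Type*} [Group G] {π : G →* Γ} (hπ : Function.Surjective π) (hc1 : c ≠ 1) {J : ℕ}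
    {δ : G → G → S} {D : S} (hD : D ≠ 0) (hδ : IsPoly π c J δ D)
    (h0 : ∀ A' B' : Matrix (Fin n) (Fin n) (MonoidAlgebra ℤ G),
      EntIn ((kerI ℤ π) ^ (J + 1)) (A' * B' - 1) → EntIn ((kerI ℤ π) ^ (J + 1)) (B' * A' - 1) →
      mbil (bil (psiW π c δ)) (baseMat S A') (baseMat S B') = 0) :
    TauGood S p A B c := by
  classical
  intro k β β' M Z hM _ hZ
  obtain ⟨A', B', hA', hB', hAB', hBA'⟩ := exists_lift hπ hAB hBA (J + 1)
  set K : Ideal (MonoidAlgebra S G) := (kerI S π) ^ (J + 1) with hK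
  set b0 : MonoidAlgebra S G →+ MonoidAlgebra S G →+ S := bil (psiW π c δ) with hb0
  have hv1 : ∀ z ∈ K, ∀ y, b0 z y = 0 := fun z hz y => bil_eq_zero_left hδ.degL hz y
  have hv2 : ∀ z ∈ K, ∀ y, b0 y z = 0 := fun z hz y => bil_eq_zero_right hδ.degR hz y
  set b1 := bbar K b0 hv1 hv2 with hb1
  -- the ring homomorphisms
  let mk : MonoidAlgebra S G →+* MonoidAlgebra S G ⧸ K := Ideal.Quotient.mk K
  have hker : ∀ a ∈ K, MonoidAlgebra.mapDomainRingHom S π a = 0 :=
    fun a ha => Ideal.pow_le_self (Nat.succ_ne_zero J) ha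
  let pb : MonoidAlgebra S G ⧸ K →+* MonoidAlgebra S Γ :=
    Ideal.Quotient.lift K (MonoidAlgebra.mapDomainRingHom S π) hker
  let q : Matrix (Fin n × Fin k) (Fin n × Fin k) (MonoidAlgebra S G) →+*
    Matrix (Fin n × Fin k) (Fin n × Fin k) (MonoidAlgebra S G ⧸ K) := mk.mapMatrix
  let P : Matrix (Fin n × Fin k) (Fin n × Fin k) (MonoidAlgebra S G ⧸ K) →+*
    Matrix (Fin n × Fin k) (Fin n × Fin k) (MonoidAlgebra S Γ) := pb.mapMatrix
  have hPq : ∀ Y, P (q Y) = mapMatS S π Y := fun Y => rfl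
  have hq0 : ∀ Y, EntIn K Y → q Y = 0 := by
    intro Y hY
    ext i j : 1
    exact Ideal.Quotient.eq_zero_iff_mem.mpr (hY i j)
  have hmbil : ∀ Y Y', mbil b1 (q Y) (q Y') = mbil b0 Y Y' := by
    intro Y Y'
    rw [mbil_apply, mbil_apply]
    exact Finset.sum_congr rfl fun i _ => Finset.sum_congr rfl fun j _ =>
      bbar_mk K b0 hv1 hv2 _ _
  have hb1c : ∀ x y z, b1 x (y * z) = b1 (x * y) z + b1 (z * x) y := by
    intro x y z
    obtain ⟨x, rfl⟩ := Ideal.Quotient.mk_surjective x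
    obtain ⟨y, rfl⟩ := Ideal.Quotient.mk_surjective y
    obtain ⟨z, rfl⟩ := Ideal.Quotient.mk_surjective z
    rw [← map_mul, ← map_mul, ← map_mul, hb1, bbar_mk, bbar_mk, bbar_mk]
    exact bil_psiW_cocycle hδ x y z
  have hb11 : ∀ y, b1 1 y = D * ((MP_8f66f0_al_FinQ.lin (ind S c)).comp pb.toAddMonoidHom) y := by
    intro y
    obtain ⟨y, rfl⟩ := Ideal.Quotient.mk_surjective y
    rw [← map_one (Ideal.Quotient.mk K), hb1, bbar_mk]
    exact bil_psiW_one hδ y
  -- the matrices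
  set a := twist (β.comp π) A' with ha
  set a' := twist (β'.comp π) A' with ha'
  set b := twist (β.comp π) B' with hb
  set b' := twist (β'.comp π) B' with hb'
  have hone : ∀ (σ : Γ →* Matrix (Fin k) (Fin k) S) (Y W : Matrix (Fin n) (Fin n) _),
      EntIn ((kerI ℤ π) ^ (J + 1)) (Y * W - 1) →
      q (twist (σ.comp π) Y) * q (twist (σ.comp π) W) = 1 := by
    intro σ Y W h
    have h1 := hq0 _ (EntIn.twist σ h)
    rw [map_sub, map_sub, map_mul, map_mul, map_one, map_one, sub_eq_zero] at h1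
    exact h1
  have hab : q a * q b = 1 := hone β A' B' hAB'
  have hba : q b * q a = 1 := hone β B' A' hBA'
  have hab' : q a' * q b' = 1 := hone β' A' B' hAB'
  have hba' : q b' * q a' = 1 := hone β' B' A' hBA'
  have hX'X : q b * q a' * (q b' * q a) = 1 := by
    rw [mul_assoc, ← mul_assoc (q a'), hab', one_mul, hba]
  have hXX' : q b' * q a * (q b * q a') = 1 := by
    rw [mul_assoc, ← mul_assoc (q a), hab, one_mul, hba']
  have hPX : P (q b' * q a) = twist β' B * twist β A := by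
    rw [map_mul, hPq, hPq, hb', ha, mapMatS_twist, mapMatS_twist, hA', hB']
  have hco := mbil_cocycle (ι := Fin n × Fin k) (b := b1) hb1c
  have h00 : mbil b1 (q b * q a') (q b' * q a) = 0 := by
    rw [hco]
    have e1 : q b * q a' * q b' = q b := by rw [mul_assoc, hab', mul_one]
    have e2 : q a * (q b * q a') = q a' := by rw [← mul_assoc, hab, one_mul]
    rw [e1, e2, hmbil, hmbil, hb0, hb, ha, ha', hb', mbil_psiW_twist, mbil_psiW_twist,
      h0 B' A' hBA' hAB', h0 A' B' hAB' hBA', mul_zero, mul_zero, add_zero]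
  -- surjectivity and torsion
  have hPsurj : ∀ Y : Matrix (Fin n × Fin k) (Fin n × Fin k) (MonoidAlgebra S Γ),
      ∃ W : Matrix (Fin n × Fin k) (Fin n × Fin k) (MonoidAlgebra S G), mapMatS S π W = Y := by
    intro Y
    have hs : Function.Surjective (MonoidAlgebra.mapDomainRingHom S π) := by
      intro x
      induction x using MonoidAlgebra.induction_linear with
      | zero => exact ⟨0, map_zero _⟩
      | add x y hx hy =>
        obtain ⟨x', rfl⟩ := hx
        obtain ⟨y', rfl⟩ := hy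
        exact ⟨x' + y', map_add _ _ _⟩
      | single g s =>
        obtain ⟨g', rfl⟩ := hπ g
        exact ⟨MonoidAlgebra.single g' s, MonoidAlgebra.mapDomain_single⟩
    choose f hf using hs
    refine ⟨Y.map f, ?_⟩
    ext i j : 1
    exact hf _
  have htf : Function.Injective fun x : Matrix (Fin n × Fin k) (Fin n × Fin k)
      (MonoidAlgebra S Γ) => p • x := by
    intro x y hxy
    ext i j : 1
    have h1 : (p • x) i j = (p • y) i j := by
      change (fun x : Matrix (Fin n × Fin k) (Fin n × Fin k) (MonoidAlgebra S Γ) => p • x) x i j =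
        (fun x : Matrix (Fin n × Fin k) (Fin n × Fin k) (MonoidAlgebra S Γ) => p • x) y i j
      rw [hxy]
    rw [Matrix.smul_apply, Matrix.smul_apply] at h1
    apply MonoidAlgebra.coeff_injective
    ext g
    have h2 : (p • x i j).coeff g = (p • y i j).coeff g := by rw [h1]
    rw [MonoidAlgebra.coeff_smul, MonoidAlgebra.coeff_smul, Finsupp.smul_apply,
      Finsupp.smul_apply, nsmul_eq_mul, nsmul_eq_mul] at h2
    exact mul_left_cancel₀ (Nat.cast_ne_zero.mpr hp.ne_zero) h2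
  have hnil : ∃ (m : ℕ) (W : Matrix (Fin n × Fin k) (Fin n × Fin k) (MonoidAlgebra S G ⧸ K)),
      ((q b' * q a) ^ M - 1) ^ m = p • W := by
    obtain ⟨W0, hW0⟩ := hPsurj (p • Z 0)
    have hz := hZ 0
    rw [pow_zero, mul_one, zero_add, pow_two, mul_smul, ← hW0, ← hPX, ← map_mul q, hPq] at hz
    set z := (b' * a) ^ M - 1 - p • W0 with hzdef
    have hz0 : mapMatS S π z = 0 := by
      rw [hzdef, map_sub, map_sub, map_one, map_pow, hz, map_nsmul, add_sub_cancel_left, sub_self]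
    have hz1 : EntIn (kerI S π) z := by
      intro i j
      exact congrFun (congrFun hz0 i) j
    have hz2 : ∀ m : ℕ, EntIn ((kerI S π) ^ (m + 1)) (z ^ (m + 1)) := by
      intro m
      induction m with
      | zero => rwa [zero_add, Submodule.pow_one, pow_one]
      | succ m ih =>
        rw [pow_succ z, Submodule.pow_succ]
        exact EntIn.mul ih hz1
    obtain ⟨W, hW⟩ := exists_pow_add p (q W0) (q z) (J + 1)
    refine ⟨J + 1, W, ?_⟩
    rw [← map_pow q z, hq0 _ (hz2 J), zero_add] at hW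
    rw [← hW, ← map_mul, ← map_pow, ← map_nsmul, ← map_add, hzdef, add_sub_cancel, map_sub,
      map_one]
  have hτ : ∀ y, mbil b1 1 y =
      D * MP_8f66f0_al_FinQ.mtr (MP_8f66f0_al_FinQ.lin (ind S c)) (P y) := by
    intro y
    rw [mbil_one' hb11, MP_8f66f0_al_FinQ.mtr_apply, MP_8f66f0_al_FinQ.mtr_apply,
      AddMonoidHom.comp_apply]
    congr 2
    change pb (Matrix.trace y) = Matrix.trace (P y)
    rw [Matrix.trace, Matrix.trace, map_sum]
    rfl
  have hτ1 : MP_8f66f0_al_FinQ.mtr (MP_8f66f0_al_FinQ.lin (ind S c))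
      (1 : Matrix (Fin n × Fin k) (Fin n × Fin k) (MonoidAlgebra S Γ)) = 0 := by
    rw [MP_8f66f0_al_FinQ.mtr_apply, Matrix.trace_one, ← nsmul_one, map_nsmul,
      MonoidAlgebra.one_def, lin_single]
    have hc : ¬ IsConj c 1 := fun h => hc1 (isConj_one_left.mp h)
    unfold ind
    rw [if_neg hc, mul_zero, smul_zero]
  exact tau_dvd_abs hp P hD hco hτ hτ1 hX'X hXX' h00 htf hnil (by rw [hPX]; exact hZ)

end Pool.Agent.Lib.MP_8f66f0_al_Uni
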