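import Mathlib
import Pool.Agent.Lib.MP_8f66f0_al_Dennis.Cofinite

/-! Arithmetic of finitely generated domains. -/

set_option autoImplicit false
set_option linter.unusedSectionVars false

namespace Pool.Agent.Lib.MP_8f66f0_al_Uni

open Pool.Agent.Lib.MP_8f66f0_al_Dennis

/-- A finitely generated ring in a field maps to a finitely generated subring of the field in which
a given nonzero element becomes invertible. -/
lemma exists_adjoin_inv {R F : Type*} [CommRing R] [Algebra.FiniteType ℤ R] [Field F]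
    (g : R →+* F) (x : R) (hx : g x ≠ 0) :
    ∃ (T : Finset F) (φ : R →+* Algebra.adjoin ℤ (T : Set F)), IsUnit (φ x) := by
  classical
  obtain ⟨T0, hT0⟩ := (‹Algebra.FiniteType ℤ R›).out
  let T : Finset F := insert ((g x)⁻¹) (T0.image g)
  have hmem : ∀ r : R, g r ∈ Algebra.adjoin ℤ (T : Set F) := by
    intro r
    have hr : r ∈ Algebra.adjoin ℤ (T0 : Set R) := by rw [hT0]; trivial
    induction hr using Algebra.adjoin_induction with
    | mem r hr =>
      apply Algebra.subset_adjoin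
      simp only [T, Finset.coe_insert, Finset.coe_image]
      exact Or.inr ⟨r, hr, rfl⟩
    | algebraMap n =>
      have h1 : g (algebraMap ℤ R n) = algebraMap ℤ F n := by simp
      rw [h1]
      exact Subalgebra.algebraMap_mem _ _
    | add a b _ _ iha ihb => rw [map_add]; exact Subalgebra.add_mem _ iha ihb
    | mul a b _ _ iha ihb => rw [map_mul]; exact Subalgebra.mul_mem _ iha ihb
  let φ : R →+* Algebra.adjoin ℤ (T : Set F) :=
    g.codRestrict (Algebra.adjoin ℤ (T : Set F)).toSubring hmem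
  have hinv : (g x)⁻¹ ∈ Algebra.adjoin ℤ (T : Set F) := by
    apply Algebra.subset_adjoin
    simp only [T, Finset.coe_insert]
    exact Or.inl rfl
  refine ⟨T, φ, ?_⟩
  refine IsUnit.of_mul_eq_one (⟨_, hinv⟩ : Algebra.adjoin ℤ (T : Set F)) ?_
  apply Subtype.ext
  show g x * (g x)⁻¹ = 1
  exact mul_inv_cancel₀ hx

lemma exists_not_dvd_aux {R F : Type*} [CommRing R] [Algebra.FiniteType ℤ R] [Field F] [CharZero F]
    (g : R →+* F) (x : R) (hx : g x ≠ 0) :
    ∃ N : ℕ, ∀ l : ℕ, l.Prime → N < l → ¬ (l : R) ∣ x := by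
  obtain ⟨T, φ, hφ⟩ := exists_adjoin_inv g x hx
  obtain ⟨N, hN0, hN⟩ := not_isUnit_natCast T
  refine ⟨N, fun l hl hlt hdvd => ?_⟩
  have hlN : ¬ l ∣ N := fun h => absurd (Nat.le_of_dvd (Nat.pos_of_ne_zero hN0) h) (by omega)
  apply hN l hl hlN
  obtain ⟨y, rfl⟩ := hdvd
  rw [map_mul, map_natCast] at hφ
  exact isUnit_of_mul_isUnit_left hφ

/-- A nonzero element of a finitely generated domain of characteristic zero is divisible by only
finitely many prime numbers.

Proof: `Dennis.not_isUnit_natCast` for the finite set of generators of `R` and `1/x` in the field of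
fractions: if `l ∣ x` in `R` then `l` is a unit in `R[1/x]`. -/
theorem exists_not_dvd {R : Type*} [CommRing R] [IsDomain R] [CharZero R]
    [Algebra.FiniteType ℤ R] (x : R) (hx : x ≠ 0) :
    ∃ N : ℕ, ∀ l : ℕ, l.Prime → N < l → ¬ (l : R) ∣ x := by
  have : CharZero (FractionRing R) := IsFractionRing.charZero R
  refine exists_not_dvd_aux (algebraMap R (FractionRing R)) x ?_
  intro h
  exact hx ((IsFractionRing.injective R (FractionRing R)) (by rw [h, map_zero]))

/-- a nilpotent `m × m` matrix over a field has `m`-th power zero -/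
lemma pow_eq_zero_of_nilpotent {k : Type*} [Field k] {m : ℕ} (Y : Matrix (Fin m) (Fin m) k)
    (hY : IsNilpotent Y) : Y ^ m = 0 := by
  have h1 := Matrix.isNilpotent_charpoly_sub_pow_of_isNilpotent hY
  have h2 : Y.charpoly - Polynomial.X ^ Fintype.card (Fin m) = 0 := h1.eq_zero
  have h3 := Matrix.aeval_self_charpoly Y
  rw [sub_eq_zero.mp h2] at h3
  simpa using h3

lemma exists_not_pow_aux {R F : Type*} [CommRing R] [Algebra.FiniteType ℤ R] [Field F] [CharZero F]
    (g : R →+* F) (hg : Function.Injective g) {Γ : Type*} [Group Γ] {m : ℕ}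
    (ρ : Γ →* Matrix.GeneralLinearGroup (Fin m) R) {γ : Γ} {M : ℕ}
    (hu : ((ρ (γ ^ M) : Matrix (Fin m) (Fin m) R) - 1) ^ m = 0)
    (hne : (ρ (γ ^ M) : Matrix (Fin m) (Fin m) R) ≠ 1) :
    ∃ N : ℕ, ∀ l : ℕ, l.Prime → N < l → ∀ y : Γ, y ^ l ≠ γ := by
  classical
  -- a nonzero entry
  obtain ⟨i, j, hij⟩ : ∃ i j, ((ρ (γ ^ M) : Matrix (Fin m) (Fin m) R) - 1) i j ≠ 0 := by
    by_contra hcon
    push Not at hcon
    apply hne
    rw [← sub_eq_zero]
    ext i j
    exact hcon i j
  obtain ⟨T, φ, hφ⟩ := exists_adjoin_inv g _ (fun h => hij (hg (by rw [h, map_zero])))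
  obtain ⟨N, hN⟩ := residue_chars_cofinite T
  refine ⟨max N m, fun l hl hlt y hy => ?_⟩
  obtain ⟨I, hI, hlI, _⟩ := hN l hl (lt_of_le_of_lt (le_max_left _ _) hlt)
  have hml : m ≤ l := ((le_max_right N m).trans_lt hlt).le
  let _ : Field (Algebra.adjoin ℤ (T : Set F) ⧸ I) := Ideal.Quotient.field I
  let k := Algebra.adjoin ℤ (T : Set F) ⧸ I
  let f : R →+* k := (Ideal.Quotient.mk I).comp φ
  have hfx : f (((ρ (γ ^ M) : Matrix (Fin m) (Fin m) R) - 1) i j) ≠ 0 := by
    have : IsUnit (f (((ρ (γ ^ M) : Matrix (Fin m) (Fin m) R) - 1) i j)) :=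
      hφ.map (Ideal.Quotient.mk I)
    exact this.ne_zero
  have : Fact l.Prime := ⟨hl⟩
  have : CharP k l := by
    refine (CharP.charP_iff_prime_eq_zero hl).mpr ?_
    have : ((l : ℕ) : k) = Ideal.Quotient.mk I ((l : ℕ) : Algebra.adjoin ℤ (T : Set F)) := by
      simp [k]
    rw [this, Ideal.Quotient.eq_zero_iff_mem]
    exact hlI
  have : Nonempty (Fin m) := ⟨i⟩
  have : CharP (Matrix (Fin m) (Fin m) k) l := inferInstance
  -- the matrices over `k`
  let FM : Matrix (Fin m) (Fin m) R →+* Matrix (Fin m) (Fin m) k := f.mapMatrix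
  let Y : Matrix (Fin m) (Fin m) k := FM (ρ y : Matrix (Fin m) (Fin m) R)
  have hZ : (Y ^ M) ^ l = FM (ρ (γ ^ M) : Matrix (Fin m) (Fin m) R) := by
    have h1 : (ρ (γ ^ M) : Matrix (Fin m) (Fin m) R) =
        ((ρ y : Matrix (Fin m) (Fin m) R) ^ M) ^ l := by
      rw [← hy, ← pow_mul, mul_comm l M, map_pow, pow_mul]
      simp
    rw [h1, map_pow, map_pow]
  have hU : ((Y ^ M) ^ l - 1) ^ l = 0 := by
    have h1 : ((Y ^ M) ^ l - 1) ^ m = 0 := by
      rw [hZ]
      have h2 : FM ((ρ (γ ^ M) : Matrix (Fin m) (Fin m) R) - 1) ^ m = 0 := by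
        rw [← map_pow, hu, map_zero]
      rwa [map_sub, map_one] at h2
    exact pow_eq_zero_of_le hml h1
  have hZ1 : IsNilpotent (Y ^ M - 1) := by
    refine ⟨l ^ 2, ?_⟩
    have h1 : (Y ^ M - 1) ^ (l ^ 2) = ((Y ^ M - 1) ^ l) ^ l := by rw [sq, pow_mul]
    rw [h1, sub_pow_char_of_commute _ (Commute.one_right _), one_pow]
    exact hU
  have hZ2 : (Y ^ M - 1) ^ l = 0 :=
    pow_eq_zero_of_le hml (pow_eq_zero_of_nilpotent _ hZ1)
  rw [sub_pow_char_of_commute _ (Commute.one_right _), one_pow, hZ] at hZ2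
  apply hfx
  have h3 : FM ((ρ (γ ^ M) : Matrix (Fin m) (Fin m) R) - 1) = 0 := by
    rw [map_sub, map_one]; exact hZ2
  have h4 := congrFun (congrFun h3 i) j
  simpa [FM] using h4

/-- A quasi-unipotent element of infinite order is an `l`-th power for only finitely many
primes `l`.

Proof: let `γ^M = 1 + n`, `n` nilpotent with a nonzero entry `x`. By `Dennis.residue_chars_cofinite`
for generators of `R` and `1/x`, for every large prime `l` (`l ≥ m`, `l ∤ M` not needed) there is a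
homomorphism `f` from `R` to a finite field `k` of characteristic `l` with `f x ≠ 0`. Suppose
`y^l = γ` and put `z = f(y)^M ∈ GL_m(k)`: `z^l = f(γ)^M` is unipotent, so `(z^l)^l = 1` (`l ≥ m`:
`u^l - 1 = (u - 1)^l = 0`), so `z^(l^2) = 1`, `(z - 1)^(l^2) = 0`, `z` is unipotent, `z^l = 1`,
i.e. `f(γ)^M = 1`, contradiction to `f x ≠ 0`. -/
theorem exists_not_pow {R : Type*} [CommRing R] [IsDomain R] [CharZero R]
    [Algebra.FiniteType ℤ R] {Γ : Type*} [Group Γ] {m : ℕ}
    (ρ : Γ →* Matrix.GeneralLinearGroup (Fin m) R) {γ : Γ} {M : ℕ} (hM : 0 < M)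
    (hu : ((ρ (γ ^ M) : Matrix (Fin m) (Fin m) R) - 1) ^ m = 0)
    (hne : (ρ (γ ^ M) : Matrix (Fin m) (Fin m) R) ≠ 1) :
    ∃ N : ℕ, ∀ l : ℕ, l.Prime → N < l → ∀ y : Γ, y ^ l ≠ γ := by
  have : CharZero (FractionRing R) := IsFractionRing.charZero R
  exact exists_not_pow_aux (algebraMap R (FractionRing R)) (IsFractionRing.injective R _) ρ hu hne

end Pool.Agent.Lib.MP_8f66f0_al_Uni
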