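import Mathlib
import Pool.Agent.Lib.MP_8f66f0_al_Uni.Defs

/-! Change of the coefficient ring. -/

set_option autoImplicit false
set_option linter.unusedSectionVars false

namespace Pool.Agent.Lib.MP_8f66f0_al_Uni

open Pool.Agent.Lib.MP_8f66f0_al_Dennis
open Pool.Agent.Lib.MP_8f66f0_al_FinQ Pool.Agent.Lib.MP_8f66f0_al_Plus

variable {Γ : Type*} [Group Γ] {O S : Type*} [CommRing O] [CommRing S] (f : O →+* S)
  {ι κ κ' : Type*} [Fintype ι] [DecidableEq ι] [Fintype κ] [DecidableEq κ] [Fintype κ']
  [DecidableEq κ']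

/-- Change of coefficients for representations. -/
def chg (β : Γ →* Matrix κ κ O) : Γ →* Matrix κ κ S :=
  (f.mapMatrix : Matrix κ κ O →+* Matrix κ κ S).toMonoidHom.comp β

lemma chg_apply (β : Γ →* Matrix κ κ O) (g : Γ) (i j : κ) : chg f β g i j = f (β g i j) := rfl

/-- Change of coefficients for matrices over group rings. -/
noncomputable def chgM : Matrix κ κ (MonoidAlgebra O Γ) →+* Matrix κ κ (MonoidAlgebra S Γ) :=
  (MonoidAlgebra.mapRingHom Γ f).mapMatrix

lemma chgM_apply (Y : Matrix κ κ (MonoidAlgebra O Γ)) (i j : κ) :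
    chgM f Y i j = MonoidAlgebra.mapRingHom Γ f (Y i j) := rfl

lemma twHom_chg (β : Γ →* Matrix κ κ O) (x : MonoidAlgebra ℤ Γ) (a b : κ) :
    twHom (chg f β) x a b = MonoidAlgebra.mapRingHom Γ f (twHom β x a b) := by
  induction x using MonoidAlgebra.induction_linear with
  | zero => simp
  | add x y hx hy =>
    rw [map_add, map_add, Matrix.add_apply, Matrix.add_apply, map_add, hx, hy]
  | single g m =>
    rw [twHom_single, twHom_single, Matrix.smul_apply, Matrix.smul_apply, twMon_apply,
      twMon_apply, map_zsmul, chg_apply, MonoidAlgebra.mapRingHom_single]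

lemma twist_chg (β : Γ →* Matrix κ κ O) (A : Matrix ι ι (MonoidAlgebra ℤ Γ)) :
    twist (chg f β) A = chgM f (twist β A) := by
  ext x y : 2
  rw [twist_apply, chgM_apply, twist_apply, twHom_chg]

lemma mapHom_chg (σ : Γ →* Matrix κ κ O) (x : MonoidAlgebra ℤ Γ) (a b : κ) :
    mapHom (chg f σ) x a b = f (mapHom σ x a b) := by
  rw [mapHom_apply, mapHom_apply, Finsupp.sum, Finsupp.sum, map_sum]
  refine Finset.sum_congr rfl fun g _ => ?_
  rw [map_mul, map_intCast, chg_apply]

lemma det_mapRep_chg (σ : Γ →* Matrix κ κ O) (A : Matrix ι ι (MonoidAlgebra ℤ Γ)) :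
    (mapRep (chg f σ) A).det = f (mapRep σ A).det := by
  have h : mapRep (chg f σ) A = f.mapMatrix (mapRep σ A) := by
    ext x y
    rw [mapRep_apply, mapHom_chg, RingHom.mapMatrix_apply, Matrix.map_apply, mapRep_apply]
  rw [h, RingHom.map_det]

lemma tens_chg (β : Γ →* Matrix κ κ O) (σ : Γ →* Matrix κ' κ' O) :
    tens (chg f β) (chg f σ) = chg f (tens β σ) := by
  refine MonoidHom.ext fun g => ?_
  ext x y
  rw [tens_apply, chg_apply, chg_apply, chg_apply, tens_apply, map_mul]

lemma nilMod_chg {p : ℕ} {Y : Matrix κ κ (MonoidAlgebra O Γ)} (h : NilMod p Y) :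
    NilMod p (chgM f Y) := by
  obtain ⟨m, W, hW⟩ := h
  exact ⟨m, chgM f W, by rw [← map_pow, hW, map_nsmul]⟩

lemma lin_chg (t : Γ → O) (x : MonoidAlgebra O Γ) :
    lin (fun g => f (t g)) (MonoidAlgebra.mapRingHom Γ f x) = f (lin t x) := by
  induction x using MonoidAlgebra.induction_linear with
  | zero => simp
  | add x y hx hy => rw [map_add, map_add, map_add, map_add, hx, hy]
  | single g m => rw [MonoidAlgebra.mapRingHom_single, lin_single, lin_single, map_mul]

lemma lin_ind_chg (c : Γ) (x : MonoidAlgebra O Γ) :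
    lin (ind S c) (MonoidAlgebra.mapRingHom Γ f x) = f (lin (ind O c) x) := by
  rw [← lin_chg]
  congr 2
  funext g
  unfold ind
  split_ifs
  · rw [map_one]
  · rw [map_zero]

lemma mtr_ind_chg (c : Γ) (Z : Matrix κ κ (MonoidAlgebra O Γ)) :
    mtr (lin (ind S c)) (chgM f Z) = f (mtr (lin (ind O c)) Z) := by
  rw [mtr_apply, mtr_apply, ← lin_ind_chg]
  congr 1
  rw [Matrix.trace, Matrix.trace, map_sum]
  rfl

lemma bil_chg {G : Type*} (K : G → G → O) (x y : MonoidAlgebra O G) [Group G] :
    bil (fun g h => f (K g h)) (MonoidAlgebra.mapRingHom G f x) (MonoidAlgebra.mapRingHom G f y) =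
      f (bil K x y) := by
  induction x using MonoidAlgebra.induction_linear with
  | zero => simp
  | add x x' hx hx' =>
    rw [map_add, map_add, map_add, AddMonoidHom.add_apply, AddMonoidHom.add_apply, map_add, hx,
      hx']
  | single g a =>
    induction y using MonoidAlgebra.induction_linear with
    | zero => simp
    | add y y' hy hy' => rw [map_add, map_add, map_add, map_add, hy, hy']
    | single h b =>
      rw [MonoidAlgebra.mapRingHom_single, MonoidAlgebra.mapRingHom_single, bil_single,
        bil_single, map_mul, map_mul]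

lemma baseMat_chg {G : Type*} [Group G] (A : Matrix ι ι (MonoidAlgebra ℤ G)) (i j : ι) :
    baseMat S A i j = MonoidAlgebra.mapRingHom G f (baseMat O A i j) := by
  change MonoidAlgebra.mapRingHom G (Int.castRingHom S) (A i j) =
    MonoidAlgebra.mapRingHom G f (MonoidAlgebra.mapRingHom G (Int.castRingHom O) (A i j))
  generalize A i j = x
  induction x using MonoidAlgebra.induction_linear with
  | zero => simp
  | add x y hx hy => rw [map_add, map_add, map_add, hx, hy]
  | single g a =>
    rw [MonoidAlgebra.mapRingHom_single, MonoidAlgebra.mapRingHom_single,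
      MonoidAlgebra.mapRingHom_single, eq_intCast, eq_intCast, map_intCast]

lemma mbil_chg {G : Type*} [Group G] {π : G →* Γ} {c : Γ} (δ : G → G → O)
    (A B : Matrix ι ι (MonoidAlgebra ℤ G)) :
    mbil (bil (psiW π c (fun g x => f (δ g x)))) (baseMat S A) (baseMat S B) =
      f (mbil (bil (psiW π c δ)) (baseMat O A) (baseMat O B)) := by
  have hpsi : psiW π c (fun g x => f (δ g x)) = fun g h => f (psiW π c δ g h) := by
    funext g h
    unfold psiW
    split_ifs
    · rfl
    · exact (map_zero f).symm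
  rw [hpsi, mbil_apply, mbil_apply, map_sum]
  refine Finset.sum_congr rfl fun i _ => ?_
  rw [map_sum]
  refine Finset.sum_congr rfl fun j _ => ?_
  rw [baseMat_chg f, baseMat_chg f, bil_chg]

end Pool.Agent.Lib.MP_8f66f0_al_Uni
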