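import Mathlib

/-! The invariant polynomial. For matrices `M`, `W` let `dchi M W` be the derivative of
`det (1 + X M)` in the direction `W` (Jacobi's formula is taken as the definition; only linearity
in `W`, invariance under conjugation, the degree and the value below are needed). -/

set_option autoImplicit false
set_option linter.unusedSectionVars false

namespace Pool.Agent.Lib.MP_8f66f0_al_Uni

open Polynomial

section dchi

variable {S : Type*} [CommRing S] {N : ℕ}

/-- `det (1 + X M)`. -/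
noncomputable def chiP (M : Matrix (Fin N) (Fin N) S) : S[X] :=
  (1 + (X : S[X]) • M.map C).det

/-- The derivative of `det (1 + X M)` in the direction `W`. -/
noncomputable def dchi (M W : Matrix (Fin N) (Fin N) S) : S[X] :=
  Matrix.trace ((1 + (X : S[X]) • M.map C).adjugate * ((X : S[X]) • W.map C))

lemma map_C_add (W W' : Matrix (Fin N) (Fin N) S) :
    (W + W').map (C : S →+* S[X]) = W.map C + W'.map C := by
  ext i j : 2
  simp

lemma map_C_mul (W W' : Matrix (Fin N) (Fin N) S) :
    (W * W').map (C : S →+* S[X]) = W.map C * W'.map C := Matrix.map_mul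

lemma dchi_add (M W W' : Matrix (Fin N) (Fin N) S) : dchi M (W + W') = dchi M W + dchi M W' := by
  unfold dchi
  rw [map_C_add, smul_add, mul_add, Matrix.trace_add]

lemma dchi_zero (M : Matrix (Fin N) (Fin N) S) : dchi M 0 = 0 := by
  have h := dchi_add M 0 0
  rw [add_zero] at h
  exact left_eq_add.mp h

lemma dchi_smul (M W : Matrix (Fin N) (Fin N) S) (c : S) : dchi M (c • W) = C c * dchi M W := by
  unfold dchi
  have h : (c • W).map (C : S →+* S[X]) = (C c) • W.map C := by
    ext i j : 2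
    simp
  rw [h, smul_comm, Matrix.mul_smul, Matrix.trace_smul, smul_eq_mul]

lemma dchi_neg (M W : Matrix (Fin N) (Fin N) S) : dchi M (-W) = - dchi M W := by
  have h := dchi_add M W (-W)
  rw [add_neg_cancel, dchi_zero] at h
  exact (neg_eq_of_add_eq_zero_right h.symm).symm

lemma dchi_sub (M W W' : Matrix (Fin N) (Fin N) S) : dchi M (W - W') = dchi M W - dchi M W' := by
  rw [sub_eq_add_neg, dchi_add, dchi_neg, sub_eq_add_neg]

lemma dchi_conj (s t M W : Matrix (Fin N) (Fin N) S) (hst : s * t = 1) :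
    dchi (s * M * t) (s * W * t) = dchi M W := by
  unfold dchi
  set s' : Matrix (Fin N) (Fin N) S[X] := s.map C with hs'
  set t' : Matrix (Fin N) (Fin N) S[X] := t.map C with ht'
  have hst' : s' * t' = 1 := by
    rw [hs', ht', ← map_C_mul, hst]
    ext i j : 2
    rw [Matrix.map_apply, Matrix.one_apply, Matrix.one_apply]
    split_ifs <;> simp
  have hts' : t' * s' = 1 := mul_eq_one_comm.mp hst'
  have h1 : 1 + (X : S[X]) • (s * M * t).map C = s' * (1 + (X : S[X]) • M.map C) * t' := by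
    rw [map_C_mul, map_C_mul, mul_add, add_mul, mul_one, hst', Matrix.mul_smul, Matrix.smul_mul]
  have h2 : (X : S[X]) • (s * W * t).map C = s' * ((X : S[X]) • W.map C) * t' := by
    rw [map_C_mul, map_C_mul, Matrix.mul_smul, Matrix.smul_mul]
  have hdet : s'.det * t'.det = 1 := by
    rw [← Matrix.det_mul, hst', Matrix.det_one]
  rw [h1, h2, Matrix.adjugate_mul_distrib, Matrix.adjugate_mul_distrib]
  set N0 := (1 + (X : S[X]) • M.map C).adjugate
  set V := (X : S[X]) • W.map C
  have h3 : t'.adjugate * (N0 * s'.adjugate) * (s' * V * t') =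
      t'.adjugate * (N0 * (s'.adjugate * s') * V * t') := by
    simp only [mul_assoc]
  rw [h3, Matrix.adjugate_mul, Matrix.trace_mul_comm]
  have h4 : N0 * (s'.det • (1 : Matrix (Fin N) (Fin N) S[X])) * V * t' * t'.adjugate =
      s'.det • (N0 * V * (t' * t'.adjugate)) := by
    simp only [mul_assoc, Matrix.smul_mul, Matrix.mul_smul, one_mul]
  rw [h4, Matrix.mul_adjugate, Matrix.mul_smul, mul_one, smul_smul, hdet, one_smul]

lemma dchi_map {S' : Type*} [CommRing S'] (f : S →+* S') (M W : Matrix (Fin N) (Fin N) S) :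
    dchi (M.map f) (W.map f) = (dchi M W).map f := by
  unfold dchi
  have h1 : ∀ W : Matrix (Fin N) (Fin N) S, (X : S'[X]) • (W.map f).map (C : S' →+* S'[X]) =
      (mapRingHom f).mapMatrix ((X : S[X]) • W.map C) := by
    intro W
    ext i j : 2
    simp
  have h2 : (1 : Matrix (Fin N) (Fin N) S'[X]) + (X : S'[X]) • (M.map f).map (C : S' →+* S'[X]) =
      (mapRingHom f).mapMatrix (1 + (X : S[X]) • M.map C) := by
    rw [map_add, map_one, h1]
  rw [h2, h1 W, ← RingHom.map_adjugate, ← map_mul]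
  have h3 : ∀ Y : Matrix (Fin N) (Fin N) S[X], Matrix.trace ((mapRingHom f).mapMatrix Y) =
      (Matrix.trace Y).map f := by
    intro Y
    rw [Matrix.trace, Matrix.trace, Polynomial.map_sum]
    rfl
  rw [h3]

/-- The integers `h_k = (N-1)! (1/k + 1/(k+1) + ⋯ + 1/(N-1))`, `1 ≤ k`. -/
def hk (N k : ℕ) : ℤ := ∑ j ∈ Finset.Icc k (N - 1), (((N - 1).factorial / j : ℕ) : ℤ)

/-- The invariant. -/
noncomputable def Pfun (κ : S) (M W : Matrix (Fin N) (Fin N) S) : S :=
  ∑ k ∈ Finset.Icc 1 (N - 1), (-1) ^ (k + 1) * κ ^ (N - 1 - k) * (hk N k : S) *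
    (dchi M W).coeff k

/-- The derivative of a determinant. -/
lemma derivative_det_eq (A : Matrix (Fin N) (Fin N) S[X]) :
    derivative A.det = Matrix.trace (A.adjugate * A.map derivative) := by
  have h1 : ∀ i : Fin N, (A.adjugate * A.map derivative) i i =
      (A.updateCol i (fun j => derivative (A j i))).det := by
    intro i
    rw [← Matrix.cramer_apply, Matrix.cramer_eq_adjugate_mulVec]
    rfl
  rw [Matrix.trace]
  simp only [Matrix.diag_apply, h1]
  rw [Matrix.det_apply', derivative_sum]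
  have h2 : ∀ i : Fin N, (A.updateCol i (fun j => derivative (A j i))).det =
      ∑ σ : Equiv.Perm (Fin N), ((Equiv.Perm.sign σ : ℤ) : S[X]) *
        ((∏ j ∈ Finset.univ.erase i, A (σ j) j) * derivative (A (σ i) i)) := by
    intro i
    rw [Matrix.det_apply']
    refine Finset.sum_congr rfl fun σ _ => ?_
    congr 1
    rw [← Finset.prod_erase_mul _ _ (Finset.mem_univ i), Matrix.updateCol_self]
    congr 1
    refine Finset.prod_congr rfl fun j hj => ?_
    rw [Matrix.updateCol_ne (Finset.ne_of_mem_erase hj)]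
  simp only [h2]
  rw [Finset.sum_comm]
  refine Finset.sum_congr rfl fun σ _ => ?_
  rw [derivative_intCast_mul, derivative_prod_finset, Finset.mul_sum]

/-- Jacobi's formula: `trace (adj (1 + X M) (X M)) = X (det (1 + X M))'`. -/
lemma dchi_self (M : Matrix (Fin N) (Fin N) S) : dchi M M = X * derivative (chiP M) := by
  unfold dchi chiP
  rw [derivative_det_eq]
  have h : (1 + (X : S[X]) • M.map C).map derivative = M.map C := by
    ext i j : 2
    rw [Matrix.map_apply, Matrix.add_apply, Matrix.smul_apply, Matrix.map_apply, derivative_add,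
      smul_eq_mul, derivative_mul, derivative_X, derivative_C, mul_zero, add_zero, one_mul,
      Matrix.one_apply]
    split_ifs <;> simp
  rw [h, Matrix.mul_smul, Matrix.trace_smul, smul_eq_mul]

end dchi

section value

variable {K : Type*} [Field K] {N : ℕ}

lemma hk_sub (k : ℕ) (hk1 : 1 ≤ k) (hkN : k ≤ N - 1) :
    (k : ℤ) * (hk N k - hk N (k + 1)) = ((N - 1).factorial : ℤ) := by
  have h1 : hk N k = (((N - 1).factorial / k : ℕ) : ℤ) + hk N (k + 1) := by
    unfold hk
    have h3 : Finset.Icc k (N - 1) = insert k (Finset.Icc (k + 1) (N - 1)) := by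
      ext j
      simp only [Finset.mem_insert, Finset.mem_Icc]
      omega
    rw [h3, Finset.sum_insert (by simp)]
  rw [h1, add_sub_cancel_right]
  have h2 : k ∣ (N - 1).factorial := Nat.dvd_factorial hk1 hkN
  exact_mod_cast Nat.mul_div_cancel' h2

lemma hk_top : hk N (N - 1 + 1) = 0 := by
  unfold hk
  rw [Finset.Icc_eq_empty (by omega), Finset.sum_empty]

/-- The sum in the definition of `Pfun` for `f = X (1 + κ X) μ'`. -/
lemma Pfun_sum (κ : K) (μ : K[X]) (hμ : μ.natDegree ≤ N - 1) (hμ0 : μ.coeff 0 = 1)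
    (hκ : κ ≠ 0) (hroot : μ.eval (-κ⁻¹) = 0) :
    ∑ k ∈ Finset.Icc 1 (N - 1), (-1) ^ (k + 1) * κ ^ (N - 1 - k) * (hk N k : K) *
      (X * ((1 + C κ * X) * derivative μ)).coeff k = ((N - 1).factorial : K) * κ ^ (N - 1) := by
  have hf : ∀ k : ℕ, 1 ≤ k → (X * ((1 + C κ * X) * derivative μ)).coeff k =
      (k : K) * μ.coeff k + κ * ((k - 1 : ℕ) : K) * μ.coeff (k - 1) := by
    intro k hk1
    obtain ⟨j, rfl⟩ : ∃ j, k = j + 1 := ⟨k - 1, by omega⟩
    rw [coeff_X_mul, add_mul, one_mul, coeff_add, coeff_derivative, mul_assoc, coeff_C_mul]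
    rcases Nat.eq_zero_or_pos j with rfl | hj
    · simp [mul_comm]
    · obtain ⟨i, rfl⟩ : ∃ i, j = i + 1 := ⟨j - 1, by omega⟩
      rw [coeff_X_mul, coeff_derivative]
      simp only [Nat.add_sub_cancel]
      push_cast
      ring
  -- reorder the sum
  set n := N - 1 with hn
  set w : ℕ → K := fun k => (-1) ^ (k + 1) * κ ^ (n - k) * (k : K) * μ.coeff k with hw
  have h1 : ∀ k ∈ Finset.Icc 1 n, (-1) ^ (k + 1) * κ ^ (n - k) * (hk N k : K) *
      (X * ((1 + C κ * X) * derivative μ)).coeff k =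
      (hk N k : K) * w k - (hk N k : K) * w (k - 1) := by
    intro k hk1
    rw [Finset.mem_Icc] at hk1
    rw [hf k hk1.1]
    obtain ⟨j, rfl⟩ : ∃ j, k = j + 1 := ⟨k - 1, by omega⟩
    simp only [hw, Nat.add_sub_cancel]
    have h2 : κ ^ (n - j) = κ ^ (n - (j + 1)) * κ := by
      rw [← pow_succ]
      congr 1
      omega
    rw [h2]
    ring
  rw [Finset.sum_congr rfl h1]
  have hw0 : w 0 = 0 := by simp [hw]
  have h3 : ∀ m, ∑ k ∈ Finset.Icc 1 m, ((hk N k : K) * w k - (hk N k : K) * w (k - 1)) =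
      (∑ k ∈ Finset.Icc 1 m, ((hk N k : K) - (hk N (k + 1) : K)) * w k) +
        (hk N (m + 1) : K) * w m := by
    intro m
    induction m with
    | zero => simp [hw0]
    | succ m ih =>
      rw [Finset.sum_Icc_succ_top (by omega), Finset.sum_Icc_succ_top (by omega), ih]
      simp only [Nat.add_sub_cancel]
      ring
  rw [h3, hn, hk_top, ← hn, Int.cast_zero, zero_mul, add_zero]
  have h4 : ∀ k ∈ Finset.Icc 1 n, ((hk N k : K) - (hk N (k + 1) : K)) * w k =
      (n.factorial : K) * ((-1) ^ (k + 1) * κ ^ (n - k) * μ.coeff k) := by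
    intro k hk1
    rw [Finset.mem_Icc] at hk1
    have h5 := hk_sub (N := N) k hk1.1 (by omega)
    have h6 : (k : K) * ((hk N k : K) - (hk N (k + 1) : K)) = (n.factorial : K) := by
      rw [hn]
      exact_mod_cast congrArg (Int.cast : ℤ → K) h5
    rw [← h6]
    simp only [hw]
    ring
  rw [Finset.sum_congr rfl h4, ← Finset.mul_sum]
  congr 1
  -- evaluation at `-1/κ`
  have h7 : κ ^ n * μ.eval (-κ⁻¹) = ∑ k ∈ Finset.range (n + 1), (-1) ^ k * κ ^ (n - k) * μ.coeff k := by
    rw [eval_eq_sum_range' (Nat.lt_succ_of_le hμ), Finset.mul_sum]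
    refine Finset.sum_congr rfl fun k hk1 => ?_
    have h8 : κ ^ n = κ ^ (n - k) * κ ^ k := by
      rw [← pow_add]
      congr 1
      have := Finset.mem_range.mp hk1
      omega
    rw [h8]
    have h9 : (-κ⁻¹) ^ k = (-1) ^ k * (κ ^ k)⁻¹ := by
      rw [neg_eq_neg_one_mul, mul_pow, inv_pow]
    rw [h9]
    have h10 : κ ^ k ≠ 0 := pow_ne_zero _ hκ
    field_simp
  rw [hroot, mul_zero, Finset.sum_range_succ'] at h7
  rw [pow_zero, one_mul, Nat.sub_zero, hμ0, mul_one] at h7
  have h11 : ∑ k ∈ Finset.Icc 1 n, (-1) ^ (k + 1) * κ ^ (n - k) * μ.coeff k =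
      - ∑ k ∈ Finset.range n, (-1) ^ (k + 1) * κ ^ (n - (k + 1)) * μ.coeff (k + 1) := by
    rw [← Finset.sum_neg_distrib]
    refine Finset.sum_bij' (fun k _ => k - 1) (fun k _ => k + 1) ?_ ?_ ?_ ?_ ?_
    · intro k hk1
      rw [Finset.mem_Icc] at hk1
      rw [Finset.mem_range]
      omega
    · intro k hk1
      rw [Finset.mem_range] at hk1
      rw [Finset.mem_Icc]
      omega
    · intro k hk1
      rw [Finset.mem_Icc] at hk1
      omega
    · intro k _
      omega
    · intro k hk1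
      rw [Finset.mem_Icc] at hk1
      obtain ⟨j, rfl⟩ : ∃ j, k = j + 1 := ⟨k - 1, by omega⟩
      simp only [Nat.add_sub_cancel]
      ring
  rw [h11]
  exact (eq_neg_of_add_eq_zero_right h7.symm).symm

/-- The value. Let `Ψ τ = κ τ`, `lam Ψ = κ lam`, `lam τ = 0`, `κ = 2 d a b ≠ 0`, `a = lam P0`,
`b = q0 τ`, `Y = d (a τ ⊗ q0 + b P0 ⊗ lam)`. Then `Pfun κ Ψ (Ψ - Y) = (N-1)! κ^(N-1)`.

Proof. Put `χ = chiP Ψ`, `adj = adj (1 + X Ψ)`. From `(1 + X Ψ) τ = (1 + κ X) τ` one gets
`(1 + κ X) adj τ = χ τ`, so (choose `i` with `τ_i ≠ 0`) `χ = (1 + κ X) μ` and `adj τ = μ τ` for a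
polynomial `μ`; similarly `lam adj = μ lam`.
`trace (adj Y) = d (a q0(adj τ) + b lam(adj P0)) = d (a b μ + b a μ) = κ μ`. With `dchi_self`
`f := dchi Ψ (Ψ - Y) = X χ' - κ X μ = X (1 + κ X) μ'`. So `f_k = k μ_k + κ (k-1) μ_(k-1)` and
`Σ_{k=1}^{N-1} (-1)^(k+1) κ^(N-1-k) h_k f_k = Σ_{k=1}^{N-1} (-1)^(k+1) κ^(N-1-k) k (h_k - h_(k+1)) μ_k`
`= (N-1)! Σ_{k=1}^{N-1} (-1)^(k+1) κ^(N-1-k) μ_k = (N-1)! (κ^(N-1) - κ^(N-1) μ(-1/κ))`
(`deg μ ≤ N-1` as `deg χ ≤ N`, `μ_0 = 1`). Finally `μ(-1/κ) = 0`: with `M0 = 1 - Ψ/κ` we have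
`adj(M0) τ = μ(-1/κ) τ`, and `(adj(M0) τ)_i = det (M0.updateCol i τ) = 0` (Cramer) because `lam` is a
nonzero left null vector of `M0.updateCol i τ`. -/
theorem Pfun_value {Ψ : Matrix (Fin N) (Fin N) K} {τ lam P0 q0 : Fin N → K} {d a b κ : K}
    (hτ : τ ≠ 0) (hlam : lam ≠ 0) (hlt : dotProduct lam τ = 0) (ha : a = dotProduct lam P0)
    (hb : b = dotProduct q0 τ) (hκ : κ = 2 * d * a * b) (hκ0 : κ ≠ 0)
    (h1 : Matrix.mulVec Ψ τ = κ • τ) (h2 : Matrix.vecMul lam Ψ = κ • lam) :
    Pfun κ Ψ (Ψ - d • (a • Matrix.vecMulVec τ q0 + b • Matrix.vecMulVec P0 lam)) =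
      ((N - 1).factorial : K) * κ ^ (N - 1) := by
  classical
  set A : Matrix (Fin N) (Fin N) K[X] := 1 + (X : K[X]) • Ψ.map C with hA
  set τC : Fin N → K[X] := fun i => C (τ i) with hτC
  set lC : Fin N → K[X] := fun i => C (lam i) with hlC
  have hΨτ : Matrix.mulVec (Ψ.map (C : K →+* K[X])) τC = C κ • τC := by
    funext i
    have := congrFun h1 i
    simp only [Matrix.mulVec, dotProduct, Matrix.map_apply, hτC, Pi.smul_apply, smul_eq_mul] at this ⊢
    simp only [← map_mul, ← map_sum]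
    rw [this]
  have hlΨ : Matrix.vecMul lC (Ψ.map (C : K →+* K[X])) = C κ • lC := by
    funext i
    have := congrFun h2 i
    simp only [Matrix.vecMul, dotProduct, Matrix.map_apply, hlC, Pi.smul_apply, smul_eq_mul] at this ⊢
    simp only [← map_mul, ← map_sum]
    rw [this]
  have hAτ : Matrix.mulVec A τC = (1 + C κ * X) • τC := by
    rw [hA, Matrix.add_mulVec, Matrix.one_mulVec, Matrix.smul_mulVec, hΨτ, add_smul, one_smul,
      smul_smul, mul_comm X (C κ)]
  have hlA : Matrix.vecMul lC A = (1 + C κ * X) • lC := by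
    rw [hA, Matrix.vecMul_add, Matrix.vecMul_one, Matrix.vecMul_smul, hlΨ, add_smul, one_smul,
      smul_smul, mul_comm X (C κ)]
  have hne : (1 + C κ * X : K[X]) ≠ 0 := by
    intro h
    have := congrArg (fun p : K[X] => p.coeff 0) h
    simp at this
  obtain ⟨i, hi⟩ : ∃ i, τ i ≠ 0 := Function.ne_iff.mp hτ
  set χ := A.det with hχ
  -- the polynomial `μ`
  have hadjτ : (1 + C κ * X) • Matrix.mulVec A.adjugate τC = χ • τC := by
    rw [← Matrix.mulVec_smul, ← hAτ, Matrix.mulVec_mulVec, Matrix.adjugate_mul, Matrix.smul_mulVec,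
      Matrix.one_mulVec]
  have hladj : (1 + C κ * X) • Matrix.vecMul lC A.adjugate = χ • lC := by
    rw [← Matrix.smul_vecMul, ← hlA, Matrix.vecMul_vecMul, Matrix.mul_adjugate, Matrix.vecMul_smul,
      Matrix.vecMul_one]
  set μ : K[X] := C (τ i)⁻¹ * (Matrix.mulVec A.adjugate τC) i with hμ
  have hχμ : χ = (1 + C κ * X) * μ := by
    have h3 := congrFun hadjτ i
    simp only [Pi.smul_apply, smul_eq_mul] at h3
    rw [hμ, mul_left_comm, h3, hτC]
    have : C (τ i)⁻¹ * (χ * C (τ i)) = χ * (C (τ i)⁻¹ * C (τ i)) := by ring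
    rw [this, ← C_mul, inv_mul_cancel₀ hi, C_1, mul_one]
  have hadjτ' : Matrix.mulVec A.adjugate τC = μ • τC := by
    funext j
    apply mul_left_cancel₀ hne
    have h3 := congrFun hadjτ j
    simp only [Pi.smul_apply, smul_eq_mul] at h3 ⊢
    rw [h3, hχμ]
    ring
  have hladj' : Matrix.vecMul lC A.adjugate = μ • lC := by
    funext j
    apply mul_left_cancel₀ hne
    have h3 := congrFun hladj j
    simp only [Pi.smul_apply, smul_eq_mul] at h3 ⊢
    rw [h3, hχμ]
    ring
  -- the trace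
  have htr1 : dchi Ψ (Matrix.vecMulVec τ q0) = X * (C b * μ) := by
    unfold dchi
    have h3 : (Matrix.vecMulVec τ q0).map (C : K →+* K[X]) =
        Matrix.vecMulVec τC (fun j => C (q0 j)) := by
      ext j k : 2
      simp [Matrix.vecMulVec_apply, hτC]
    rw [h3, ← hA, Matrix.mul_smul, Matrix.trace_smul, Matrix.mul_vecMulVec, hadjτ',
      Matrix.trace_vecMulVec, smul_eq_mul, smul_dotProduct, smul_eq_mul]
    have h4 : dotProduct τC (fun j => C (q0 j)) = C b := by
      rw [hb]
      simp only [dotProduct, hτC, map_sum, map_mul, mul_comm]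
    rw [h4, mul_comm μ]
  have htr2 : dchi Ψ (Matrix.vecMulVec P0 lam) = X * (C a * μ) := by
    unfold dchi
    have h3 : (Matrix.vecMulVec P0 lam).map (C : K →+* K[X]) =
        Matrix.vecMulVec (fun j => C (P0 j)) lC := by
      ext j k : 2
      simp [Matrix.vecMulVec_apply, hlC]
    rw [h3, ← hA, Matrix.mul_smul, Matrix.trace_smul, Matrix.trace_mul_comm,
      Matrix.vecMulVec_mul, hladj', Matrix.trace_vecMulVec, smul_eq_mul, dotProduct_smul,
      smul_eq_mul]
    have h4 : dotProduct (fun j => C (P0 j)) lC = C a := by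
      rw [ha]
      simp only [dotProduct, hlC, map_sum, map_mul, mul_comm]
    rw [h4, mul_comm μ]
  have hf : dchi Ψ (Ψ - d • (a • Matrix.vecMulVec τ q0 + b • Matrix.vecMulVec P0 lam)) =
      X * ((1 + C κ * X) * derivative μ) := by
    rw [dchi_sub, dchi_smul, dchi_add, dchi_smul, dchi_smul, htr1, htr2, dchi_self]
    unfold chiP
    rw [← hA, ← hχ, hχμ, derivative_mul, derivative_add, derivative_one, derivative_C_mul,
      derivative_X, zero_add, mul_one]
    have hκC : (C κ : K[X]) = 2 * C d * C a * C b := by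
      rw [hκ, map_mul, map_mul, map_mul, map_ofNat]
    rw [hκC]
    ring
  -- the degree
  have hχdeg : χ.natDegree ≤ N := by
    have h3 := Polynomial.natDegree_det_X_add_C_le Ψ (1 : Matrix (Fin N) (Fin N) K)
    rw [Fintype.card_fin] at h3
    have h4 : (X : K[X]) • Ψ.map C + (1 : Matrix (Fin N) (Fin N) K).map C = A := by
      rw [hA, add_comm]
      congr 1
      ext j k : 2
      rw [Matrix.map_apply, Matrix.one_apply, Matrix.one_apply]
      split_ifs <;> simp
    rw [h4] at h3
    exact h3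
  have hev : ∀ x : K, (evalRingHom x).mapMatrix A = 1 + x • Ψ := by
    intro x
    rw [hA, map_add, map_one]
    congr 1
    ext j k
    simp only [RingHom.mapMatrix_apply, Matrix.map_apply, Matrix.smul_apply, smul_eq_mul,
      coe_evalRingHom, eval_mul, eval_X, eval_C]
  have hχ0 : χ.eval 0 = 1 := by
    have h3 : χ.eval 0 = (evalRingHom (0 : K)) χ := rfl
    rw [h3, hχ, RingHom.map_det, hev, zero_smul, add_zero, Matrix.det_one]
  have hμ00 : μ.eval 0 = 1 := by
    rw [hχμ] at hχ0
    simpa using hχ0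
  have hμne : μ ≠ 0 := by
    intro h0
    rw [h0, eval_zero] at hμ00
    exact zero_ne_one hμ00
  have hμdeg : μ.natDegree ≤ N - 1 := by
    have h3 : (1 + C κ * X : K[X]).natDegree = 1 := by
      rw [add_comm]
      exact natDegree_linear hκ0
    have h4 := natDegree_mul hne hμne
    rw [← hχμ, h3] at h4
    omega
  have hμ0 : μ.coeff 0 = 1 := by
    rw [coeff_zero_eq_eval_zero, hμ00]
  have hroot : μ.eval (-κ⁻¹) = 0 := by
    set x : K := -κ⁻¹ with hx
    set M0 : Matrix (Fin N) (Fin N) K := 1 + x • Ψ with hM0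
    -- `lam` is a left null vector
    have h3 : Matrix.vecMul lam M0 = 0 := by
      rw [hM0, Matrix.vecMul_add, Matrix.vecMul_one, Matrix.vecMul_smul, h2, smul_smul, hx,
        neg_mul, inv_mul_cancel₀ hκ0, neg_smul, one_smul, add_neg_cancel]
    have h4 : (M0.updateCol i τ).det = 0 := by
      rw [← Matrix.exists_vecMul_eq_zero_iff]
      refine ⟨lam, hlam, ?_⟩
      funext j
      by_cases hj : j = i
      · subst hj
        have h5 : Matrix.vecMul lam (M0.updateCol j τ) j = dotProduct lam τ := by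
          simp only [Matrix.vecMul, dotProduct, Matrix.updateCol_self]
        rw [h5, hlt, Pi.zero_apply]
      · have h5 : Matrix.vecMul lam (M0.updateCol i τ) j = Matrix.vecMul lam M0 j := by
          simp only [Matrix.vecMul, dotProduct, Matrix.updateCol_ne hj]
        rw [h5, h3]
    have h6 : Matrix.mulVec M0.adjugate τ i = μ.eval x * τ i := by
      have h7 := congrArg (fun p : K[X] => evalRingHom x p) (congrFun hadjτ' i)
      simp only [Pi.smul_apply, smul_eq_mul, map_mul, hτC] at h7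
      have h8 : evalRingHom x (Matrix.mulVec A.adjugate (fun i => C (τ i)) i) =
          Matrix.mulVec M0.adjugate τ i := by
        have h9 : M0.adjugate = (evalRingHom x).mapMatrix A.adjugate := by
          rw [RingHom.map_adjugate, hev]
        rw [h9]
        simp only [Matrix.mulVec, dotProduct, map_sum, map_mul]
        refine Finset.sum_congr rfl fun j _ => ?_
        congr 1
        exact eval_C
      rw [h8] at h7
      rw [h7]
      congr 1
      exact eval_C
    rw [← Matrix.cramer_eq_adjugate_mulVec, Matrix.cramer_apply, h4] at h6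
    exact (mul_eq_zero.mp h6.symm).resolve_right hi
  unfold Pfun
  rw [hf]
  exact Pfun_sum κ μ hμdeg hμ0 hκ0 hroot

end value

end Pool.Agent.Lib.MP_8f66f0_al_Uni
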