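import Mathlib
import Pool.Agent.Lib.MP_8f66f0_al_Uni.CharMat
import Pool.Agent.Lib.MP_8f66f0_al_Uni.Deg

/-! The degree of the invariant. -/

set_option autoImplicit false
set_option linter.unusedSectionVars false

namespace Pool.Agent.Lib.MP_8f66f0_al_Uni

open Polynomial

section degree

variable {G Γ : Type*} [Group G] [Group Γ] {S : Type*} [CommRing S] {N : ℕ} {π : G →* Γ}

/-- The coefficient of `X^k` has degree at most `k`. -/
def GoodDeg (π : G →* Γ) (f : G → S[X]) : Prop :=
  ∀ k, DegLT π (k + 1) (fun g => (f g).coeff k)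

lemma GoodDeg.const (c : S[X]) : GoodDeg π (fun _ : G => c) := fun k =>
  (degLT_one_of_factor (fun _ _ _ => rfl)).mono (Nat.le_add_left 1 k)

lemma GoodDeg.add {f g : G → S[X]} (hf : GoodDeg π f) (hg : GoodDeg π g) :
    GoodDeg π (fun x => f x + g x) := by
  intro k
  have h := (hf k).add (hg k)
  simpa only [coeff_add] using h

lemma GoodDeg.sum {α : Type*} (s : Finset α) {f : α → G → S[X]}
    (hf : ∀ a ∈ s, GoodDeg π (f a)) : GoodDeg π (fun x => ∑ a ∈ s, f a x) := by
  intro k
  have h := DegLT.sum (π := π) (k := k + 1) s (f := fun a g => (f a g).coeff k)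
    (fun a ha => hf a ha k)
  simpa only [finsetSum_coeff] using h

lemma GoodDeg.mul {f g : G → S[X]} (hf : GoodDeg π f) (hg : GoodDeg π g) :
    GoodDeg π (fun x => f x * g x) := by
  intro k
  have h := DegLT.sum (π := π) (k := k + 1) (Finset.HasAntidiagonal.antidiagonal k)
    (f := fun a x => (f x).coeff a.1 * (g x).coeff a.2) (fun a ha => by
      have h1 := (hf a.1).mul (hg a.2)
      rw [Finset.HasAntidiagonal.mem_antidiagonal.1 ha] at h1
      exact h1)
  simpa only [coeff_mul] using h

lemma GoodDeg.prod {α : Type*} (s : Finset α) {f : α → G → S[X]}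
    (hf : ∀ a ∈ s, GoodDeg π (f a)) : GoodDeg π (fun x => ∏ a ∈ s, f a x) := by
  classical
  induction s using Finset.induction_on with
  | empty =>
    simp only [Finset.prod_empty]
    exact GoodDeg.const 1
  | insert a s ha ih =>
    simp only [Finset.prod_insert ha]
    exact (hf a (Finset.mem_insert_self a s)).mul
      (ih (fun b hb => hf b (Finset.mem_insert_of_mem hb)))

/-- Multiples of `X` by functions of degree one. -/
lemma GoodDeg.X_mul_C {f : G → S} (hf : DegLT π 2 f) : GoodDeg π (fun x => X * C (f x)) := by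
  intro k
  match k with
  | 0 =>
    have h : (fun g => ((X : S[X]) * C (f g)).coeff 0) = fun _ => (0 : S) := by
      funext g
      rw [coeff_X_mul_zero]
    rw [h]
    exact DegLT.zero
  | 1 =>
    have h : (fun g => ((X : S[X]) * C (f g)).coeff 1) = f := by
      funext g
      rw [show (1 : ℕ) = 0 + 1 from rfl, coeff_X_mul, coeff_C_zero]
    rw [h]
    exact hf
  | k + 2 =>
    have h : (fun g => ((X : S[X]) * C (f g)).coeff (k + 2)) = fun _ => (0 : S) := by
      funext g
      rw [show k + 2 = (k + 1) + 1 from rfl, coeff_X_mul, coeff_C_succ]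
    rw [h]
    exact DegLT.zero

lemma GoodDeg.det {n : Type*} [Fintype n] [DecidableEq n] {A : G → Matrix n n S[X]}
    (hA : ∀ i j, GoodDeg π (fun g => A g i j)) : GoodDeg π (fun g => (A g).det) := by
  have h : (fun g => (A g).det)
      = fun g => ∑ σ : Equiv.Perm n, ((Equiv.Perm.sign σ : ℤ) : S[X]) * ∏ i, A g (σ i) i := by
    funext g
    exact Matrix.det_apply' (A g)
  rw [h]
  exact GoodDeg.sum _ fun σ _ => (GoodDeg.const _).mul (GoodDeg.prod _ fun i _ => hA (σ i) i)

lemma GoodDeg.adjugate {n : Type*} [Fintype n] [DecidableEq n] {A : G → Matrix n n S[X]}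
    (hA : ∀ i j, GoodDeg π (fun g => A g i j)) (i j : n) :
    GoodDeg π (fun g => (A g).adjugate i j) := by
  have h : (fun g => (A g).adjugate i j)
      = fun g => ((A g).updateRow j (Pi.single i 1)).det := by
    funext g
    exact Matrix.adjugate_apply (A g) i j
  rw [h]
  refine GoodDeg.det fun i' j' => ?_
  by_cases hi : i' = j
  · have h1 : (fun g => (A g).updateRow j (Pi.single i 1) i' j')
        = fun _ => (Pi.single i 1 : n → S[X]) j' := by
      funext g
      rw [hi, Matrix.updateRow_self]
    rw [h1]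
    exact GoodDeg.const _
  · have h1 : (fun g => (A g).updateRow j (Pi.single i 1) i' j') = fun g => A g i' j' := by
      funext g
      rw [Matrix.updateRow_ne hi]
    rw [h1]
    exact hA i' j'

lemma GoodDeg.dchi {M W : G → Matrix (Fin N) (Fin N) S}
    (hM : ∀ i j, DegLT π 2 (fun g => M g i j)) (hW : ∀ i j, DegLT π 2 (fun g => W g i j)) :
    GoodDeg π (fun g => dchi (M g) (W g)) := by
  have h1 : ∀ i j, GoodDeg π
      (fun g => (1 + (X : S[X]) • (M g).map C : Matrix (Fin N) (Fin N) S[X]) i j) := by
    intro i j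
    have h2 : (fun g => (1 + (X : S[X]) • (M g).map C : Matrix (Fin N) (Fin N) S[X]) i j)
        = fun g => (1 : Matrix (Fin N) (Fin N) S[X]) i j + X * C (M g i j) := by
      funext g
      rw [Matrix.add_apply, Matrix.smul_apply, Matrix.map_apply, smul_eq_mul]
    rw [h2]
    exact (GoodDeg.const _).add (GoodDeg.X_mul_C (hM i j))
  have h3 : (fun g => Pool.Agent.Lib.MP_8f66f0_al_Uni.dchi (M g) (W g))
      = fun g => ∑ i, ∑ j, (1 + (X : S[X]) • (M g).map C).adjugate i j * (X * C (W g j i)) := by
    funext g
    unfold Pool.Agent.Lib.MP_8f66f0_al_Uni.dchi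
    rw [Matrix.trace]
    refine Finset.sum_congr rfl fun i _ => ?_
    rw [Matrix.diag_apply, Matrix.mul_apply]
    refine Finset.sum_congr rfl fun j _ => ?_
    rw [Matrix.smul_apply, Matrix.map_apply, smul_eq_mul]
  rw [h3]
  exact GoodDeg.sum _ fun i _ => GoodDeg.sum _ fun j _ =>
    (GoodDeg.adjugate h1 i j).mul (GoodDeg.X_mul_C (hW j i))

/-- The degree. If all entries of `M(g)` and `W(g)` have degree at most `1` in `g` then
`Pfun κ (M g) (W g)` has degree at most `N - 1`.

Proof. Call `f : G → S[X]` good if the coefficient of `X^k` has degree at most `k` for each `k`.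
Good functions are closed under sums and products (`DegLT.mul`), constants and the entries of
`X • M g` are good. So all entries of the adjugate and the trace are good. -/
theorem deg_Pfun (κ : S) {M W : G → Matrix (Fin N) (Fin N) S}
    (hM : ∀ i j, DegLT π 2 (fun g => M g i j)) (hW : ∀ i j, DegLT π 2 (fun g => W g i j)) :
    DegLT π (N - 1 + 1) (fun g => Pfun κ (M g) (W g)) := by
  unfold Pfun
  refine DegLT.sum _ fun k hk' => ?_
  have hk := (Finset.mem_Icc.1 hk').2
  exact ((GoodDeg.dchi hM hW k).mono (Nat.succ_le_succ hk)).mul_factor (fun _ _ _ => rfl)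

end degree

end Pool.Agent.Lib.MP_8f66f0_al_Uni
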