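import Mathlib
import Pool.Agent.Lib.MP_8f66f0_al_Uni.Defs

/-! Crossed homomorphisms on free groups. -/

set_option autoImplicit false
set_option linter.unusedSectionVars false

namespace Pool.Agent.Lib.MP_8f66f0_al_Uni

variable {Γ V : Type*} [Group Γ] [AddCommGroup V]

private lemma crossed_inv_act {act : Γ → Γ → V →+ V} (hone : ∀ x v, act 1 x v = v)
    (hmul : ∀ g h x v, act (g * h) x v = act g (h * x * h⁻¹) (act h x v)) (g x : Γ) (v : V) :
    act g⁻¹ (g * x * g⁻¹) (act g x v) = v := by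
  rw [← hmul, inv_mul_cancel, hone]

private lemma crossed_act_inv {act : Γ → Γ → V →+ V} (hone : ∀ x v, act 1 x v = v)
    (hmul : ∀ g h x v, act (g * h) x v = act g (h * x * h⁻¹) (act h x v)) (g x : Γ) (v : V) :
    act g (g⁻¹ * x * g) (act g⁻¹ x v) = v := by
  have h := hmul g g⁻¹ x v
  rw [inv_inv] at h
  rw [← h, mul_inv_cancel, hone]

/-- The permutation belonging to a generator. -/
private def crossedPerm (act : Γ → Γ → V →+ V) (hone : ∀ x v, act 1 x v = v)
    (hmul : ∀ g h x v, act (g * h) x v = act g (h * x * h⁻¹) (act h x v)) (ω : Γ → Γ → V)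
    (a : Γ) : Equiv.Perm (Γ × V) where
  toFun p := (a * p.1 * a⁻¹, ω a p.1 + act a p.1 p.2)
  invFun p := (a⁻¹ * p.1 * a, act a⁻¹ p.1 (p.2 - ω a (a⁻¹ * p.1 * a)))
  left_inv p := by
    obtain ⟨x, v⟩ := p
    have hx : a⁻¹ * (a * x * a⁻¹) * a = x := by group
    simp only [hx, add_sub_cancel_left, crossed_inv_act hone hmul]
  right_inv p := by
    obtain ⟨x, v⟩ := p
    have hx : a * (a⁻¹ * x * a) * a⁻¹ = x := by group
    simp only [hx, crossed_act_inv hone hmul, add_sub_cancel]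

/-- Crossed homomorphisms on a free group with arbitrary values on the generators.

Proof: the generator `a` acts on `Γ × V` by the bijection
`(x, v) ↦ (a x a⁻¹, ω a x + act a x v)` (inverse: `act a⁻¹ (a x a⁻¹)` is inverse to `act a x`), so
we get `Φ : FreeGroup Γ →* Equiv.Perm (Γ × V)` (`FreeGroup.lift`), and `Ω g x = (Φ g (x, 0)).2`. By
`FreeGroup.induction_on` (or a product induction) `Φ g (x, v) = (π g x (π g)⁻¹, Ω g x + act (π g) x v)`. -/
theorem exists_crossed (act : Γ → Γ → V →+ V) (hone : ∀ x v, act 1 x v = v)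
    (hmul : ∀ g h x v, act (g * h) x v = act g (h * x * h⁻¹) (act h x v)) (ω : Γ → Γ → V) :
    ∃ Ω : FreeGroup Γ → Γ → V, (∀ a x, Ω (FreeGroup.of a) x = ω a x) ∧
      ∀ (g h : FreeGroup Γ) (x : Γ), Ω (g * h) x =
        Ω g (pr Γ h * x * (pr Γ h)⁻¹) + act (pr Γ g) (pr Γ h * x * (pr Γ h)⁻¹) (Ω h x) := by
  let Φ : FreeGroup Γ →* Equiv.Perm (Γ × V) := FreeGroup.lift (crossedPerm act hone hmul ω)
  have hΦof : ∀ a x v, Φ (FreeGroup.of a) (x, v) = (a * x * a⁻¹, ω a x + act a x v) := by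
    intro a x v
    simp only [Φ, FreeGroup.lift_apply_of]
    rfl
  have key : ∀ (g : FreeGroup Γ) (x : Γ) (v : V), Φ g (x, v) =
      (pr Γ g * x * (pr Γ g)⁻¹, (Φ g (x, 0)).2 + act (pr Γ g) x v) := by
    intro g
    induction g using FreeGroup.induction_on with
    | C1 =>
      intro x v
      simp [hone]
    | of a =>
      intro x v
      rw [hΦof, hΦof, pr_of, map_zero, add_zero]
    | inv_of a h =>
      intro x v
      have h' : ∀ (x : Γ) (v : V), Φ (FreeGroup.of a)⁻¹ (x, v) =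
          (a⁻¹ * x * a, act a⁻¹ x (v - ω a (a⁻¹ * x * a))) := by
        intro x v
        rw [map_inv, Equiv.Perm.inv_eq_iff_eq, hΦof, crossed_act_inv hone hmul]
        simp only [add_sub_cancel]
        congr 1
        group
      change Φ (FreeGroup.of a)⁻¹ (x, v) = (pr Γ (FreeGroup.of a)⁻¹ * x *
        (pr Γ (FreeGroup.of a)⁻¹)⁻¹, (Φ (FreeGroup.of a)⁻¹ (x, 0)).2 +
          act (pr Γ (FreeGroup.of a)⁻¹) x v)
      rw [h', h', map_inv, pr_of, inv_inv]
      simp only [zero_sub, ← map_add]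
      rw [neg_add_eq_sub]
    | mul g h hg hh =>
      intro x v
      have e1 : ∀ v, Φ (g * h) (x, v) = Φ g (Φ h (x, v)) := fun v => by
        rw [map_mul]
        rfl
      rw [e1, e1, hh x v, hh x 0, hg _ (_ + _), hg _ (_ + _)]
      simp only [map_zero, add_zero, map_add, hmul, map_mul, mul_inv_rev]
      refine Prod.ext ?_ ?_
      · simp only [mul_assoc]
      · simp only [add_assoc]
  refine ⟨fun g x => (Φ g (x, 0)).2, fun a x => ?_, fun g h x => ?_⟩
  · simp only [hΦof, map_zero, add_zero]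
  · have e1 : Φ (g * h) (x, 0) = Φ g (Φ h (x, 0)) := by
      rw [map_mul]
      rfl
    simp only [e1]
    conv_lhs => rw [show Φ h (x, 0) = (pr Γ h * x * (pr Γ h)⁻¹, (Φ h (x, 0)).2) from
      Prod.ext (by rw [key h x 0]) rfl]
    rw [key g _ ((Φ h (x, 0)).2)]

/-- An additive subgroup stable under the action which contains the values on the generators
contains all values. -/
theorem crossed_mem {act : Γ → Γ → V →+ V} (hone : ∀ x v, act 1 x v = v)
    (hmul : ∀ g h x v, act (g * h) x v = act g (h * x * h⁻¹) (act h x v))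
    {Ω : FreeGroup Γ → Γ → V}
    (hΩ : ∀ (g h : FreeGroup Γ) (x : Γ), Ω (g * h) x =
        Ω g (pr Γ h * x * (pr Γ h)⁻¹) + act (pr Γ g) (pr Γ h * x * (pr Γ h)⁻¹) (Ω h x))
    (L : AddSubgroup V) (hL : ∀ g x v, v ∈ L → act g x v ∈ L)
    (hgen : ∀ a x, Ω (FreeGroup.of a) x ∈ L) (g : FreeGroup Γ) (x : Γ) : Ω g x ∈ L := by
  have hΩ1 : ∀ x, Ω 1 x = 0 := by
    intro x
    have h := hΩ 1 1 x
    simp only [mul_one, map_one, one_mul, inv_one, hone] at h
    exact (left_eq_add.mp h)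
  induction g using FreeGroup.induction_on generalizing x with
  | C1 => rw [hΩ1]; exact L.zero_mem
  | of a => exact hgen a x
  | inv_of a h =>
    have h1 := hΩ (FreeGroup.of a)⁻¹ (FreeGroup.of a) (a⁻¹ * x * a)
    rw [inv_mul_cancel, hΩ1, pr_of, show a * (a⁻¹ * x * a) * a⁻¹ = x by group] at h1
    change Ω (FreeGroup.of a)⁻¹ x ∈ L
    rw [eq_neg_of_add_eq_zero_left h1.symm]
    exact L.neg_mem (hL _ _ _ (hgen a _))
  | mul g h hg hh =>
    rw [hΩ]
    exact L.add_mem (hg _) (hL _ _ _ (hh _))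

end Pool.Agent.Lib.MP_8f66f0_al_Uni
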