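import Mathlib
import Pool.Agent.Lib.MP_8f66f0_al_Uni.CharDeg
import Pool.Agent.Lib.MP_8f66f0_al_Uni.Crossed

/-! Existence of polynomial class cocycles. -/

set_option autoImplicit false
set_option linter.unusedSectionVars false

namespace Pool.Agent.Lib.MP_8f66f0_al_Uni

open Pool.Agent.Lib.MP_8f66f0_al_Dennis Pool.Agent.Lib.MP_8f66f0_al_FinQ
  Pool.Agent.Lib.MP_8f66f0_al_Plus

/-- Transfer of polynomial class cocycles to a subring. -/
theorem exists_isPoly_of_range {G Γ : Type*} [Group G] [Group Γ] {R K : Type*} [CommRing R]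
    [CommRing K] (f : R →+* K) (hf : Function.Injective f) {π : G →* Γ} {c : Γ} {J : ℕ}
    {δ : G → G → K} {D : R} (hδ : IsPoly π c J δ (f D))
    (hr : ∀ g x, IsConj c (π x) → δ g x ∈ f.range) :
    ∃ δ' : G → G → R, IsPoly π c J δ' D := by
  classical
  have hr' : ∀ g x, ∃ y : R, IsConj c (π x) → f y = δ g x := by
    intro g x
    by_cases h : IsConj c (π x)
    · obtain ⟨y, hy⟩ := hr g x h
      exact ⟨y, fun _ => hy⟩
    · exact ⟨0, fun h' => absurd h' h⟩
  choose δ' hδ' using hr'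
  have hpsi : ∀ g h, f (psiW π c δ' g h) = psiW π c δ g h := by
    intro g h
    unfold psiW
    split_ifs with hc
    · exact hδ' _ _ hc
    · exact map_zero f
  refine ⟨δ', ?_, ?_, ?_, ?_⟩
  · intro g h x hx
    apply hf
    have hx' : IsConj c (π (h * x * h⁻¹)) := by
      rw [map_mul, map_mul, map_inv]
      exact hx.trans (isConj_iff.mpr ⟨π h, rfl⟩)
    rw [map_add, hδ' _ _ hx, hδ' _ _ hx, hδ' _ _ hx', hδ.coc _ _ _ hx]
  · intro x hx
    apply hf
    rw [hδ' _ _ hx, hδ.diag _ hx]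
  · intro h
    refine DegLT.of_comp_injective f.toAddMonoidHom hf ?_
    have := hδ.degL h
    simp_rw [← hpsi] at this
    exact this
  · intro g
    refine DegLT.of_comp_injective f.toAddMonoidHom hf ?_
    have := hδ.degR g
    simp_rw [← hpsi] at this
    exact this

/-- Base change of polynomial class cocycles. -/
theorem IsPoly.map {G Γ : Type*} [Group G] [Group Γ] {R K : Type*} [CommRing R]
    [CommRing K] (f : R →+* K) {π : G →* Γ} {c : Γ} {J : ℕ}
    {δ : G → G → R} {D : R} (hδ : IsPoly π c J δ D) :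
    IsPoly π c J (fun g x => f (δ g x)) (f D) := by
  have hpsi : ∀ g h, psiW π c (fun g x => f (δ g x)) g h = f (psiW π c δ g h) := by
    intro g h
    unfold psiW
    split_ifs with hc
    · rfl
    · exact (map_zero f).symm
  refine ⟨?_, ?_, ?_, ?_⟩
  · intro g h x hx
    rw [hδ.coc _ _ _ hx, map_add]
  · intro x hx
    rw [hδ.diag _ hx]
  · intro h
    simp_rw [hpsi]
    exact (hδ.degL h).comp_hom f.toAddMonoidHom
  · intro g
    simp_rw [hpsi]
    exact (hδ.degR g).comp_hom f.toAddMonoidHom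

/-- Functions of bounded degree pull back. -/
lemma DegLT.comp_map {G Γ G' Γ' : Type*} [Group G] [Group Γ] [Group G'] [Group Γ'] {π : G →* Γ}
    {π' : G' →* Γ'} {F : G →* G'} (hF : ∀ n ∈ π.ker, F n ∈ π'.ker) {M : Type*} [AddCommGroup M]
    {k : ℕ} {f : G' → M} (hf : DegLT π' k f) : DegLT π k (fun g => f (F g)) := by
  induction k generalizing f with
  | zero => exact fun g => hf (F g)
  | succ k ih =>
    intro n hn
    have h := ih (hf (F n) (hF n hn))
    simp_rw [map_mul]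
    exact h

/-- Polynomial class cocycles pull back along homomorphisms. -/
theorem IsPoly.pullback {G Γ G' Γ' : Type*} [Group G] [Group Γ] [Group G'] [Group Γ']
    {S : Type*} [CommRing S] {π : G →* Γ} {π' : G' →* Γ'} (F : G →* G') (φ : Γ →* Γ')
    (hcomm : ∀ g, π' (F g) = φ (π g)) {c : Γ} {J : ℕ} {δ : G' → G' → S} {D : S}
    (hδ : IsPoly π' (φ c) J δ D) : IsPoly π c J (fun g x => δ (F g) (F x)) D := by
  classical
  have hF : ∀ n ∈ π.ker, F n ∈ π'.ker := by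
    intro n hn
    rw [MonoidHom.mem_ker, hcomm, MonoidHom.mem_ker.mp hn, map_one]
  have hconj : ∀ x : G, IsConj c (π x) → IsConj (φ c) (π' (F x)) := by
    intro x hx
    rw [hcomm]
    exact φ.map_isConj hx
  have key : ∀ g h, psiW π c (fun g x => δ (F g) (F x)) g h =
      (if IsConj c (π (g * h)) then (1 : S) else 0) * psiW π' (φ c) δ (F g) (F h) := by
    intro g h
    unfold psiW
    by_cases hc : IsConj c (π (g * h))
    · have hc' := hconj _ hc
      rw [map_mul] at hc'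
      rw [if_pos hc, if_pos hc, if_pos hc', one_mul]
      change δ (F h) (F (g * h)) = _
      rw [map_mul]
    · rw [if_neg hc, if_neg hc, zero_mul]
  refine ⟨?_, ?_, ?_, ?_⟩
  · intro g h x hx
    have := hδ.coc (F g) (F h) (F x) (hconj x hx)
    simp only [map_mul, map_inv]
    exact this
  · intro x hx
    exact hδ.diag (F x) (hconj x hx)
  · intro h
    simp_rw [key]
    refine DegLT.mul_factor ((hδ.degL (F h)).comp_map hF) ?_
    intro x y hxy
    rw [map_mul, map_mul, hxy]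
  · intro g
    simp_rw [key]
    refine DegLT.mul_factor ((hδ.degR (F g)).comp_map hF) ?_
    intro x y hxy
    rw [map_mul, map_mul, hxy]

section cocycle

variable {Γ : Type*} [Group Γ] {H : Type*} [Group H]

/-- A homomorphism from the centralizer extends to a cocycle on the class. -/
lemma exists_class_hom {γ c : Γ} (hc : Commute c γ) (hcent : ∀ g : Γ, Commute g c → Commute g γ)
    (ρ : Subgroup.centralizer ({γ} : Set Γ) →* H) :
    ∃ m : Γ → Γ → H, (∀ x, m 1 x = 1) ∧ (∀ g h x, m (g * h) x = m g (h * x * h⁻¹) * m h x) ∧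
      (∀ x, IsConj c x → m x x = ρ ⟨c, Subgroup.mem_centralizer_singleton_iff.mpr hc.eq⟩) ∧
      (∀ g x, ∃ s, m g x = ρ s) := by
  classical
  have hex : ∀ x : Γ, ∃ t : Γ, IsConj c x → t * c * t⁻¹ = x := by
    intro x
    by_cases h : IsConj c x
    · obtain ⟨t, ht⟩ := isConj_iff.mp h
      exact ⟨t, fun _ => ht⟩
    · exact ⟨1, fun h' => absurd h' h⟩
  choose t ht using hex
  have hmem : ∀ g x : Γ, IsConj c x →
      (t (g * x * g⁻¹))⁻¹ * g * t x ∈ Subgroup.centralizer ({γ} : Set Γ) := by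
    intro g x hx
    have hx' : IsConj c (g * x * g⁻¹) := hx.trans (isConj_iff.mpr ⟨g, rfl⟩)
    have h1 := ht x hx
    have h2 := ht _ hx'
    rw [Subgroup.mem_centralizer_singleton_iff]
    refine (hcent _ ?_).eq
    set a := t x
    set b := t (g * x * g⁻¹)
    have h3 : c = b⁻¹ * (g * x * g⁻¹) * b := by rw [← h2]; group
    have h4 : c = a⁻¹ * x * a := by rw [← h1]; group
    change b⁻¹ * g * a * c = c * (b⁻¹ * g * a)
    calc b⁻¹ * g * a * c = b⁻¹ * g * a * (a⁻¹ * x * a) := by rw [← h4]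
      _ = b⁻¹ * (g * x * g⁻¹) * b * (b⁻¹ * g * a) := by group
      _ = c * (b⁻¹ * g * a) := by rw [← h3]
  let m : Γ → Γ → H := fun g x => if h : IsConj c x then ρ ⟨_, hmem g x h⟩ else 1
  have hm : ∀ g x (h : IsConj c x), m g x = ρ ⟨_, hmem g x h⟩ := fun g x h => dif_pos h
  have hm' : ∀ g x (_ : ¬ IsConj c x), m g x = 1 := fun g x h => dif_neg h
  refine ⟨m, ?_, ?_, ?_, ?_⟩
  · intro x
    by_cases h : IsConj c x
    · rw [hm _ _ h, ← map_one ρ]
      congr 1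
      apply Subtype.ext
      change (t (1 * x * 1⁻¹))⁻¹ * 1 * t x = 1
      rw [inv_one, one_mul, mul_one, mul_one, inv_mul_cancel]
    · exact hm' _ _ h
  · intro g h x
    by_cases hx : IsConj c x
    · have hx' : IsConj c (h * x * h⁻¹) := hx.trans (isConj_iff.mpr ⟨h, rfl⟩)
      rw [hm _ _ hx, hm _ _ hx, hm _ _ hx', ← map_mul]
      congr 1
      apply Subtype.ext
      change (t (g * h * x * (g * h)⁻¹))⁻¹ * (g * h) * t x =
        ((t (g * (h * x * h⁻¹) * g⁻¹))⁻¹ * g * t (h * x * h⁻¹)) *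
          ((t (h * x * h⁻¹))⁻¹ * h * t x)
      have e4 : g * h * x * (g * h)⁻¹ = g * (h * x * h⁻¹) * g⁻¹ := by group
      rw [e4]
      group
    · have hx' : ¬ IsConj c (h * x * h⁻¹) := by
        intro h'
        exact hx (h'.trans (isConj_iff.mpr ⟨h⁻¹, by group⟩))
      rw [hm' _ _ hx, hm' _ _ hx, hm' _ _ hx', one_mul]
  · intro x hx
    rw [hm _ _ hx]
    congr 1
    apply Subtype.ext
    change (t (x * x * x⁻¹))⁻¹ * x * t x = c
    have h1 := ht x hx
    rw [mul_inv_cancel_right]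
    calc (t x)⁻¹ * x * t x = (t x)⁻¹ * (t x * c * (t x)⁻¹) * t x := by rw [h1]
      _ = c := by group
  · intro g x
    by_cases hx : IsConj c x
    · exact ⟨_, hm _ _ hx⟩
    · exact ⟨1, by rw [hm' _ _ hx, map_one]⟩

end cocycle

section omega

variable {Γ : Type*} [Group Γ] {V : Type*} [AddCommGroup V] {act : Γ → Γ → V →+ V}
  {Ω : FreeGroup Γ → Γ → V}

/-- The crossed homomorphism property. -/
def IsCrossed (act : Γ → Γ → V →+ V) (Ω : FreeGroup Γ → Γ → V) : Prop :=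
  ∀ (g h : FreeGroup Γ) (x : Γ), Ω (g * h) x =
    Ω g (pr Γ h * x * (pr Γ h)⁻¹) + act (pr Γ g) (pr Γ h * x * (pr Γ h)⁻¹) (Ω h x)

lemma IsCrossed.one (hΩ : IsCrossed act Ω) (hone : ∀ x v, act 1 x v = v) (x : Γ) :
    Ω 1 x = 0 := by
  have h := hΩ 1 1 x
  rw [map_one, inv_one, one_mul, mul_one, one_mul, hone] at h
  exact left_eq_add.mp h

lemma IsCrossed.inv (hΩ : IsCrossed act Ω) (hone : ∀ x v, act 1 x v = v) (g : FreeGroup Γ)
    (x : Γ) : Ω g⁻¹ (pr Γ g * x * (pr Γ g)⁻¹) =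
      - act (pr Γ g)⁻¹ (pr Γ g * x * (pr Γ g)⁻¹) (Ω g x) := by
  have h := hΩ g⁻¹ g x
  rw [inv_mul_cancel, hΩ.one hone, map_inv] at h
  exact eq_neg_of_add_eq_zero_left h.symm

lemma IsCrossed.ker_mul (hΩ : IsCrossed act Ω) (hone : ∀ x v, act 1 x v = v)
    {n : FreeGroup Γ} (hn : n ∈ (pr Γ).ker) (g : FreeGroup Γ) (x : Γ) :
    Ω (n * g) x = Ω n (pr Γ g * x * (pr Γ g)⁻¹) + Ω g x := by
  rw [hΩ, MonoidHom.mem_ker.mp hn, hone]

/-- The degree of the crossed homomorphism. -/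
lemma IsCrossed.deg (hΩ : IsCrossed act Ω) (hone : ∀ x v, act 1 x v = v) (u v : FreeGroup Γ)
    {f : FreeGroup Γ → Γ} (hf : ∀ x y, pr Γ x = pr Γ y → f x = f y) :
    DegLT (pr Γ) 2 (fun g => Ω (u * g * v) (f g)) := by
  intro n hn
  have hn' : u * n * u⁻¹ ∈ (pr Γ).ker := (MonoidHom.normal_ker _).conj_mem n hn u
  have h1 : ∀ g, Ω (u * (n * g) * v) (f (n * g)) - Ω (u * g * v) (f g) =
      Ω (u * n * u⁻¹) (pr Γ (u * g * v) * f g * (pr Γ (u * g * v))⁻¹) := by
    intro g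
    have h2 : f (n * g) = f g := hf _ _ (by rw [map_mul, MonoidHom.mem_ker.mp hn, one_mul])
    have h3 : u * (n * g) * v = (u * n * u⁻¹) * (u * g * v) := by group
    rw [h2, h3, hΩ.ker_mul hone hn', add_sub_cancel_right]
  simp_rw [h1]
  refine degLT_one_of_factor fun x y hxy => ?_
  have h4 : pr Γ (u * x * v) = pr Γ (u * y * v) := by
    rw [map_mul, map_mul, hxy, ← map_mul, ← map_mul]
  rw [h4, hf x y hxy]

end omega

section matrices

open Matrix

variable {K : Type*} [Field K] {Γ : Type*} [Group Γ] {N : ℕ}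

/-- The action by conjugation. -/
def actM (m : Γ → Γ → GeneralLinearGroup (Fin N) K) (g x : Γ) :
    Matrix (Fin N) (Fin N) K →+ Matrix (Fin N) (Fin N) K where
  toFun v := (m g x : Matrix (Fin N) (Fin N) K) * v * ((m g x)⁻¹ : GeneralLinearGroup (Fin N) K)
  map_zero' := by rw [mul_zero, zero_mul]
  map_add' v w := by rw [mul_add, add_mul]

lemma actM_apply (m : Γ → Γ → GeneralLinearGroup (Fin N) K) (g x : Γ)
    (v : Matrix (Fin N) (Fin N) K) : actM m g x v =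
      (m g x : Matrix (Fin N) (Fin N) K) * v * ((m g x)⁻¹ : GeneralLinearGroup (Fin N) K) := rfl

/-- The values on the generators. -/
def omM (m : Γ → Γ → GeneralLinearGroup (Fin N) K) (P0 q0 : Fin N → K) (a x : Γ) :
    Matrix (Fin N) (Fin N) K :=
  vecMulVec ((m a x : Matrix (Fin N) (Fin N) K) *ᵥ P0) q0 -
    vecMulVec P0 (q0 ᵥ* ((m a x)⁻¹ : GeneralLinearGroup (Fin N) K))

variable {m : Γ → Γ → GeneralLinearGroup (Fin N) K}

lemma actM_one (h1 : ∀ x, m 1 x = 1) (x : Γ) (v : Matrix (Fin N) (Fin N) K) :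
    actM m 1 x v = v := by
  rw [actM_apply, h1, inv_one, Units.val_one, one_mul, mul_one]

lemma actM_mul (hm : ∀ g h x, m (g * h) x = m g (h * x * h⁻¹) * m h x) (g h x : Γ)
    (v : Matrix (Fin N) (Fin N) K) :
    actM m (g * h) x v = actM m g (h * x * h⁻¹) (actM m h x v) := by
  rw [actM_apply, actM_apply, actM_apply, hm, _root_.mul_inv_rev, Units.val_mul, Units.val_mul]
  simp only [Matrix.mul_assoc]

variable {Ω : FreeGroup Γ → Γ → Matrix (Fin N) (Fin N) K}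

lemma mulVec_inv_of_fix {t : GeneralLinearGroup (Fin N) K} {τ : Fin N → K}
    (h : (t : Matrix (Fin N) (Fin N) K) *ᵥ τ = τ) :
    ((t⁻¹ : GeneralLinearGroup (Fin N) K) : Matrix (Fin N) (Fin N) K) *ᵥ τ = τ := by
  conv_lhs => rw [← h]
  rw [mulVec_mulVec, ← Units.val_mul, inv_mul_cancel, Units.val_one, one_mulVec]

lemma vecMul_inv_of_fix {t : GeneralLinearGroup (Fin N) K} {lam : Fin N → K}
    (h : lam ᵥ* (t : Matrix (Fin N) (Fin N) K) = lam) :
    lam ᵥ* ((t⁻¹ : GeneralLinearGroup (Fin N) K) : Matrix (Fin N) (Fin N) K) = lam := by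
  conv_lhs => rw [← h]
  rw [vecMul_vecMul, ← Units.val_mul, mul_inv_cancel, Units.val_one, vecMul_one]

lemma pr_induction {P : FreeGroup Γ → Prop} (h1 : P 1) (hof : ∀ a, P (FreeGroup.of a))
    (hinv : ∀ a, P (FreeGroup.of a)⁻¹) (hmul : ∀ g h, P g → P h → P (g * h)) (g : FreeGroup Γ) :
    P g :=
  FreeGroup.induction_on g h1 hof (fun a _ => hinv a) hmul

/-- The image of `τ`. -/
lemma omega_mulVec (h1 : ∀ x, m 1 x = 1) (hm : ∀ g h x, m (g * h) x = m g (h * x * h⁻¹) * m h x)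
    {P0 q0 τ : Fin N → K} (hfix : ∀ g x, (m g x : Matrix (Fin N) (Fin N) K) *ᵥ τ = τ)
    (hof : ∀ a x, Ω (FreeGroup.of a) x = omM m P0 q0 a x) (hΩ : IsCrossed (actM m) Ω)
    (g : FreeGroup Γ) : ∀ x : Γ, Ω g x *ᵥ τ =
      (q0 ⬝ᵥ τ) • ((m (pr Γ g) x : Matrix (Fin N) (Fin N) K) *ᵥ P0 - P0) := by
  have hgen : ∀ a x, Ω (FreeGroup.of a) x *ᵥ τ =
      (q0 ⬝ᵥ τ) • ((m a x : Matrix (Fin N) (Fin N) K) *ᵥ P0 - P0) := by
    intro a x
    rw [hof, omM, sub_mulVec, vecMulVec_mulVec, vecMulVec_mulVec, ← dotProduct_mulVec,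
      mulVec_inv_of_fix (hfix a x), smul_sub]
    simp only [op_smul_eq_smul]
  refine pr_induction (P := fun g => ∀ x : Γ, Ω g x *ᵥ τ =
      (q0 ⬝ᵥ τ) • ((m (pr Γ g) x : Matrix (Fin N) (Fin N) K) *ᵥ P0 - P0)) ?_ ?_ ?_ ?_ g
  · intro x
    rw [hΩ.one (actM_one h1), map_one, h1, Units.val_one, one_mulVec, sub_self, smul_zero,
      zero_mulVec]
  · intro a x
    rw [hgen, pr_of]
  · intro a x
    have h2 := hΩ.inv (actM_one h1) (FreeGroup.of a) (a⁻¹ * x * a)
    rw [pr_of] at h2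
    have e1 : a * (a⁻¹ * x * a) * a⁻¹ = x := by group
    rw [e1] at h2
    rw [h2, map_inv, pr_of, neg_mulVec, actM_apply, ← mulVec_mulVec,
      mulVec_inv_of_fix (hfix _ _), ← mulVec_mulVec, hgen, mulVec_smul, mulVec_sub, mulVec_mulVec,
      ← Units.val_mul]
    have h3 : m a⁻¹ x * m a (a⁻¹ * x * a) = 1 := by
      have h4 := hm a⁻¹ a (a⁻¹ * x * a)
      rw [e1, inv_mul_cancel, h1] at h4
      exact h4.symm
    rw [h3, Units.val_one, one_mulVec, ← smul_neg, neg_sub]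
  · intro g h hg hh x
    rw [hΩ, add_mulVec, hg, actM_apply, ← mulVec_mulVec, mulVec_inv_of_fix (hfix _ _),
      ← mulVec_mulVec, hh, mulVec_smul, mulVec_sub, mulVec_mulVec, ← Units.val_mul, map_mul, hm,
      ← smul_add]
    congr 1
    abel

/-- The image of `lam`. -/
lemma omega_vecMul (h1 : ∀ x, m 1 x = 1) (hm : ∀ g h x, m (g * h) x = m g (h * x * h⁻¹) * m h x)
    {P0 q0 lam : Fin N → K} (hfix : ∀ g x, lam ᵥ* (m g x : Matrix (Fin N) (Fin N) K) = lam)
    (hof : ∀ a x, Ω (FreeGroup.of a) x = omM m P0 q0 a x) (hΩ : IsCrossed (actM m) Ω)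
    (g : FreeGroup Γ) : ∀ x : Γ, lam ᵥ* Ω g x =
      (lam ⬝ᵥ P0) • (q0 - q0 ᵥ* ((m (pr Γ g) x)⁻¹ : GeneralLinearGroup (Fin N) K)) := by
  have hgen : ∀ a x, lam ᵥ* Ω (FreeGroup.of a) x =
      (lam ⬝ᵥ P0) • (q0 - q0 ᵥ* ((m a x)⁻¹ : GeneralLinearGroup (Fin N) K)) := by
    intro a x
    rw [hof, omM, vecMul_sub, vecMul_vecMulVec, vecMul_vecMulVec, dotProduct_mulVec,
      hfix a x, smul_sub]
  refine pr_induction (P := fun g => ∀ x : Γ, lam ᵥ* Ω g x =
      (lam ⬝ᵥ P0) • (q0 - q0 ᵥ* ((m (pr Γ g) x)⁻¹ : GeneralLinearGroup (Fin N) K))) ?_ ?_ ?_ ?_ g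
  · intro x
    rw [hΩ.one (actM_one h1), map_one, h1, inv_one, Units.val_one, vecMul_one, sub_self,
      smul_zero, vecMul_zero]
  · intro a x
    rw [hgen, pr_of]
  · intro a x
    have h2 := hΩ.inv (actM_one h1) (FreeGroup.of a) (a⁻¹ * x * a)
    rw [pr_of] at h2
    have e1 : a * (a⁻¹ * x * a) * a⁻¹ = x := by group
    rw [e1] at h2
    have h3 : m a⁻¹ x * m a (a⁻¹ * x * a) = 1 := by
      have h4 := hm a⁻¹ a (a⁻¹ * x * a)
      rw [e1, inv_mul_cancel, h1] at h4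
      exact h4.symm
    rw [h2, map_inv, pr_of, vecMul_neg, actM_apply, Matrix.mul_assoc, ← vecMul_vecMul,
      hfix, ← vecMul_vecMul, hgen, smul_vecMul, sub_vecMul, vecMul_vecMul,
      ← Units.val_mul, ← _root_.mul_inv_rev, h3, inv_one, Units.val_one, vecMul_one, ← smul_neg, neg_sub]
  · intro g h hg hh x
    rw [hΩ, vecMul_add, hg, actM_apply, Matrix.mul_assoc, ← vecMul_vecMul, hfix,
      ← vecMul_vecMul, hh, smul_vecMul, sub_vecMul, vecMul_vecMul, ← Units.val_mul, map_mul, hm,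
      ← smul_add, _root_.mul_inv_rev]
    congr 1
    abel

end matrices

section psi

open Matrix

variable {K : Type*} [Field K] {Γ : Type*} [Group Γ] {N : ℕ}
  {m : Γ → Γ → GeneralLinearGroup (Fin N) K} {Ω : FreeGroup Γ → Γ → Matrix (Fin N) (Fin N) K}

lemma transv_conj (e : K) {τ lam u v : Fin N → K} {ω : Matrix (Fin N) (Fin N) K}
    (hu : ω *ᵥ τ = u) (hv : lam ᵥ* ω = v) (h0 : v ⬝ᵥ τ = 0) :
    (1 + e • vecMulVec τ lam) * ω * (1 - e • vecMulVec τ lam) =
      ω + e • vecMulVec τ v - e • vecMulVec u lam := by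
  have h1 : vecMulVec τ lam * ω = vecMulVec τ v := by rw [vecMulVec_mul, hv]
  have h2 : ω * vecMulVec τ lam = vecMulVec u lam := by rw [mul_vecMulVec, hu]
  have h3 : vecMulVec τ v * vecMulVec τ lam = 0 := by
    rw [vecMulVec_mul_vecMulVec, h0, zero_smul, vecMulVec_zero]
  rw [mul_sub, mul_one, add_mul, one_mul, smul_mul_assoc, h1, mul_smul_comm, add_mul, h2,
    smul_mul_assoc, h3, smul_zero, add_zero]

lemma transv_inv {e : K} {τ lam : Fin N → K} (hlt : lam ⬝ᵥ τ = 0)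
    {t : GeneralLinearGroup (Fin N) K}
    (ht : (t : Matrix (Fin N) (Fin N) K) = 1 + e • vecMulVec τ lam) :
    ((t⁻¹ : GeneralLinearGroup (Fin N) K) : Matrix (Fin N) (Fin N) K) =
      1 - e • vecMulVec τ lam := by
  apply Units.inv_eq_of_mul_eq_one_right
  have h3 : vecMulVec τ lam * vecMulVec τ lam = 0 := by
    rw [vecMulVec_mul_vecMulVec, hlt, zero_smul, vecMulVec_zero]
  rw [ht, mul_sub, mul_one, add_mul, one_mul, smul_mul_assoc, mul_smul_comm, h3, smul_zero,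
    smul_zero, add_zero, add_sub_cancel_right]

/-- The correction term. -/
def yM (e : K) (P0 q0 τ lam : Fin N → K) : Matrix (Fin N) (Fin N) K :=
  e • ((lam ⬝ᵥ P0) • vecMulVec τ q0 + (q0 ⬝ᵥ τ) • vecMulVec P0 lam)

/-- The invariant function with values in matrices. -/
def psM (Ω : FreeGroup Γ → Γ → Matrix (Fin N) (Fin N) K) (Y : Matrix (Fin N) (Fin N) K)
    (x : FreeGroup Γ) : Matrix (Fin N) (Fin N) K := Ω x (pr Γ x) + Y

lemma psM_conj (h1 : ∀ x, m 1 x = 1) (hm : ∀ g h x, m (g * h) x = m g (h * x * h⁻¹) * m h x)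
    {P0 q0 τ lam : Fin N → K} (hτ : ∀ g x, (m g x : Matrix (Fin N) (Fin N) K) *ᵥ τ = τ)
    (hlam : ∀ g x, lam ᵥ* (m g x : Matrix (Fin N) (Fin N) K) = lam) (hlt : lam ⬝ᵥ τ = 0)
    (hof : ∀ a x, Ω (FreeGroup.of a) x = omM m P0 q0 a x) (hΩ : IsCrossed (actM m) Ω)
    {c : Γ} {e : K}
    (hT : ∀ x, IsConj c x → (m x x : Matrix (Fin N) (Fin N) K) = 1 + e • vecMulVec τ lam)
    (g x : FreeGroup Γ) (hx : IsConj c (pr Γ x)) :
    psM Ω (yM e P0 q0 τ lam) (g * x * g⁻¹) =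
      actM m (pr Γ g) (pr Γ x) (psM Ω (yM e P0 q0 τ lam) x) := by
  set X := pr Γ x with hX
  set G := pr Γ g with hG
  have hX' : pr Γ (g * x * g⁻¹) = G * X * G⁻¹ := by rw [map_mul, map_mul, map_inv]
  have hconj : IsConj c (G * X * G⁻¹) := hx.trans (isConj_iff.mpr ⟨G, rfl⟩)
  have e1 : G⁻¹ * (G * X * G⁻¹) * G⁻¹⁻¹ = X := by group
  have e2 : X * X * X⁻¹ = X := by group
  have e3 : Ω (g * x * g⁻¹) (G * X * G⁻¹) =
      Ω g X + actM m G X (Ω x X) - actM m (G * X * G⁻¹) (G * X * G⁻¹) (Ω g X) := by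
    have h2 := hΩ (g * x) g⁻¹ (G * X * G⁻¹)
    have h3 := hΩ g x X
    have h4 := hΩ.inv (actM_one h1) g X
    rw [map_inv, ← hG, e1, map_mul, ← hG, ← hX] at h2
    rw [← hG, ← hX, e2] at h3
    rw [← hG] at h4
    have h5 := actM_mul hm (G * X) G⁻¹ (G * X * G⁻¹) (Ω g X)
    rw [e1] at h5
    rw [h2, h3, h4, map_neg, ← h5, sub_eq_add_neg]
  have hu := omega_mulVec h1 hm (P0 := P0) (q0 := q0) hτ hof hΩ g X
  have hv := omega_vecMul h1 hm (P0 := P0) (q0 := q0) hlam hof hΩ g X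
  rw [← hG] at hu hv
  have h0 : ((lam ⬝ᵥ P0) • (q0 - q0 ᵥ* ((m G X)⁻¹ : GeneralLinearGroup (Fin N) K))) ⬝ᵥ τ = 0 := by
    rw [smul_dotProduct, sub_dotProduct, ← dotProduct_mulVec, mulVec_inv_of_fix (hτ G X), sub_self,
      smul_zero]
  have h6 : actM m (G * X * G⁻¹) (G * X * G⁻¹) (Ω g X) = Ω g X + e • vecMulVec τ
      ((lam ⬝ᵥ P0) • (q0 - q0 ᵥ* ((m G X)⁻¹ : GeneralLinearGroup (Fin N) K))) -
      e • vecMulVec ((q0 ⬝ᵥ τ) • ((m G X : Matrix (Fin N) (Fin N) K) *ᵥ P0 - P0)) lam := by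
    rw [actM_apply, transv_inv hlt (hT _ hconj), hT _ hconj]
    exact transv_conj e hu hv h0
  rw [psM, hX', e3, h6, psM, map_add, ← hX, yM, actM_apply m G X (e • _)]
  rw [mul_smul_comm, smul_mul_assoc, mul_add, add_mul, mul_smul_comm, smul_mul_assoc,
    mul_smul_comm, smul_mul_assoc, mul_vecMulVec, vecMulVec_mul, mul_vecMulVec, vecMulVec_mul,
    hτ, vecMul_inv_of_fix (hlam G X), vecMulVec_smul, vecMulVec_sub, smul_vecMulVec, sub_vecMulVec]
  module

/-- The value of `Ψ` on `τ`. -/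
lemma psM_mulVec (h1 : ∀ x, m 1 x = 1)
    (hm : ∀ g h x, m (g * h) x = m g (h * x * h⁻¹) * m h x)
    {P0 q0 τ lam : Fin N → K} (hτ : ∀ g x, (m g x : Matrix (Fin N) (Fin N) K) *ᵥ τ = τ)
    (hlt : lam ⬝ᵥ τ = 0)
    (hof : ∀ a x, Ω (FreeGroup.of a) x = omM m P0 q0 a x) (hΩ : IsCrossed (actM m) Ω)
    {c : Γ} {e : K}
    (hT : ∀ x, IsConj c x → (m x x : Matrix (Fin N) (Fin N) K) = 1 + e • vecMulVec τ lam)
    (x : FreeGroup Γ) (hx : IsConj c (pr Γ x)) :
    psM Ω (yM e P0 q0 τ lam) x *ᵥ τ = (2 * e * (lam ⬝ᵥ P0) * (q0 ⬝ᵥ τ)) • τ := by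
  rw [psM, add_mulVec, omega_mulVec h1 hm (P0 := P0) (q0 := q0) hτ hof hΩ, hT _ hx, add_mulVec,
    one_mulVec, add_sub_cancel_left, smul_mulVec, vecMulVec_mulVec, yM, smul_mulVec, add_mulVec,
    smul_mulVec, smul_mulVec, vecMulVec_mulVec, vecMulVec_mulVec, hlt]
  simp only [op_smul_eq_smul]
  module

lemma psM_vecMul (h1 : ∀ x, m 1 x = 1)
    (hm : ∀ g h x, m (g * h) x = m g (h * x * h⁻¹) * m h x)
    {P0 q0 τ lam : Fin N → K}
    (hlam : ∀ g x, lam ᵥ* (m g x : Matrix (Fin N) (Fin N) K) = lam) (hlt : lam ⬝ᵥ τ = 0)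
    (hof : ∀ a x, Ω (FreeGroup.of a) x = omM m P0 q0 a x) (hΩ : IsCrossed (actM m) Ω)
    {c : Γ} {e : K}
    (hT : ∀ x, IsConj c x → (m x x : Matrix (Fin N) (Fin N) K) = 1 + e • vecMulVec τ lam)
    (x : FreeGroup Γ) (hx : IsConj c (pr Γ x)) :
    lam ᵥ* psM Ω (yM e P0 q0 τ lam) x = (2 * e * (lam ⬝ᵥ P0) * (q0 ⬝ᵥ τ)) • lam := by
  rw [psM, vecMul_add, omega_vecMul h1 hm (P0 := P0) (q0 := q0) hlam hof hΩ,
    transv_inv hlt (hT _ hx), vecMul_sub, vecMul_one, sub_sub_cancel, vecMul_smul,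
    vecMul_vecMulVec, yM, vecMul_smul, vecMul_add,
    vecMul_smul, vecMul_smul, vecMul_vecMulVec, vecMul_vecMulVec, hlt]
  module

end psi

section integrality

open Matrix

variable {R : Type*} [CommRing R] {K : Type*} [Field K] {f : R →+* K} {N : ℕ}

lemma Pfun_map (f : R →+* K) (κ : R) (M W : Matrix (Fin N) (Fin N) R) :
    Pfun (f κ) (M.map f) (W.map f) = f (Pfun κ M W) := by
  unfold Pfun
  rw [map_sum]
  refine Finset.sum_congr rfl fun k _ => ?_
  rw [dchi_map, Polynomial.coeff_map, map_mul, map_mul, map_mul, map_pow, map_pow, map_neg,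
    map_one, map_intCast]

lemma exists_map_eq {M : Matrix (Fin N) (Fin N) K} (hM : ∀ i j, M i j ∈ f.range) :
    ∃ M' : Matrix (Fin N) (Fin N) R, M'.map f = M := by
  choose M' hM' using hM
  exact ⟨M', Matrix.ext fun i j => hM' i j⟩

lemma Pfun_mem {κ : K} (hκ : κ ∈ f.range) {M W : Matrix (Fin N) (Fin N) K}
    (hM : ∀ i j, M i j ∈ f.range) (hW : ∀ i j, W i j ∈ f.range) : Pfun κ M W ∈ f.range := by
  obtain ⟨κ', rfl⟩ := hκ
  obtain ⟨M', rfl⟩ := exists_map_eq hM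
  obtain ⟨W', rfl⟩ := exists_map_eq hW
  exact ⟨_, (Pfun_map f κ' M' W').symm⟩

lemma Pfun_conj (κ : K) (t : GeneralLinearGroup (Fin N) K) (M W : Matrix (Fin N) (Fin N) K) :
    Pfun κ ((t : Matrix (Fin N) (Fin N) K) * M *
        ((t⁻¹ : GeneralLinearGroup (Fin N) K) : Matrix (Fin N) (Fin N) K))
      ((t : Matrix (Fin N) (Fin N) K) * W *
        ((t⁻¹ : GeneralLinearGroup (Fin N) K) : Matrix (Fin N) (Fin N) K)) =
      Pfun κ M W := by
  unfold Pfun
  rw [dchi_conj]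
  rw [← Units.val_mul, mul_inv_cancel, Units.val_one]

lemma Pfun_add (κ : K) (M W W' : Matrix (Fin N) (Fin N) K) :
    Pfun κ M (W + W') = Pfun κ M W + Pfun κ M W' := by
  unfold Pfun
  rw [← Finset.sum_add_distrib]
  refine Finset.sum_congr rfl fun k _ => ?_
  rw [dchi_add, Polynomial.coeff_add, mul_add]

lemma one_add_smul_pow {τ lam : Fin N → K} (hlt : lam ⬝ᵥ τ = 0) (d : K) (k : ℕ) :
    (1 + d • vecMulVec τ lam) ^ k = 1 + ((k : K) * d) • vecMulVec τ lam := by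
  have h3 : vecMulVec τ lam * vecMulVec τ lam = 0 := by
    rw [vecMulVec_mul_vecMulVec, hlt, zero_smul, vecMulVec_zero]
  induction k with
  | zero => rw [pow_zero, Nat.cast_zero, zero_mul, zero_smul, add_zero]
  | succ k ih =>
    rw [pow_succ, ih, mul_add, mul_one, add_mul, one_mul, smul_mul_assoc, mul_smul_comm, h3,
      smul_zero, smul_zero, add_zero, add_assoc, ← add_smul, Nat.cast_succ, add_mul, one_mul]

end integrality

section main

open Matrix

variable {R : Type*} [CommRing R] {K : Type*} [Field K]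

/-- The subgroup of matrices all of whose conjugates under the group have entries in `R`. -/
def latL (f : R →+* K) {C : Type*} [Group C] {N : ℕ} (ρ : C →* GeneralLinearGroup (Fin N) K) :
    AddSubgroup (Matrix (Fin N) (Fin N) K) where
  carrier := {v | ∀ (s : C) (i j : Fin N), ((ρ s : Matrix (Fin N) (Fin N) K) * v *
    ((ρ s)⁻¹ : GeneralLinearGroup (Fin N) K)) i j ∈ f.range}
  zero_mem' := by
    intro s i j
    rw [mul_zero, zero_mul]
    exact zero_mem _
  add_mem' := by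
    intro v w hv hw s i j
    rw [mul_add, add_mul]
    exact add_mem (hv s i j) (hw s i j)
  neg_mem' := by
    intro v hv s i j
    rw [mul_neg, neg_mul]
    exact neg_mem (hv s i j)

lemma latL_entry {f : R →+* K} {C : Type*} [Group C] {N : ℕ}
    {ρ : C →* GeneralLinearGroup (Fin N) K} {v : Matrix (Fin N) (Fin N) K} (hv : v ∈ latL f ρ)
    (i j : Fin N) : v i j ∈ f.range := by
  have h := hv 1 i j
  rwa [map_one, inv_one, Units.val_one, one_mul, mul_one] at h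

lemma latL_conj {f : R →+* K} {C : Type*} [Group C] {N : ℕ}
    {ρ : C →* GeneralLinearGroup (Fin N) K} {v : Matrix (Fin N) (Fin N) K} (hv : v ∈ latL f ρ)
    (s : C) : (ρ s : Matrix (Fin N) (Fin N) K) * v *
      ((ρ s)⁻¹ : GeneralLinearGroup (Fin N) K) ∈ latL f ρ := by
  intro t i j
  have h := hv (t * s) i j
  rw [map_mul, _root_.mul_inv_rev, Units.val_mul, Units.val_mul] at h
  have e : (ρ t : Matrix (Fin N) (Fin N) K) * ((ρ s : Matrix (Fin N) (Fin N) K) * v *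
      ((ρ s)⁻¹ : GeneralLinearGroup (Fin N) K)) * ((ρ t)⁻¹ : GeneralLinearGroup (Fin N) K) =
      (ρ t : Matrix (Fin N) (Fin N) K) * (ρ s : Matrix (Fin N) (Fin N) K) * v *
      (((ρ s)⁻¹ : GeneralLinearGroup (Fin N) K) * ((ρ t)⁻¹ : GeneralLinearGroup (Fin N) K)) := by
    simp only [Matrix.mul_assoc]
  rw [e]
  exact h

lemma latL_vecMulVec {f : R →+* K} {C : Type*} [Group C] {N : ℕ}
    {ρ : C →* GeneralLinearGroup (Fin N) K} {u v : Fin N → K}
    (hu : ∀ (s : C) i, ((ρ s : Matrix (Fin N) (Fin N) K) *ᵥ u) i ∈ f.range)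
    (hv : ∀ (s : C) i, (v ᵥ* (ρ s : Matrix (Fin N) (Fin N) K)) i ∈ f.range) :
    vecMulVec u v ∈ latL f ρ := by
  intro s i j
  rw [mul_vecMulVec, vecMulVec_mul, vecMulVec_apply, ← map_inv]
  exact mul_mem (hu s i) (hv s⁻¹ j)

lemma omega_deg_entry {Γ : Type*} [Group Γ] {N : ℕ}
    {act : Γ → Γ → Matrix (Fin N) (Fin N) K →+ Matrix (Fin N) (Fin N) K}
    {Ω : FreeGroup Γ → Γ → Matrix (Fin N) (Fin N) K} (hone : ∀ x v, act 1 x v = v)
    (hΩ : IsCrossed act Ω) (u v : FreeGroup Γ) {φ : FreeGroup Γ → Γ}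
    (hφ : ∀ x y, pr Γ x = pr Γ y → φ x = φ y) (i j : Fin N) :
    DegLT (pr Γ) 2 (fun g => Ω (u * g * v) (φ g) i j) :=
  (hΩ.deg hone u v hφ).comp_hom (entryAddMonoidHom K i j)

lemma psM_deg_entry {Γ : Type*} [Group Γ] {N : ℕ}
    {act : Γ → Γ → Matrix (Fin N) (Fin N) K →+ Matrix (Fin N) (Fin N) K}
    {Ω : FreeGroup Γ → Γ → Matrix (Fin N) (Fin N) K} (hone : ∀ x v, act 1 x v = v)
    (hΩ : IsCrossed act Ω) (Y : Matrix (Fin N) (Fin N) K) (u v : FreeGroup Γ) (i j : Fin N) :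
    DegLT (pr Γ) 2 (fun g => psM Ω Y (u * g * v) i j) := by
  have h1 := omega_deg_entry hone hΩ u v (φ := fun g => pr Γ (u * g * v))
    (fun x y hxy => by rw [map_mul, map_mul, map_mul, map_mul, hxy]) i j
  have h2 : DegLT (pr Γ) 2 (fun _ : FreeGroup Γ => Y i j) :=
    (degLT_one_of_factor fun _ _ _ => rfl).mono (by norm_num)
  exact h1.add h2

/-- The cocycle. -/
noncomputable def delM {Γ : Type*} [Group Γ] {N : ℕ} (κ : K)
    (Ω : FreeGroup Γ → Γ → Matrix (Fin N) (Fin N) K) (Y : Matrix (Fin N) (Fin N) K)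
    (g x : FreeGroup Γ) : K := Pfun κ (psM Ω Y (g * x * g⁻¹)) (Ω g (pr Γ x))

lemma isPoly_delM {Γ : Type*} [Group Γ] {N : ℕ} {m : Γ → Γ → GeneralLinearGroup (Fin N) K}
    {Ω : FreeGroup Γ → Γ → Matrix (Fin N) (Fin N) K} (h1 : ∀ x, m 1 x = 1)
    (hΩ : IsCrossed (actM m) Ω) {Y : Matrix (Fin N) (Fin N) K} {c : Γ} {κ D : K}
    (hconj : ∀ g x : FreeGroup Γ, IsConj c (pr Γ x) →
      psM Ω Y (g * x * g⁻¹) = actM m (pr Γ g) (pr Γ x) (psM Ω Y x))
    (hval : ∀ x : FreeGroup Γ, IsConj c (pr Γ x) → Pfun κ (psM Ω Y x) (Ω x (pr Γ x)) = D) :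
    IsPoly (pr Γ) c (N - 1) (delM κ Ω Y) D := by
  classical
  have key : ∀ g h : FreeGroup Γ, psiW (pr Γ) c (delM κ Ω Y) g h =
      (if IsConj c (pr Γ (g * h)) then (1 : K) else 0) *
        Pfun κ (psM Ω Y (h * g)) (Ω h (pr Γ (g * h))) := by
    intro g h
    unfold psiW delM
    have e2 : h * (g * h) * h⁻¹ = h * g := by group
    by_cases hc : IsConj c (pr Γ (g * h))
    · rw [if_pos hc, if_pos hc, one_mul, e2]
    · rw [if_neg hc, if_neg hc, zero_mul]
  refine ⟨?_, ?_, ?_, ?_⟩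
  · intro g h x hx
    have hx' : IsConj c (pr Γ (h * x * h⁻¹)) := by
      rw [map_mul, map_mul, map_inv]
      exact hx.trans (isConj_iff.mpr ⟨_, rfl⟩)
    have e1 : g * h * x * (g * h)⁻¹ = g * (h * x * h⁻¹) * g⁻¹ := by group
    have e2 := hconj g (h * x * h⁻¹) hx'
    have e3 := hΩ g h (pr Γ x)
    have e4 : pr Γ h * pr Γ x * (pr Γ h)⁻¹ = pr Γ (h * x * h⁻¹) := by
      rw [map_mul, map_mul, map_inv]
    rw [e4] at e3
    have e5 : Pfun κ (psM Ω Y (g * (h * x * h⁻¹) * g⁻¹))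
        (actM m (pr Γ g) (pr Γ (h * x * h⁻¹)) (Ω h (pr Γ x))) =
        Pfun κ (psM Ω Y (h * x * h⁻¹)) (Ω h (pr Γ x)) := by
      rw [e2, actM_apply, actM_apply, Pfun_conj]
    unfold delM
    rw [e1, e3, Pfun_add, e5]
  · intro x hx
    unfold delM
    rw [mul_inv_cancel_right]
    exact hval x hx
  · intro h
    simp_rw [key]
    refine DegLT.mul_factor (deg_Pfun κ ?_ ?_) ?_
    · intro i j
      have e2 := psM_deg_entry (actM_one h1) hΩ Y h 1 i j
      simp only [mul_one] at e2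
      exact e2
    · intro i j
      refine DegLT.mono (by norm_num) (degLT_one_of_factor fun x y hxy => ?_)
      rw [map_mul, map_mul, hxy]
    · intro x y hxy
      rw [map_mul, map_mul, hxy]
  · intro g
    simp_rw [key]
    refine DegLT.mul_factor (deg_Pfun κ ?_ ?_) ?_
    · intro i j
      have e2 := psM_deg_entry (actM_one h1) hΩ Y 1 g i j
      simp only [one_mul] at e2
      exact e2
    · intro i j
      have e2 := omega_deg_entry (actM_one h1) hΩ 1 1 (φ := fun h => pr Γ (g * h))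
        (fun x y hxy => by rw [map_mul, map_mul, hxy]) i j
      simp only [one_mul, mul_one] at e2
      exact e2
    · intro x y hxy
      rw [map_mul, map_mul, hxy]

/-- The construction. -/
theorem exists_poly_of_data (f : R →+* K) (hf : Function.Injective f) [CharZero K] {Γ : Type*}
    [Group Γ] {γ : Γ} {N : ℕ}
    (ρ : Subgroup.centralizer ({γ} : Set Γ) →* GeneralLinearGroup (Fin N) K) {τ lam : Fin N → K}
    {d : K} {r : R} (hr : f r ≠ 0) (hd : d ≠ 0) (hlt : lam ⬝ᵥ τ = 0)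
    (hρτ : ∀ g, (ρ g : Matrix (Fin N) (Fin N) K) *ᵥ τ = τ)
    (hρlam : ∀ g, lam ᵥ* (ρ g : Matrix (Fin N) (Fin N) K) = lam)
    (hργ : (ρ ⟨γ, Subgroup.mem_centralizer_singleton_iff.mpr rfl⟩ : Matrix (Fin N) (Fin N) K) =
      1 + d • vecMulVec τ lam)
    (hbd : ∀ g i j, f r * (ρ g : Matrix (Fin N) (Fin N) K) i j ∈ f.range)
    {l l' : Fin N} (hl : lam l ≠ 0) (hl' : τ l' ≠ 0) {κR : R}
    (hκR : f κR = 2 * d * (lam l * f r) * (f r * τ l')) (k : ℕ) (hk : 0 < k)
    (hcent : ∀ g : Γ, Commute g (γ ^ k) → Commute g γ) :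
    ∃ δ : FreeGroup Γ → FreeGroup Γ → R, IsPoly (pr Γ) (γ ^ k) (N - 1) δ
      ((k : R) ^ (N - 1) * (((N - 1).factorial : R) * κR ^ (N - 1))) := by
  classical
  have hcγ : Commute (γ ^ k) γ := (Commute.refl γ).pow_left k
  obtain ⟨m, h1, hm, hdiag, hrange⟩ := exists_class_hom hcγ hcent ρ
  set P0 : Fin N → K := Pi.single l (f r) with hP0
  set q0 : Fin N → K := Pi.single l' (f r) with hq0
  obtain ⟨Ω, hof, hΩ⟩ := exists_crossed (actM m) (actM_one h1) (actM_mul hm) (omM m P0 q0)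
  have hτ : ∀ g x, (m g x : Matrix (Fin N) (Fin N) K) *ᵥ τ = τ := by
    intro g x
    obtain ⟨s, hs⟩ := hrange g x
    rw [hs, hρτ]
  have hlam : ∀ g x, lam ᵥ* (m g x : Matrix (Fin N) (Fin N) K) = lam := by
    intro g x
    obtain ⟨s, hs⟩ := hrange g x
    rw [hs, hρlam]
  have hT : ∀ x, IsConj (γ ^ k) x → (m x x : Matrix (Fin N) (Fin N) K) =
      1 + ((k : K) * d) • vecMulVec τ lam := by
    intro x hx
    rw [hdiag x hx]
    have h2 : (⟨γ ^ k, Subgroup.mem_centralizer_singleton_iff.mpr hcγ.eq⟩ :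
        Subgroup.centralizer ({γ} : Set Γ)) =
        ⟨γ, Subgroup.mem_centralizer_singleton_iff.mpr rfl⟩ ^ k := by
      apply Subtype.ext
      rfl
    rw [h2, map_pow, Units.val_pow_eq_pow_val, hργ, one_add_smul_pow hlt]
  have ha : lam ⬝ᵥ P0 = lam l * f r := by rw [hP0, dotProduct_single]
  have hb : q0 ⬝ᵥ τ = f r * τ l' := by rw [hq0, single_dotProduct]
  set e : K := (k : K) * d with he
  set κ : K := 2 * e * (lam ⬝ᵥ P0) * (q0 ⬝ᵥ τ) with hκ
  have hκ' : κ = f ((k : R) * κR) := by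
    rw [hκ, he, ha, hb, map_mul, map_natCast, hκR]
    ring
  have hk0 : (k : K) ≠ 0 := Nat.cast_ne_zero.mpr hk.ne'
  have hκ0 : κ ≠ 0 := by
    rw [hκ, he, ha, hb]
    exact mul_ne_zero (mul_ne_zero (mul_ne_zero two_ne_zero (mul_ne_zero hk0 hd))
      (mul_ne_zero hl hr)) (mul_ne_zero hr hl')
  have hτ0 : τ ≠ 0 := fun h => hl' (by rw [h]; rfl)
  have hlam0 : lam ≠ 0 := fun h => hl (by rw [h]; rfl)
  set Y : Matrix (Fin N) (Fin N) K := yM e P0 q0 τ lam with hY
  -- integrality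
  have hs1 : ∀ (s : Subgroup.centralizer ({γ} : Set Γ)) i,
      ((ρ s : Matrix (Fin N) (Fin N) K) *ᵥ P0) i ∈ f.range := by
    intro s i
    rw [hP0, mulVec_single]
    simp only [Pi.smul_apply, col_apply, MulOpposite.smul_eq_mul_unop, MulOpposite.unop_op]
    rw [mul_comm]
    exact hbd s i l
  have hs2 : ∀ (s : Subgroup.centralizer ({γ} : Set Γ)) i,
      (q0 ᵥ* (ρ s : Matrix (Fin N) (Fin N) K)) i ∈ f.range := by
    intro s i
    rw [hq0, single_vecMul]
    simp only [Pi.smul_apply, row_apply, smul_eq_mul]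
    exact hbd s l' i
  have hL : ∀ (g : FreeGroup Γ) (x : Γ), Ω g x ∈ latL f ρ := by
    refine crossed_mem (actM_one h1) (actM_mul hm) hΩ (latL f ρ) ?_ ?_
    · intro g x v hv
      obtain ⟨s, hs⟩ := hrange g x
      rw [actM_apply, hs]
      exact latL_conj hv s
    · intro a x
      obtain ⟨t, ht⟩ := hrange a x
      rw [hof, omM, ht]
      refine sub_mem (latL_vecMulVec ?_ hs2) (latL_vecMulVec hs1 ?_)
      · intro s i
        rw [mulVec_mulVec, ← Units.val_mul, ← map_mul]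
        exact hs1 _ i
      · intro s i
        rw [vecMul_vecMul, ← Units.val_mul, ← map_inv, ← map_mul]
        exact hs2 _ i
  have hΩR : ∀ (g : FreeGroup Γ) (x : Γ) i j, Ω g x i j ∈ f.range := fun g x i j =>
    latL_entry (hL g x) i j
  have hγij : ∀ i j, f r * (d * (τ i * lam j)) ∈ f.range := by
    intro i j
    have h2 := hbd ⟨γ, Subgroup.mem_centralizer_singleton_iff.mpr rfl⟩ i j
    rw [hργ, Matrix.add_apply, Matrix.smul_apply, vecMulVec_apply, smul_eq_mul, mul_add] at h2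
    have h3 : f r * (1 : Matrix (Fin N) (Fin N) K) i j ∈ f.range := by
      rw [one_apply]
      split_ifs
      · rw [mul_one]; exact ⟨r, rfl⟩
      · rw [mul_zero]; exact zero_mem _
    have h4 := sub_mem h2 h3
    rwa [add_sub_cancel_left] at h4
  have hP0R : ∀ i, P0 i ∈ f.range := by
    intro i
    rw [hP0, Pi.single_apply]
    split_ifs
    · exact ⟨r, rfl⟩
    · exact zero_mem _
  have hq0R : ∀ i, q0 i ∈ f.range := by
    intro i
    rw [hq0, Pi.single_apply]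
    split_ifs
    · exact ⟨r, rfl⟩
    · exact zero_mem _
  have hYR : ∀ i j, Y i j ∈ f.range := by
    intro i j
    have h2 : Y i j = f (k : R) * (f r * (d * (τ i * lam l)) * q0 j) +
        f (k : R) * (f r * (d * (τ l' * lam j)) * P0 i) := by
      rw [hY, yM, Matrix.smul_apply, Matrix.add_apply, Matrix.smul_apply, Matrix.smul_apply,
        vecMulVec_apply,
        vecMulVec_apply, ha, hb, he, map_natCast, smul_eq_mul, smul_eq_mul, smul_eq_mul]
      ring
    rw [h2]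
    exact add_mem (mul_mem ⟨_, rfl⟩ (mul_mem (hγij _ _) (hq0R _)))
      (mul_mem ⟨_, rfl⟩ (mul_mem (hγij _ _) (hP0R _)))
  have hD : f ((k : R) ^ (N - 1) * (((N - 1).factorial : R) * κR ^ (N - 1))) =
      ((N - 1).factorial : K) * κ ^ (N - 1) := by
    rw [hκ', map_mul, map_mul, map_mul, map_pow, map_pow, map_natCast, map_natCast, mul_pow]
    ring
  refine exists_isPoly_of_range f hf (δ := delM κ Ω Y) ?_ ?_
  · rw [hD]
    refine isPoly_delM h1 hΩ (fun g x hx =>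
      psM_conj h1 hm (P0 := P0) (q0 := q0) hτ hlam hlt hof hΩ hT g x hx) ?_
    intro x hx
    have e1 := Pfun_value (Ψ := psM Ω Y x) (τ := τ) (lam := lam) (P0 := P0) (q0 := q0) (d := e)
      (κ := κ) hτ0 hlam0 hlt rfl rfl hκ hκ0
      (psM_mulVec h1 hm (P0 := P0) (q0 := q0) hτ hlt hof hΩ hT x hx)
      (psM_vecMul h1 hm (P0 := P0) (q0 := q0) hlam hlt hof hΩ hT x hx)
    have e2 : psM Ω Y x - e • ((lam ⬝ᵥ P0) • vecMulVec τ q0 + (q0 ⬝ᵥ τ) • vecMulVec P0 lam) =
        Ω x (pr Γ x) := by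
      rw [psM, hY, yM, add_sub_cancel_right]
    rw [e2] at e1
    exact e1
  · intro g x _
    refine Pfun_mem ⟨_, hκ'.symm⟩ ?_ (hΩR _ _)
    intro i j
    rw [psM, Matrix.add_apply]
    exact add_mem (hΩR _ _ _ _) (hYR i j)

/-- Polynomial class cocycles for all powers with the same centralizer. -/
theorem exists_poly_family {R : Type*} [CommRing R] [IsDomain R] [CharZero R] {K : Type*}
    [Field K] [Algebra R K] [IsFractionRing R K] {Γ : Type*} [Group Γ] {γ : Γ}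
    (h : HasUData R K γ) :
    ∃ (J a : ℕ) (D : R), 0 < a ∧ D ≠ 0 ∧
      ∀ k : ℕ, 0 < k → (∀ g : Γ, Commute g (γ ^ k) → Commute g γ) →
        ∃ δ : FreeGroup Γ → FreeGroup Γ → R,
          IsPoly (pr Γ) (γ ^ k) J δ ((k : R) ^ a * D) := by
  obtain ⟨N, ρ, τ, lam, d, r, hr, hd, hτ, hlam, hlt, hρτ, hρlam, hργ, hbd⟩ := h
  have hf : Function.Injective (algebraMap R K) := IsFractionRing.injective R K
  have : CharZero K := charZero_of_injective_algebraMap hf
  have hr' : algebraMap R K r ≠ 0 := fun h => hr (hf (by rw [h, map_zero]))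
  obtain ⟨l, hl⟩ := Function.ne_iff.mp hlam
  obtain ⟨l', hl'⟩ := Function.ne_iff.mp hτ
  rw [Pi.zero_apply] at hl hl'
  have hbd' : ∀ g i j, algebraMap R K r * (ρ g : Matrix (Fin N) (Fin N) K) i j ∈
      (algebraMap R K).range := hbd
  have hN : 1 < N := by
    by_contra hcon
    have hll : l' = l := by
      apply Fin.ext
      have := l.2
      have := l'.2
      omega
    subst hll
    rw [dotProduct, Finset.sum_eq_single l' (fun b _ hb => absurd (Fin.ext (by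
      have := l'.2
      have := b.2
      omega)) hb) (fun h => absurd (Finset.mem_univ _) h)] at hlt
    exact (mul_ne_zero hl hl') hlt
  have hκ : ∃ κR : R, algebraMap R K κR =
      2 * d * (lam l * algebraMap R K r) * (algebraMap R K r * τ l') := by
    have h2 := hbd' ⟨γ, Subgroup.mem_centralizer_singleton_iff.mpr rfl⟩ l' l
    rw [hργ, Matrix.add_apply, Matrix.smul_apply, vecMulVec_apply, smul_eq_mul, mul_add] at h2
    have h3 : algebraMap R K r * (1 : Matrix (Fin N) (Fin N) K) l' l ∈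
        (algebraMap R K).range := by
      rw [one_apply]
      split_ifs
      · rw [mul_one]; exact ⟨r, rfl⟩
      · rw [mul_zero]; exact zero_mem _
    have h4 := sub_mem h2 h3
    rw [add_sub_cancel_left] at h4
    obtain ⟨y, hy⟩ := h4
    refine ⟨2 * r * y, ?_⟩
    rw [map_mul, map_mul, hy, map_ofNat]
    ring
  obtain ⟨κR, hκR⟩ := hκ
  have hκ0 : κR ≠ 0 := by
    rintro rfl
    rw [map_zero] at hκR
    exact (mul_ne_zero (mul_ne_zero (mul_ne_zero two_ne_zero hd)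
      (mul_ne_zero hl hr')) (mul_ne_zero hr' hl')) hκR.symm
  refine ⟨N - 1, N - 1, ((N - 1).factorial : R) * κR ^ (N - 1), by omega,
    mul_ne_zero (Nat.cast_ne_zero.mpr (Nat.factorial_ne_zero _)) (pow_ne_zero _ hκ0), ?_⟩
  intro k hk hcent
  exact exists_poly_of_data (algebraMap R K) hf ρ hr' hd hlt hρτ hρlam hργ hbd' hl hl' hκR k hk
    hcent

end main

end Pool.Agent.Lib.MP_8f66f0_al_Uni
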