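import Mathlib
import Pool.Agent.Lib.MP_8f66f0_al_Dennis.Core
import Pool.Agent.Lib.MP_8f66f0_al_Plus.Words
import Pool.Agent.Lib.MP_8f66f0_al_Uni.WordSum

/-! The Frobenius congruence for sums over cyclic words. -/

set_option autoImplicit false
set_option linter.unusedSectionVars false

namespace Pool.Agent.Lib.MP_8f66f0_al_Uni

open Pool.Agent.Lib.MP_8f66f0_al_Dennis Pool.Agent.Lib.MP_8f66f0_al_FinQ
  Pool.Agent.Lib.MP_8f66f0_al_Plus

section frobHomog

variable {G : Type*} {S : Type*} [CommRing S] {ι : Type*} [Fintype ι] [DecidableEq ι]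

/-- Combinations of words of length `m`. -/
noncomputable def frobHomog (S : Type*) [CommRing S] (G : Type*) (m : ℕ) :
    AddSubgroup (MonoidAlgebra S (FreeMonoid G)) :=
  AddSubgroup.closure {x | ∃ (w : FreeMonoid G) (a : S), w.toList.length = m ∧
    x = MonoidAlgebra.single w a}

lemma frob_single_mem_homog {m : ℕ} {w : FreeMonoid G} (hw : w.toList.length = m) (a : S) :
    MonoidAlgebra.single w a ∈ frobHomog S G m := AddSubgroup.subset_closure ⟨w, a, hw, rfl⟩

lemma frob_coeff_of_mem_homog {m : ℕ} {x : MonoidAlgebra S (FreeMonoid G)} (hx : x ∈ frobHomog S G m)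
    {w : FreeMonoid G} (hw : x.coeff w ≠ 0) : w.toList.length = m := by
  classical
  by_contra hne
  apply hw
  induction hx using AddSubgroup.closure_induction with
  | mem x hx =>
    obtain ⟨v, a, hv, rfl⟩ := hx
    rw [MonoidAlgebra.coeff_single, Finsupp.single_apply, if_neg]
    rintro rfl
    exact hne hv
  | zero => rfl
  | add x y _ _ h1 h2 =>
    by_cases h3 : x.coeff w = 0
    · by_cases h4 : y.coeff w = 0
      · rw [MonoidAlgebra.coeff_add, Finsupp.add_apply, h3, h4, add_zero]
      · exact absurd (h2 h4) h4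
    · exact absurd (h1 h3) h3
  | neg x _ h1 =>
    by_cases h3 : x.coeff w = 0
    · change (-x.coeff) w = 0
      rw [Finsupp.neg_apply, h3, neg_zero]
    · exact absurd (h1 h3) h3

lemma frob_mul_mem_homog {m n : ℕ} {x y : MonoidAlgebra S (FreeMonoid G)} (hx : x ∈ frobHomog S G m)
    (hy : y ∈ frobHomog S G n) : x * y ∈ frobHomog S G (m + n) := by
  induction hx using AddSubgroup.closure_induction with
  | mem x hx =>
    obtain ⟨v, a, hv, rfl⟩ := hx
    induction hy using AddSubgroup.closure_induction with
    | mem y hy =>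
      obtain ⟨v', a', hv', rfl⟩ := hy
      rw [MonoidAlgebra.single_mul_single]
      refine frob_single_mem_homog ?_ _
      rw [FreeMonoid.toList_mul, List.length_append, hv, hv']
    | zero => rw [mul_zero]; exact zero_mem _
    | add x y _ _ h1 h2 => rw [mul_add]; exact add_mem h1 h2
    | neg x _ h1 => rw [mul_neg]; exact neg_mem h1
  | zero => rw [zero_mul]; exact zero_mem _
  | add x y _ _ h1 h2 => rw [add_mul]; exact add_mem h1 h2
  | neg x _ h1 => rw [neg_mul]; exact neg_mem h1

lemma frob_one_mem_homog : (1 : MonoidAlgebra S (FreeMonoid G)) ∈ frobHomog S G 0 := by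
  rw [MonoidAlgebra.one_def]
  exact frob_single_mem_homog (by rw [FreeMonoid.toList_one, List.length_nil]) 1

lemma frob_letter_mem_homog (x : MonoidAlgebra S G) : letter S G x ∈ frobHomog S G 1 := by
  refine MonoidAlgebra.induction_linear x ?_ ?_ ?_
  · rw [map_zero]; exact zero_mem _
  · intro f g hf hg
    rw [map_add]; exact add_mem hf hg
  · intro g a
    change MonoidAlgebra.mapDomain FreeMonoid.of (MonoidAlgebra.single g a) ∈ _
    rw [MonoidAlgebra.mapDomain_single]
    exact frob_single_mem_homog (by rw [FreeMonoid.toList_of, List.length_singleton]) a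

/-- All entries are combinations of words of length `m`. -/
def FrobHomogM (m : ℕ) (Y : Matrix ι ι (MonoidAlgebra S (FreeMonoid G))) : Prop :=
  ∀ i j, Y i j ∈ frobHomog S G m

lemma FrobHomogM.mul {m n : ℕ} {X Y : Matrix ι ι (MonoidAlgebra S (FreeMonoid G))}
    (hX : FrobHomogM m X) (hY : FrobHomogM n Y) : FrobHomogM (m + n) (X * Y) := by
  intro i j
  rw [Matrix.mul_apply]
  exact sum_mem fun k _ => frob_mul_mem_homog (hX i k) (hY k j)

lemma frob_homogM_one : FrobHomogM 0 (1 : Matrix ι ι (MonoidAlgebra S (FreeMonoid G))) := by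
  intro i j
  rw [Matrix.one_apply]
  split_ifs
  · exact frob_one_mem_homog
  · exact zero_mem _

lemma FrobHomogM.pow {m : ℕ} {X : Matrix ι ι (MonoidAlgebra S (FreeMonoid G))}
    (hX : FrobHomogM m X) (k : ℕ) : FrobHomogM (m * k) (X ^ k) := by
  induction k with
  | zero => rw [pow_zero, mul_zero]; exact frob_homogM_one
  | succ k ih => rw [pow_succ, Nat.mul_succ]; exact ih.mul hX

lemma frob_homogM_letM (C : Matrix ι ι (MonoidAlgebra S G)) : FrobHomogM 1 (letM C) := by
  intro i j
  exact frob_letter_mem_homog _

lemma frob_homogM_word (B A : Matrix ι ι (MonoidAlgebra S G)) (Q : ℕ) :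
    FrobHomogM (2 * Q) ((letM B * letM A) ^ Q) :=
  ((frob_homogM_letM B).mul (frob_homogM_letM A)).pow Q

lemma FrobHomogM.list_prod {m : ℕ} (l : List (Matrix ι ι (MonoidAlgebra S (FreeMonoid G))))
    (hl : ∀ X ∈ l, FrobHomogM m X) : FrobHomogM (m * l.length) l.prod := by
  induction l with
  | nil => rw [List.length_nil, mul_zero, List.prod_nil]; exact frob_homogM_one
  | cons X l ih =>
    rw [List.length_cons, List.prod_cons, Nat.mul_succ, add_comm]
    exact (hl X (List.mem_cons_self ..)).mul (ih fun Z hZ => hl Z (List.mem_cons_of_mem _ hZ))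

/-- The functional `X ↦ lin F (trace X)`. -/
noncomputable def frobTr (F : List G → S) :
    Matrix ι ι (MonoidAlgebra S (FreeMonoid G)) →+ S :=
  (Pool.Agent.Lib.MP_8f66f0_al_FinQ.lin (fun w : FreeMonoid G => F w.toList)).comp (Matrix.traceAddMonoidHom ι _)

lemma frob_wsum_eq_trF {G : Type*} [Group G] (B A : Matrix ι ι (MonoidAlgebra S G)) (Q : ℕ)
    (F : List G → S) : wsum B A Q F = frobTr F ((letM B * letM A) ^ Q) := rfl

lemma frob_trF_apply (F : List G → S) (X : Matrix ι ι (MonoidAlgebra S (FreeMonoid G))) :
    frobTr F X = ∑ i, lin (fun w : FreeMonoid G => F w.toList) (X i i) := by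
  rw [frobTr, AddMonoidHom.comp_apply, Matrix.traceAddMonoidHom_apply, Matrix.trace, map_sum]
  rfl

lemma frob_lin_mul_comm_homog {F : List G → S} {m n : ℕ}
    (hF : ∀ u v : List G, u.length = m → v.length = n → F (u ++ v) = F (v ++ u))
    {x y : MonoidAlgebra S (FreeMonoid G)} (hx : x ∈ frobHomog S G m) (hy : y ∈ frobHomog S G n) :
    lin (fun w : FreeMonoid G => F w.toList) (x * y) =
      lin (fun w : FreeMonoid G => F w.toList) (y * x) := by
  induction hx using AddSubgroup.closure_induction with
  | mem x hx =>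
    obtain ⟨v, a, hv, rfl⟩ := hx
    induction hy using AddSubgroup.closure_induction with
    | mem y hy =>
      obtain ⟨v', a', hv', rfl⟩ := hy
      rw [MonoidAlgebra.single_mul_single, MonoidAlgebra.single_mul_single, lin_single,
        lin_single, FreeMonoid.toList_mul, FreeMonoid.toList_mul, hF _ _ hv hv', mul_comm a a']
    | zero => rw [mul_zero, zero_mul]
    | add x y _ _ h1 h2 => rw [mul_add, add_mul, map_add, map_add, h1, h2]
    | neg x _ h1 => rw [mul_neg, neg_mul, map_neg, map_neg, h1]
  | zero => rw [mul_zero, zero_mul]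
  | add x y _ _ h1 h2 => rw [mul_add, add_mul, map_add, map_add, h1, h2]
  | neg x _ h1 => rw [mul_neg, neg_mul, map_neg, map_neg, h1]

lemma frob_trF_mul_comm {F : List G → S} {m n : ℕ}
    (hF : ∀ u v : List G, u.length = m → v.length = n → F (u ++ v) = F (v ++ u))
    {X Y : Matrix ι ι (MonoidAlgebra S (FreeMonoid G))} (hX : FrobHomogM m X) (hY : FrobHomogM n Y) :
    frobTr F (X * Y) = frobTr F (Y * X) := by
  rw [frob_trF_apply, frob_trF_apply]
  have h1 : ∀ i, lin (fun w : FreeMonoid G => F w.toList) ((X * Y) i i) =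
      ∑ j, lin (fun w : FreeMonoid G => F w.toList) (X i j * Y j i) := by
    intro i
    rw [Matrix.mul_apply, map_sum]
  have h2 : ∀ i, lin (fun w : FreeMonoid G => F w.toList) ((Y * X) i i) =
      ∑ j, lin (fun w : FreeMonoid G => F w.toList) (Y i j * X j i) := by
    intro i
    rw [Matrix.mul_apply, map_sum]
  rw [Finset.sum_congr rfl (fun i _ => h1 i), Finset.sum_congr rfl (fun i _ => h2 i),
    Finset.sum_comm]
  refine Finset.sum_congr rfl fun i _ => Finset.sum_congr rfl fun j _ => ?_
  exact frob_lin_mul_comm_homog hF (hX _ _) (hY _ _)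

lemma frob_trF_single (F : List G → S) (i j : ι) (w : FreeMonoid G) (a : S) :
    frobTr F (Matrix.single i j (MonoidAlgebra.single w a)) =
      if i = j then a * F w.toList else 0 := by
  rw [frob_trF_apply]
  split_ifs with h
  · subst h
    rw [Finset.sum_eq_single i]
    · rw [Matrix.single_apply_same, lin_single]
    · intro k _ hk
      rw [Matrix.single_apply_of_row_ne hk.symm, map_zero]
    · intro h; exact absurd (Finset.mem_univ _) h
  · refine Finset.sum_eq_zero fun k _ => ?_
    rw [Matrix.single_apply, if_neg, map_zero]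
    rintro ⟨rfl, rfl⟩
    exact h rfl

lemma frob_toList_pow (w : FreeMonoid G) (k : ℕ) :
    (w ^ k).toList = (List.replicate k w.toList).flatten := by
  induction k with
  | zero => rfl
  | succ k ih =>
    rw [pow_succ', FreeMonoid.toList_mul, ih, List.replicate_succ, List.flatten_cons]

end frobHomog

section frob

variable {G : Type*} {ι : Type*} [Fintype ι] [DecidableEq ι]

/-- The Frobenius congruence for matrices over the word ring. -/
lemma frob_trF_frob {l : ℕ} (hl : l.Prime) {m : ℕ}
    (Y : Matrix ι ι (MonoidAlgebra ℤ (FreeMonoid G))) (hY : FrobHomogM m Y) {F : List G → ℤ}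
    (hF : ∀ w : List G, w.length = m * l → F (w.rotate m) = F w) :
    (l : ℤ) ∣ frobTr F (Y ^ l) - frobTr (fun w => F (List.replicate l w).flatten) Y := by
  classical
  -- the letters
  set W : Finset (FreeMonoid G) := Finset.univ.biUnion fun i : ι =>
    Finset.univ.biUnion fun j : ι => (Y i j).coeff.support with hW
  have hWm : ∀ w ∈ W, w.toList.length = m := by
    intro w hw
    rw [hW, Finset.mem_biUnion] at hw
    obtain ⟨i, -, hw⟩ := hw
    rw [Finset.mem_biUnion] at hw
    obtain ⟨j, -, hw⟩ := hw
    exact frob_coeff_of_mem_homog (hY i j) (Finsupp.mem_support_iff.mp hw)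
  let T := ι × ι × W
  let y : T → Matrix ι ι (MonoidAlgebra ℤ (FreeMonoid G)) := fun t =>
    Matrix.single t.1 t.2.1 (MonoidAlgebra.single (t.2.2 : FreeMonoid G)
      ((Y t.1 t.2.1).coeff t.2.2))
  have hent : ∀ i j, ∑ w : W, MonoidAlgebra.single (w : FreeMonoid G) ((Y i j).coeff w) =
      Y i j := by
    intro i j
    rw [Finset.sum_coe_sort W (fun w => MonoidAlgebra.single w ((Y i j).coeff w))]
    have hsub : (Y i j).coeff.support ⊆ W := by
      intro w hw
      rw [hW, Finset.mem_biUnion]
      refine ⟨i, Finset.mem_univ _, ?_⟩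
      rw [Finset.mem_biUnion]
      exact ⟨j, Finset.mem_univ _, hw⟩
    rw [← Finset.sum_subset hsub]
    · apply MonoidAlgebra.coeff_injective
      rw [MonoidAlgebra.coeff_sum]
      simp only [MonoidAlgebra.coeff_single]
      exact Finsupp.sum_single _
    · intro w _ hw
      rw [Finsupp.notMem_support_iff.mp hw, MonoidAlgebra.single_zero]
  have hsum : ∑ t, y t = Y := by
    rw [Fintype.sum_prod_type]
    conv_rhs => rw [Matrix.matrix_eq_sum_single Y]
    refine Finset.sum_congr rfl fun i _ => ?_
    rw [Fintype.sum_prod_type]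
    refine Finset.sum_congr rfl fun j _ => ?_
    conv_rhs => rw [← hent i j]
    exact (map_sum (Matrix.singleAddMonoidHom (α := MonoidAlgebra ℤ (FreeMonoid G)) i j) _ _).symm
  have hyhom : ∀ t, FrobHomogM m (y t) := by
    intro t i j
    change Matrix.single _ _ _ i j ∈ _
    rw [Matrix.single_apply]
    split_ifs
    · exact frob_single_mem_homog (hWm _ t.2.2.2) _
    · exact zero_mem _
  have hlpos := hl.pos
  have hne : NeZero (l * 1) := ⟨by rw [mul_one]; exact hlpos.ne'⟩
  have hrot : rot T (l * 1) ^ (l ^ (0 + 1)) = 1 := by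
    have e : l ^ (0 + 1) = l * 1 := by ring
    rw [e]
    exact rot_pow_card
  obtain ⟨S0, S, hS0, hS⟩ := exists_rep (rot T (l * 1)) hl hrot
  have hFuv : ∀ u v : List G, u.length = m → v.length = m * (l - 1) →
      F (u ++ v) = F (v ++ u) := by
    intro u v hu hv
    have h1 := hF (u ++ v) (by
      rw [List.length_append, hu, hv]
      obtain ⟨k, rfl⟩ : ∃ k, l = k + 1 := ⟨l - 1, by omega⟩
      rw [Nat.add_sub_cancel]; ring)
    rw [← h1, ← hu, List.rotate_append_length_eq]
  have htr : ∀ w : Fin (l * 1) → T,
      frobTr F (wordProd y (rot T (l * 1) w)) = frobTr F (wordProd y w) := by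
    obtain ⟨n, hn⟩ : ∃ n, l * 1 = n + 1 := ⟨l * 1 - 1, by have := NeZero.pos (l * 1); omega⟩
    have hn' : n = l - 1 := by omega
    clear hS hS0 S S0 hrot
    revert hne
    rw [hn]
    intro hne w
    have h1 : wordProd y w = y (w 0) * (List.ofFn fun i : Fin n => y (w i.succ)).prod := by
      unfold wordProd
      rw [List.ofFn_succ, List.prod_cons]
    have h2 : wordProd y (rot T (n + 1) w) =
        (List.ofFn fun i : Fin n => y (w i.succ)).prod * y (w 0) := by
      unfold wordProd
      rw [List.ofFn_succ', List.concat_eq_append, List.prod_append, List.prod_singleton]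
      congr 1
      · congr 2
        funext i
        rw [rot_apply, finRotate_apply, Fin.coeSucc_eq_succ]
      · rw [rot_apply, finRotate_last]
    rw [h1, h2]
    symm
    refine frob_trF_mul_comm hFuv (hyhom _) ?_
    have h3 := FrobHomogM.list_prod (m := m) (List.ofFn fun i : Fin n => y (w i.succ)) (by
      intro X hX
      obtain ⟨i, rfl⟩ := List.mem_ofFn.mp hX
      exact hyhom _)
    rw [List.length_ofFn] at h3
    rw [show m * (l - 1) = m * n by rw [hn']]
    exact h3
  have h1 := hS ℤ (fun w => frobTr F (wordProd y w)) htr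
  have e0 : frobTr F (Y ^ l) = ∑ w : Fin (l * 1) → T, frobTr F (wordProd y w) := by
    rw [← hsum, ← map_sum, ← sum_pow_eq, mul_one]
  have e1 : ∑ w ∈ S0, frobTr F (wordProd y w) = ∑ t, frobTr F (y t ^ l) := by
    rw [← (Equiv.funUnique (Fin 1) T).sum_comp]
    symm
    refine Finset.sum_bij (fun v _ => Fin.repeat l v) ?_ ?_ ?_ ?_
    · intro v _
      have h2 := repeat_fixed (p := l) v
      exact (hS0 _).mpr (by rw [pow_zero]; exact h2)
    · intro v _ v' _ h
      exact repeat_injective hlpos h
    · intro w hw
      have h2 := (hS0 w).mp hw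
      rw [pow_zero] at h2
      obtain ⟨v, hv⟩ := exists_repeat hlpos h2
      exact ⟨v, Finset.mem_univ _, hv⟩
    · intro v _
      rw [wordProd_repeat]
      congr 2
      unfold wordProd
      simp [Equiv.funUnique]
  have e2 : frobTr (fun w => F (List.replicate l w).flatten) Y =
      ∑ t, frobTr (fun w => F (List.replicate l w).flatten) (y t) := by
    rw [← map_sum, hsum]
  rw [e0, h1, e1, e2, add_sub_right_comm, ← Finset.sum_sub_distrib]
  refine dvd_add (Finset.dvd_sum fun t _ => ?_) ?_
  · obtain ⟨i, j, w⟩ := t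
    change (l : ℤ) ∣ frobTr F ((Matrix.single i j (MonoidAlgebra.single (w : FreeMonoid G)
      ((Y i j).coeff w))) ^ l) - frobTr _ (Matrix.single i j (MonoidAlgebra.single (w : FreeMonoid G)
      ((Y i j).coeff w)))
    by_cases hij : i = j
    · subst hij
      rw [single_matrix_pow_self i _ l hlpos, MonoidAlgebra.single_pow, frob_trF_single, frob_trF_single,
        if_pos rfl, if_pos rfl, frob_toList_pow, ← sub_mul]
      refine Dvd.dvd.mul_right ?_ _
      have : Fact l.Prime := ⟨hl⟩
      rw [← (ZMod.intCast_zmod_eq_zero_iff_dvd _ l : _), Int.cast_sub, Int.cast_pow,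
        ZMod.pow_card, sub_self]
    · rw [single_matrix_pow_ne (Ne.symm hij) _ l hl.two_le, map_zero, frob_trF_single, if_neg hij,
        sub_zero]
      exact dvd_zero _
  · rw [zero_add, pow_one, nsmul_eq_mul]
    exact dvd_mul_right _ _

end frob

variable {G Γ : Type*} [Group G] [Group Γ] {ι : Type*} [Fintype ι] [DecidableEq ι]

/-- Let `F` be invariant under rotation by `2 q` letters on words of length `2 q l`, `l` prime.
Then the sum of `F` over the words of length `2 q l` is congruent modulo `l` to the sum of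
`v ↦ F(v repeated l times)` over the words `v` of length `2 q`. -/
theorem wsum_frob {l : ℕ} [Fact l.Prime] (B A : Matrix ι ι (MonoidAlgebra ℤ G)) (q : ℕ)
    (_hq : 0 < q) {F : List G → ℤ}
    (hF : ∀ w : List G, w.length = 2 * (q * l) → F (w.rotate (2 * q)) = F w) :
    (l : ℤ) ∣ wsum B A (q * l) F - wsum B A q (fun w => F (List.replicate l w).flatten) := by
  rw [frob_wsum_eq_trF, frob_wsum_eq_trF, pow_mul]
  exact frob_trF_frob Fact.out _ (frob_homogM_word B A q) (by
    intro w hw
    exact hF w (by rw [hw]; ring))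

lemma frob_d0_append : ∀ (u v : List G), Even u.length → d0 (u ++ v) = d0 u ++ d0 v
  | [], v, _ => rfl
  | [_], _, h => by simp at h
  | h :: g :: u, v, hu => by
    have h1 : Even u.length := by
      rw [List.length_cons, List.length_cons, Nat.even_add_one, Nat.even_add_one, not_not] at hu
      exact hu
    change (h * g) :: d0 (u ++ v) = (h * g) :: (d0 u ++ d0 v)
    rw [frob_d0_append u v h1]

lemma frob_prod_d0 : ∀ (u : List G), Even u.length → (d0 u).prod = u.prod
  | [], _ => rfl
  | [_], h => by simp at h
  | h :: g :: u, hu => by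
    have h1 : Even u.length := by
      rw [List.length_cons, List.length_cons, Nat.even_add_one, Nat.even_add_one, not_not] at hu
      exact hu
    change ((h * g) :: d0 u).prod = _
    rw [List.prod_cons, frob_prod_d0 u h1, List.prod_cons, List.prod_cons, mul_assoc]

lemma frob_length_d0 : ∀ (u : List G), (d0 u).length = u.length / 2
  | [] => by
    rw [List.length_nil]
    rfl
  | [_] => by
    rw [List.length_singleton]
    rfl
  | h :: g :: u => by
    change ((h * g) :: d0 u).length = _
    rw [List.length_cons, frob_length_d0 u, List.length_cons, List.length_cons]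
    omega

lemma frob_d0_replicate (v : List G) (hv : Even v.length) (k : ℕ) :
    d0 (List.replicate k v).flatten = (List.replicate k (d0 v)).flatten := by
  induction k with
  | zero => rfl
  | succ k ih =>
    rw [List.replicate_succ, List.flatten_cons, frob_d0_append _ _ hv, ih, List.replicate_succ,
      List.flatten_cons]

lemma frob_d0_rotate (w : List G) (j : ℕ) (hw : Even w.length) (hj : 2 * j ≤ w.length) :
    d0 (w.rotate (2 * j)) = (d0 w).rotate j := by
  have h1 : w = w.take (2 * j) ++ w.drop (2 * j) := (List.take_append_drop _ _).symm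
  have hl1 : (w.take (2 * j)).length = 2 * j := by
    rw [List.length_take]; omega
  have hl2 : Even (w.drop (2 * j)).length := by
    rw [List.length_drop]
    obtain ⟨a, ha⟩ := hw
    exact ⟨a - j, by omega⟩
  have he : Even (w.take (2 * j)).length := by rw [hl1]; exact even_two_mul j
  have h2 : (d0 (w.take (2 * j))).length = j := by
    rw [frob_length_d0, hl1]; omega
  have h3 : d0 w = d0 (w.take (2 * j)) ++ d0 (w.drop (2 * j)) := by
    conv_lhs => rw [h1]
    exact frob_d0_append _ _ he
  rw [List.rotate_eq_drop_append_take hj, frob_d0_append _ _ hl2, h3]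
  have h4 := List.rotate_append_length_eq (d0 (w.take (2 * j))) (d0 (w.drop (2 * j)))
  rw [h2] at h4
  exact h4.symm

lemma frob_isConj_prod_rotate {Γ : Type*} [Group Γ] (x : List Γ) (j : ℕ) :
    IsConj x.prod (x.rotate j).prod := by
  induction j generalizing x with
  | zero => rw [List.rotate_zero]
  | succ j ih =>
    rw [show j + 1 = 1 + j by ring, ← List.rotate_rotate]
    refine IsConj.trans ?_ (ih (x.rotate 1))
    cases x with
    | nil => rfl
    | cons a x =>
      rw [List.rotate_cons_succ, List.rotate_zero, List.prod_cons, List.prod_append,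
        List.prod_singleton]
      exact isConj_iff.mpr ⟨a⁻¹, by group⟩

lemma frob_isConj_right_iff {Γ : Type*} [Group Γ] {c a b : Γ} (h : IsConj a b) :
    IsConj c a ↔ IsConj c b := ⟨fun h1 => h1.trans h, fun h1 => h1.trans h.symm⟩

lemma IsPhase.frob_shift_iterate {c : Γ} {Q q : ℕ} {θ : List Γ → ℤ} (hθ : IsPhase c Q q θ)
    (x : List Γ) (hx : x.length = Q) (hc : IsConj c x.prod) (j : ℕ) :
    (q : ℤ) ∣ θ (x.rotate j) - θ x - j := by
  induction j with
  | zero => rw [List.rotate_zero]; simp
  | succ j ih =>
    have h1 := hθ.shift (x.rotate j) (by rw [List.length_rotate, hx])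
      ((frob_isConj_right_iff (frob_isConj_prod_rotate x j)).mp hc)
    rw [List.rotate_rotate] at h1
    have h2 := dvd_add ih h1
    have e : θ (x.rotate j) - θ x - j + (θ (x.rotate (j + 1)) - θ (x.rotate j) - 1) =
        θ (x.rotate (j + 1)) - θ x - ((j + 1 : ℕ) : ℤ) := by push_cast; ring
    rwa [e] at h2

lemma IsPhase.frob_eq_rotate {c : Γ} {Q q : ℕ} {θ : List Γ → ℤ} (hθ : IsPhase c Q q θ)
    (x : List Γ) (hx : x.length = Q) (hc : IsConj c x.prod) :
    θ (x.rotate q) = θ x := by
  have h1 := hθ.frob_shift_iterate x hx hc q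
  have h2 : (q : ℤ) ∣ θ (x.rotate q) - θ x := by
    have h3 := dvd_add h1 (dvd_refl (q : ℤ))
    rwa [sub_add_cancel] at h3
  have h4 := hθ.nonneg x
  have h5 := hθ.nonneg (x.rotate q)
  have h6 := hθ.lt x
  have h7 := hθ.lt (x.rotate q)
  have h8 := Int.eq_zero_of_abs_lt_dvd h2 (by rw [abs_lt]; constructor <;> linarith)
  linarith

lemma frob_rotate_replicate_flatten {α : Type*} (v : List α) (hv : v ≠ []) (k : ℕ) :
    (List.replicate k v).flatten.rotate 1 = (List.replicate k (v.rotate 1)).flatten := by
  obtain ⟨a, v, rfl⟩ := List.exists_cons_of_ne_nil hv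
  cases k with
  | zero => rfl
  | succ k =>
    rw [List.replicate_succ, List.flatten_cons, List.cons_append, List.rotate_cons_succ,
      List.rotate_zero, List.rotate_cons_succ, List.rotate_zero]
    have key : ∀ k : ℕ, (List.replicate k (a :: v)).flatten ++ [a] =
        a :: (List.replicate k (v ++ [a])).flatten := by
      intro k
      induction k with
      | zero => rfl
      | succ k ih =>
        rw [List.replicate_succ, List.flatten_cons, List.append_assoc, ih, List.replicate_succ,
          List.flatten_cons, List.cons_append, List.append_assoc, List.singleton_append]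
    rw [List.append_assoc, key, List.replicate_succ, List.flatten_cons, List.append_assoc,
      List.singleton_append]

lemma frob_map_replicate_flatten {α β : Type*} (f : α → β) (v : List α) (k : ℕ) :
    (List.replicate k v).flatten.map f = (List.replicate k (v.map f)).flatten := by
  rw [List.map_flatten, List.map_replicate]

lemma frob_prod_replicate_flatten {M : Type*} [Monoid M] (v : List M) (k : ℕ) :
    (List.replicate k v).flatten.prod = v.prod ^ k := by
  rw [List.prod_flatten, List.map_replicate, List.prod_replicate]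

/-- The phase function is invariant under rotation by `2 q` letters. -/
lemma frob_phaseFun_rotate {π : G →* Γ} {c : Γ} {Q q : ℕ} {θ : List Γ → ℤ} (hθ : IsPhase c Q q θ)
    (hqQ : q ≤ Q) (w : List G) (hw : w.length = 2 * Q) :
    phaseFun π c θ (w.rotate (2 * q)) = phaseFun π c θ w := by
  classical
  have hev : Even w.length := by rw [hw]; exact even_two_mul Q
  have hle : 2 * q ≤ w.length := by omega
  have e1 : d0 (w.rotate (2 * q)) = (d0 w).rotate q := frob_d0_rotate w q hev hle
  have hlen0 : ((d0 w).map π).length = Q := by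
    rw [List.length_map, frob_length_d0, hw]; omega
  have e2 : (w.rotate (2 * q)).rotate 1 = (w.rotate 1).rotate (2 * q) := by
    rw [List.rotate_rotate, List.rotate_rotate, add_comm]
  have hw1 : (w.rotate 1).length = 2 * Q := by rw [List.length_rotate, hw]
  have hev1 : Even (w.rotate 1).length := by rw [hw1]; exact even_two_mul Q
  have e3 : d0 ((w.rotate 1).rotate (2 * q)) = (d0 (w.rotate 1)).rotate q :=
    frob_d0_rotate _ q hev1 (by omega)
  have hlen1 : ((d0 (w.rotate 1)).map π).length = Q := by
    rw [List.length_map, frob_length_d0, hw1]; omega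
  have hc1 : IsConj c (π (d0 w).prod) ↔ IsConj c (π ((d0 w).rotate q).prod) :=
    frob_isConj_right_iff (MonoidHom.map_isConj π (frob_isConj_prod_rotate (d0 w) q))
  unfold phaseFun
  rw [e1, e2, e3, ← hc1]
  by_cases hc : IsConj c (π (d0 w).prod)
  · have hcw : IsConj c ((d0 w).map π).prod := by
      rw [← map_list_prod]; exact hc
    have hcw1 : IsConj c ((d0 (w.rotate 1)).map π).prod := by
      rw [← map_list_prod, frob_prod_d0 _ hev1]
      refine (frob_isConj_right_iff (MonoidHom.map_isConj π (frob_isConj_prod_rotate w 1))).mp ?_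
      rw [← frob_prod_d0 w hev]; exact hc
    rw [List.map_rotate, List.map_rotate, hθ.frob_eq_rotate _ hlen0 hcw, hθ.frob_eq_rotate _ hlen1 hcw1]
  · rw [if_neg (fun h => hc h.1), if_neg (fun h => hc h.1)]

/-- The phase invariants of `γ^l` (words of length `l^(K+1)`, phase modulo `l^K`) and of `γ` (words
of length `l^K`) agree modulo `l`. -/
theorem phase_congr {π : G →* Γ} {γ : Γ} {l K : ℕ} (hl : l.Prime)
    (huniq : ∀ a b : Γ, a ^ l = b ^ l → a = b) {θ : List Γ → ℤ}
    (hθ : IsPhase (γ ^ l) (l ^ (K + 1)) (l ^ K) θ) (B A : Matrix ι ι (MonoidAlgebra ℤ G)) :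
    (l : ℤ) ∣ wsum B A (l ^ (K + 1)) (phaseFun π (γ ^ l) θ) -
      wsum B A (l ^ K) (phaseFun π γ (fun y => θ (List.replicate l y).flatten)) := by
  classical
  have : Fact l.Prime := ⟨hl⟩
  have hq : 0 < l ^ K := pow_pos hl.pos K
  have h1 := wsum_frob (l := l) B A (l ^ K) hq (F := phaseFun π (γ ^ l) θ) (by
    intro w hw
    exact frob_phaseFun_rotate hθ (Nat.pow_le_pow_right hl.pos (Nat.le_succ K)) w
      (by rw [hw, pow_succ]))
  rw [← pow_succ] at h1
  have h2 : wsum B A (l ^ K) (phaseFun π γ (fun y => θ (List.replicate l y).flatten)) =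
      wsum B A (l ^ K) (fun w => phaseFun π (γ ^ l) θ (List.replicate l w).flatten) := by
    refine wsum_congr B A _ fun w hw => ?_
    have hev : Even w.length := by rw [hw]; exact even_two_mul _
    have hev1 : Even (w.rotate 1).length := by rw [List.length_rotate, hw]; exact even_two_mul _
    have hne : w ≠ [] := by
      rintro rfl
      rw [List.length_nil] at hw
      omega
    unfold phaseFun
    rw [frob_d0_replicate w hev, frob_rotate_replicate_flatten w hne, frob_d0_replicate _ hev1,
      frob_map_replicate_flatten, frob_map_replicate_flatten, frob_prod_replicate_flatten, map_pow]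
    have h3 : IsConj γ (π (d0 w).prod) ↔ IsConj (γ ^ l) (π (d0 w).prod ^ l) := by
      constructor
      · intro h
        exact h.pow l
      · intro h
        obtain ⟨g, hg⟩ := isConj_iff.mp h
        refine isConj_iff.mpr ⟨g, huniq _ _ ?_⟩
        rw [← hg, conj_pow]
    rw [h3]
  rw [h2]
  exact h1

end Pool.Agent.Lib.MP_8f66f0_al_Uni
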