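import Mathlib
import Pool.Agent.Lib.MP_8f66f0_al_Dennis.ClassDefs
import Pool.Agent.Lib.MP_8f66f0_al_FinQ.Trace

/-! Classes of infinite order in some representation. -/

set_option autoImplicit false

namespace Pool.Agent.Lib.MP_8f66f0_al_Uni

open Pool.Agent.Lib.MP_8f66f0_al_FinQ

/-- The conjugacy class of `c` is detected by a class cocycle, or `c` has infinite order in some
representation over a domain of characteristic zero in which `p` is not a unit. -/
def PDet.{v, u} (p : ℕ) {Γ : Type u} [Group Γ] (c : Γ) : Prop :=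
  Detected c ∨ ∃ (R : Type v) (_ : CommRing R) (_ : IsDomain R) (_ : CharZero R) (m : ℕ)
    (ρ : Γ →* Matrix.GeneralLinearGroup (Fin m) R),
    ¬ IsUnit (p : R) ∧ ∀ n : ℕ, 0 < n → ρ c ^ n ≠ 1

/-- Unique `l`-th roots for all large primes `l`, and for each `v` of infinite order and each `u`,
`u` is conjugate to `v ^ l` for only finitely many primes `l`. -/
def PowerSep (G : Type*) [Group G] : Prop :=
  (∃ N : ℕ, ∀ l : ℕ, l.Prime → N < l → ∀ x y : G, x ^ l = y ^ l → x = y) ∧
    ∀ u v : G, (∀ n : ℕ, 0 < n → v ^ n ≠ 1) → {l : ℕ | l.Prime ∧ IsConj u (v ^ l)}.Finite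

lemma PowerSep.of_powerSeparated {G : Type*} [Group G]
    (h : Pool.Agent.Lib.MP_8f66f0_al_Dennis.PowerSeparated G) : PowerSep G := by
  refine ⟨h.roots, fun u v hv => h.conj u v ?_⟩
  rintro rfl
  exact hv 1 one_pos (one_pow 1)

end Pool.Agent.Lib.MP_8f66f0_al_Uni
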