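import Mathlib
import Pool.Agent.Lib.MP_8f66f0_al_Uni.Frob
import Pool.Agent.Lib.MP_8f66f0_al_Uni.LemmaB
import Pool.Agent.Lib.MP_8f66f0_al_Uni.Lift
import Pool.Agent.Lib.MP_8f66f0_al_Uni.PDef
import Pool.Agent.Lib.MP_8f66f0_al_Uni.Phase

/-! The pairing of a matrix and its inverse with a polynomial class cocycle vanishes. -/

set_option autoImplicit false
set_option linter.unusedSectionVars false

namespace Pool.Agent.Lib.MP_8f66f0_al_Uni

open Pool.Agent.Lib.MP_8f66f0_al_Dennis Pool.Agent.Lib.MP_8f66f0_al_FinQ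
  Pool.Agent.Lib.MP_8f66f0_al_Plus

variable {G Γ : Type*} [Group G] [Group Γ] {ι : Type*} [Fintype ι] [DecidableEq ι]

/-- The biadditive functional vanishes if the kernel vanishes on the supports. -/
lemma powerTrick_bil_eq_zero {X S : Type*} [CommRing S] {ψ : X → X → S}
    {x y : MonoidAlgebra S X}
    (h : ∀ a b, x.coeff a ≠ 0 → y.coeff b ≠ 0 → ψ a b = 0) : bil ψ x y = 0 := by
  have h1 : bil ψ x = x.coeff.sum fun g a => (AddMonoidHom.mulLeft a).comp (lin (ψ g)) := rfl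
  have h2 : bil ψ x y = x.coeff.sum fun g a => a * lin (ψ g) y := by
    rw [h1, Finsupp.sum, Finsupp.sum, AddMonoidHom.finsetSum_apply]
    rfl
  rw [h2, Finsupp.sum]
  refine Finset.sum_eq_zero fun g hg => ?_
  rw [lin_apply, Finsupp.sum]
  rw [Finset.sum_eq_zero, mul_zero]
  intro b hb
  rw [h g b (Finsupp.mem_support_iff.mp hg) (Finsupp.mem_support_iff.mp hb), mul_zero]

/-- Letters of the base change are letters of the matrix. -/
lemma powerTrick_coeff_baseMat {S : Type*} [CommRing S] (A : Matrix ι ι (MonoidAlgebra ℤ G))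
    (i j : ι) (g : G) (h : (baseMat S A i j).coeff g ≠ 0) : (A i j).coeff g ≠ 0 := by
  intro h0
  apply h
  change ((MonoidAlgebra.mapRingHom G (Int.castRingHom S)) (A i j)).coeff g = 0
  rw [MonoidAlgebra.coeff_mapRingHom, h0]
  simp

/-- Vanishing of the pairing.

Proof. Let `l` be a large prime, `φ_k` the pairing for the class of `γ^k`, `K = a + 1`.
(1) By `hsep.2` no product of a letter of `A` and a letter of `B` is conjugate to `γ^l`, so
`φ_l(A, B) = 0`.
(2) `hfam` gives a cocycle for `γ^l` with value `l^a D`. `lemmaB` with `Q = l^(K+1)`, `q = l^K`, `r = l` gives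
`l^(K+1) ∣ l^a D c_1`, so `l ∣ D c_1`, and as `l ∤ D` we get `l ∣ c_1` in `ℤ`
(if `l ∤ c_1` in `ℤ` then `c_1` is invertible modulo `l`).
(3) `c_1 = c_γ` modulo `l` by `phase_congr`.
(4) `lemmaB` for `γ` with `Q = q = l^K`, `r = 1`: `φ_1(A, B) = D c_γ` modulo `l^K`, so
`l ∣ φ_1(A, B)`. By `hdiv` it vanishes. -/
theorem pairing_zero {R : Type*} [CommRing R] [IsDomain R] [CharZero R]
    (hdiv : ∀ x : R, x ≠ 0 → ∃ N : ℕ, ∀ l : ℕ, l.Prime → N < l → ¬ (l : R) ∣ x)
    (hsep : PowerSep Γ) {π : G →* Γ} {γ : Γ} (hγ : ∀ n : ℕ, 0 < n → γ ^ n ≠ 1)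
    (hroot : ∃ N : ℕ, ∀ l : ℕ, l.Prime → N < l → ∀ x : Γ, x ^ l ≠ γ)
    {J a : ℕ} (ha : 0 < a) {D : R} (hD : D ≠ 0)
    (hfam : ∃ N : ℕ, ∀ l : ℕ, l.Prime → N < l →
      ∃ δ : G → G → R, IsPoly π (γ ^ l) J δ ((l : R) ^ a * D))
    {A B : Matrix ι ι (MonoidAlgebra ℤ G)}
    (hAB : EntIn ((kerI ℤ π) ^ (J + 1)) (A * B - 1))
    (hBA : EntIn ((kerI ℤ π) ^ (J + 1)) (B * A - 1))
    {δ : G → G → R} (hδ : IsPoly π γ J δ D) :
    mbil (bil (psiW π γ δ)) (baseMat R A) (baseMat R B) = 0 := by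
  classical
  by_contra hne
  obtain ⟨N1, hN1⟩ := hdiv _ hne
  obtain ⟨N2, hN2⟩ := hdiv D hD
  obtain ⟨N3, hN3⟩ := hsep.1
  have hγ1 : γ ≠ 1 := fun h => hγ 1 one_pos (by rw [h, one_pow])
  obtain ⟨N4, hN4⟩ := hroot
  -- only finitely many primes occur for the products of letters
  have hfin : ∃ N5 : ℕ, ∀ l : ℕ, l.Prime → N5 < l → ∀ i j i' j' : ι, ∀ g h : G,
      (A i j).coeff g ≠ 0 → (B i' j').coeff h ≠ 0 → ¬ IsConj (γ ^ l) (π (g * h)) := by
    set P : Set G := {x | ∃ i j i' j' : ι, ∃ g h : G,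
      (A i j).coeff g ≠ 0 ∧ (B i' j').coeff h ≠ 0 ∧ x = g * h} with hP
    have hPfin : P.Finite := by
      have : P ⊆ ⋃ i : ι, ⋃ j : ι, ⋃ i' : ι, ⋃ j' : ι,
          Set.image2 (fun g h => g * h) ((A i j).coeff.support : Set G)
            ((B i' j').coeff.support : Set G) := by
        rintro x ⟨i, j, i', j', g, h, hg, hh, rfl⟩
        simp only [Set.mem_iUnion]
        exact ⟨i, j, i', j', g, Finsupp.mem_support_iff.mpr hg, h,
          Finsupp.mem_support_iff.mpr hh, rfl⟩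
      refine Set.Finite.subset ?_ this
      refine Set.finite_iUnion fun i => Set.finite_iUnion fun j => Set.finite_iUnion fun i' =>
        Set.finite_iUnion fun j' => ?_
      exact Set.Finite.image2 _ (Finset.finite_toSet _) (Finset.finite_toSet _)
    have hbig : (⋃ x ∈ P, {p : ℕ | p.Prime ∧ IsConj (π x) (γ ^ p)}).Finite :=
      hPfin.biUnion fun x _ => hsep.2 _ _ hγ
    obtain ⟨N5, hN5⟩ := hbig.bddAbove
    refine ⟨N5, fun l hl hlN i j i' j' g h hg hh hc => ?_⟩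
    have hmem : l ∈ ⋃ x ∈ P, {p : ℕ | p.Prime ∧ IsConj (π x) (γ ^ p)} := by
      simp only [Set.mem_iUnion]
      exact ⟨g * h, ⟨i, j, i', j', g, h, hg, hh, rfl⟩, hl, hc.symm⟩
    exact absurd (hN5 hmem) (not_le.mpr hlN)
  obtain ⟨N5, hN5⟩ := hfin
  obtain ⟨N6, hN6⟩ := hfam
  obtain ⟨l, hlN, hl⟩ := Nat.exists_infinite_primes (N1 + N2 + N3 + N4 + N5 + N6 + 1)
  have hx1 := hN1 l hl (by omega)
  have hx2 := hN2 l hl (by omega)
  have hx3 := hN3 l hl (by omega)
  have hx4 := hN4 l hl (by omega)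
  have hx5 := hN5 l hl (by omega)
  have hlpos : 0 < l := hl.pos
  set K : ℕ := a + 1 with hK
  -- the cocycle for the class of `γ ^ l`
  obtain ⟨δl, hδl⟩ := hN6 l hl (by omega)
  have hγl : γ ^ l ≠ 1 := hγ l hlpos
  -- the phase
  obtain ⟨θ, hθ⟩ := exists_phase (γ ^ l) (Q := l ^ (K + 1)) (q := l ^ K) (by positivity)
    (by positivity) (fun x hx hc j hj => stab_of_roots hl K hx3 hx4 x hx hc j hj)
  have hAB' : EntIn ((kerI R π) ^ (J + 1)) (baseMat R A * baseMat R B - 1) := by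
    have := EntIn.baseMat R hAB
    rwa [map_sub, map_mul, map_one] at this
  have hBA' : EntIn ((kerI R π) ^ (J + 1)) (baseMat R B * baseMat R A - 1) := by
    have := EntIn.baseMat R hBA
    rwa [map_sub, map_mul, map_one] at this
  -- the pairing for `γ ^ l` vanishes
  have hzero : mbil (bil (psiW π (γ ^ l) δl)) (baseMat R A) (baseMat R B) = 0 := by
    rw [mbil_apply]
    refine Finset.sum_eq_zero fun i _ => Finset.sum_eq_zero fun j _ => ?_
    refine powerTrick_bil_eq_zero fun g h hg hh => ?_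
    rw [psiW, if_neg]
    exact hx5 i j j i g h (powerTrick_coeff_baseMat A i j g hg)
      (powerTrick_coeff_baseMat B j i h hh)
  have hlR : (l : R) ≠ 0 := Nat.cast_ne_zero.mpr hl.ne_zero
  set c1 : ℤ := wsum B A (l ^ (K + 1)) (phaseFun π (γ ^ l) θ) with hc1
  have hB1 := lemmaB hδl hγl (Q := l ^ (K + 1)) (q := l ^ K) (r := l) (pow_succ l K)
    (by positivity) hlpos (by
      refine ⟨(l : R) ^ (a - 1) * D, ?_⟩
      have e : a + (a + 1) = a + 2 + (a - 1) := by omega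
      push_cast
      rw [hK]
      calc (l : R) ^ a * D * (l : R) ^ (a + 1) = (l : R) ^ (a + (a + 1)) * D := by
            rw [pow_add]; ring
        _ = (l : R) ^ (a + 1 + 1) * ((l : R) ^ (a - 1) * D) := by
            rw [e, pow_add]; ring) hθ hAB' hBA'
  rw [hzero, mul_zero, zero_sub, dvd_neg, wsum_cast, ← hc1] at hB1
  have hldvd : (l : R) ∣ D * (c1 : R) := by
    obtain ⟨z, hz⟩ := hB1
    refine ⟨(l : R) * z, ?_⟩
    have hpa : (l : R) ^ a ≠ 0 := pow_ne_zero _ hlR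
    apply mul_left_cancel₀ hpa
    rw [← mul_assoc, hz, hK]
    push_cast
    ring
  have hlc1 : (l : ℤ) ∣ c1 := by
    by_contra hnd
    have hcop : IsCoprime (l : ℤ) c1 :=
      (Prime.coprime_iff_not_dvd (Nat.prime_iff_prime_int.mp hl)).mpr hnd
    obtain ⟨u, v, huv⟩ := hcop
    apply hx2
    have huvR : (u : R) * (l : R) + (v : R) * (c1 : R) = 1 := by
      have := congrArg (fun z : ℤ => (z : R)) huv
      push_cast at this
      exact this
    have hDe : D = (l : R) * (u * D) + v * (D * (c1 : R)) := by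
      calc D = ((u : R) * (l : R) + (v : R) * (c1 : R)) * D := by rw [huvR, one_mul]
        _ = (l : R) * (u * D) + v * (D * (c1 : R)) := by ring
    rw [hDe]
    exact dvd_add (dvd_mul_right _ _) (dvd_mul_of_dvd_right hldvd _)
  have hpc := phase_congr (π := π) hl hx3 hθ B A
  rw [← hc1] at hpc
  set cγ : ℤ := wsum B A (l ^ K)
    (phaseFun π γ (fun y => θ (List.replicate l y).flatten)) with hcγ
  have hlcγ : (l : ℤ) ∣ cγ := by
    have := dvd_sub hlc1 hpc
    rwa [sub_sub_cancel] at this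
  have hB2 := lemmaB hδ hγ1 (Q := l ^ K) (q := l ^ K) (r := 1) (mul_one _).symm
    (by positivity) one_pos (dvd_mul_left _ _) (isPhase_repeat hl hθ) hAB' hBA'
  rw [wsum_cast, ← hcγ, Nat.cast_one, one_mul] at hB2
  apply hx1
  have h1 : (l : R) ∣ mbil (bil (psiW π γ δ)) (baseMat R A) (baseMat R B) - D * (cγ : R) := by
    refine dvd_trans ?_ hB2
    rw [Nat.cast_pow]
    exact dvd_pow_self _ (by omega)
  have h2 : (l : R) ∣ D * (cγ : R) := by
    obtain ⟨z, hz⟩ := hlcγ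
    refine ⟨D * z, ?_⟩
    rw [hz]
    push_cast
    ring
  have := dvd_add h1 h2
  rwa [sub_add_cancel] at this

end Pool.Agent.Lib.MP_8f66f0_al_Uni
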