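import Mathlib
import Pool.Agent.Lib.MP_8f66f0_al_Uni.Change
import Pool.Agent.Lib.MP_8f66f0_al_Uni.PolyExists
import Pool.Agent.Lib.MP_8f66f0_al_Uni.PowerTrick
import Pool.Agent.Lib.MP_8f66f0_al_Uni.TauPoly

/-! Detected classes are good. -/

set_option autoImplicit false
set_option linter.unusedSectionVars false

namespace Pool.Agent.Lib.MP_8f66f0_al_Uni

open Pool.Agent.Lib.MP_8f66f0_al_Dennis hiding lin mtr mtr_apply
open Pool.Agent.Lib.MP_8f66f0_al_FinQ Pool.Agent.Lib.MP_8f66f0_al_Plus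

variable {Γ : Type*} [Group Γ]

lemma class_cocycle_pow {c : Γ} {δ : Γ → Γ → ℤ} (hδ : IsClassCocycle c δ) {x y : Γ}
    (hx : IsConj c x) (hy : y * x * y⁻¹ = x) (m : ℕ) : δ (y ^ m) x = m * δ y x := by
  induction m with
  | zero =>
    rw [pow_zero, Nat.cast_zero, zero_mul]
    exact cocycle_one (S := IsConj c) hδ hx
  | succ m ih =>
    rw [pow_succ, hδ _ _ _ hx, hy, ih]
    push_cast
    ring

/-- Detected elements have infinite order. -/
lemma detected_infinite {c : Γ} (hc : Detected c) (n : ℕ) (hn : 0 < n) : c ^ n ≠ 1 := by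
  obtain ⟨δ, hδ, hne⟩ := hc
  intro h
  have h1 := class_cocycle_pow hδ (IsConj.refl c) (y := c) (by group) n
  rw [h, cocycle_one (S := IsConj c) hδ (IsConj.refl c)] at h1
  exact mul_ne_zero (Nat.cast_ne_zero.mpr hn.ne') hne h1.symm

lemma degLT_id {M : Type*} [AddCommGroup M] (f : Γ → M) : DegLT (MonoidHom.id Γ) 1 f := by
  intro n hn g
  have h1 : n = 1 := hn
  change f (n * g) - f g = 0
  rw [h1, one_mul, sub_self]

lemma isPoly_of_cocycle {c : Γ} {δ : Γ → Γ → ℤ} (hδ : IsClassCocycle c δ) :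
    IsPoly (MonoidHom.id Γ) c 0 δ (δ c c) where
  coc := fun g h x hx => hδ g h x hx
  diag := fun _ hx => cocycle_diag hδ hx
  degL := fun _ => degLT_id _
  degR := fun _ => degLT_id _

/-- The class cocycle on the class of a power with unique roots. -/
lemma exists_cocycle_pow {c : Γ} {δ : Γ → Γ → ℤ} (hδ : IsClassCocycle c δ) {l : ℕ}
    (huniq : ∀ x y : Γ, x ^ l = y ^ l → x = y) :
    ∃ δ' : Γ → Γ → ℤ, IsPoly (MonoidHom.id Γ) (c ^ l) 0 δ' (l * δ c c) := by
  classical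
  have hex : ∀ x : Γ, ∃ y : Γ, IsConj (c ^ l) x → IsConj c y ∧ y ^ l = x := by
    intro x
    by_cases h : IsConj (c ^ l) x
    · obtain ⟨t, ht⟩ := isConj_iff.mp h
      exact ⟨t * c * t⁻¹, fun _ => ⟨isConj_iff.mpr ⟨t, rfl⟩, by rw [conj_pow, ht]⟩⟩
    · exact ⟨1, fun h' => absurd h' h⟩
  choose y hy using hex
  have hyc : ∀ g x : Γ, IsConj (c ^ l) x → y (g * x * g⁻¹) = g * y x * g⁻¹ := by
    intro g x hx
    have hx' : IsConj (c ^ l) (g * x * g⁻¹) := hx.trans (isConj_iff.mpr ⟨g, rfl⟩)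
    apply huniq
    rw [(hy _ hx').2, conj_pow, (hy _ hx).2]
  have hcoc : ∀ g h x, IsConj (c ^ l) x → δ (g * h) (y x) = δ g (y (h * x * h⁻¹)) + δ h (y x) := by
    intro g h x hx
    rw [hyc h x hx]
    exact hδ g h (y x) (hy x hx).1
  refine ⟨fun g x => δ g (y x), hcoc, ?_, fun _ => degLT_id _, fun _ => degLT_id _⟩
  intro x hx
  have hx' : IsConj (c ^ l) x := hx
  obtain ⟨h1, h2⟩ := hy x hx'
  change δ x (y x) = _
  conv_lhs => rw [← h2]
  rw [h2]
  have h3 := class_cocycle_pow hδ h1 (y := y x) (by group) l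
  rw [h2] at h3
  rw [h3, cocycle_diag hδ h1]

/-- Detected classes are good, without assumptions on torsion. -/
theorem tauGood_of_detected' (hsep : PowerSep Γ) {n : ℕ}
    {A B : Matrix (Fin n) (Fin n) (MonoidAlgebra ℤ Γ)} (hAB : A * B = 1) (hBA : B * A = 1)
    {p : ℕ} (hp : p.Prime) {S : Type*} [CommRing S] [IsDomain S] [CharZero S]
    [IsNoetherianRing S] {c : Γ} (hc : Detected c) : TauGood S p A B c := by
  have hinf := detected_infinite hc
  obtain ⟨δ, hδ, hne⟩ := hc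
  have hpair : ∀ A' B' : Matrix (Fin n) (Fin n) (MonoidAlgebra ℤ Γ),
      EntIn ((kerI ℤ (MonoidHom.id Γ)) ^ (0 + 1)) (A' * B' - 1) →
      EntIn ((kerI ℤ (MonoidHom.id Γ)) ^ (0 + 1)) (B' * A' - 1) →
      mbil (bil (psiW (MonoidHom.id Γ) c δ)) (baseMat ℤ A') (baseMat ℤ B') = 0 := by
    intro A' B' hAB' hBA'
    have hdiv : ∀ x : ℤ, x ≠ 0 → ∃ N : ℕ, ∀ l : ℕ, l.Prime → N < l → ¬ (l : ℤ) ∣ x := by
      intro x hx
      refine ⟨x.natAbs, fun l _ hlt hdvd => ?_⟩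
      have h1 := Int.natAbs_dvd_natAbs.mpr hdvd
      rw [Int.natAbs_natCast] at h1
      have h2 := Nat.le_of_dvd (Int.natAbs_pos.mpr hx) h1
      omega
    refine pairing_zero (R := ℤ) hdiv hsep hinf ?_ one_pos hne ?_ hAB' hBA'
      (isPoly_of_cocycle hδ)
    · obtain ⟨N, hN⟩ := hdiv _ hne
      refine ⟨N, fun l hl hlt x hx => hN l hl hlt ⟨δ x c, ?_⟩⟩
      have h1 := class_cocycle_pow hδ (IsConj.refl c) (y := x) (by rw [← hx]; group) l
      rwa [hx] at h1
    · obtain ⟨N, hN⟩ := hsep.1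
      refine ⟨N, fun l hl hlt => ?_⟩
      obtain ⟨δ', hδ'⟩ := exists_cocycle_pow hδ (hN l hl hlt)
      exact ⟨δ', by rwa [pow_one]⟩
  refine tauGood_of_poly hAB hBA hp (π := MonoidHom.id Γ) Function.surjective_id
    (fun h => hinf 1 one_pos (by rw [h, one_pow])) (D := Int.castRingHom S (δ c c)) ?_
    (IsPoly.map (Int.castRingHom S) (isPoly_of_cocycle hδ)) ?_
  · intro h
    apply hne
    rw [eq_intCast] at h
    exact_mod_cast h
  · intro A' B' hAB' hBA'
    rw [mbil_chg, hpair A' B' hAB' hBA', map_zero]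

end Pool.Agent.Lib.MP_8f66f0_al_Uni
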