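import Mathlib
import Pool.Agent.Lib.MP_8f66f0_al_Uni.Defs

/-! The representation of the centralizer of a quasi-unipotent element. -/

set_option autoImplicit false
set_option linter.unusedSectionVars false

namespace Pool.Agent.Lib.MP_8f66f0_al_Uni

open Matrix

section bounded

variable (R : Type*) [CommRing R] [IsDomain R] (K : Type*) [Field K] [Algebra R K]
  [IsFractionRing R K] (C : Type*)

/-- The functions with values in `K` with bounded denominators. -/
def bdd : Subalgebra K (C → K) where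
  carrier := {f | ∃ r : R, r ≠ 0 ∧ ∀ g, ∃ x : R, algebraMap R K x = algebraMap R K r * f g}
  mul_mem' := by
    rintro f f' ⟨r, hr, h⟩ ⟨r', hr', h'⟩
    refine ⟨r * r', mul_ne_zero hr hr', fun g => ?_⟩
    obtain ⟨x, hx⟩ := h g
    obtain ⟨x', hx'⟩ := h' g
    refine ⟨x * x', ?_⟩
    rw [map_mul, map_mul, hx, hx', Pi.mul_apply]
    ring
  add_mem' := by
    rintro f f' ⟨r, hr, h⟩ ⟨r', hr', h'⟩
    refine ⟨r * r', mul_ne_zero hr hr', fun g => ?_⟩
    obtain ⟨x, hx⟩ := h g
    obtain ⟨x', hx'⟩ := h' g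
    refine ⟨r' * x + r * x', ?_⟩
    rw [map_add, map_mul, map_mul, hx, hx', map_mul, Pi.add_apply]
    ring
  algebraMap_mem' := by
    intro a
    obtain ⟨x, s, hs, rfl⟩ := IsFractionRing.div_surjective (A := R) a
    refine ⟨s, nonZeroDivisors.ne_zero hs, fun g => ⟨x, ?_⟩⟩
    have h0 : algebraMap R K s ≠ 0 := by
      rw [Ne, IsFractionRing.to_map_eq_zero_iff]
      exact nonZeroDivisors.ne_zero hs
    simp only [Pi.algebraMap_apply, Algebra.algebraMap_self, RingHom.id_apply]
    field_simp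

variable {R K C}

lemma mem_bdd_of_int {f : C → K} (h : ∀ g, ∃ x : R, algebraMap R K x = f g) : f ∈ bdd R K C :=
  ⟨1, one_ne_zero, fun g => by
    obtain ⟨x, hx⟩ := h g
    exact ⟨x, by rw [map_one, one_mul, hx]⟩⟩

lemma bdd_common {ι : Type*} [Fintype ι] (f : ι → C → K) (h : ∀ i, f i ∈ bdd R K C) :
    ∃ r : R, r ≠ 0 ∧ ∀ g i, ∃ x : R, algebraMap R K x = algebraMap R K r * f i g := by
  classical
  choose r hr hx using h
  refine ⟨∏ i, r i, Finset.prod_ne_zero_iff.mpr fun i _ => hr i, fun g i => ?_⟩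
  obtain ⟨x, hx'⟩ := hx i g
  refine ⟨(∏ j ∈ Finset.univ.erase i, r j) * x, ?_⟩
  rw [map_mul, hx', ← Finset.mul_prod_erase Finset.univ r (Finset.mem_univ i), map_mul]
  ring

end bounded

/-- A linear map of vector spaces has a generalized inverse. -/
lemma exists_genInv {K : Type*} [Field K] {m : ℕ} (f : Matrix (Fin m) (Fin m) K) :
    ∃ g : Matrix (Fin m) (Fin m) K, f * g * f = f := by
  classical
  let F : (Fin m → K) →ₗ[K] (Fin m → K) := Matrix.toLin' f
  obtain ⟨s, hs⟩ := F.rangeRestrict.exists_rightInverse_of_surjective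
    (LinearMap.range_rangeRestrict F)
  obtain ⟨g, hg⟩ := LinearMap.exists_extend s
  refine ⟨LinearMap.toMatrix' g, ?_⟩
  apply Matrix.toLin'.injective
  rw [Matrix.toLin'_mul, Matrix.toLin'_mul, Matrix.toLin'_toMatrix']
  apply LinearMap.ext
  intro x
  have h1 : g (F x) = s (F.rangeRestrict x) := by
    rw [← hg]; rfl
  have h2 : F (s (F.rangeRestrict x)) = F x := by
    have := congrArg Subtype.val (LinearMap.congr_fun hs (F.rangeRestrict x))
    exact this
  change F (g (F x)) = F x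
  rw [h1, h2]

section main

variable {K : Type*} [Field K] {Γ : Type*} [Group Γ] {m : ℕ}
  (A : Γ →* Matrix (Fin m) (Fin m) K) (γ : Γ) (n τ : Matrix (Fin m) (Fin m) K) (d : K)

/-- The space of pairs `(φ, c)` with `φ n = 0`, `n φ = c τ` and `γ φ γ⁻¹ = φ + c d τ`. -/
def spX : Submodule K (Matrix (Fin m) (Fin m) K × K) where
  carrier := {x | x.1 * n = 0 ∧ n * x.1 = x.2 • τ ∧ A γ * x.1 * A γ⁻¹ = x.1 + (x.2 * d) • τ}
  zero_mem' := by simp
  add_mem' := by
    rintro ⟨a, c⟩ ⟨a', c'⟩ ⟨h1, h2, h3⟩ ⟨h1', h2', h3'⟩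
    dsimp only at *
    refine ⟨?_, ?_, ?_⟩
    · simp only [Prod.mk_add_mk, add_mul, h1, h1', add_zero]
    · simp only [Prod.mk_add_mk, mul_add, h2, h2', add_smul]
    · simp only [Prod.mk_add_mk, mul_add, add_mul, h3, h3', add_smul]
      abel
  smul_mem' := by
    rintro k ⟨a, c⟩ ⟨h1, h2, h3⟩
    dsimp only at *
    refine ⟨?_, ?_, ?_⟩
    · simp only [Prod.smul_mk, smul_mul_assoc, h1, smul_zero]
    · simp only [Prod.smul_mk, mul_smul_comm, h2, smul_smul, smul_eq_mul]
    · simp only [Prod.smul_mk, mul_smul_comm, smul_mul_assoc, h3, smul_add, smul_smul,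
        smul_eq_mul, mul_assoc]

variable {A γ n τ d}

/-- Conjugation by `g`. -/
def conjP (A : Γ →* Matrix (Fin m) (Fin m) K) (g : Γ) :
    (Matrix (Fin m) (Fin m) K × K) →ₗ[K] (Matrix (Fin m) (Fin m) K × K) where
  toFun x := (A g * x.1 * A g⁻¹, x.2)
  map_add' x y := by ext1 <;> simp [mul_add, add_mul]
  map_smul' k x := by ext1 <;> simp

lemma A_inv_mul (g : Γ) : A g⁻¹ * A g = 1 := by rw [← map_mul, inv_mul_cancel, map_one]

lemma A_mul_inv (g : Γ) : A g * A g⁻¹ = 1 := by rw [← map_mul, mul_inv_cancel, map_one]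

lemma A_comm {g h : Γ} (hg : g * h = h * g) : A g * A h = A h * A g := by
  rw [← map_mul, hg, map_mul]

lemma conj_comm {M : Type*} [Monoid M] {a b x : M} (hab : a * b = 1) (h : a * x = x * a) :
    a * x * b = x := by
  rw [h, mul_assoc, hab, mul_one]

lemma conjP_mem {g : Γ} (hg : g * γ = γ * g) (hn : A g * n = n * A g) (hτ : A g * τ = τ * A g)
    {x : Matrix (Fin m) (Fin m) K × K} (hx : x ∈ spX A γ n τ d) :
    conjP A g x ∈ spX A γ n τ d := by
  obtain ⟨h1, h2, h3⟩ := hx
  have hn' : A g⁻¹ * n = n * A g⁻¹ := by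
    calc A g⁻¹ * n = A g⁻¹ * (n * (A g * A g⁻¹)) := by rw [A_mul_inv, mul_one]
      _ = A g⁻¹ * (A g * n) * A g⁻¹ := by rw [hn]; noncomm_ring
      _ = n * A g⁻¹ := by rw [← mul_assoc, A_inv_mul, one_mul]
  have hγ : A γ * A g = A g * A γ := A_comm hg.symm
  have hγ' : A g⁻¹ * A γ⁻¹ = A γ⁻¹ * A g⁻¹ := by
    rw [← map_mul, ← map_mul, ← _root_.mul_inv_rev, ← _root_.mul_inv_rev, hg]
  refine ⟨?_, ?_, ?_⟩
  · change A g * x.1 * A g⁻¹ * n = 0
    rw [mul_assoc, hn', ← mul_assoc, mul_assoc (A g), h1, mul_zero, zero_mul]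
  · change n * (A g * x.1 * A g⁻¹) = x.2 • τ
    rw [← mul_assoc, ← mul_assoc, ← hn, mul_assoc (A g), h2, mul_smul_comm, smul_mul_assoc,
      conj_comm (A_mul_inv g) hτ]
  · change A γ * (A g * x.1 * A g⁻¹) * A γ⁻¹ = A g * x.1 * A g⁻¹ + (x.2 * d) • τ
    have e1 : A γ * (A g * x.1 * A g⁻¹) * A γ⁻¹ = A g * (A γ * x.1 * A γ⁻¹) * A g⁻¹ := by
      calc A γ * (A g * x.1 * A g⁻¹) * A γ⁻¹ = (A γ * A g) * x.1 * (A g⁻¹ * A γ⁻¹) := by
            noncomm_ring
        _ = (A g * A γ) * x.1 * (A γ⁻¹ * A g⁻¹) := by rw [hγ, hγ']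
        _ = _ := by noncomm_ring
    rw [e1, h3, mul_add, add_mul, mul_smul_comm, smul_mul_assoc, conj_comm (A_mul_inv g) hτ]

end main

/-- Quasi-unipotent elements of infinite order.

Proof. Let `u = ρ(γ^M) = 1 + n` over `K`, `n` nilpotent, `n ≠ 0`, `τ = n^(k+1) ≠ 0`, `n^(k+2) = 0`.
The centralizer acts by conjugation on the space `spX` of the pairs `(φ, c)` with `φ n = 0`,
`n φ = c τ`, `γ φ γ⁻¹ = φ + (c / M) τ`. It contains a pair with `c = 1`: if `τ g τ = τ` then
`φ₀ = n^k g τ` has `φ₀ n = 0` and `n φ₀ = τ`, and the average of `γ^i φ₀ γ^(-i)`, `i < M`, is as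
required. -/
theorem hasUData_of_quasiunipotent {R : Type*} [CommRing R] [IsDomain R] [CharZero R]
    {K : Type*} [Field K] [Algebra R K] [IsFractionRing R K] {Γ : Type*} [Group Γ] {m : ℕ}
    (ρ : Γ →* Matrix.GeneralLinearGroup (Fin m) R) {γ : Γ} {M : ℕ} (hM : 0 < M)
    (hu : ((ρ (γ ^ M) : Matrix (Fin m) (Fin m) R) - 1) ^ m = 0)
    (hne : (ρ (γ ^ M) : Matrix (Fin m) (Fin m) R) ≠ 1) : HasUData R K γ := by
  classical
  have hinj : Function.Injective (algebraMap R K) := IsFractionRing.injective R K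
  have hMK : (M : K) ≠ 0 := by
    intro h
    have : algebraMap R K (M : R) = algebraMap R K 0 := by rw [map_natCast, h, map_zero]
    have := hinj this
    exact hM.ne' (by exact_mod_cast this)
  let φK : Matrix (Fin m) (Fin m) R →+* Matrix (Fin m) (Fin m) K := (algebraMap R K).mapMatrix
  have hφinj : Function.Injective φK := fun a b h => by
    ext i j
    exact hinj (congrFun (congrFun h i) j)
  let A : Γ →* Matrix (Fin m) (Fin m) K :=
    (φK : Matrix (Fin m) (Fin m) R →* Matrix (Fin m) (Fin m) K).comp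
      ((Units.coeHom _).comp ρ)
  have hAdef : ∀ g, A g = φK (ρ g : Matrix (Fin m) (Fin m) R) := fun g => rfl
  set n : Matrix (Fin m) (Fin m) K := A (γ ^ M) - 1 with hn
  have hnm : n ^ m = 0 := by
    rw [hn, hAdef, ← map_one φK, ← map_sub, ← map_pow, hu, map_zero]
  have hn0 : n ≠ 0 := by
    rw [hn, sub_ne_zero, hAdef, ← map_one φK]
    exact fun h => hne (hφinj h)
  obtain ⟨k, hk1, hk2⟩ : ∃ k, n ^ (k + 1) ≠ 0 ∧ n ^ (k + 2) = 0 := by
    have hex : ∃ j, n ^ j = 0 := ⟨m, hnm⟩
    have hj := Nat.find_spec hex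
    have hmin := fun j (h : j < Nat.find hex) => Nat.find_min hex h
    rcases hc : Nat.find hex with _ | _ | j
    · rw [hc, pow_zero] at hj
      exact absurd (by rw [← mul_one n, hj, mul_zero]) hn0
    · rw [hc, zero_add, pow_one] at hj
      exact absurd hj hn0
    · exact ⟨j, hmin (j + 1) (by omega), by rw [hc] at hj; exact hj⟩
  set τ : Matrix (Fin m) (Fin m) K := n ^ (k + 1) with hτ
  set d : K := 1 / M with hd
  have hcn : ∀ g : Γ, g * γ = γ * g → A g * n = n * A g := by
    intro g hg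
    rw [hn, mul_sub, sub_mul, mul_one, one_mul, A_comm ((Commute.pow_right hg M).eq)]
  have hcτ : ∀ g : Γ, g * γ = γ * g → A g * τ = τ * A g := fun g hg =>
    (Commute.pow_right (show Commute (A g) n from hcn g hg) (k + 1)).eq
  have hτn : τ * n = 0 := by rw [hτ, ← pow_succ, hk2]
  have hnτ : n * τ = 0 := by rw [hτ, ← pow_succ', hk2]
  -- the element with `c = 1`
  obtain ⟨G, hG⟩ := exists_genInv τ
  set φ0 : Matrix (Fin m) (Fin m) K := n ^ k * G * τ with hφ0
  have hφ0n : φ0 * n = 0 := by rw [hφ0, mul_assoc, hτn, mul_zero]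
  have hnφ0 : n * φ0 = τ := by
    rw [hφ0, ← mul_assoc, ← mul_assoc, ← pow_succ', ← hτ, hG]
  have hgi : ∀ i : ℕ, γ ^ i * γ = γ * γ ^ i := fun i => by rw [← pow_succ, ← pow_succ']
  set φ1 : Matrix (Fin m) (Fin m) K := d • ∑ i ∈ Finset.range M, A (γ ^ i) * φ0 * A (γ ^ i)⁻¹
    with hφ1
  have hφ1mem : ((φ1, 1) : Matrix (Fin m) (Fin m) K × K) ∈ spX A γ n τ d := by
    refine ⟨?_, ?_, ?_⟩
    · change φ1 * n = 0
      rw [hφ1, smul_mul_assoc, Finset.sum_mul, Finset.sum_eq_zero, smul_zero]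
      intro i _
      have : A (γ ^ i)⁻¹ * n = n * A (γ ^ i)⁻¹ :=
        hcn _ ((Commute.inv_left (show Commute (γ ^ i) γ from hgi i)).eq)
      rw [mul_assoc, this, ← mul_assoc, mul_assoc (A (γ ^ i)), hφ0n, mul_zero, zero_mul]
    · change n * φ1 = (1 : K) • τ
      rw [hφ1, mul_smul_comm, Finset.mul_sum, Finset.sum_congr rfl (g := fun _ => τ),
        Finset.sum_const, Finset.card_range, ← Nat.cast_smul_eq_nsmul K, smul_smul, hd,
        one_div, inv_mul_cancel₀ hMK]
      intro i _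
      rw [← mul_assoc, ← mul_assoc, ← hcn _ (hgi i), mul_assoc (A (γ ^ i)), hnφ0,
        conj_comm (A_mul_inv _) (hcτ _ (hgi i))]
    · change A γ * φ1 * A γ⁻¹ = φ1 + ((1 : K) * d) • τ
      have e1 : ∀ i : ℕ, A γ * (A (γ ^ i) * φ0 * A (γ ^ i)⁻¹) * A γ⁻¹ =
          A (γ ^ (i + 1)) * φ0 * A (γ ^ (i + 1))⁻¹ := by
        intro i
        rw [pow_succ', _root_.mul_inv_rev, map_mul, map_mul]
        noncomm_ring
      have e2 : A (γ ^ M) * φ0 * A (γ ^ M)⁻¹ = φ0 + τ := by
        have e3 : φ0 * A (γ ^ M)⁻¹ = φ0 := by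
          have : φ0 * A (γ ^ M) = φ0 := by
            have : A (γ ^ M) = 1 + n := by rw [hn]; abel
            rw [this, mul_add, mul_one, hφ0n, add_zero]
          calc φ0 * A (γ ^ M)⁻¹ = φ0 * A (γ ^ M) * A (γ ^ M)⁻¹ := by rw [this]
            _ = φ0 := by rw [mul_assoc, A_mul_inv, mul_one]
        have : A (γ ^ M) = 1 + n := by rw [hn]; abel
        rw [mul_assoc, e3, this, add_mul, one_mul, hnφ0]
      have e4 : ∑ i ∈ Finset.range M, A (γ ^ (i + 1)) * φ0 * A (γ ^ (i + 1))⁻¹ =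
          ∑ i ∈ Finset.range M, A (γ ^ i) * φ0 * A (γ ^ i)⁻¹ + τ := by
        have h1 := Finset.sum_range_succ' (fun i => A (γ ^ i) * φ0 * A (γ ^ i)⁻¹) M
        have h2 := Finset.sum_range_succ (fun i => A (γ ^ i) * φ0 * A (γ ^ i)⁻¹) M
        rw [h2, e2] at h1
        simp only [pow_zero, inv_one, map_one, one_mul, mul_one] at h1
        have h3 : ∑ i ∈ Finset.range M, A (γ ^ (i + 1)) * φ0 * A (γ ^ (i + 1))⁻¹ + φ0 =
            (∑ i ∈ Finset.range M, A (γ ^ i) * φ0 * A (γ ^ i)⁻¹ + τ) + φ0 := by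
          rw [← h1]; abel
        exact add_right_cancel h3
      rw [hφ1, mul_smul_comm, smul_mul_assoc, Finset.mul_sum, Finset.sum_mul,
        Finset.sum_congr rfl (fun i _ => e1 i), e4, smul_add, one_mul]
  have hτmem : ((τ, 0) : Matrix (Fin m) (Fin m) K × K) ∈ spX A γ n τ d := by
    refine ⟨hτn, ?_, ?_⟩
    · change n * τ = (0 : K) • τ
      rw [hnτ, zero_smul]
    · change A γ * τ * A γ⁻¹ = τ + ((0 : K) * d) • τ
      rw [zero_mul, zero_smul, add_zero, conj_comm (A_mul_inv _) (hcτ _ rfl)]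
  -- the representation
  let X := spX A γ n τ d
  have hcent : ∀ g : Subgroup.centralizer ({γ} : Set Γ), (g : Γ) * γ = γ * (g : Γ) := fun g =>
    Subgroup.mem_centralizer_singleton_iff.mp g.2
  let act : Subgroup.centralizer ({γ} : Set Γ) →* Module.End K X :=
    { toFun := fun g => (conjP A (g : Γ)).restrict
        (fun x hx => conjP_mem (hcent g) (hcn _ (hcent g)) (hcτ _ (hcent g)) hx)
      map_one' := by
        apply LinearMap.ext
        intro x
        apply Subtype.ext
        change conjP A ((1 : Subgroup.centralizer ({γ} : Set Γ)) : Γ) x.1 = x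
        ext1
        · change A (((1 : Subgroup.centralizer ({γ} : Set Γ)) : Γ)) * x.1.1 *
            A (((1 : Subgroup.centralizer ({γ} : Set Γ)) : Γ))⁻¹ = x.1.1
          rw [OneMemClass.coe_one, inv_one, map_one, one_mul, mul_one]
        · rfl
      map_mul' := by
        intro g h
        apply LinearMap.ext
        intro x
        apply Subtype.ext
        change conjP A ((g * h : Subgroup.centralizer ({γ} : Set Γ)) : Γ) x.1 =
          conjP A (g : Γ) (conjP A (h : Γ) x.1)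
        ext1
        · change A ((g * h : Subgroup.centralizer ({γ} : Set Γ)) : Γ) * x.1.1 *
            A ((g * h : Subgroup.centralizer ({γ} : Set Γ)) : Γ)⁻¹ =
            A (g : Γ) * (A (h : Γ) * x.1.1 * A (h : Γ)⁻¹) * A (g : Γ)⁻¹
          rw [Subgroup.coe_mul, _root_.mul_inv_rev, map_mul, map_mul]
          noncomm_ring
        · rfl }
  let b := Module.finBasis K X
  let P : Subgroup.centralizer ({γ} : Set Γ) →* Matrix.GeneralLinearGroup
      (Fin (Module.finrank K X)) K :=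
    MonoidHom.toHomUnits (((LinearMap.toMatrixAlgEquiv b : Module.End K X →ₐ[K]
      Matrix (Fin (Module.finrank K X)) (Fin (Module.finrank K X)) K) :
      Module.End K X →* _).comp act)
  have hP : ∀ g, (P g : Matrix (Fin (Module.finrank K X)) (Fin (Module.finrank K X)) K) =
      LinearMap.toMatrix b b (act g) := fun g => rfl
  let τX : X := ⟨(τ, 0), hτmem⟩
  let lamX : X →ₗ[K] K := (LinearMap.snd K _ K).comp X.subtype
  have hactτ : ∀ g, act g τX = τX := by
    intro g
    apply Subtype.ext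
    ext1
    · exact conj_comm (A_mul_inv _) (hcτ _ (hcent g))
    · rfl
  have hlam : ∀ g x, lamX (act g x) = lamX x := fun g x => rfl
  have hlamsum : ∀ x : X, ∑ i, lamX (b i) * b.repr x i = lamX x := by
    intro x
    conv_rhs => rw [← b.sum_repr x]
    rw [map_sum]
    exact Finset.sum_congr rfl fun i _ => by rw [map_smul, smul_eq_mul, mul_comm]
  have hγact : ∀ x : X, act ⟨γ, Subgroup.mem_centralizer_singleton_iff.mpr rfl⟩ x =
      x + (d * lamX x) • τX := by
    intro x
    apply Subtype.ext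
    obtain ⟨h1, h2, h3⟩ := x.2
    ext1
    · change A γ * x.1.1 * A γ⁻¹ = x.1.1 + (d * x.1.2) • τ
      rw [h3, mul_comm d]
    · change x.1.2 = x.1.2 + (d * x.1.2) • (0 : K)
      rw [smul_zero, add_zero]
  -- bounded denominators
  have hbd : ∀ i j, (fun g => (P g : Matrix (Fin (Module.finrank K X))
      (Fin (Module.finrank K X)) K) i j) ∈ bdd R K (Subgroup.centralizer ({γ} : Set Γ)) := by
    intro i j
    obtain ⟨ℓ, hℓ⟩ := LinearMap.exists_extend (b.coord i)
    have h1 : ∀ g : Subgroup.centralizer ({γ} : Set Γ), (P g : Matrix (Fin (Module.finrank K X))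
        (Fin (Module.finrank K X)) K) i j = ℓ (conjP A (g : Γ) (b j).1) := by
      intro g
      rw [hP, LinearMap.toMatrix_apply]
      have := LinearMap.congr_fun hℓ (act g (b j))
      exact this.symm
    have h2 : ∀ x : Matrix (Fin m) (Fin m) K × K, ℓ x =
        ∑ a, ∑ c, x.1 a c * ℓ (Matrix.single a c 1, 0) + x.2 * ℓ (0, 1) := by
      intro x
      have hx : x = ∑ a, ∑ c, x.1 a c • ((Matrix.single a c 1, 0) :
          Matrix (Fin m) (Fin m) K × K) + x.2 • ((0, 1) : Matrix (Fin m) (Fin m) K × K) := by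
        ext1
        · simp only [Prod.fst_add, Prod.fst_sum, Prod.smul_fst, smul_zero, add_zero]
          conv_lhs => rw [Matrix.matrix_eq_sum_single x.1]
          simp [Matrix.smul_single]
        · simp only [Prod.snd_add, Prod.snd_sum, Prod.smul_snd, smul_eq_mul, mul_zero,
            Finset.sum_const_zero, zero_add, mul_one]
      conv_lhs => rw [hx]
      simp only [map_add, map_sum, map_smul, smul_eq_mul]
    let fA : Fin m → Fin m → (Subgroup.centralizer ({γ} : Set Γ) → K) :=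
      fun a c g => A (g : Γ) a c
    let fA' : Fin m → Fin m → (Subgroup.centralizer ({γ} : Set Γ) → K) :=
      fun a c g => A (g : Γ)⁻¹ a c
    let fc : K → (Subgroup.centralizer ({γ} : Set Γ) → K) := fun c _ => c
    have hA : ∀ a c, fA a c ∈ bdd R K (Subgroup.centralizer ({γ} : Set Γ)) := fun a c =>
      mem_bdd_of_int fun g => ⟨(ρ (g : Γ) : Matrix (Fin m) (Fin m) R) a c, rfl⟩
    have hA' : ∀ a c, fA' a c ∈ bdd R K (Subgroup.centralizer ({γ} : Set Γ)) := fun a c =>
      mem_bdd_of_int fun g => ⟨(ρ (g : Γ)⁻¹ : Matrix (Fin m) (Fin m) R) a c, rfl⟩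
    have hcst : ∀ c : K, fc c ∈ bdd R K (Subgroup.centralizer ({γ} : Set Γ)) := fun c =>
      (bdd R K _).algebraMap_mem c
    have h3 : (fun g => (P g : Matrix (Fin (Module.finrank K X))
        (Fin (Module.finrank K X)) K) i j) =
        ∑ a, ∑ c, (∑ e, (∑ f, fA a f * fc ((b j).1.1 f e)) * fA' e c) *
          fc (ℓ (Matrix.single a c 1, 0)) + fc (b j).1.2 * fc (ℓ (0, 1)) := by
      funext g
      rw [h1, h2]
      simp only [Finset.sum_apply, Pi.add_apply, Pi.mul_apply]
      rfl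
    rw [h3]
    refine Subalgebra.add_mem _ (Subalgebra.sum_mem _ fun a _ => Subalgebra.sum_mem _ fun c _ =>
      Subalgebra.mul_mem _ (Subalgebra.sum_mem _ fun e _ => Subalgebra.mul_mem _
        (Subalgebra.sum_mem _ fun f _ => Subalgebra.mul_mem _ (hA a f) (hcst _)) (hA' e c))
        (hcst _)) (Subalgebra.mul_mem _ (hcst _) (hcst _))
  obtain ⟨r, hr0, hr⟩ := bdd_common (R := R) (K := K)
    (fun (ij : Fin (Module.finrank K X) × Fin (Module.finrank K X))
      (g : Subgroup.centralizer ({γ} : Set Γ)) => (P g : Matrix (Fin (Module.finrank K X))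
      (Fin (Module.finrank K X)) K) ij.1 ij.2) (fun ij => hbd ij.1 ij.2)
  refine ⟨Module.finrank K X, P, fun i => b.repr τX i, fun j => lamX (b j), d, r, hr0, ?_, ?_,
    ?_, ?_, ?_, ?_, ?_, fun g i j => hr g (i, j)⟩
  · rw [hd]; exact one_div_ne_zero hMK
  · intro h
    have : b.repr τX = 0 := Finsupp.ext fun i => congrFun h i
    rw [LinearEquiv.map_eq_zero_iff] at this
    exact hk1 (congrArg (fun x : X => x.1.1) this)
  · intro h
    have h1 : lamX ⟨(φ1, 1), hφ1mem⟩ = 0 := by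
      rw [← hlamsum]
      exact Finset.sum_eq_zero fun i _ => by rw [congrFun h i, Pi.zero_apply, zero_mul]
    exact one_ne_zero h1
  · exact hlamsum τX
  · intro g
    rw [hP]
    have := LinearMap.toMatrix_mulVec_repr b b (act g) τX
    rw [hactτ] at this
    exact this
  · intro g
    rw [hP]
    funext j
    have := hlamsum (act g (b j))
    rw [hlam] at this
    rw [← this]
    simp only [Matrix.vecMul, dotProduct, LinearMap.toMatrix_apply]
  · rw [hP]
    ext i j
    rw [LinearMap.toMatrix_apply, hγact, map_add, Finsupp.add_apply, map_smul,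
      Finsupp.smul_apply, Module.Basis.repr_self, Matrix.add_apply, Matrix.smul_apply,
      Matrix.vecMulVec_apply, Matrix.one_apply, Finsupp.single_apply, smul_eq_mul, smul_eq_mul]
    congr 1
    · simp only [eq_comm]
    · ring

end Pool.Agent.Lib.MP_8f66f0_al_Uni
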