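import Mathlib

namespace Pool.Agent.Lib.MP_8f66f0_al_Dennis
end Pool.Agent.Lib.MP_8f66f0_al_Dennis

/-! Auxiliary rings. -/

set_option autoImplicit false
set_option linter.unusedSectionVars false

namespace Pool.Agent.Lib.MP_8f66f0_al_Uni

open Pool.Agent.Lib.MP_8f66f0_al_Dennis

lemma rings_map_injective {A B : Type*} [CommRing A] [CommRing B] (f : A →+* B)
    (hf : Function.Injective f) {m : ℕ} :
    Function.Injective (Matrix.GeneralLinearGroup.map (n := Fin m) f) := by
  intro g h hgh
  apply Units.ext
  ext i j
  apply hf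
  have h1 : (Matrix.GeneralLinearGroup.map (n := Fin m) f g) i j =
    (Matrix.GeneralLinearGroup.map (n := Fin m) f h) i j := by rw [hgh]
  rwa [Matrix.GeneralLinearGroup.map_apply, Matrix.GeneralLinearGroup.map_apply] at h1

/-- A finitely generated linear group over a domain of characteristic zero in which `p` is not a
unit is linear over a finitely generated such domain. -/
theorem exists_fg_domain {R : Type*} [CommRing R] [IsDomain R] [CharZero R] {p : ℕ}
    (hpR : ¬ IsUnit (p : R)) {Γ : Type*} [Group Γ] [Group.FG Γ] {m : ℕ}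
    (ρ : Γ →* Matrix.GeneralLinearGroup (Fin m) R) (hρ : Function.Injective ρ) :
    ∃ (R' : Subalgebra ℤ R) (ρ' : Γ →* Matrix.GeneralLinearGroup (Fin m) R'),
      Algebra.FiniteType ℤ R' ∧ Function.Injective ρ' ∧ ¬ IsUnit (p : R') := by
  classical
  obtain ⟨S, hS⟩ := (Group.fg_def (G := Γ)).mp inferInstance
  set T : Finset R := (S ×ˢ (Finset.univ : Finset (Fin m × Fin m))).image
      (fun x => ((ρ x.1 : Matrix (Fin m) (Fin m) R) x.2.1 x.2.2)) ∪
    (S ×ˢ (Finset.univ : Finset (Fin m × Fin m))).image
      (fun x => (((ρ x.1)⁻¹ : Matrix.GeneralLinearGroup (Fin m) R) :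
        Matrix (Fin m) (Fin m) R) x.2.1 x.2.2) with hT
  set R' : Subalgebra ℤ R := Algebra.adjoin ℤ (T : Set R) with hR'
  have hinj : Function.Injective (algebraMap R' R) := Subtype.val_injective
  set φ := Matrix.GeneralLinearGroup.map (n := Fin m) (algebraMap R' R) with hφ
  have hφinj : Function.Injective φ := rings_map_injective _ hinj
  have hm1 : ∀ s ∈ S, ∀ i j, ((ρ s : Matrix (Fin m) (Fin m) R) i j) ∈ R' := by
    intro s hs i j
    apply Algebra.subset_adjoin
    rw [Finset.mem_coe, hT, Finset.mem_union]
    left
    exact Finset.mem_image.mpr ⟨(s, (i, j)), by simp [hs], rfl⟩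
  have hm2 : ∀ s ∈ S, ∀ i j, ((((ρ s)⁻¹ : Matrix.GeneralLinearGroup (Fin m) R) :
        Matrix (Fin m) (Fin m) R) i j) ∈ R' := by
    intro s hs i j
    apply Algebra.subset_adjoin
    rw [Finset.mem_coe, hT, Finset.mem_union]
    right
    exact Finset.mem_image.mpr ⟨(s, (i, j)), by simp [hs], rfl⟩
  have hrange : ρ.range ≤ φ.range := by
    rw [MonoidHom.range_eq_map, ← hS, MonoidHom.map_closure, Subgroup.closure_le]
    rintro _ ⟨s, hs, rfl⟩
    have hs' : s ∈ S := hs
    set A : Matrix (Fin m) (Fin m) R' := fun i j => ⟨_, hm1 s hs' i j⟩ with hA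
    set B : Matrix (Fin m) (Fin m) R' := fun i j => ⟨_, hm2 s hs' i j⟩ with hB
    have hA' : A.map (algebraMap R' R) = (ρ s : Matrix (Fin m) (Fin m) R) := by
      ext i j; rfl
    have hB' : B.map (algebraMap R' R) =
        (((ρ s)⁻¹ : Matrix.GeneralLinearGroup (Fin m) R) : Matrix (Fin m) (Fin m) R) := by
      ext i j; rfl
    refine ⟨⟨A, B, ?_, ?_⟩, ?_⟩
    · apply Matrix.map_injective hinj
      simp only
      rw [Matrix.map_mul, hA', hB', ← Units.val_mul, mul_inv_cancel, Units.val_one,
        Matrix.map_one _ (map_zero _) (map_one _)]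
    · apply Matrix.map_injective hinj
      simp only
      rw [Matrix.map_mul, hA', hB', ← Units.val_mul, inv_mul_cancel, Units.val_one,
        Matrix.map_one _ (map_zero _) (map_one _)]
    · apply Units.ext
      ext i j
      rw [hφ, Matrix.GeneralLinearGroup.map_apply]
      rfl
  have hmem : ∀ g, ρ g ∈ φ.range := fun g => hrange ⟨g, rfl⟩
  refine ⟨R', (MonoidHom.ofInjective hφinj).symm.toMonoidHom.comp (ρ.codRestrict φ.range hmem),
    ?_, ?_, ?_⟩
  · exact (Subalgebra.fg_iff_finiteType _).mp (Subalgebra.fg_adjoin_finset T)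
  · intro g h hgh
    simp only [MonoidHom.comp_apply] at hgh
    have h2 := (MonoidHom.ofInjective hφinj).symm.injective hgh
    apply hρ
    exact congrArg Subtype.val h2
  · intro hu
    apply hpR
    have := hu.map (algebraMap R' R)
    rwa [map_natCast] at this

lemma rings_exists_embedding (O : Type*) [CommRing O] [IsDomain O] [CharZero O]
    [Module.Finite ℤ O] (Ω : Type*) [Field Ω] [IsAlgClosed Ω] [CharZero Ω] :
    ∃ i0 : O →+* Ω, Function.Injective i0 := by
  have halg : Algebra.IsAlgebraic ℤ O := inferInstance
  have halg2 : Algebra.IsAlgebraic ℤ (FractionRing O) :=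
    (IsFractionRing.isAlgebraic_iff' ℤ O (FractionRing O)).1 inferInstance
  have htf : Module.IsTorsionFree ℤ (FractionRing O) := inferInstance
  have htf2 : Module.IsTorsionFree ℤ Ω := inferInstance
  let f : FractionRing O →ₐ[ℤ] Ω := IsAlgClosed.lift
  exact ⟨(f : FractionRing O →+* Ω).comp (algebraMap O (FractionRing O)),
    (f : FractionRing O →+* Ω).injective.comp (IsFractionRing.injective O _)⟩

lemma rings_isIntegral (O : Type*) [CommRing O] [Module.Finite ℤ O] {Ω : Type*} [Field Ω]
    (i0 : O →+* Ω) (y : O) {R : Type*} [CommRing R] [Algebra R Ω] : IsIntegral R (i0 y) := by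
  have h1 : IsIntegral ℤ y := Algebra.IsIntegral.isIntegral y
  have h2 : IsIntegral ℤ (i0 y) := h1.map (i0.toIntAlgHom)
  exact h2.tower_top

/-- A common overring. Let `R` be a Noetherian domain of characteristic zero in which the prime `p`
is not a unit and `O` a domain which is finite over `ℤ`. Then both embed in a Noetherian domain in
which `p` is not a unit.

Proof: `O` embeds in an algebraic closure `Ω` of the field of fractions of `R` (it is algebraic over
`ℤ`); let `S` be the subring generated by `R` and `O`: it is a finite `R`-module (generated over `R`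
by finitely many integral elements), so Noetherian, and if `p` were a unit in `S` then `1/p` would be
integral over `R`, so `p` would be a unit in `R`. -/
theorem exists_common_ring {R : Type*} [CommRing R] [IsDomain R] [CharZero R]
    [IsNoetherianRing R] {p : ℕ} (hp : p.Prime) (hpR : ¬ IsUnit (p : R)) (O : Type*) [CommRing O]
    [IsDomain O] [CharZero O] [Module.Finite ℤ O] :
    ∃ (S : Subalgebra R (AlgebraicClosure (FractionRing R))) (i : O →+* S),
      IsNoetherianRing S ∧ Function.Injective i ∧ ¬ IsUnit (p : S) := by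
  classical
  set Ω := AlgebraicClosure (FractionRing R) with hΩ
  have hRΩ : Function.Injective (algebraMap R Ω) := by
    rw [IsScalarTower.algebraMap_eq R (FractionRing R) Ω]
    exact (algebraMap (FractionRing R) Ω).injective.comp (IsFractionRing.injective R _)
  have hcz : CharZero Ω := charZero_of_injective_algebraMap hRΩ
  obtain ⟨i0, hi0⟩ := rings_exists_embedding O Ω
  obtain ⟨G, hG⟩ := (Module.finite_def (R := ℤ) (M := O)).mp inferInstance
  set F : Finset Ω := G.image i0 with hF
  have hint : ∀ x ∈ (F : Set Ω), IsIntegral R x := by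
    intro x hx
    rw [Finset.mem_coe, hF, Finset.mem_image] at hx
    obtain ⟨y, -, rfl⟩ := hx
    exact rings_isIntegral O i0 y
  set S : Subalgebra R Ω := Algebra.adjoin R (F : Set Ω) with hS
  have hfg : (Subalgebra.toSubmodule S).FG := fg_adjoin_of_finite F.finite_toSet hint
  have hfin : Module.Finite R S := Module.Finite.iff_fg.mpr hfg
  have hnoeth : IsNoetherian R S := inferInstance
  have hmem : ∀ y : O, i0 y ∈ S := by
    intro y
    have hy : y ∈ Submodule.span ℤ (G : Set O) := by rw [hG]; trivial
    induction hy using Submodule.span_induction with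
    | mem x hx =>
      apply Algebra.subset_adjoin
      rw [Finset.mem_coe, hF]
      exact Finset.mem_image_of_mem _ hx
    | zero => rw [map_zero]; exact S.zero_mem
    | add a b _ _ ha hb => rw [map_add]; exact S.add_mem ha hb
    | smul n a _ ha =>
      rw [map_zsmul]
      exact S.zsmul_mem ha n
  refine ⟨S, i0.codRestrict S hmem, isNoetherian_of_tower R hnoeth, ?_, ?_⟩
  · intro a b hab
    exact hi0 (congrArg Subtype.val hab)
  · intro hu
    apply hpR
    have hinjS : Function.Injective (algebraMap R S) := by
      intro a b hab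
      apply hRΩ
      exact congrArg Subtype.val hab
    have : FaithfulSMul R S := (faithfulSMul_iff_algebraMap_injective R S).mpr hinjS
    have : Algebra.IsIntegral R S := inferInstance
    have hloc : IsLocalHom (algebraMap R S) := inferInstance
    apply hloc.map_nonunit
    rwa [map_natCast]

end Pool.Agent.Lib.MP_8f66f0_al_Uni
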