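import Mathlib
import Pool.Agent.Lib.MP_8f66f0_al_Dennis.Separated
import Pool.Agent.Lib.MP_8f66f0_al_Uni.PDef

/-! Groups which are virtually residually finite-`q` for almost all `q`, without assumptions on
torsion. -/

set_option autoImplicit false
set_option linter.unusedSectionVars false

namespace Pool.Agent.Lib.MP_8f66f0_al_Uni

open Pool.Agent.Lib.MP_8f66f0_al_Dennis

variable {G : Type*} [Group G]

/-- In a virtually residually finite-`q` group, for `u` of infinite order, `u ^ q` is not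
conjugate to `u ^ m` for `m` prime to `q`. -/
lemma not_conj_of_infinite {q : ℕ} [hq : Fact q.Prime]
    (h : VirtuallyResiduallyFiniteQ q G) {u : G} (hu : ∀ n : ℕ, 0 < n → u ^ n ≠ 1) {m : ℕ}
    (hm : q.Coprime m) : ¬ IsConj (u ^ q) (u ^ m) := by
  obtain ⟨H, hHn, hHf, hr⟩ := h.normal
  have he : 0 < H.index := Nat.pos_of_ne_zero hHf.index_ne_zero
  intro hconj
  obtain ⟨g, hg⟩ := isConj_iff.mp hconj
  set v := u ^ H.index with hv
  have hvH : v ∈ H := H.pow_index_mem u
  have hv1 : v ≠ 1 := hu _ he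
  have hgv : g * v ^ q * g⁻¹ = v ^ m := by
    rw [hv, ← pow_mul, mul_comm, pow_mul, ← conj_pow, hg, ← pow_mul, ← pow_mul, mul_comm]
  have hiter := conj_iter hgv
  obtain ⟨N, hN, ⟨k, hk⟩, hgN⟩ := hr ⟨v, hvH⟩ (by
    intro h1
    exact hv1 (congrArg Subtype.val h1))
  apply hgN
  have : N.FiniteIndex := ⟨by rw [hk]; exact pow_ne_zero _ hq.out.ne_zero⟩
  set w : H := ⟨v, hvH⟩ with hw
  set w' : H := ⟨g ^ k * v * (g ^ k)⁻¹, hHn.conj_mem v hvH _⟩ with hw'
  have h1 : w ^ (q ^ k) ∈ N := by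
    have := N.pow_index_mem w
    rwa [hk] at this
  have h2 : w ^ (m ^ k) ∈ N := by
    have h3 : w ^ (m ^ k) = w' ^ (q ^ k) := by
      apply Subtype.ext
      rw [hw, hw']
      push_cast
      rw [conj_pow, hiter]
    have := N.pow_index_mem w'
    rw [hk] at this
    rwa [h3]
  have hcop : Nat.Coprime (q ^ k) (m ^ k) := hm.pow k k
  have hb : (1 : ℤ) = (q ^ k : ℕ) * Nat.gcdA (q ^ k) (m ^ k) + (m ^ k : ℕ) * Nat.gcdB (q ^ k) (m ^ k) := by
    have := Nat.gcd_eq_gcd_ab (q ^ k) (m ^ k)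
    rw [hcop.gcd_eq_one] at this
    exact_mod_cast this
  have key : w = (w ^ (q ^ k)) ^ (Nat.gcdA (q ^ k) (m ^ k)) *
      (w ^ (m ^ k)) ^ (Nat.gcdB (q ^ k) (m ^ k)) := by
    conv_lhs => rw [← zpow_one w, hb, zpow_add, zpow_mul, zpow_mul, zpow_natCast, zpow_natCast]
  rw [key]
  exact N.mul_mem (N.zpow_mem h1 _) (N.zpow_mem h2 _)


theorem PowerSep.of_virtuallyResiduallyFinite
    (hres : {q : ℕ | q.Prime ∧ ¬ VirtuallyResiduallyFiniteQ q G}.Finite) : PowerSep G := by
  have hinf : {q : ℕ | q.Prime ∧ VirtuallyResiduallyFiniteQ q G}.Infinite := by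
    intro hfin
    apply Nat.infinite_setOfPred_prime
    refine (hres.union hfin).subset fun q hq => ?_
    by_cases h : VirtuallyResiduallyFiniteQ q G
    · exact Or.inr ⟨hq, h⟩
    · exact Or.inl ⟨hq, h⟩
  obtain ⟨q0, hq0, hq0r⟩ := hinf.nonempty
  have : Fact q0.Prime := ⟨hq0⟩
  refine ⟨hq0r.roots, fun u v hv => ?_⟩
  have hbad : {p : ℕ | p.Prime ∧ VirtuallyResiduallyFiniteQ p G ∧ IsConj u (v ^ p)}.Subsingleton := by
    rintro p ⟨hp, hpG, hconj⟩ p' ⟨hp', _, hconj'⟩
    by_contra hne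
    have : Fact p.Prime := ⟨hp⟩
    have hcop : p.Coprime p' := (Nat.coprime_primes hp hp').mpr hne
    exact not_conj_of_infinite hpG hv hcop (hconj.symm.trans hconj')
  refine (hres.union hbad.finite).subset ?_
  rintro p ⟨hp, hconj⟩
  by_cases h : VirtuallyResiduallyFiniteQ p G
  · exact Or.inr ⟨hp, h, hconj⟩
  · exact Or.inl ⟨hp, h⟩

/-- Virtually residually finite-`q` passes to overgroups of finite index. -/
lemma virtuallyResiduallyFiniteQ_of_finiteIndex {q : ℕ} (H : Subgroup G) [hH : H.FiniteIndex]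
    (h : VirtuallyResiduallyFiniteQ q H) : VirtuallyResiduallyFiniteQ q G := by
  obtain ⟨K, hK, hr⟩ := h
  have hind : (K.map H.subtype).index ≠ 0 := by
    have h1 := Subgroup.relIndex_mul_index (Subgroup.map_subtype_le K)
    rw [← h1]
    refine mul_ne_zero ?_ hH.index_ne_zero
    have h2 : (K.map H.subtype).subgroupOf H = K := Subgroup.comap_map_eq_self_of_injective
      (Subgroup.subtype_injective H) K
    rw [Subgroup.relIndex, h2]
    exact hK.index_ne_zero
  refine ⟨K.map H.subtype, ⟨hind⟩, ?_⟩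
  -- transport along the isomorphism
  set e : K ≃* K.map H.subtype := K.equivMapOfInjective H.subtype (Subgroup.subtype_injective H)
    with he
  intro g hg
  obtain ⟨N, hN, ⟨k, hk⟩, hgN⟩ := hr (e.symm g) (by
    intro h1
    apply hg
    have h2 := congrArg e h1
    rwa [MulEquiv.apply_symm_apply, map_one] at h2)
  refine ⟨N.comap e.symm.toMonoidHom, hN.comap _, ⟨k, ?_⟩, fun h => hgN h⟩
  rw [Subgroup.index_comap_of_surjective _ e.symm.surjective, hk]

/-- Finite products of residually finite-`q` groups. -/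
lemma residuallyFiniteQ_pi {q : ℕ} {ι : Type*} {Γ : ι → Type*} [∀ i, Group (Γ i)]
    (h : ∀ i, ResiduallyFiniteQ q (Γ i)) : ResiduallyFiniteQ q (∀ i, Γ i) := by
  intro g hg
  obtain ⟨i, hi⟩ := Function.ne_iff.mp hg
  obtain ⟨N, hN, ⟨k, hk⟩, hgN⟩ := h i (g i) hi
  refine ⟨N.comap (Pi.evalMonoidHom Γ i), hN.comap _, ⟨k, ?_⟩, fun h => hgN h⟩
  rw [Subgroup.index_comap_of_surjective _ (Function.surjective_eval i), hk]

/-- A finitely generated linear group over a field of characteristic zero is virtually residually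
finite-`q` for all large primes `q` (torsion is allowed). -/
theorem virtuallyResiduallyFinite_of_linear [Group.FG G] {F : Type*} [Field F] [CharZero F]
    {m : ℕ} (ρ : G →* Matrix.GeneralLinearGroup (Fin m) F) (hρ : Function.Injective ρ) :
    {q : ℕ | q.Prime ∧ ¬ VirtuallyResiduallyFiniteQ q G}.Finite := by
  obtain ⟨T, ρ', hρ'inj⟩ := exists_fg_ring' ρ hρ
  have hft : Algebra.FiniteType ℤ (Algebra.adjoin ℤ (T : Set F)) :=
    (Subalgebra.fg_iff_finiteType _).mp (Subalgebra.fg_adjoin_finset T)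
  have hnoeth : IsNoetherianRing (Algebra.adjoin ℤ (T : Set F)) :=
    Algebra.FiniteType.isNoetherianRing ℤ _
  obtain ⟨N, hN⟩ := residue_chars_cofinite T
  refine (Set.finite_Iic N).subset ?_
  rintro q ⟨hq, hqn⟩
  by_contra hlt
  obtain ⟨J, hJ, hqJ, hfin⟩ := hN q hq (not_le.mp hlt)
  exact hqn (virtuallyResiduallyFiniteQ_of_linear ρ' hρ'inj hq J hJ.ne_top hqJ)

end Pool.Agent.Lib.MP_8f66f0_al_Uni
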