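import Mathlib

/-! Divisibility in the ring of integers of a Galois number field from divisibility of all
conjugates in an overring. -/

set_option autoImplicit false
set_option linter.unusedSectionVars false
set_option maxSynthPendingDepth 3

namespace Pool.Agent.Lib.MP_8f66f0_al_Uni

open NumberField

open Polynomial in
/-- a product of linear factors whose roots are divisible by `c` -/
theorem ConjDvd.prod_scaleRoots {S : Type*} [CommRing S] [IsDomain S] {ι : Type*} [DecidableEq ι]
    (T : Finset ι) (c : S) (s : ι → S) :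
    ∏ a ∈ T, (X - C (s a * c)) = (∏ a ∈ T, (X - C (s a))).scaleRoots c := by
  induction T using Finset.induction_on with
  | empty => simp
  | insert a T ha ih =>
    rw [Finset.prod_insert ha, Finset.prod_insert ha, ih, mul_scaleRoots_of_noZeroDivisors,
      X_sub_C_scaleRoots]

/-- divisibility of integers by `p ^ m` in a domain in which `p` is not a unit -/
theorem ConjDvd.int_dvd {S : Type*} [CommRing S] [IsDomain S] [CharZero S] {p : ℕ} (hp : p.Prime)
    (hpS : ¬ IsUnit (p : S)) (m : ℕ) (N : ℤ) (h : (p : S) ^ m ∣ (N : S)) : (p : ℤ) ^ m ∣ N := by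
  induction m generalizing N with
  | zero => simp
  | succ m ih =>
    -- `p ∣ N` in `S` implies `p ∣ N` in `ℤ`
    have h1 : (p : ℤ) ∣ N := by
      by_contra hn
      have hcop : IsCoprime (p : ℤ) N :=
        (Nat.prime_iff_prime_int.mp hp).coprime_iff_not_dvd.mpr hn
      obtain ⟨a, b, hab⟩ := hcop
      apply hpS
      obtain ⟨s, hs⟩ := h
      have h2 : (a : S) * p + b * N = 1 := by exact_mod_cast congrArg (Int.cast (R := S)) hab
      rw [hs] at h2
      refine IsUnit.of_mul_eq_one (a + b * (p ^ m * s)) ?_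
      linear_combination h2
    obtain ⟨N', rfl⟩ := h1
    have hp0 : (p : S) ≠ 0 := by exact_mod_cast hp.ne_zero
    have h3 : (p : S) ^ m ∣ (N' : S) := by
      obtain ⟨s, hs⟩ := h
      refine ⟨s, ?_⟩
      apply mul_left_cancel₀ hp0
      have : ((p * N' : ℤ) : S) = (p : S) * N' := by push_cast; ring
      rw [← this, hs]
      ring
    obtain ⟨k, hk⟩ := ih N' h3
    exact ⟨k, by rw [hk]; ring⟩

open Polynomial in
/-- Let `i` be an embedding of the ring of integers of a Galois number field in a domain `S` in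
which `p` is not a unit. If `p^r` divides all conjugates of `x` in `S` then `p^r` divides `x`.

Proof: the characteristic polynomial `Q = ∏ (X - σ x)` has integral coefficients, and over `S` it is
`R(X / p^r) p^{rn}`; so the coefficient of `X^k` is divisible by `p^{r(n-k)}` in `S`, and hence in `ℤ`
as `p` is not a unit in `S`. So `x / p^r` is integral. -/
theorem dvd_of_forall_conj {F : Type*} [Field F] [NumberField F] [IsGalois ℚ F] {S : Type*}
    [CommRing S] [IsDomain S] {p : ℕ} (hp : p.Prime) (hpS : ¬ IsUnit (p : S)) (i : 𝓞 F →+* S)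
    (hi : Function.Injective i) (x : 𝓞 F) (r : ℕ)
    (h : ∀ j : 𝓞 F →+* 𝓞 F, (p : S) ^ r ∣ i (j x)) : (p : 𝓞 F) ^ r ∣ x := by
  classical
  have : CharZero S := charZero_of_injective_ringHom hi
  let G := Gal(F/ℚ)
  have : Fintype G := Fintype.ofFinite G
  -- the characteristic polynomial
  obtain ⟨Q, hQ, hdeg, hmon⟩ := Polynomial.lifts_and_natDegree_eq_and_monic
    (Algebra.IsInvariant.charpoly_mem_lifts ℤ (𝓞 F) G x) (MulSemiringAction.monic_charpoly G x)
  have hS : ∀ σ : G, ∃ s : S, i (σ • x) = s * (p : S) ^ r := by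
    intro σ
    obtain ⟨s, hs⟩ := h (MulSemiringAction.toRingHom G (𝓞 F) σ)
    exact ⟨s, by rw [mul_comm]; exact hs⟩
  choose s hs using hS
  have h1 : (Q.map (algebraMap ℤ (𝓞 F))).map i =
      (∏ σ : G, (X - C (s σ))).scaleRoots ((p : S) ^ r) := by
    rw [hQ, MulSemiringAction.charpoly_eq, Polynomial.map_prod, ← ConjDvd.prod_scaleRoots]
    apply Finset.prod_congr rfl
    intro σ _
    rw [Polynomial.map_sub, Polynomial.map_X, Polynomial.map_C, hs]
  have hd : (∏ σ : G, (X - C (s σ))).natDegree = Q.natDegree := by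
    have h2 := congrArg Polynomial.natDegree h1
    rw [natDegree_scaleRoots, (hmon.map _).natDegree_map, hmon.natDegree_map] at h2
    exact h2.symm
  have h3 : ∀ k, ((p : ℤ) ^ r) ^ (Q.natDegree - k) ∣ Q.coeff k := by
    intro k
    rw [← pow_mul]
    apply ConjDvd.int_dvd (S := S) hp hpS
    have h4 := congrArg (fun P => Polynomial.coeff P k) h1
    simp only [Polynomial.coeff_map, coeff_scaleRoots, hd] at h4
    refine ⟨(∏ σ : G, (X - C (s σ))).coeff k, ?_⟩
    have h5 : i (algebraMap ℤ (𝓞 F) (Q.coeff k)) = (Q.coeff k : S) := by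
      rw [← RingHom.comp_apply]
      exact eq_intCast _ _
    rw [← h5, h4, pow_mul, mul_comm]
  choose c hc using h3
  -- the polynomial with the roots divided by `p ^ r`
  set P : ℤ[X] := ∑ k ∈ Finset.range (Q.natDegree + 1), C (c k) * X ^ k with hP
  have hPc : ∀ k, k ≤ Q.natDegree → P.coeff k = c k := by
    intro k hk
    rw [hP, finsetSum_coeff]
    simp only [coeff_C_mul, coeff_X_pow]
    rw [Finset.sum_eq_single k]
    · simp
    · intro b _ hb
      rw [if_neg (Ne.symm hb), mul_zero]
    · intro hk'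
      exact absurd (Finset.mem_range.mpr (by omega)) hk'
  have hPle : P.natDegree ≤ Q.natDegree := by
    apply natDegree_sum_le_of_forall_le
    intro k hk
    refine (natDegree_C_mul_X_pow_le _ _).trans ?_
    have := Finset.mem_range.mp hk
    omega
  have hc1 : c Q.natDegree = 1 := by
    have := hc Q.natDegree
    rw [Nat.sub_self, pow_zero, one_mul] at this
    rw [← this]
    exact hmon
  have hPd : P.natDegree = Q.natDegree := by
    apply le_antisymm hPle
    apply le_natDegree_of_ne_zero
    rw [hPc _ le_rfl, hc1]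
    exact one_ne_zero
  have hPmon : P.Monic := by
    unfold Monic leadingCoeff
    rw [hPd, hPc _ le_rfl, hc1]
  have hPQ : P.scaleRoots ((p : ℤ) ^ r) = Q := by
    ext k
    rw [coeff_scaleRoots, hPd]
    by_cases hk : k ≤ Q.natDegree
    · rw [hPc k hk, mul_comm]
      exact (hc k).symm
    · rw [coeff_eq_zero_of_natDegree_lt (by omega), coeff_eq_zero_of_natDegree_lt (by omega),
        zero_mul]
  -- `x / p ^ r` is integral
  have hpF : ((p : F) ^ r) ≠ 0 := pow_ne_zero _ (by exact_mod_cast hp.ne_zero)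
  have hroot : eval₂ (algebraMap ℤ F) ((x : F) / (p : F) ^ r) P = 0 := by
    have e1 := scaleRoots_eval₂_mul (p := P) (algebraMap ℤ F) ((x : F) / (p : F) ^ r) ((p : ℤ) ^ r)
    have e2 : (algebraMap ℤ F) ((p : ℤ) ^ r) = (p : F) ^ r := by simp
    rw [e2, mul_div_cancel₀ _ hpF, hPQ] at e1
    have e3 : eval₂ (algebraMap ℤ F) (x : F) Q = 0 := by
      have e4 : (algebraMap ℤ F) = (algebraMap (𝓞 F) F).comp (algebraMap ℤ (𝓞 F)) :=
        RingHom.ext_int _ _
      have e5 : eval₂ (algebraMap ℤ F) (x : F) Q =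
          algebraMap (𝓞 F) F (eval₂ (algebraMap ℤ (𝓞 F)) x Q) := by
        rw [e4, hom_eval₂]
      rw [e5, ← eval_map, hQ, MulSemiringAction.eval_charpoly, map_zero]
    rw [e3] at e1
    rcases mul_eq_zero.mp e1.symm with h5 | h5
    · exact absurd h5 (pow_ne_zero _ hpF)
    · exact h5
  have hint : IsIntegral ℤ ((x : F) / (p : F) ^ r) := ⟨P, hPmon, hroot⟩
  refine ⟨⟨(x : F) / (p : F) ^ r, hint⟩, ?_⟩
  apply RingOfIntegers.ext
  change (x : F) = (p : F) ^ r * ((x : F) / (p : F) ^ r)
  rw [mul_div_cancel₀ _ hpF]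

end Pool.Agent.Lib.MP_8f66f0_al_Uni
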