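import Mathlib

/-! Domains which are finite over the integers embed in rings of integers of Galois number
fields. -/

set_option autoImplicit false
set_option linter.unusedSectionVars false
set_option maxSynthPendingDepth 3

namespace Pool.Agent.Lib.MP_8f66f0_al_Uni

open NumberField

/-- Proof: the field of fractions `K` of `O` is a number field; let `F` be a normal closure of it
(a finite Galois extension of `ℚ`); elements of `O` are integral over `ℤ`. -/
theorem exists_galois_embedding (O : Type) [CommRing O] [IsDomain O] [CharZero O]
    [Module.Finite ℤ O] :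
    ∃ (F : Type) (_ : Field F) (_ : NumberField F) (_ : IsGalois ℚ F) (j : O →+* 𝓞 F),
      Function.Injective j := by
  let K := FractionRing O
  let : Algebra ℤ K := Ring.toIntAlgebra K
  have : Algebra.IsIntegral ℤ O := Algebra.IsIntegral.of_finite ℤ O
  have : FaithfulSMul ℤ O := (faithfulSMul_iff_algebraMap_injective ℤ O).mpr
    (RingHom.injective_int (algebraMap ℤ O))
  have : NumberField K :=
    { to_finiteDimensional := Module.Finite.of_isLocalization ℤ O (nonZeroDivisors ℤ) }
  let L := AlgebraicClosure K
  let F := IntermediateField.normalClosure ℚ K L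
  have : FiniteDimensional ℚ F := inferInstance
  have : CharZero F := inferInstance
  have : NumberField F := ⟨⟩
  have : Algebra.IsAlgebraic ℚ L := Algebra.IsAlgebraic.trans ℚ K L
  have : IsAlgClosure ℚ L := ⟨inferInstance, inferInstance⟩
  have : Normal ℚ L := IsAlgClosure.normal ℚ L
  have : Normal ℚ F := normalClosure.normal ℚ K L
  have : IsGalois ℚ F := ⟨⟩
  let g : O →+* F := (algebraMap K F).comp (algebraMap O K)
  have hg : Function.Injective g :=
    (algebraMap K F).injective.comp (IsFractionRing.injective O K)
  have hint : ∀ a : O, IsIntegral ℤ (g a) := fun a =>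
    map_isIntegral_int g (Algebra.IsIntegral.isIntegral (R := ℤ) a)
  refine ⟨F, inferInstance, inferInstance, inferInstance,
    { toFun := fun a => ⟨g a, hint a⟩
      map_zero' := RingOfIntegers.ext (map_zero g)
      map_one' := RingOfIntegers.ext (map_one g)
      map_add' := fun a b => RingOfIntegers.ext (map_add g a b)
      map_mul' := fun a b => RingOfIntegers.ext (map_mul g a b) }, ?_⟩
  intro a b hab
  apply hg
  have := congrArg (fun z : 𝓞 F => (z : F)) hab
  exact this

end Pool.Agent.Lib.MP_8f66f0_al_Uni
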