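import Mathlib
import Pool.Agent.Lib.MP_8f66f0_al_FinQ.LemmaP
import Pool.Agent.Lib.MP_8f66f0_al_Uni.Defs

/-! Multiplicativity of determinants. -/

set_option autoImplicit false
set_option linter.unusedSectionVars false

namespace Pool.Agent.Lib.MP_8f66f0_al_Uni

open Pool.Agent.Lib.MP_8f66f0_al_Dennis Pool.Agent.Lib.MP_8f66f0_al_FinQ
  Pool.Agent.Lib.MP_8f66f0_al_Plus

section aux

variable {Γ : Type*} [Group Γ] {O : Type*} [CommRing O] [IsDomain O] [CharZero O]
  {ι : Type*} [Fintype ι] [DecidableEq ι]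

open Classical in
lemma dvd_lin_of_class {P : Γ → Prop} (hP : ∀ g h : Γ, IsConj g h → P g → P h) {q : O}
    {x : MonoidAlgebra O Γ} (hx : ∀ c : Γ, P c → q ∣ lin (ind O c) x) {f : Γ → O}
    (hf : ∀ g h : Γ, IsConj g h → f g = f h) (hf0 : ∀ g, ¬ P g → f g = 0) :
    q ∣ lin f x := by
  set S := x.coeff.support with hS
  have h1 : lin f x = ∑ C ∈ S.image ConjClasses.mk,
      ∑ g ∈ S with ConjClasses.mk g = C, x.coeff g * f g := by
    rw [lin_apply, Finsupp.sum]
    exact (Finset.sum_fiberwise_of_maps_to (fun g hg => Finset.mem_image_of_mem _ hg) _).symm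
  rw [h1]
  refine Finset.dvd_sum fun C hC => ?_
  obtain ⟨c, hc, rfl⟩ := Finset.mem_image.mp hC
  have h2 : ∀ g ∈ S.filter (fun g => ConjClasses.mk g = ConjClasses.mk c),
      x.coeff g * f g = x.coeff g * f c := by
    intro g hg
    rw [hf g c (ConjClasses.mk_eq_mk_iff_isConj.mp (Finset.mem_filter.mp hg).2)]
  rw [Finset.sum_congr rfl h2, ← Finset.sum_mul]
  by_cases hd : P c
  · have h3 : ∑ g ∈ S with ConjClasses.mk g = ConjClasses.mk c, x.coeff g =
        lin (ind O c) x := by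
      rw [lin_apply, Finsupp.sum, Finset.sum_filter]
      refine Finset.sum_congr rfl fun g _ => ?_
      unfold ind
      by_cases hg : IsConj c g
      · rw [if_pos hg, if_pos (ConjClasses.mk_eq_mk_iff_isConj.mpr hg.symm), mul_one]
      · rw [if_neg hg, if_neg (fun h => hg (ConjClasses.mk_eq_mk_iff_isConj.mp h).symm),
          mul_zero]
    rw [h3]
    exact Dvd.dvd.mul_right (hx c hd) _
  · rw [hf0 c hd, mul_zero]
    exact dvd_zero _

open Classical in
/-- The trace of a representation is, up to something divisible by `q`, the dimension times the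
coefficient sum over the classes outside `P`. -/
lemma dvd_trace_sub_one {P : Γ → Prop} (hP : ∀ g h : Γ, IsConj g h → P g → P h)
    {κ : Type*} [Fintype κ] [DecidableEq κ] {q : O}
    {X : Matrix ι ι (MonoidAlgebra O Γ)}
    (hX : ∀ c : Γ, P c → q ∣ mtr (lin (ind O c)) X)
    (σ : Γ →* Matrix κ κ O) (hσ : ∀ g, ¬ P g → σ g = 1) :
    q ∣ Matrix.trace (evalMat O σ X) -
      (Fintype.card κ : O) * lin (fun g => if P g then 0 else 1) (Matrix.trace X) := by
  have h1 : Matrix.trace (evalMat O σ X) -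
      (Fintype.card κ : O) * lin (fun g => if P g then 0 else 1) (Matrix.trace X) =
      lin (fun g => if P g then Matrix.trace (σ g) else 0) (Matrix.trace X) := by
    rw [trace_evalMat, lin_apply, lin_apply, lin_apply, Finsupp.sum, Finsupp.sum, Finsupp.sum,
      Finset.mul_sum, ← Finset.sum_sub_distrib]
    refine Finset.sum_congr rfl fun g _ => ?_
    by_cases hg : P g
    · rw [if_pos hg, if_pos hg]; ring
    · rw [if_neg hg, if_neg hg, hσ g hg, Matrix.trace_one]; ring
  rw [h1]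
  refine dvd_lin_of_class hP (fun c hc => hX c hc) ?_ ?_
  · intro g h hgh
    by_cases hg : P g
    · rw [if_pos hg, if_pos (hP g h hgh hg), trace_isConj σ hgh]
    · rw [if_neg hg, if_neg (fun h' => hg (hP h g hgh.symm h'))]
  · intro g hg
    rw [if_neg hg]

open Classical in
/-- The main estimate. -/
lemma det_pow_estimate_of_good {P : Γ → Prop} (hP : ∀ g h : Γ, IsConj g h → P g → P h) {p : ℕ}
    {X : Matrix ι ι (MonoidAlgebra O Γ)}
    {Z : ℕ → Matrix ι ι (MonoidAlgebra O Γ)}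
    (hZ1 : ∀ r, X ^ (p ^ r) = 1 + (p ^ (r + 2)) • Z r)
    (hτ : ∀ (c : Γ), P c → ∀ r, (p : O) ^ (r + 1) ∣ mtr (lin (ind O c)) (Z r))
    {κ : Type*} [Fintype κ] [DecidableEq κ]
    (σ : Γ →* Matrix κ κ O) (hσ : ∀ g, ¬ P g → σ g = 1) (r : ℕ) :
    ∃ c : O, (evalMat O σ X).det ^ (p ^ r) =
      1 + (p : O) ^ (r + 2) * ((Fintype.card κ : O) *
        lin (fun g => if P g then 0 else 1) (Matrix.trace (Z r))) +
        (p : O) ^ (2 * r + 3) * c := by
  have h1 : (evalMat O σ X).det ^ (p ^ r) =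
      (1 + (p ^ (r + 2)) • evalMat O σ (Z r)).det := by
    rw [← Matrix.det_pow, ← map_pow, hZ1, map_add, map_one, map_nsmul]
  obtain ⟨c1, hc1⟩ := det_one_add_nsmul (p ^ (r + 2)) (evalMat O σ (Z r))
  obtain ⟨c2, hc2⟩ := dvd_trace_sub_one hP (fun c hc => hτ c hc r) σ hσ
  refine ⟨c2 + (p : O) * c1, ?_⟩
  rw [h1, hc1]
  have h2 : Matrix.trace (evalMat O σ (Z r)) =
      (Fintype.card κ : O) *
        lin (fun g => if P g then 0 else 1) (Matrix.trace (Z r)) +
      (p : O) ^ (r + 1) * c2 := by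
    rw [← hc2]; ring
  rw [h2]
  push_cast
  ring

/-- Let `X` be congruent to one modulo `p ^ 2` and such that the class sums of the matrices `Z r`
are divisible for the classes in `P`. Then the determinants of the images of `X` under any two
representations which are trivial outside `P` agree up to the dimensions. -/
theorem det_eq_of_good {P : Γ → Prop} (hP : ∀ g h : Γ, IsConj g h → P g → P h) {p : ℕ}
    (hp : p.Prime) (hO : PSep O p) {X : Matrix ι ι (MonoidAlgebra O Γ)}
    {Z : ℕ → Matrix ι ι (MonoidAlgebra O Γ)}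
    (hZ1 : ∀ r, X ^ (p ^ r) = 1 + (p ^ (r + 2)) • Z r)
    (hτ : ∀ (c : Γ), P c → ∀ r, (p : O) ^ (r + 1) ∣ mtr (lin (ind O c)) (Z r))
    {κ κ' : Type*} [Fintype κ] [DecidableEq κ] [Fintype κ'] [DecidableEq κ']
    (σ : Γ →* Matrix κ κ O) (hσ : ∀ g, ¬ P g → σ g = 1)
    (σ' : Γ →* Matrix κ' κ' O) (hσ' : ∀ g, ¬ P g → σ' g = 1) :
    (evalMat O σ X).det ^ (Fintype.card κ') = (evalMat O σ' X).det ^ (Fintype.card κ) := by
  classical
  set w : ℕ → O := fun r =>
    lin (fun g => if P g then 0 else 1) (Matrix.trace (Z r)) with hw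
  have est := det_pow_estimate_of_good hP hZ1 hτ σ hσ
  have est' := det_pow_estimate_of_good hP hZ1 hτ σ' hσ'
  set a := (evalMat O σ X).det with ha
  set b := (evalMat O σ' X).det with hb
  have hone : ∀ (u : O) (k : ℕ), (∃ c : O, u ^ (p ^ 0) =
      1 + (p : O) ^ (0 + 2) * ((k : O) * w 0) + (p : O) ^ (2 * 0 + 3) * c) →
      ∀ m : ℕ, (p : O) ^ 2 ∣ u ^ m - 1 := by
    intro u k hu m
    have h1 : (p : O) ^ 2 ∣ u - 1 := by
      obtain ⟨c, hc⟩ := hu
      rw [pow_zero, pow_one] at hc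
      refine ⟨(k : O) * w 0 + (p : O) * c, ?_⟩
      rw [hc]; ring
    exact h1.trans (by simpa using sub_dvd_pow_sub_pow u 1 m)
  refine eq_of_close hp hO (hone a _ (est 0) _) (hone b _ (est' 0) _) fun r => ?_
  have hq : (p : O) ^ (2 * r + 3) ∣ ((p : O) ^ (r + 2)) ^ 2 := by
    rw [← pow_mul]; exact pow_dvd_pow _ (by omega)
  obtain ⟨c, hc⟩ := est r
  obtain ⟨c', hc'⟩ := est' r
  obtain ⟨d, hd⟩ := pow_one_add_mod ((Fintype.card κ : O) * w r) c hq (Fintype.card κ')
  obtain ⟨d', hd'⟩ := pow_one_add_mod ((Fintype.card κ' : O) * w r) c' hq (Fintype.card κ)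
  refine ⟨d - d', ?_⟩
  have e1 : (a ^ Fintype.card κ') ^ p ^ r = (a ^ p ^ r) ^ Fintype.card κ' := by
    rw [← pow_mul, ← pow_mul, mul_comm]
  have e2 : (b ^ Fintype.card κ) ^ p ^ r = (b ^ p ^ r) ^ Fintype.card κ := by
    rw [← pow_mul, ← pow_mul, mul_comm]
  rw [e1, e2, hc, hc', hd, hd']
  ring

end aux

variable {Γ : Type*} [Group Γ] {n : ℕ} {A B : Matrix (Fin n) (Fin n) (MonoidAlgebra ℤ Γ)}
  {S : Type*} [CommRing S] [IsDomain S] [CharZero S] {p : ℕ} {c : Γ}

lemma ind_congr {g h : Γ} (hgh : IsConj g h) : ind S g = ind S h := by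
  funext x
  unfold ind
  by_cases hx : IsConj g x
  · rw [if_pos hx, if_pos (hgh.symm.trans hx)]
  · rw [if_neg hx, if_neg (fun h' => hx (hgh.trans h'))]

lemma TauGood.of_isConj {g h : Γ} (hgh : IsConj g h) (hg : TauGood S p A B g) :
    TauGood S p A B h := by
  intro k β β' M Z hM hnil hZ r
  rw [← ind_congr hgh]
  exact hg k β β' M Z hM hnil hZ r

/-- If all classes on which `σ` is not trivial are good then determinants are multiplicative
(compare `FinQ.det_pow_estimate`, `FinQ.det_eq_of_pairings`, `Plus.mult_of_detected`). -/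
theorem mult_of_tauGood (hAB : A * B = 1) (hBA : B * A = 1) (hp : p.Prime) (hS : PSep S p)
    (k l : ℕ) (β β' : Γ →* Matrix (Fin k) (Fin k) S) (σ : Γ →* Matrix (Fin l) (Fin l) S)
    (hgood : ∀ c : Γ, ¬ TauGood S p A B c → σ c = 1)
    (hnil : NilMod p (twist β' B * twist β A - 1)) :
    ∃ N : ℕ, 0 < N ∧ ((mapRep (tens β σ) A).det * (mapRep β' A).det ^ l) ^ N =
      ((mapRep (tens β' σ) A).det * (mapRep β A).det ^ l) ^ N := by
  have hnil' := hnil
  obtain ⟨m, W0, hW0⟩ := hnil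
  set X := twist β' B * twist β A with hX
  have hinv : ∀ {κ'' : Type _} [Fintype κ''] [DecidableEq κ''] (τ : Γ →* Matrix κ'' κ'' S),
      (mapRep τ A).det * (mapRep τ B).det = 1 := by
    intro κ'' _ _ τ
    rw [← Matrix.det_mul, ← mapRep_mul, hAB, mapRep_one, Matrix.det_one]
  obtain ⟨M, hM, Z0, hZ0⟩ := exists_pow_eq hp hW0
  rw [add_sub_cancel] at hZ0
  obtain ⟨Z, -, hZ1, -⟩ := exists_seq p hZ0
  have key := det_eq_of_good (P := TauGood S p A B)
    (fun _ _ hgh hg => hg.of_isConj hgh) hp hS hZ1 (fun c hc r =>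
    hc k β β' M Z hM hnil' (fun r => by rw [pow_mul, hZ1]) r)
    σ hgood (1 : Γ →* Matrix Unit Unit S) (fun _ _ => rfl)
  rw [map_pow, map_pow, Matrix.det_pow, Matrix.det_pow, Fintype.card_unit, pow_one,
    Fintype.card_fin] at key
  have hUσ : (evalMat S σ X).det =
      (mapRep (tens β' σ) B).det * (mapRep (tens β σ) A).det := by
    rw [hX, map_mul, Matrix.det_mul, evalMat_twist, evalMat_twist]
    rfl
  have hU1 : (evalMat S (1 : Γ →* Matrix Unit Unit S) X).det =
      (mapRep β' B).det * (mapRep β A).det := by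
    rw [hX, map_mul, Matrix.det_mul, evalMat_twist, evalMat_twist, det_tens_one, det_tens_one]
    rfl
  rw [hUσ, hU1] at key
  set a := (mapRep (tens β σ) A).det with ha
  set a' := (mapRep (tens β' σ) A).det with ha'
  set u := (mapRep β A).det with hu
  set u' := (mapRep β' A).det with hu'
  have h1 : a' * (mapRep (tens β' σ) B).det = 1 := hinv _
  have h2 : u' * (mapRep β' B).det = 1 := by
    rw [hu', ← Matrix.det_mul, ← mapRep_mul, hAB, mapRep_one, Matrix.det_one]
  set b' := (mapRep (tens β' σ) B).det with hb'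
  set v' := (mapRep β' B).det with hv'
  refine ⟨M, hM, ?_⟩
  have key' : (b' * a) ^ M = ((v' * u) ^ l) ^ M := by
    rw [← pow_mul, mul_comm l M, pow_mul]
    exact key
  calc (a * u' ^ l) ^ M
      = (a' * b') ^ M * (a * u' ^ l) ^ M := by rw [h1, one_pow, one_mul]
    _ = a' ^ M * (b' * a) ^ M * (u' ^ l) ^ M := by
        simp only [mul_pow]; ring
    _ = a' ^ M * ((v' * u) ^ l) ^ M * (u' ^ l) ^ M := by rw [key']
    _ = (a' * u ^ l) ^ M * ((u' * v') ^ l) ^ M := by
        simp only [mul_pow]; ring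
    _ = _ := by rw [h2, one_pow, one_pow, mul_one]

end Pool.Agent.Lib.MP_8f66f0_al_Uni
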