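import Mathlib
import Pool.Agent.Lib.MP_8f66f0_al_Dennis.Linear
import Pool.Agent.Lib.MP_8f66f0_al_Dennis.Roots
import Pool.Agent.Lib.MP_8f66f0_al_FinQ.Detect
import Pool.Agent.Lib.MP_8f66f0_al_Plus.PropT
import Pool.Agent.Lib.MP_8f66f0_al_Uni.Arith
import Pool.Agent.Lib.MP_8f66f0_al_Uni.ConjDvd
import Pool.Agent.Lib.MP_8f66f0_al_Uni.DetGood
import Pool.Agent.Lib.MP_8f66f0_al_Uni.GalEmb
import Pool.Agent.Lib.MP_8f66f0_al_Uni.LinData
import Pool.Agent.Lib.MP_8f66f0_al_Uni.MultGood
import Pool.Agent.Lib.MP_8f66f0_al_Uni.Rings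

/-! The multiplicativity property for groups all of whose classes have infinite order in some
representation over a domain in which `p` is not a unit. -/

set_option autoImplicit false
set_option linter.unusedSectionVars false
set_option maxSynthPendingDepth 3

namespace Pool.Agent.Lib.MP_8f66f0_al_Uni

open Pool.Agent.Lib.MP_8f66f0_al_Dennis hiding lin mtr mtr_apply
open Pool.Agent.Lib.MP_8f66f0_al_FinQ Pool.Agent.Lib.MP_8f66f0_al_Plus NumberField

/-- Goodness over an overring in which `p` is not a unit implies goodness over the ring of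
integers of a Galois number field. -/
theorem TauGood.descend {Γ : Type*} [Group Γ] {n : ℕ} {F : Type*} [Field F] [NumberField F]
    [IsGalois ℚ F] {S : Type*} [CommRing S] [IsDomain S] {p : ℕ} (hp : p.Prime)
    (hpS : ¬ IsUnit (p : S)) (i : 𝓞 F →+* S) (hi : Function.Injective i)
    {A B : Matrix (Fin n) (Fin n) (MonoidAlgebra ℤ Γ)} {c : Γ} (h : TauGood S p A B c) :
    TauGood (𝓞 F) p A B c := by
  intro k β β' M Z hM hnil hZ r
  apply dvd_of_forall_conj hp hpS i hi
  intro j
  have h1 := h k (chg (i.comp j) β) (chg (i.comp j) β') M (fun r => chgM (i.comp j) (Z r)) hM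
    (by
      rw [twist_chg, twist_chg, ← map_mul, ← map_one (chgM (i.comp j)), ← map_sub]
      exact nilMod_chg _ hnil)
    (by
      intro r
      rw [twist_chg, twist_chg, ← map_mul, ← map_pow, hZ, map_add, map_one, map_nsmul]) r
  rwa [mtr_ind_chg] at h1

/-- Classes of infinite order in some representation are good. -/
theorem tauGood_of_rep {Γ : Type*} [Group Γ] [Group.FG Γ] (hsep : PowerSep Γ) {p : ℕ}
    (hp : p.Prime) {R : Type*} [CommRing R] [IsDomain R] [CharZero R] (hpR : ¬ IsUnit (p : R))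
    {m : ℕ} (ρ : Γ →* Matrix.GeneralLinearGroup (Fin m) R) {c : Γ}
    (hc : ∀ n : ℕ, 0 < n → ρ c ^ n ≠ 1) {n : ℕ}
    {A B : Matrix (Fin n) (Fin n) (MonoidAlgebra ℤ Γ)} (hAB : A * B = 1) (hBA : B * A = 1)
    (F : Type*) [Field F] [NumberField F] [IsGalois ℚ F] : TauGood (𝓞 F) p A B c := by
  classical
  -- the image
  set N := ρ.range with hNdef
  set φ : Γ →* N := ρ.rangeRestrict with hφ
  have hFG : Group.FG N := Group.fg_range ρ
  obtain ⟨R', ρ', hft, hinj, hpR'⟩ := exists_fg_domain hpR N.subtype (Subgroup.subtype_injective N)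
  have hnoeth : IsNoetherianRing R' := Algebra.FiniteType.isNoetherianRing ℤ R'
  have hchar : CharZero R' := inferInstance
  set c' : N := φ c with hc'
  have hc1 : ∀ n : ℕ, 0 < n → c' ^ n ≠ 1 := by
    intro n hn h
    apply hc n hn
    have := congrArg Subtype.val h
    rwa [Subgroup.coe_pow, Subgroup.coe_one] at this
  have hcinf : ∀ n : ℕ, 0 < n → c ^ n ≠ 1 := by
    intro n hn h
    apply hc n hn
    rw [← map_pow, h, map_one]
  have hcne : c ≠ 1 := by
    rintro rfl
    exact hc 1 one_pos (by rw [map_one, one_pow])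
  set K := FractionRing R'
  set Ω := AlgebraicClosure K
  have hinjΩ : Function.Injective (algebraMap R' Ω) := by
    rw [IsScalarTower.algebraMap_eq R' K Ω]
    exact (algebraMap K Ω).injective.comp (IsFractionRing.injective R' K)
  set σ : Γ →* Matrix.GeneralLinearGroup (Fin m) Ω :=
    ((Matrix.GeneralLinearGroup.map (algebraMap R' Ω)).comp ρ').comp φ with hσ
  by_cases heig : ∃ μ, (σ c : Matrix (Fin m) (Fin m) Ω).charpoly.IsRoot μ ∧
      ∀ N : ℕ, 0 < N → μ ^ N ≠ 1
  · obtain ⟨μ, hμ, hμ'⟩ := heig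
    obtain ⟨lam, hlam⟩ := exists_lam_of_not_root σ c hμ hμ'
    exact tauGood_of_detected' hsep hAB hBA hp (detected_of_hom lam hlam)
  push Not at heig
  obtain ⟨M, hM, hM1⟩ := exists_pow_unipotent (σ c : Matrix (Fin m) (Fin m) Ω) heig
  have hu : ((ρ' (c' ^ M) : Matrix (Fin m) (Fin m) R') - 1) ^ m = 0 := by
    have h1 : (σ c : Matrix (Fin m) (Fin m) Ω) =
        (algebraMap R' Ω).mapMatrix (ρ' c' : Matrix (Fin m) (Fin m) R') := rfl
    rw [h1, ← map_pow, ← map_one (algebraMap R' Ω).mapMatrix, ← map_sub, ← map_pow] at hM1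
    rw [map_pow, Units.val_pow_eq_pow_val]
    ext i j
    have h2 := congrFun (congrFun hM1 i) j
    rw [RingHom.mapMatrix_apply, Matrix.map_apply, Matrix.zero_apply] at h2
    have h3 := hinjΩ (h2.trans (map_zero _).symm)
    rw [h3]
    rfl
  have hne : (ρ' (c' ^ M) : Matrix (Fin m) (Fin m) R') ≠ 1 := by
    intro h
    apply hc1 M hM
    apply hinj
    rw [map_one]
    exact Units.ext h
  have hU : HasUData R' K c' := hasUData_of_quasiunipotent ρ' hM hu hne
  obtain ⟨J, a, D, ha, hD, hfam⟩ := exists_poly_family hU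
  -- unique roots in the image
  have hroots : ∃ N₀ : ℕ, ∀ l : ℕ, l.Prime → N₀ < l → ∀ x y : N, x ^ l = y ^ l → x = y := by
    have : Fact p.Prime := ⟨hp⟩
    obtain ⟨I, hI, hpI⟩ := exists_max_ideal_of_mem_nonunits (hpR' : (p : R') ∈ nonunits R')
    have hftI : Algebra.FiniteType ℤ (R' ⧸ I) :=
      Algebra.FiniteType.of_surjective (Ideal.Quotient.mkₐ ℤ I) (Ideal.Quotient.mkₐ_surjective ℤ I)
    let _ : Field (R' ⧸ I) := Ideal.Quotient.field I
    have hft1 : @Algebra.FiniteType ℤ (R' ⧸ I) _ _ (Ring.toIntAlgebra _) := by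
      convert! hftI
    obtain ⟨hfin, _⟩ := finite_field_of_finiteType (R' ⧸ I)
    exact (virtuallyResiduallyFiniteQ_of_linear ρ' hinj hp I hI.ne_top hpI).roots
  -- pull back of the cocycles
  have hcomm : ∀ g, pr N (FreeGroup.map φ g) = φ (pr Γ g) := by
    intro g
    have h1 : (pr N).comp (FreeGroup.map φ) = φ.comp (pr Γ) := by
      refine FreeGroup.ext_hom _ _ fun a => ?_
      rw [MonoidHom.comp_apply, MonoidHom.comp_apply, FreeGroup.map.of, pr_of, pr_of]
    exact DFunLike.congr_fun h1 g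
  have hpull : ∀ k : ℕ, 0 < k → (∀ g : N, Commute g (c' ^ k) → Commute g c') →
      ∃ δ : FreeGroup Γ → FreeGroup Γ → R', IsPoly (pr Γ) (c ^ k) J δ ((k : R') ^ a * D) := by
    intro k hk hcent
    obtain ⟨δ, hδ⟩ := hfam k hk hcent
    rw [hc', ← map_pow] at hδ
    exact ⟨_, hδ.pullback (FreeGroup.map φ) φ hcomm⟩
  obtain ⟨δ, hδ⟩ := hpull 1 one_pos (by intro g hg; rwa [pow_one] at hg)
  rw [pow_one, Nat.cast_one, one_pow, one_mul] at hδ
  have hpair : ∀ A' B' : Matrix (Fin n) (Fin n) (MonoidAlgebra ℤ (FreeGroup Γ)),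
      EntIn ((kerI ℤ (pr Γ)) ^ (J + 1)) (A' * B' - 1) →
      EntIn ((kerI ℤ (pr Γ)) ^ (J + 1)) (B' * A' - 1) →
      mbil (bil (psiW (pr Γ) c δ)) (baseMat R' A') (baseMat R' B') = 0 := by
    intro A' B' hAB' hBA'
    refine pairing_zero (fun x hx => exists_not_dvd x hx) hsep hcinf ?_ ha hD ?_ hAB' hBA' hδ
    · obtain ⟨N₀, hN₀⟩ := exists_not_pow ρ' hM hu hne
      refine ⟨N₀, fun l hl hlt x hx => hN₀ l hl hlt (φ x) ?_⟩
      rw [← map_pow, hx]
    · obtain ⟨N₀, hN₀⟩ := hroots
      refine ⟨N₀, fun l hl hlt => hpull l hl.pos fun g hg => ?_⟩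
      have h1 : (g * c' * g⁻¹) ^ l = c' ^ l := by
        rw [conj_pow, hg.eq, mul_inv_cancel_right]
      have h2 := hN₀ l hl hlt _ _ h1
      exact mul_inv_eq_iff_eq_mul.mp h2
  -- the common ring
  obtain ⟨S, i, hSn, hi, hpS⟩ := exists_common_ring hp hpR' (𝓞 F)
  have hinjS : Function.Injective (algebraMap R' S) := by
    intro x y hxy
    apply hinjΩ
    have := congrArg (algebraMap S Ω) hxy
    rwa [← IsScalarTower.algebraMap_apply, ← IsScalarTower.algebraMap_apply] at this
  have hSchar : CharZero S := charZero_of_injective_algebraMap hinjS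
  have hgood : TauGood S p A B c := by
    refine tauGood_of_poly hAB hBA hp (pr_surjective Γ) hcne
      (D := algebraMap R' S D) ?_ (IsPoly.map (algebraMap R' S) hδ) ?_
    · intro h
      exact hD (hinjS (h.trans (map_zero _).symm))
    · intro A' B' hAB' hBA'
      rw [mbil_chg, hpair A' B' hAB' hBA', map_zero]
  exact hgood.descend hp hpS i hi

/-- The main theorem of this directory. -/
theorem mult_of_pdet.{v, u} {Γ : Type u} [Group Γ] [Group.FG Γ] (hsep : PowerSep Γ) {n : ℕ}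
    {A B : Matrix (Fin n) (Fin n) (MonoidAlgebra ℤ Γ)} (hAB : A * B = 1) (hBA : B * A = 1)
    {O : Type} [CommRing O] [IsDomain O] [CharZero O] [Module.Finite ℤ O] {p : ℕ} (hp : p.Prime)
    {κ κ' : Type*} [Fintype κ] [DecidableEq κ] [Fintype κ'] [DecidableEq κ']
    (β β' : Γ →* Matrix κ κ O) (σ : Γ →* Matrix κ' κ' O)
    (hσ : ∀ c : Γ, ¬ PDet.{v} p c → σ c = 1)
    (hnil : NilMod p (twist β' B * twist β A - 1)) :
    ∃ N : ℕ, 0 < N ∧
      ((mapRep (tens β σ) A).det * (mapRep β' A).det ^ Fintype.card κ') ^ N =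
        ((mapRep (tens β' σ) A).det * (mapRep β A).det ^ Fintype.card κ') ^ N := by
  obtain ⟨F, _, _, _, j, hj⟩ := exists_galois_embedding O
  have hgood : ∀ c : Γ, PDet.{v} p c → TauGood (𝓞 F) p A B c := by
    intro c hc
    rcases hc with h | ⟨R, _, _, _, m, ρ, hpR, hord⟩
    · exact tauGood_of_detected' hsep hAB hBA hp h
    · exact tauGood_of_rep hsep hp hpR ρ hord hAB hBA F
  set e := Fintype.equivFin κ
  set e' := Fintype.equivFin κ'
  have hσ' : ∀ c : Γ, ¬ TauGood (𝓞 F) p A B c → chg j (reRep e' σ) c = 1 := by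
    intro c hc
    have h1 : σ c = 1 := hσ c fun h => hc (hgood c h)
    have h2 : reRep e' σ c = 1 := by
      change Matrix.reindexAlgEquiv O O e' (σ c) = 1
      rw [h1, map_one]
    change j.mapMatrix (reRep e' σ c) = 1
    rw [h2, map_one]
  obtain ⟨N, hN, h⟩ := mult_of_tauGood hAB hBA hp (psep_of_finite hp) (Fintype.card κ)
    (Fintype.card κ') (chg j (reRep e β)) (chg j (reRep e β')) (chg j (reRep e' σ)) hσ' (by
      rw [twist_chg, twist_chg, ← map_mul, ← map_one (chgM j), ← map_sub]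
      apply nilMod_chg
      obtain ⟨m, W0, hW0⟩ := hnil
      refine ⟨m, Matrix.reindexAlgEquiv ℤ (MonoidAlgebra O Γ)
        (Equiv.prodCongr (Equiv.refl (Fin n)) e) W0, ?_⟩
      rw [twist_reRep, twist_reRep, ← map_mul, ← map_one (Matrix.reindexAlgEquiv ℤ
        (MonoidAlgebra O Γ) (Equiv.prodCongr (Equiv.refl (Fin n)) e)), ← map_sub, ← map_pow, hW0,
        map_nsmul])
  refine ⟨N, hN, hj ?_⟩
  rw [tens_chg, tens_chg, det_mapRep_chg, det_mapRep_chg, det_mapRep_chg, det_mapRep_chg,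
    tens_reRep, tens_reRep, det_reRep, det_reRep, det_reRep, det_reRep] at h
  rw [map_pow, map_mul, map_pow, map_pow, map_mul, map_pow]
  exact h

/-- The case that all nontrivial classes are detected or of infinite order in a suitable
representation. -/
theorem propT_of_pdet.{v, u} {Γ : Type u} [Group Γ] [Group.FG Γ] (hsep : PowerSep Γ)
    {p : ℕ} (hp : p.Prime) (hdet : ∀ c : Γ, c ≠ 1 → PDet.{v} p c) {n : ℕ}
    {A B : Matrix (Fin n) (Fin n) (MonoidAlgebra ℤ Γ)} (hAB : A * B = 1) (hBA : B * A = 1) :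
    PropT p A B := by
  intro O _ _ _ _ k l β β' σ _ _ _ hnil
  have h := mult_of_pdet.{v} hsep hAB hBA hp β β' σ (by
    intro c hc
    by_cases h1 : c = 1
    · rw [h1, map_one]
    · exact absurd (hdet c h1) hc) hnil
  simpa only [Fintype.card_fin] using h

end Pool.Agent.Lib.MP_8f66f0_al_Uni
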